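import Mathlib

/-!
Basic definitions and small tools for the dense orbit theorem.
-/

set_option autoImplicit false

open Polynomial
open scoped NNReal

namespace Pool.Agent.P.MP_38c95b_ag

/-- Evaluation of a polynomial in the variables `Y` and `T` at `(y, r)`. -/
noncomputable def ev2 {K R σ : Type} [CommRing K] [CommRing R] [Algebra K R]
    (y : σ → R) (r : R) : (MvPolynomial σ K)[X] →+* R :=
  Polynomial.eval₂RingHom (MvPolynomial.aeval y : MvPolynomial σ K →ₐ[K] R).toRingHom r

/-- The polynomial self map of affine space given by `f`. -/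
noncomputable def dyn {A Ω : Type} [CommRing A] [CommRing Ω] [Algebra A Ω] {n : ℕ}
    (f : Fin n → MvPolynomial (Fin n) A) (x : Fin n → Ω) : Fin n → Ω :=
  fun i => MvPolynomial.aeval x (f i)

/-- The blow up coordinates `Y 0 = t`, `Y (i+1) = t * W i` inside power series in `t`. -/
noncomputable def yhat (A : Type) [CommRing A] (d : ℕ) :
    Fin (d + 1) → PowerSeries (MvPolynomial (Fin d) A) :=
  Fin.cons PowerSeries.X (fun i => PowerSeries.X * PowerSeries.C (MvPolynomial.X i))

/-- All coefficients have valuation at most one. -/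
def Int1 {Ω σ : Type} [Field Ω] (v : Valuation Ω ℝ≥0) (q : MvPolynomial σ Ω) : Prop :=
  ∀ m, v (q.coeff m) ≤ 1

/-- All coefficients have valuation at most one. -/
def Int2 {Ω σ : Type} [Field Ω] (v : Valuation Ω ℝ≥0) (G : (MvPolynomial σ Ω)[X]) : Prop :=
  ∀ i, Int1 v (G.coeff i)

/-- The span of the products `q(y) * w` with `w` in `ω` and `q` of total degree at most `n`. -/
noncomputable def Gen (K : Type) {R σ : Type} [CommRing K] [CommRing R] [Algebra K R]
    (y : σ → R) (ω : Finset R) (n : ℕ) : Submodule K R :=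
  Submodule.span K
    {φ | ∃ q : MvPolynomial σ K, ∃ w ∈ ω, q.totalDegree ≤ n ∧ φ = MvPolynomial.aeval y q * w}

section ev2

variable {K R σ : Type} [CommRing K] [CommRing R] [Algebra K R]

@[simp] theorem ev2_C (y : σ → R) (r : R) (q : MvPolynomial σ K) :
    ev2 y r (Polynomial.C q) = MvPolynomial.aeval y q := by
  simp [ev2]

@[simp] theorem ev2_X (y : σ → R) (r : R) : ev2 (K := K) y r Polynomial.X = r := by
  simp [ev2]

theorem ev2_eq_eval_map (y : σ → R) (r : R) (G : (MvPolynomial σ K)[X]) :
    ev2 y r G =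
      (G.map (MvPolynomial.aeval y : MvPolynomial σ K →ₐ[K] R).toRingHom).eval r := by
  simp [ev2, Polynomial.eval_map]

theorem ev2_eq_sum (y : σ → R) (r : R) (G : (MvPolynomial σ K)[X]) :
    ev2 y r G =
      ∑ i ∈ Finset.range (G.natDegree + 1), MvPolynomial.aeval y (G.coeff i) * r ^ i := by
  simp [ev2, Polynomial.eval₂_eq_sum_range]

theorem map_ev2 {S : Type} [CommRing S] [Algebra K S] (ψ : R →ₐ[K] S) (y : σ → R) (r : R)
    (G : (MvPolynomial σ K)[X]) :
    ψ (ev2 y r G) = ev2 (fun l => ψ (y l)) (ψ r) G := by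
  induction G using Polynomial.induction_on' with
  | add p q hp hq => simp [hp, hq]
  | monomial n a =>
    rw [← Polynomial.C_mul_X_pow_eq_monomial]
    simp [MvPolynomial.comp_aeval_apply]

/-- Compatibility of `ev2` with a ring map on the base and a compatible ring map on the target. -/
theorem ringHom_ev2 {K' S : Type} [CommRing K'] [CommRing S] [Algebra K' S] (e : K →+* K')
    (ψ : R →+* S) (h : ∀ a, ψ (algebraMap K R a) = algebraMap K' S (e a)) (y : σ → R) (r : R)
    (G : (MvPolynomial σ K)[X]) :
    ψ (ev2 y r G) = ev2 (fun l => ψ (y l)) (ψ r) (G.map (MvPolynomial.map e)) := by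
  have key : ∀ q : MvPolynomial σ K, ψ (MvPolynomial.aeval y q) =
      MvPolynomial.aeval (fun l => ψ (y l)) (MvPolynomial.map e q) := by
    intro q
    induction q using MvPolynomial.induction_on with
    | C a => simp [h]
    | add p q hp hq => simp [hp, hq]
    | mul_X p i hp => simp [hp]
  induction G using Polynomial.induction_on' with
  | add p q hp hq => simp [hp, hq]
  | monomial n a =>
    rw [← Polynomial.C_mul_X_pow_eq_monomial]
    simp [key]

theorem ringHom_aeval {K' S : Type} [CommRing K'] [CommRing S] [Algebra K' S] (e : K →+* K')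
    (ψ : R →+* S) (h : ∀ a, ψ (algebraMap K R a) = algebraMap K' S (e a)) (y : σ → R)
    (q : MvPolynomial σ K) :
    ψ (MvPolynomial.aeval y q) =
      MvPolynomial.aeval (fun l => ψ (y l)) (MvPolynomial.map e q) := by
  have := ringHom_ev2 e ψ h y 0 (Polynomial.C q)
  simpa using this

theorem ev2_map_algebraMap {K' : Type} [CommRing K'] [Algebra K K'] [Algebra K' R]
    [IsScalarTower K K' R] (y : σ → R) (r : R) (G : (MvPolynomial σ K)[X]) :
    ev2 y r (G.map (MvPolynomial.map (algebraMap K K'))) = ev2 y r G := by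
  have := ringHom_ev2 (algebraMap K K') (RingHom.id R)
    (fun a => IsScalarTower.algebraMap_apply K K' R a) y r G
  simpa using this.symm

end ev2

section dyn

variable {A Ω : Type} [CommRing A] [CommRing Ω] [Algebra A Ω] {n : ℕ}

theorem aeval_dyn (f : Fin n → MvPolynomial (Fin n) A) (x : Fin n → Ω)
    (q : MvPolynomial (Fin n) A) :
    MvPolynomial.aeval x (MvPolynomial.aeval f q) = MvPolynomial.aeval (dyn f x) q := by
  rw [MvPolynomial.comp_aeval_apply]
  rfl

theorem aeval_dyn_iterate (f : Fin n → MvPolynomial (Fin n) A) (m : ℕ) (x : Fin n → Ω)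
    (q : MvPolynomial (Fin n) A) :
    MvPolynomial.aeval x
        (((MvPolynomial.aeval f : MvPolynomial (Fin n) A →ₐ[A] MvPolynomial (Fin n) A) ^ m) q) =
      MvPolynomial.aeval ((dyn f)^[m] x) q := by
  induction m generalizing x q with
  | zero => simp
  | succ m ih =>
    rw [pow_succ', AlgHom.mul_apply, aeval_dyn, ih, Function.iterate_succ_apply]

end dyn

section gen

variable {K R σ : Type} [CommRing K] [CommRing R] [Algebra K R]

theorem Gen_mono (y : σ → R) (ω : Finset R) {m n : ℕ} (h : m ≤ n) :
    Gen K y ω m ≤ Gen K y ω n := by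
  apply Submodule.span_mono
  rintro φ ⟨q, w, hw, hq, rfl⟩
  exact ⟨q, w, hw, hq.trans h, rfl⟩

theorem aeval_mul_mem_Gen (y : σ → R) (ω : Finset R) {n : ℕ} (q : MvPolynomial σ K) {φ : R}
    (hφ : φ ∈ Gen K y ω n) :
    MvPolynomial.aeval y q * φ ∈ Gen K y ω (n + q.totalDegree) := by
  induction hφ using Submodule.span_induction with
  | mem φ h =>
    obtain ⟨q', w, hw, hq', rfl⟩ := h
    refine Submodule.subset_span ⟨q * q', w, hw, ?_, by simp [mul_assoc]⟩
    have := MvPolynomial.totalDegree_mul q q'
    omega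
  | zero => simp
  | add a b _ _ ha hb => rw [mul_add]; exact add_mem ha hb
  | smul c a _ ha => rw [mul_smul_comm]; exact Submodule.smul_mem _ c ha

/-- If every element lies in some `Gen`, multiplication by a fixed element raises the level by a
bounded amount. -/
theorem exists_mul_mem_Gen (y : σ → R) (ω : Finset R) (h : ∀ φ : R, ∃ n, φ ∈ Gen K y ω n)
    (ψ : R) : ∃ κ, ∀ n φ, φ ∈ Gen K y ω n → ψ * φ ∈ Gen K y ω (n + κ) := by
  classical
  choose N hN using h
  refine ⟨ω.sup fun w => N (ψ * w), fun n φ hφ => ?_⟩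
  induction hφ using Submodule.span_induction with
  | mem φ h =>
    obtain ⟨q, w, hw, hq, rfl⟩ := h
    have h1 := aeval_mul_mem_Gen y ω q (hN (ψ * w))
    have h2 : N (ψ * w) ≤ ω.sup fun w => N (ψ * w) :=
      Finset.le_sup (f := fun w => N (ψ * w)) hw
    rw [mul_left_comm]
    exact Gen_mono y ω (by omega) h1
  | zero => simp
  | add a b _ _ ha hb => rw [mul_add]; exact add_mem ha hb
  | smul c a _ ha => rw [mul_smul_comm]; exact Submodule.smul_mem _ c ha

/-- A ring finite over `K[y]` has a finite set `ω` containing one whose levels exhaust it. -/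
theorem exists_Gen (y : σ → R)
    (hfin : (MvPolynomial.aeval y : MvPolynomial σ K →ₐ[K] R).Finite) :
    ∃ ω : Finset R, (1 : R) ∈ ω ∧ ∀ φ : R, ∃ n, φ ∈ Gen K y ω n := by
  classical
  let : Algebra (MvPolynomial σ K) R :=
    (MvPolynomial.aeval y : MvPolynomial σ K →ₐ[K] R).toRingHom.toAlgebra
  have hf : Module.Finite (MvPolynomial σ K) R := hfin
  obtain ⟨s, hs⟩ := hf.fg_top
  refine ⟨insert 1 s, Finset.mem_insert_self _ _, fun φ => ?_⟩
  have hφ : φ ∈ Submodule.span (MvPolynomial σ K) (s : Set R) := by rw [hs]; trivial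
  induction hφ using Submodule.span_induction with
  | mem w hw =>
    exact ⟨0, Submodule.subset_span ⟨1, w, Finset.mem_insert_of_mem hw, by simp, by simp⟩⟩
  | zero => exact ⟨0, zero_mem _⟩
  | add a b _ _ ha hb =>
    obtain ⟨m, hm⟩ := ha
    obtain ⟨n, hn⟩ := hb
    exact ⟨max m n, add_mem (Gen_mono y _ (le_max_left _ _) hm)
      (Gen_mono y _ (le_max_right _ _) hn)⟩
  | smul c a _ ha =>
    obtain ⟨m, hm⟩ := ha
    exact ⟨_, aeval_mul_mem_Gen y _ c hm⟩

/-- Box monomials generate everything over the twisted equations. -/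
theorem exists_box_span [Fintype σ] (y u : σ → R) (ω : Finset R)
    (h : ∀ φ : R, ∃ n, φ ∈ Gen K y ω n) :
    ∃ M₀ : ℕ, ∀ M, M₀ ≤ M → ∀ N : Submodule K R,
      (∀ (a : σ →₀ ℕ), ∀ w ∈ ω, (∀ l, a l < M) →
        MvPolynomial.aeval y (MvPolynomial.monomial a (1 : K)) * w ∈ N) →
      (∀ l, ∀ φ ∈ N, (y l ^ M - u l) * φ ∈ N) → N = ⊤ := by
  classical
  choose κ hκ using fun l => exists_mul_mem_Gen y ω h (u l)
  refine ⟨Finset.univ.sup κ + 1, fun M hM N hbox hz => ?_⟩
  have key : ∀ n, Gen K y ω n ≤ N := by
    intro n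
    induction n using Nat.strong_induction_on with
    | _ n ih =>
      refine Submodule.span_le.mpr ?_
      rintro φ ⟨q, w, hw, hq, rfl⟩
      rw [q.as_sum, map_sum, Finset.sum_mul]
      refine Submodule.sum_mem _ fun a ha => ?_
      have hdeg : a.sum (fun _ e => e) ≤ n := (MvPolynomial.le_totalDegree ha).trans hq
      have hsm : MvPolynomial.monomial a (MvPolynomial.coeff a q) =
          MvPolynomial.coeff a q • MvPolynomial.monomial a (1 : K) := by
        rw [MvPolynomial.smul_monomial, smul_eq_mul, mul_one]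
      rw [hsm, map_smul, smul_mul_assoc]
      refine Submodule.smul_mem _ _ ?_
      by_cases hall : ∀ l, a l < M
      · exact hbox a w hw hall
      · push Not at hall
        obtain ⟨l, hl⟩ := hall
        have hκl : κ l ≤ Finset.univ.sup κ := Finset.le_sup (Finset.mem_univ l)
        obtain ⟨a', rfl⟩ : ∃ a', a = a' + Finsupp.single l M :=
          ⟨a - Finsupp.single l M,
            (tsub_add_cancel_of_le (Finsupp.single_le_iff.mpr hl)).symm⟩
        rw [Finsupp.sum_add_index' (fun _ => rfl) (fun _ _ _ => rfl),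
          Finsupp.sum_single_index rfl] at hdeg
        have hm : MvPolynomial.aeval y (MvPolynomial.monomial a' (1 : K)) * w ∈
            Gen K y ω (a'.sum fun _ e => e) :=
          Submodule.subset_span ⟨_, w, hw, MvPolynomial.totalDegree_monomial_le _ _, rfl⟩
        have h1 := hz l _ (ih _ (by omega) hm)
        have h2 := ih _ (by omega) (hκ l _ _ hm)
        have : MvPolynomial.aeval y (MvPolynomial.monomial (a' + Finsupp.single l M) (1 : K)) * w
            = (y l ^ M - u l) * (MvPolynomial.aeval y (MvPolynomial.monomial a' (1 : K)) * w) +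
              u l * (MvPolynomial.aeval y (MvPolynomial.monomial a' (1 : K)) * w) := by
          rw [MvPolynomial.monomial_add_single, map_mul, map_pow, MvPolynomial.aeval_X]
          ring
        rw [this]
        exact add_mem h1 h2
  refine eq_top_iff.mpr fun φ _ => ?_
  obtain ⟨n, hn⟩ := h φ
  exact key n hn

end gen

/-- Extension of a field valued ring map along a map that becomes onto after multiplying by a
fixed denominator. -/
theorem exists_ext_of_denom {S B k : Type} [CommRing S] [CommRing B] [Field k] (ι : S →+* B)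
    (χ : S →+* k) (hker : ∀ s, ι s = 0 → χ s = 0) (e : S) (he : χ e ≠ 0)
    (hden : ∀ b, ∃ s, ι e * b = ι s) : ∃ ξ : B →+* k, ∀ s, ξ (ι s) = χ s := by
  choose G hG using hden
  have key : ∀ b s, ι e * b = ι s → χ (G b) = χ s := by
    intro b s hs
    have := hker (G b - s) (by rw [map_sub, ← hG, hs, sub_self])
    rwa [map_sub, sub_eq_zero] at this
  refine ⟨{ toFun := fun b => χ (G b) / χ e
            map_one' := ?_
            map_mul' := ?_
            map_zero' := ?_
            map_add' := ?_ }, ?_⟩
  · rw [key 1 e (by simp), div_self he]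
  · intro a b
    have h1 : χ (e * G (a * b)) = χ (G a * G b) := by
      have := hker (e * G (a * b) - G a * G b)
        (by rw [map_sub, map_mul, map_mul, ← hG, ← hG, ← hG]; ring)
      rwa [map_sub, sub_eq_zero] at this
    rw [map_mul, map_mul] at h1
    field_simp
    linear_combination h1
  · rw [key 0 0 (by simp)]; simp
  · intro a b
    rw [key (a + b) (G a + G b) (by rw [map_add, ← hG, ← hG]; ring), map_add, add_div]
  · intro s
    change χ (G (ι s)) / χ e = χ s
    rw [key (ι s) (e * s) (by simp), map_mul]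
    field_simp

/-- Points of a ring that is, up to one denominator, the hypersurface ring of `P`. -/
theorem exists_point_of_root {K R Ω σ : Type} [CommRing K] [CommRing R] [Algebra K R] [Field Ω]
    [Algebra K Ω] (y : σ → R) (r : R) (P ε : (MvPolynomial σ K)[X])
    (hker : ∀ G, ev2 y r G = 0 → P ∣ G)
    (hden : ∀ b, ∃ G : (MvPolynomial σ K)[X], ev2 y r ε * b = ev2 y r G)
    (y' : σ → Ω) (r' : Ω) (hP : ev2 y' r' P = 0) (hε : ev2 y' r' ε ≠ 0) :
    ∃ ξ : R →ₐ[K] Ω, ∀ G : (MvPolynomial σ K)[X], ξ (ev2 y r G) = ev2 y' r' G := by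
  obtain ⟨ξ, hξ⟩ := exists_ext_of_denom (ev2 (K := K) y r) (ev2 y' r')
    (fun G hG => by
      obtain ⟨H, rfl⟩ := hker G hG
      rw [map_mul, hP, zero_mul]) ε hε hden
  refine ⟨{ ξ with commutes' := fun a => ?_ }, hξ⟩
  have := hξ (Polynomial.C (MvPolynomial.C a))
  simpa using this

/-- Translation of the variables. -/
noncomputable def transl {K σ : Type} [CommRing K] (c : σ → K) :
    MvPolynomial σ K ≃ₐ[K] MvPolynomial σ K :=
  AlgEquiv.ofAlgHom (MvPolynomial.aeval fun l => MvPolynomial.X l + MvPolynomial.C (c l))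
    (MvPolynomial.aeval fun l => MvPolynomial.X l - MvPolynomial.C (c l))
    (by ext l : 1; simp) (by ext l : 1; simp)

theorem aeval_transl {K R σ : Type} [CommRing K] [CommRing R] [Algebra K R] (c : σ → K)
    (y : σ → R) (q : MvPolynomial σ K) :
    MvPolynomial.aeval y (transl c q) =
      MvPolynomial.aeval (fun l => y l + algebraMap K R (c l)) q := by
  change MvPolynomial.aeval y (MvPolynomial.aeval _ q) = _
  rw [MvPolynomial.comp_aeval_apply]
  simp

theorem ev2_map_transl {K R σ : Type} [CommRing K] [CommRing R] [Algebra K R] (c : σ → K)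
    (y : σ → R) (r : R) (G : (MvPolynomial σ K)[X]) :
    ev2 y r (G.map (transl c).toRingEquiv.toRingHom) =
      ev2 (fun l => y l + algebraMap K R (c l)) r G := by
  induction G using Polynomial.induction_on' with
  | add p q hp hq => rw [Polynomial.map_add, map_add, map_add, hp, hq]
  | monomial n a =>
    rw [← Polynomial.C_mul_X_pow_eq_monomial]
    simp [aeval_transl]

/-- A family over which the ring is finite and which has as many members as an algebraically
independent family is itself algebraically independent. -/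
theorem algInd_of_finite {K R σ : Type} [Field K] [CommRing R] [IsDomain R] [Algebra K R]
    [Finite σ] (y u : σ → R) (hy : AlgebraicIndependent K y)
    (hu : (MvPolynomial.aeval u : MvPolynomial σ K →ₐ[K] R).Finite) :
    AlgebraicIndependent K u := by
  have halg : Algebra.IsAlgebraic (Algebra.adjoin K (Set.range u)) R := by
    let : Algebra (MvPolynomial σ K) R :=
      (MvPolynomial.aeval u : MvPolynomial σ K →ₐ[K] R).toRingHom.toAlgebra
    have hf : Module.Finite (MvPolynomial σ K) R := hu
    constructor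
    intro b
    obtain ⟨G, hG, hb⟩ := (Algebra.IsIntegral.isIntegral (R := MvPolynomial σ K) b)
    let ψ : MvPolynomial σ K →+* Algebra.adjoin K (Set.range u) :=
      (MvPolynomial.aeval u : MvPolynomial σ K →ₐ[K] R).toRingHom.codRestrict
        (Algebra.adjoin K (Set.range u)) (fun q => by
          rw [Algebra.adjoin_range_eq_range_aeval]; exact ⟨q, rfl⟩)
    refine IsIntegral.isAlgebraic ⟨G.map ψ, hG.map ψ, ?_⟩
    rw [Polynomial.eval₂_map]
    exact hb
  exact (Algebra.IsAlgebraic.isTranscendenceBasis_of_le_trdeg_of_finite K u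
    hy.cardinalMk_le_trdeg).1

end Pool.Agent.P.MP_38c95b_ag
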