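import Pool.Agent.P.MP_38c95b_ag.BigB

/-!
The package `big`: descent to a number field and a point with many conjugates.
-/

set_option autoImplicit false

open Polynomial
open scoped NNReal

namespace Pool.Agent.P.MP_38c95b_ag
namespace BigP

/-- A property that holds for all subfields containing a suitable finite set. -/
def Ev (P : IntermediateField ℚ Qb → Prop) : Prop :=
  ∃ T : Finset Qb, ∀ K : IntermediateField ℚ Qb, (∀ a ∈ T, a ∈ K) → P K

theorem Ev.mono {P Q : IntermediateField ℚ Qb → Prop} (h : Ev P) (hPQ : ∀ K, P K → Q K) :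
    Ev Q := by
  obtain ⟨T, hT⟩ := h
  exact ⟨T, fun K hK => hPQ K (hT K hK)⟩

theorem Ev.and {P Q : IntermediateField ℚ Qb → Prop} (hP : Ev P) (hQ : Ev Q) :
    Ev fun K => P K ∧ Q K := by
  classical
  obtain ⟨S, hS⟩ := hP
  obtain ⟨T, hT⟩ := hQ
  exact ⟨S ∪ T, fun K hK => ⟨hS K fun a ha => hK a (Finset.mem_union_left _ ha),
    hT K fun a ha => hK a (Finset.mem_union_right _ ha)⟩⟩

theorem Ev.all {ι : Type} [Fintype ι] {P : ι → IntermediateField ℚ Qb → Prop}
    (h : ∀ i, Ev (P i)) : Ev fun K => ∀ i, P i K := by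
  classical
  choose T hT using h
  exact ⟨Finset.univ.biUnion T, fun K hK i => hT i K fun a ha =>
    hK a (Finset.mem_biUnion.mpr ⟨i, Finset.mem_univ i, ha⟩)⟩

theorem Ev.ex {P : IntermediateField ℚ Qb → Prop} (h : Ev P) :
    ∃ K : IntermediateField ℚ Qb, FiniteDimensional ℚ K ∧ P K := by
  obtain ⟨T, hT⟩ := h
  have := qb_alg
  refine ⟨IntermediateField.adjoin ℚ (T : Set Qb),
    IntermediateField.finiteDimensional_adjoin fun a _ =>
      (Algebra.IsAlgebraic.isAlgebraic a).isIntegral, hT _ fun a ha => ?_⟩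
  exact IntermediateField.subset_adjoin ℚ _ ha

theorem ev_elt (a : Qb) : Ev fun K => ∃ b : K, algebraMap K Qb b = a :=
  ⟨{a}, fun _ hK => ⟨⟨a, hK a (Finset.mem_singleton_self a)⟩, rfl⟩⟩

theorem ev_mv {σ : Type} (q : MvPolynomial σ Qb) :
    Ev fun K => ∃ q' : MvPolynomial σ K, MvPolynomial.map (algebraMap K Qb) q' = q := by
  induction q using MvPolynomial.induction_on with
  | C a =>
    refine (ev_elt a).mono fun K h => ?_
    obtain ⟨b, rfl⟩ := h
    exact ⟨MvPolynomial.C b, by simp⟩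
  | add p q hp hq =>
    refine (hp.and hq).mono fun K h => ?_
    obtain ⟨⟨p', rfl⟩, q', rfl⟩ := h
    exact ⟨p' + q', by simp⟩
  | mul_X p i hp =>
    refine hp.mono fun K h => ?_
    obtain ⟨p', rfl⟩ := h
    exact ⟨p' * MvPolynomial.X i, by simp⟩

theorem ev_poly {σ : Type} (G : (MvPolynomial σ Qb)[X]) :
    Ev fun K => ∃ G' : (MvPolynomial σ K)[X],
      G'.map (MvPolynomial.map (algebraMap K Qb)) = G := by
  induction G using Polynomial.induction_on' with
  | add p q hp hq =>
    refine (hp.and hq).mono fun K h => ?_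
    obtain ⟨⟨p', rfl⟩, q', rfl⟩ := h
    exact ⟨p' + q', by simp⟩
  | monomial k a =>
    refine (ev_mv a).mono fun K h => ?_
    obtain ⟨a', rfl⟩ := h
    exact ⟨Polynomial.monomial k a', by simp⟩

/-- The quotient by a prime ideal as an abstract domain with its universal property. -/
theorem exists_quot (K : Type) [Field K] (n : ℕ) (J : Ideal (MvPolynomial (Fin n) K))
    (hJ : J.IsPrime) :
    ∃ (R : Type) (_ : CommRing R) (_ : IsDomain R) (_ : Algebra K R)
      (mk : MvPolynomial (Fin n) K →ₐ[K] R), Function.Surjective mk ∧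
      (∀ h, mk h = 0 ↔ h ∈ J) ∧
      ∀ (S : Type) [CommRing S] [Algebra K S] (ψ : MvPolynomial (Fin n) K →ₐ[K] S),
        (∀ h ∈ J, ψ h = 0) → ∃ φ : R →ₐ[K] S, ∀ h, φ (mk h) = ψ h :=
  ⟨MvPolynomial (Fin n) K ⧸ J, inferInstance, inferInstance, inferInstance,
    Ideal.Quotient.mkₐ K J, Ideal.Quotient.mkₐ_surjective K J,
    fun _ => Ideal.Quotient.eq_zero_iff_mem,
    fun _ _ _ ψ hψ => ⟨Ideal.Quotient.liftₐ J ψ hψ, fun _ => rfl⟩⟩

end BigP

open BigP in
theorem big (hFin : S_Fin) (hRho : S_Rho) (hUnr : S_Unr) (hPrim : S_Prim) (hHilb : S_Hilb) :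
    S_Big := by
  classical
  intro n d f I y r P r₀ c m Pi geo q hq hhom hzero p v hp hv x₀ hx₀ hder η n₀ hη hn₀
  obtain ⟨S, hS⟩ : I.FG := IsNoetherian.noetherian I
  obtain ⟨K, hK, ⟨⟨⟨⟨hf, hy⟩, hm⟩, hPi⟩, hx⟩, hg⟩ :=
    ((((((Ev.all fun i => ev_mv (f i)).and (Ev.all fun l => ev_mv (y l))).and
      (Ev.all fun i => ev_poly (m i))).and (Ev.all fun i => ev_poly (Pi i))).and
      (Ev.all fun i => ev_elt (x₀ i))).and
      (Ev.all fun g : S => ev_mv (g : MvPolynomial (Fin n) Qb))).ex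
  choose fK hfK using hf
  choose yK hyK using hy
  choose mK hmK using hm
  choose PiK hPiK using hPi
  choose xK hxK using hx
  choose gK hgK using hg
  have hinjK : Function.Injective (algebraMap K Qb) := (algebraMap K Qb).injective
  let mp : MvPolynomial (Fin n) K →+* MvPolynomial (Fin n) Qb :=
    MvPolynomial.map (algebraMap K Qb)
  have hmpa : ∀ a, mp (algebraMap K (MvPolynomial (Fin n) K) a) =
      algebraMap Qb (MvPolynomial (Fin n) Qb) (algebraMap K Qb a) := by
    intro a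
    simp [mp]
  have hfK' : (fun i => mp (fK i)) = f := funext hfK
  have hyK' : (fun l => mp (yK l)) = y := funext hyK
  have hmpf : ∀ h : MvPolynomial (Fin n) K,
      mp (MvPolynomial.aeval fK h) = MvPolynomial.aeval f (mp h) := by
    intro h
    rw [ringHom_aeval (algebraMap K Qb) mp hmpa, hfK']
  have hevmp : ∀ (z : Fin n → Qb) (h : MvPolynomial (Fin n) K),
      MvPolynomial.aeval z (mp h) = MvPolynomial.aeval z h := fun z h =>
    MvPolynomial.aeval_map_algebraMap Qb z h
  have hdyn : ∀ z : Fin n → Qb, dyn fK z = dyn f z := by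
    intro z
    funext i
    simp only [dyn]
    rw [← hevmp, ← hfK']
  have hdyn' : (dyn fK : (Fin n → Qb) → Fin n → Qb) = dyn f := funext hdyn
  let J : Ideal (MvPolynomial (Fin n) K) := I.comap mp
  have hIp := geo.prime
  have hJp : J.IsPrime := Ideal.comap_isPrime mp I
  obtain ⟨R, _, _, _, mk, hmksurj, hmkJ, hlift⟩ := exists_quot K n J hJp
  have hmk0 : ∀ h, mk h = 0 ↔ mp h ∈ I := hmkJ
  let x : Fin n → R := fun i => mk (MvPolynomial.X i)
  let yR : Fin (d + 1) → R := fun l => mk (yK l)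
  have hax : (MvPolynomial.aeval x : MvPolynomial (Fin n) K →ₐ[K] R) = mk := by
    ext i
    simp [x]
  obtain ⟨φ, hφmk⟩ : ∃ φ : R →ₐ[K] R, ∀ h, φ (mk h) = mk (MvPolynomial.aeval fK h) :=
    hlift R (mk.comp (MvPolynomial.aeval fK)) (by
      intro h hh
      rw [AlgHom.comp_apply, hmk0, hmpf]
      exact geo.stable _ hh)
  obtain ⟨ξ₀, hξ₀⟩ : ∃ ξ₀ : R →ₐ[K] K, ∀ h, ξ₀ (mk h) = MvPolynomial.aeval xK h :=
    hlift K (MvPolynomial.aeval xK) (by
      intro h hh
      apply hinjK
      have h1 := hx₀ _ hh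
      rw [hevmp] at h1
      have h2 := MvPolynomial.comp_aeval_apply (R := K) xK (Algebra.ofId K Qb) h
      rw [map_zero, ← h1]
      have h3 : (fun i => (Algebra.ofId K Qb) (xK i)) = x₀ := funext hxK
      rw [h3] at h2
      exact h2)
  have hξ₀x : ∀ i, algebraMap K Qb (ξ₀ (x i)) = x₀ i := by
    intro i
    rw [← hxK i]
    simp only [x]
    rw [hξ₀, MvPolynomial.aeval_X]
  have hadj : Algebra.adjoin K (Set.range x) = ⊤ := by
    rw [Algebra.adjoin_range_eq_range_aeval, hax, AlgHom.range_eq_top]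
    exact hmksurj
  have hφ : ∀ i, φ (x i) = MvPolynomial.aeval x (fK i) := by
    intro i
    rw [hax]
    simp only [x]
    rw [hφmk, MvPolynomial.aeval_X]
  have hev : ∀ (w : Fin (d + 1) → MvPolynomial (Fin n) K) (i : Fin n)
      (G : (MvPolynomial (Fin (d + 1)) K)[X]),
      ev2 (fun l => mp (w l)) (MvPolynomial.X i) (G.map (MvPolynomial.map (algebraMap K Qb))) ∈ I →
        ev2 (fun l => mk (w l)) (x i) G = 0 := by
    intro w i G h
    simp only [x]
    rw [← map_ev2 mk, hmk0, ringHom_ev2 (algebraMap K Qb) mp hmpa]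
    simpa [mp] using h
  have hind : AlgebraicIndependent K yR := by
    rw [algebraicIndependent_iff]
    intro θ hθ
    have h1 : MvPolynomial.aeval yR θ = mk (MvPolynomial.aeval yK θ) := by
      rw [MvPolynomial.comp_aeval_apply]
    rw [h1, hmk0, ringHom_aeval (algebraMap K Qb) mp hmpa, hyK', ← ev2_C y r, geo.ker] at hθ
    have hdeg : 0 < P.natDegree := by
      rcases Nat.eq_zero_or_pos P.natDegree with h | h
      · exact absurd (geo.monic.natDegree_eq_zero.mp h ▸ isUnit_one) geo.primeP.not_isUnit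
      · exact h
    have h2 := Polynomial.eq_zero_of_dvd_of_natDegree_lt hθ (by simpa using hdeg)
    rw [Polynomial.C_eq_zero] at h2
    exact MvPolynomial.map_injective _ hinjK (by simpa using h2)
  have hpt : ∀ (ξ : R →ₐ[K] Qb) (j : ℕ) (h : MvPolynomial (Fin n) K),
      ξ ((φ ^ j) (mk h)) = MvPolynomial.aeval ((dyn f)^[j] fun i => ξ (x i)) h := by
    intro ξ j h
    rw [← hax, iter_apply x fK φ hφ, MvPolynomial.comp_aeval_apply, aeval_dyn_iterate, hdyn']
  obtain ⟨j, s, ξ, τ, r', hj, hclose, hs, hτ, hinj⟩ := core hFin hRho hUnr hPrim hHilb K R n d q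
    x yR fK φ mK PiK hadj hind hφ hq
    (fun i => MvPolynomial.IsHomogeneous.of_map hinjK (by rw [hfK]; exact hhom i))
    (fun z hz => hzero z fun i => by rw [← hfK i]; exact (hevmp z _).trans (hz i))
    (fun i => Polynomial.monic_of_injective (MvPolynomial.map_injective _ hinjK)
      (by rw [hmK]; exact geo.m_monic i))
    (fun i => hev yK i (mK i) (by rw [hyK', hmK]; exact geo.m_mem i))
    (fun i => by
      simp only [yR, hφmk]
      refine hev (fun l => MvPolynomial.aeval fK (yK l)) i (PiK i) ?_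
      simp only [hmpf]
      rw [hPiK]
      have : (fun l => MvPolynomial.aeval f (mp (yK l))) =
          fun l => MvPolynomial.aeval f (y l) := by rw [← hyK']
      rw [this]
      exact geo.Pi_mem i)
    p v hp hv ξ₀ (by
      intro j i h0
      apply hder j i
      let ξ₁ : R →ₐ[K] Qb := (Algebra.ofId K Qb).comp ξ₀
      have hξ₁ : (fun i => ξ₁ (x i)) = x₀ := funext hξ₀x
      have h1 := map_ev2 (ξ₁.comp (φ ^ j)) (fun l => φ (yR l)) (x i) (derivative (PiK i))
      have h2 : (ξ₁.comp (φ ^ j)) (ev2 (fun l => φ (yR l)) (x i) (derivative (PiK i))) = 0 := by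
        have := congrArg (algebraMap K Qb) h0
        rw [map_zero] at this
        exact this
      have h3 : (fun l => (ξ₁.comp (φ ^ j)) (φ (yR l))) =
          fun l => MvPolynomial.aeval (dyn f ((dyn f)^[j] x₀)) (y l) := by
        funext l
        simp only [yR]
        rw [AlgHom.comp_apply, hφmk, hpt, hξ₁, aeval_dyn, hdyn, ← hevmp, ← hyK']
      have h4 : (ξ₁.comp (φ ^ j)) (x i) = ((dyn f)^[j] x₀) i := by
        simp only [x]
        rw [AlgHom.comp_apply, hpt, hξ₁, MvPolynomial.aeval_X]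
      rw [h2, h3, h4] at h1
      rw [← hPiK, Polynomial.derivative_map, ev2_map_algebraMap]
      exact h1.symm)
    η n₀ hη hn₀
  obtain ⟨rK, rfl⟩ := hmksurj r'
  have hξmk : ∀ h, ξ (mk h) = MvPolynomial.aeval (fun i => ξ (x i)) h := by
    intro h
    simpa using hpt ξ 0 h
  have hN : ∀ i, ξ ((φ ^ (n₀ * j)) (x i)) = ((dyn f)^[n₀ * j] fun i => ξ (x i)) i := by
    intro i
    have := hpt ξ (n₀ * j) (MvPolynomial.X i)
    rwa [MvPolynomial.aeval_X] at this
  refine ⟨j, s, fun i => ξ (x i), fun t => (τ t).toRingEquiv, mp rK, hj, ?_, ?_, hs, ?_, ?_, ?_⟩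
  · rw [← hS, MvPolynomial.zeroLocus_span]
    intro g hg
    have h1 : mp (gK ⟨g, hg⟩) = g := hgK ⟨g, hg⟩
    have h2 : mk (gK ⟨g, hg⟩) = 0 := by
      rw [hmk0, h1, ← hS]
      exact Ideal.subset_span hg
    rw [← h1, hevmp, ← hξmk, h2, map_zero]
  · intro i
    rw [← hξ₀x i]
    exact hclose i
  · intro t i
    rw [← hfK i, MvPolynomial.map_map]
    congr 2
    ext a
    exact (τ t).commutes a
  · intro t i
    rw [← hN i]
    exact hτ t i
  · have : (fun t => MvPolynomial.aeval (fun i => (τ t).toRingEquiv (ξ (x i))) (mp rK)) =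
        fun t => τ t (ξ (mk rK)) := by
      funext t
      rw [hevmp, hξmk]
      exact (MvPolynomial.comp_aeval_apply (R := K) (fun i => ξ (x i))
        ((τ t : Qb ≃ₐ[K] Qb) : Qb →ₐ[K] Qb) rK).symm
    rw [this]
    exact hinj

end Pool.Agent.P.MP_38c95b_ag
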