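import Pool.Agent.P.MP_38c95b_ag.Stmts

/-!
Auxiliary lemmas for the package `big`: continuity, conjugates, finiteness.
-/

set_option autoImplicit false

open Polynomial
open scoped NNReal

namespace Pool.Agent.P.MP_38c95b_ag
namespace BigP

/-- Lipschitz continuity of a polynomial at a point with respect to a valuation. -/
def Lip {K Ω σ : Type} [CommRing K] [Field Ω] [Algebra K Ω] (v : Valuation Ω ℝ≥0)
    (y₀ : σ → Ω) (r₀ : Ω) (G : (MvPolynomial σ K)[X]) : Prop :=
  ∃ B : ℝ≥0, ∀ η : ℝ≥0, η ≤ 1 → ∀ (y : σ → Ω) (s : Ω), (∀ l, v (y l - y₀ l) ≤ η) →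
    v (s - r₀) ≤ η → v (ev2 y s G - ev2 y₀ r₀ G) ≤ B * η

section lip

variable {K Ω σ : Type} [CommRing K] [Field Ω] [Algebra K Ω] (v : Valuation Ω ℝ≥0)
  (y₀ : σ → Ω) (r₀ : Ω)

theorem Lip.add {G H : (MvPolynomial σ K)[X]} (hG : Lip v y₀ r₀ G) (hH : Lip v y₀ r₀ H) :
    Lip v y₀ r₀ (G + H) := by
  obtain ⟨B, hB⟩ := hG
  obtain ⟨C, hC⟩ := hH
  refine ⟨B + C, fun η hη y s hy hs => ?_⟩
  have h1 := hB η hη y s hy hs
  have h2 := hC η hη y s hy hs
  have : ev2 y s (G + H) - ev2 y₀ r₀ (G + H) =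
      (ev2 y s G - ev2 y₀ r₀ G) + (ev2 y s H - ev2 y₀ r₀ H) := by
    rw [map_add, map_add]; ring
  rw [this]
  refine v.map_add_le (h1.trans ?_) (h2.trans ?_)
  · gcongr; exact le_self_add
  · gcongr; exact le_add_self

theorem Lip.mul {G H : (MvPolynomial σ K)[X]} (hG : Lip v y₀ r₀ G) (hH : Lip v y₀ r₀ H) :
    Lip v y₀ r₀ (G * H) := by
  obtain ⟨B, hB⟩ := hG
  obtain ⟨C, hC⟩ := hH
  refine ⟨(v (ev2 y₀ r₀ G) + B) * C + B * v (ev2 y₀ r₀ H), fun η hη y s hy hs => ?_⟩
  have h1 := hB η hη y s hy hs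
  have h2 := hC η hη y s hy hs
  have h3 : v (ev2 y s G) ≤ v (ev2 y₀ r₀ G) + B := by
    have : ev2 y s G = ev2 y₀ r₀ G + (ev2 y s G - ev2 y₀ r₀ G) := by ring
    rw [this]
    refine v.map_add_le le_self_add (h1.trans ?_)
    calc B * η ≤ B * 1 := by gcongr
      _ = B := mul_one B
      _ ≤ _ := le_add_self
  have : ev2 y s (G * H) - ev2 y₀ r₀ (G * H) =
      ev2 y s G * (ev2 y s H - ev2 y₀ r₀ H) + (ev2 y s G - ev2 y₀ r₀ G) * ev2 y₀ r₀ H := by
    rw [map_mul, map_mul]; ring
  rw [this]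
  refine v.map_add_le ?_ ?_
  · rw [map_mul]
    calc v (ev2 y s G) * v (ev2 y s H - ev2 y₀ r₀ H)
        ≤ (v (ev2 y₀ r₀ G) + B) * (C * η) := by gcongr
      _ = ((v (ev2 y₀ r₀ G) + B) * C) * η := by ring
      _ ≤ _ := by gcongr; exact le_self_add
  · rw [map_mul]
    calc v (ev2 y s G - ev2 y₀ r₀ G) * v (ev2 y₀ r₀ H)
        ≤ (B * η) * v (ev2 y₀ r₀ H) := by gcongr
      _ = (B * v (ev2 y₀ r₀ H)) * η := by ring
      _ ≤ _ := by gcongr; exact le_add_self

theorem lip_C (q : MvPolynomial σ K) : Lip v y₀ r₀ (Polynomial.C q) := by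
  induction q using MvPolynomial.induction_on with
  | C a => exact ⟨0, fun η _ y s _ _ => by simp⟩
  | add p q hp hq => rw [map_add]; exact hp.add v y₀ r₀ hq
  | mul_X p i hp =>
    rw [map_mul]
    exact hp.mul v y₀ r₀ ⟨1, fun η _ y s hy _ => by simpa using hy i⟩

theorem lip_all (G : (MvPolynomial σ K)[X]) : Lip v y₀ r₀ G := by
  induction G using Polynomial.induction_on with
  | C a => exact lip_C v y₀ r₀ a
  | add p q hp hq => exact hp.add v y₀ r₀ hq
  | monomial n a h =>
    rw [pow_succ, ← mul_assoc]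
    exact h.mul v y₀ r₀ ⟨1, fun η _ y s _ hs => by simpa using hs⟩

/-- Continuity at a point, for finitely many polynomials at once. -/
theorem cont {ι : Type} [Fintype ι] (G : ι → (MvPolynomial σ K)[X]) (δ : ℝ≥0) (hδ : 0 < δ) :
    ∃ η : ℝ≥0, 0 < η ∧ ∀ (y : σ → Ω) (s : Ω), (∀ l, v (y l - y₀ l) ≤ η) →
      v (s - r₀) ≤ η → ∀ i, v (ev2 y s (G i) - ev2 y₀ r₀ (G i)) ≤ δ := by
  choose B hB using fun i => lip_all v y₀ r₀ (G i)
  set C : ℝ≥0 := ∑ i, B i + 1 with hC
  have hC0 : 0 < C := by rw [hC]; positivity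
  refine ⟨min 1 (δ / C), lt_min one_pos (div_pos hδ hC0), fun y s hy hs i => ?_⟩
  refine (hB i _ (min_le_left _ _) y s hy hs).trans ?_
  have h1 : B i ≤ C := by
    rw [hC]
    exact (Finset.single_le_sum (f := B) (fun _ _ => zero_le) (Finset.mem_univ i)).trans
      le_self_add
  calc B i * min 1 (δ / C) ≤ C * (δ / C) := by gcongr; exact min_le_right _ _
    _ = δ := by field_simp

end lip

/-- Pigeonhole: many conjugates of `s₀` by automorphisms that fix a point of a finite fibre. -/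
theorem conj {K L R : Type} [Field K] [Field L] [Algebra K L] [Normal K L]
    [Algebra.IsSeparable K L] [CommRing R] [Algebra K R] {n d : ℕ} (x : Fin n → R)
    (y : Fin d → R) (m : Fin n → (MvPolynomial (Fin d) K)[X]) (hm : ∀ i, (m i).Monic)
    (hmx : ∀ i, ev2 y (x i) (m i) = 0) (β : R →ₐ[K] L) (y' : Fin d → K)
    (hβ : ∀ l, β (y l) = algebraMap K L (y' l)) (s₀ : L) (N : ℕ)
    (hN : (∏ i, (m i).natDegree) * N < (minpoly K s₀).natDegree) :
    ∃ (s : ℕ) (τ : Fin s → (L ≃ₐ[K] L)), N < s ∧ (∀ t i, τ t (β (x i)) = β (x i)) ∧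
      Function.Injective fun t => τ t s₀ := by
  classical
  have halg : IsAlgebraic K s₀ := Algebra.IsAlgebraic.isAlgebraic s₀
  have hint : IsIntegral K s₀ := halg.isIntegral
  set Z : Finset L := ((minpoly K s₀).aroots L).toFinset with hZ
  have hZc : Z.card = (minpoly K s₀).natDegree := by
    have := Polynomial.card_rootSet_eq_natDegree (K := L)
      (Algebra.IsSeparable.isSeparable K s₀) (Normal.splits inferInstance s₀)
    rw [← this]
    simp [Polynomial.rootSet_def, hZ]
  have hex : ∀ z : L, ∃ σ : L ≃ₐ[K] L, z ∈ Z → σ s₀ = z := by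
    intro z
    by_cases hz : z ∈ Z
    · have : Polynomial.aeval z (minpoly K s₀) = 0 := by
        rw [hZ, Multiset.mem_toFinset, Polynomial.mem_aroots] at hz
        exact hz.2
      obtain ⟨σ, hσ⟩ := minpoly.exists_algEquiv_of_root' halg this
      exact ⟨σ, fun _ => hσ⟩
    · exact ⟨1, fun h => absurd h hz⟩
  choose σ hσ using hex
  let M : Fin n → L[X] := fun i => (m i).map
    (MvPolynomial.aeval (fun l => algebraMap K L (y' l)) :
      MvPolynomial (Fin d) K →ₐ[K] L).toRingHom
  have hM : ∀ i, (M i).Monic := fun i => (hm i).map _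
  let T : Finset (Fin n → L) := Fintype.piFinset fun i => (M i).roots.toFinset
  have hT : T.card ≤ ∏ i, (m i).natDegree := by
    rw [Fintype.card_piFinset]
    refine Finset.prod_le_prod' fun i _ => ?_
    exact (Multiset.toFinset_card_le _).trans
      ((Polynomial.card_roots' _).trans Polynomial.natDegree_map_le)
  have hmaps : ∀ z ∈ Z, (fun i => σ z (β (x i))) ∈ T := by
    intro z _
    rw [Fintype.mem_piFinset]
    intro i
    rw [Multiset.mem_toFinset, Polynomial.mem_roots (hM i).ne_zero, Polynomial.IsRoot.def,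
      ← ev2_eq_eval_map]
    have h := map_ev2 (((σ z : L ≃ₐ[K] L) : L →ₐ[K] L).comp β) y (x i) (m i)
    rw [hmx i, map_zero] at h
    have h2 : (fun l => (((σ z : L ≃ₐ[K] L) : L →ₐ[K] L).comp β) (y l)) =
        fun l => algebraMap K L (y' l) := by
      funext l
      simp [hβ l]
    rw [h2] at h
    exact h.symm
  obtain ⟨w, -, hw⟩ := Finset.exists_lt_card_fiber_of_mul_lt_card_of_maps_to (n := N) hmaps
    (by rw [hZc]; exact lt_of_le_of_lt (Nat.mul_le_mul_right N hT) hN)
  set W : Finset L := Z.filter fun z => (fun i => σ z (β (x i))) = w with hW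
  obtain ⟨z₀, hz₀⟩ : W.Nonempty := Finset.card_pos.mp (by omega)
  have hW1 : ∀ z ∈ W, z ∈ Z ∧ ∀ i, σ z (β (x i)) = w i := by
    intro z hz
    rw [hW, Finset.mem_filter] at hz
    exact ⟨hz.1, fun i => congrFun hz.2 i⟩
  let e : Fin W.card ≃ W := W.equivFin.symm
  refine ⟨W.card, fun t => (σ (e t)).trans (σ z₀).symm, hw, fun t i => ?_, fun t t' h => ?_⟩
  · rw [AlgEquiv.trans_apply, (hW1 _ (e t).2).2 i, ← (hW1 _ hz₀).2 i, AlgEquiv.symm_apply_apply]
  · simp only [AlgEquiv.trans_apply] at h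
    have h1 := (σ z₀).symm.injective h
    rw [hσ _ (hW1 _ (e t).2).1, hσ _ (hW1 _ (e t').2).1] at h1
    exact e.injective (Subtype.ext h1)

/-- Monic equations for the generators give finiteness over the coordinates. -/
theorem finite_of_monic {K R : Type} [Field K] [CommRing R] [Algebra K R] {n d : ℕ}
    (x : Fin n → R) (y : Fin d → R) (m : Fin n → (MvPolynomial (Fin d) K)[X])
    (hadj : Algebra.adjoin K (Set.range x) = ⊤) (hm : ∀ i, (m i).Monic)
    (hmx : ∀ i, ev2 y (x i) (m i) = 0) :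
    (MvPolynomial.aeval y : MvPolynomial (Fin d) K →ₐ[K] R).Finite := by
  let : Algebra (MvPolynomial (Fin d) K) R :=
    (MvPolynomial.aeval y : MvPolynomial (Fin d) K →ₐ[K] R).toRingHom.toAlgebra
  change Module.Finite (MvPolynomial (Fin d) K) R
  have hfg := fg_adjoin_of_finite (R := MvPolynomial (Fin d) K) (Set.finite_range x) (by
    rintro _ ⟨i, rfl⟩
    exact ⟨m i, hm i, hmx i⟩)
  have htop : Algebra.adjoin (MvPolynomial (Fin d) K) (Set.range x) = ⊤ := by
    refine eq_top_iff.mpr fun b _ => ?_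
    have hb : b ∈ Algebra.adjoin K (Set.range x) := by rw [hadj]; trivial
    induction hb using Algebra.adjoin_induction with
    | mem z hz => exact Algebra.subset_adjoin hz
    | algebraMap a =>
      have : algebraMap K R a = algebraMap (MvPolynomial (Fin d) K) R (MvPolynomial.C a) := by
        change _ = MvPolynomial.aeval y (MvPolynomial.C a)
        simp
      rw [this]
      exact Subalgebra.algebraMap_mem _ _
    | add a b _ _ ha hb => exact add_mem (ha trivial) (hb trivial)
    | mul a b _ _ ha hb => exact mul_mem (ha trivial) (hb trivial)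
  rw [htop] at hfg
  exact ⟨hfg⟩

/-- The iterates of a homogeneous map are homogeneous. -/
theorem iter_hom {K : Type} [Field K] {n q : ℕ} (f : Fin n → MvPolynomial (Fin n) K)
    (hf : ∀ i, (f i).IsHomogeneous q) (N : ℕ) (i : Fin n) :
    (((MvPolynomial.aeval f : MvPolynomial (Fin n) K →ₐ[K] MvPolynomial (Fin n) K) ^ N)
      (MvPolynomial.X i)).IsHomogeneous (q ^ N) := by
  induction N with
  | zero => simpa using MvPolynomial.isHomogeneous_X K i
  | succ N ih =>
    rw [pow_succ', AlgHom.mul_apply, pow_succ']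
    exact ih.aeval f hf

/-- The iterates have no common zero besides the origin, so their ideal contains powers of the
variables. -/
theorem iter_pow_mem {K L : Type} [Field K] [Field L] [Algebra K L] [IsAlgClosed L] {n : ℕ}
    (f : Fin n → MvPolynomial (Fin n) K)
    (hz : ∀ z : Fin n → L, (∀ i, MvPolynomial.aeval z (f i) = 0) → z = 0) (N : ℕ) (i : Fin n) :
    ∃ a : ℕ, MvPolynomial.X i ^ a ∈ Ideal.span (Set.range fun i =>
      ((MvPolynomial.aeval f : MvPolynomial (Fin n) K →ₐ[K] MvPolynomial (Fin n) K) ^ N)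
        (MvPolynomial.X i)) := by
  have key : ∀ (N : ℕ) (z : Fin n → L), (dyn f)^[N] z = 0 → z = 0 := by
    intro N
    induction N with
    | zero => intro z h; simpa using h
    | succ N ih =>
      intro z h
      rw [Function.iterate_succ_apply] at h
      exact hz z fun i => congrFun (ih _ h) i
  rw [← Ideal.mem_radical_iff, ← MvPolynomial.vanishingIdeal_zeroLocus_eq_radical (K := L),
    MvPolynomial.mem_vanishingIdeal_iff]
  intro z hz'
  have : z = 0 := by
    refine key N z (funext fun l => ?_)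
    have h := hz' _ (Ideal.subset_span ⟨l, rfl⟩)
    rw [aeval_dyn_iterate, MvPolynomial.aeval_X] at h
    exact h
  simp [this]

/-- The iterates of the endomorphism are given by the iterated polynomials. -/
theorem iter_apply {K R : Type} [Field K] [CommRing R] [Algebra K R] {n : ℕ} (x : Fin n → R)
    (f : Fin n → MvPolynomial (Fin n) K) (φ : R →ₐ[K] R)
    (hφ : ∀ i, φ (x i) = MvPolynomial.aeval x (f i)) (N : ℕ) (q : MvPolynomial (Fin n) K) :
    (φ ^ N) (MvPolynomial.aeval x q) = MvPolynomial.aeval x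
      (((MvPolynomial.aeval f : MvPolynomial (Fin n) K →ₐ[K] MvPolynomial (Fin n) K) ^ N) q) := by
  have h1 : ∀ q : MvPolynomial (Fin n) K,
      φ (MvPolynomial.aeval x q) = MvPolynomial.aeval x (MvPolynomial.aeval f q) := by
    intro q
    rw [MvPolynomial.comp_aeval_apply, MvPolynomial.comp_aeval_apply]
    simp only [hφ]
  induction N generalizing q with
  | zero => simp
  | succ N ih => rw [pow_succ', AlgHom.mul_apply, ih, h1, pow_succ', AlgHom.mul_apply]

end BigP
end Pool.Agent.P.MP_38c95b_ag
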