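import Pool.Agent.P.MP_38c95b_ag.BigA

/-!
The core of the package `big`, over a number field.
-/

set_option autoImplicit false

open Polynomial
open scoped NNReal

namespace Pool.Agent.P.MP_38c95b_ag
namespace BigP

theorem qb_alg : Algebra.IsAlgebraic ℚ Qb := AlgebraicClosure.isAlgebraic ℚ

theorem core (hFin : S_Fin) (hRho : S_Rho) (hUnr : S_Unr) (hPrim : S_Prim) (hHilb : S_Hilb)
    (K : IntermediateField ℚ Qb) [FiniteDimensional ℚ K] (R : Type) [CommRing R] [IsDomain R]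
    [Algebra K R] (n d q : ℕ) (x : Fin n → R) (y : Fin (d + 1) → R)
    (f : Fin n → MvPolynomial (Fin n) K) (φ : R →ₐ[K] R)
    (m Pi : Fin n → (MvPolynomial (Fin (d + 1)) K)[X])
    (hadj : Algebra.adjoin K (Set.range x) = ⊤) (hind : AlgebraicIndependent K y)
    (hφ : ∀ i, φ (x i) = MvPolynomial.aeval x (f i)) (hq : 2 ≤ q)
    (hhom : ∀ i, (f i).IsHomogeneous q)
    (hzero : ∀ z : Fin n → Qb, (∀ i, MvPolynomial.aeval z (f i) = 0) → z = 0)
    (hm : ∀ i, (m i).Monic) (hmx : ∀ i, ev2 y (x i) (m i) = 0)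
    (hPi : ∀ i, ev2 (fun l => φ (y l)) (x i) (Pi i) = 0)
    (p : ℕ) (v : Valuation Qb ℝ≥0) (hp : p.Prime) (hv : v (p : Qb) = (p : ℝ≥0)⁻¹)
    (ξ₀ : R →ₐ[K] K)
    (hder : ∀ (j : ℕ) (i : Fin n),
      ξ₀ ((φ ^ j) (ev2 (fun l => φ (y l)) (x i) (derivative (Pi i)))) ≠ 0)
    (η : ℝ≥0) (n₀ : ℕ) (hη : 0 < η) (hn₀ : 1 ≤ n₀) :
    ∃ (j s : ℕ) (ξ : R →ₐ[K] Qb) (τ : Fin s → (Qb ≃ₐ[K] Qb)) (r : R), 1 ≤ j ∧
      (∀ i, v (ξ (x i) - algebraMap K Qb (ξ₀ (x i))) ≤ η) ∧ (q ^ (n₀ * j)) ^ d < s ∧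
      (∀ t i, τ t (ξ ((φ ^ (n₀ * j)) (x i))) = ξ ((φ ^ (n₀ * j)) (x i))) ∧
      Function.Injective fun t => τ t (ξ r) := by
  classical
  have hfin := finite_of_monic x y m hadj hm hmx
  obtain ⟨κ, hκ⟩ := hRho K R n (d + 1) x y hadj hind hfin
  set D := Module.finrank ℚ K with hD
  set Mm := ∏ i, (m i).natDegree with hMm
  set j := κ * D * Mm + 1 with hj
  obtain ⟨N', hN'⟩ : ∃ N', n₀ * j = N' + 1 :=
    Nat.exists_eq_succ_of_ne_zero (Nat.mul_ne_zero (by omega) (by omega))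
  set Q := q ^ (n₀ * j) with hQ
  have hQj : j ≤ Q := by
    calc j ≤ n₀ * j := Nat.le_mul_of_pos_left j hn₀
      _ ≤ 2 ^ (n₀ * j) := Nat.lt_two_pow_self.le
      _ ≤ q ^ (n₀ * j) := Nat.pow_le_pow_left hq _
  have hQ1 : 1 ≤ Q := le_trans (by omega) hQj
  set g : Fin n → MvPolynomial (Fin n) K := fun i =>
    ((MvPolynomial.aeval f : MvPolynomial (Fin n) K →ₐ[K] MvPolynomial (Fin n) K) ^ (n₀ * j))
      (MvPolynomial.X i) with hg
  set Φ : R →ₐ[K] R := φ ^ (n₀ * j) with hΦ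
  have hghom : ∀ i, (g i).IsHomogeneous Q := fun i => iter_hom f hhom _ i
  have hgpow : ∀ i, ∃ a : ℕ, MvPolynomial.X i ^ a ∈ Ideal.span (Set.range g) :=
    fun i => iter_pow_mem f hzero _ i
  have hΦx : ∀ i, Φ (x i) = MvPolynomial.aeval x (g i) := by
    intro i
    have := iter_apply x f φ hφ (n₀ * j) (MvPolynomial.X i)
    rwa [MvPolynomial.aeval_X] at this
  have hΦfin : Φ.Finite := hFin K R n Q x g Φ hadj hQ1 hghom hgpow hΦx
  set u : Fin (d + 1) → R := fun l => Φ (y l) with hu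
  have hufin : (MvPolynomial.aeval u : MvPolynomial (Fin (d + 1)) K →ₐ[K] R).Finite := by
    have := hΦfin.comp hfin
    rwa [MvPolynomial.comp_aeval] at this
  have huind : AlgebraicIndependent K u := algInd_of_finite y u hind hufin
  obtain ⟨e₀, he₀, he₀'⟩ := hUnr K R n (d + 1) x y φ Pi hadj hPi N' ξ₀ hder
  rw [← hN'] at he₀'
  obtain ⟨r, P, ε, hPm, hPp, hker, hP', hε, hden⟩ :=
    hPrim K R (d + 1) u huind hufin ξ₀ e₀ he₀ he₀'
  have hP0 : ev2 u r P = 0 := (hker P).mpr dvd_rfl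
  have hε0 : ev2 u r ε ≠ 0 := by
    intro h
    apply hε
    rw [← map_ev2, h, map_zero]
  have hρ := hκ Q g Φ hQ1 hghom hgpow hΦx r P ε hPm hP0 hε0 hden
  -- base point in `Qb`
  let ι : K →ₐ[K] Qb := Algebra.ofId K Qb
  have hι : ∀ a, ι a = algebraMap K Qb a := fun _ => rfl
  set y₀ : Fin (d + 1) → Qb := fun l => algebraMap K Qb (ξ₀ (u l)) with hy₀
  set r₀ : Qb := algebraMap K Qb (ξ₀ r) with hr₀
  have hev₀ : ∀ G : (MvPolynomial (Fin (d + 1)) K)[X],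
      ev2 y₀ r₀ G = algebraMap K Qb (ξ₀ (ev2 u r G)) := by
    intro G
    have := map_ev2 (ι.comp ξ₀) u r G
    exact this.symm
  set ε₀ : Qb := ev2 y₀ r₀ ε with hε₀
  have hε₀ne : ε₀ ≠ 0 := by
    rw [hε₀, hev₀, map_ev2]
    exact (_root_.map_ne_zero _).mpr hε
  have hvε₀ : 0 < v ε₀ := (v.pos_iff).mpr hε₀ne
  choose G hG using fun i => hden (x i)
  let H : Option (Fin n) → (MvPolynomial (Fin (d + 1)) K)[X] := fun o =>
    o.elim ε fun i => G i - ε * Polynomial.C (MvPolynomial.C (ξ₀ (x i)))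
  obtain ⟨η', hη', hcont⟩ := cont v y₀ r₀ H (min (v ε₀ / 2) (η * v ε₀))
    (lt_min (by positivity) (by positivity))
  obtain ⟨y', s₀, hroot, hy', hs₀, hdeg⟩ := hHilb K v p hp hv d P (fun l => ξ₀ (u l)) (ξ₀ r) hPm
    hPp (by rw [← map_ev2, hP0, map_zero]) hP' η' hη'
  set y'' : Fin (d + 1) → Qb := fun l => algebraMap K Qb (y' l) with hy''
  have hc := hcont y'' s₀ hy' hs₀
  have hvε : v (ev2 y'' s₀ ε) = v ε₀ := by
    have h1 : v (ev2 y'' s₀ ε - ε₀) < v ε₀ :=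
      lt_of_le_of_lt ((hc none).trans (min_le_left _ _)) (NNReal.half_lt_self hvε₀.ne')
    have h2 : ev2 y'' s₀ ε = ε₀ + (ev2 y'' s₀ ε - ε₀) := by ring
    rw [h2]
    exact v.map_add_eq_of_lt_left h1
  have hε' : ev2 y'' s₀ ε ≠ 0 := by
    intro h
    rw [h, map_zero] at hvε
    exact hvε₀.ne hvε
  obtain ⟨ξ, hξ⟩ := exists_point_of_root u r P ε (fun G hG => (hker G).mp hG) hden y'' s₀ hroot hε'
  have hξr : ξ r = s₀ := by simpa using hξ Polynomial.X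
  have hξu : ∀ l, ξ (u l) = algebraMap K Qb (y' l) := by
    intro l
    have := hξ (Polynomial.C (MvPolynomial.X l))
    rwa [ev2_C, ev2_C, MvPolynomial.aeval_X, MvPolynomial.aeval_X] at this
  have hnormal : Normal K Qb := by
    have := qb_alg
    have : Algebra.IsAlgebraic K Qb := Algebra.IsAlgebraic.tower_top (K := ℚ) K
    have : IsAlgClosure K Qb := ⟨inferInstance, inferInstance⟩
    infer_instance
  have hcount : Mm * Q ^ d < (minpoly K s₀).natDegree := by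
    by_contra hcon
    push Not at hcon
    have h1 : Q ^ (d + 1) ≤ D * (Mm * Q ^ d) * κ :=
      hρ.trans (Nat.mul_le_mul_right κ (hdeg.trans (Nat.mul_le_mul_left D hcon)))
    have h2 : D * (Mm * Q ^ d) * κ < Q ^ (d + 1) := by
      have h3 : κ * D * Mm < Q := lt_of_lt_of_le (by omega) hQj
      calc D * (Mm * Q ^ d) * κ = (κ * D * Mm) * Q ^ d := by ring
        _ < Q * Q ^ d := Nat.mul_lt_mul_of_pos_right h3 (by positivity)
        _ = Q ^ (d + 1) := by ring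
    omega
  obtain ⟨s, τ, hs, hτ, hinj⟩ := conj x y m hm hmx (ξ.comp Φ) y' hξu s₀ (Q ^ d) hcount
  refine ⟨j, s, ξ, τ, r, by omega, fun i => ?_, hs, hτ, by rw [hξr]; exact hinj⟩
  have h0 : ev2 y₀ r₀ (H (some i)) = 0 := by
    rw [hev₀]
    simp only [H, Option.elim_some, map_sub, map_mul, ev2_C, MvPolynomial.aeval_C, ← hG i,
      AlgHom.commutes, Algebra.algebraMap_self, RingHom.id_apply, sub_self, map_zero]
  have h1 : ev2 y'' s₀ (H (some i)) =
      ev2 y'' s₀ ε * (ξ (x i) - algebraMap K Qb (ξ₀ (x i))) := by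
    simp only [H, Option.elim_some, map_sub, map_mul, ev2_C, MvPolynomial.aeval_C]
    rw [← hξ (G i), ← hG i, map_mul, hξ ε]
    ring
  have h2 := (hc (some i)).trans (min_le_right _ _)
  rw [h0, sub_zero, h1, map_mul, hvε, mul_comm] at h2
  exact le_of_mul_le_mul_right h2 hvε₀

end BigP
end Pool.Agent.P.MP_38c95b_ag
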