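import Pool.Agent.P.MP_38c95b_ag.Stmts

/-!
The box bound: the image of a box of monomials under a linear map killing a principal ideal.
-/

set_option autoImplicit false

open Polynomial

namespace Pool.Agent.P.MP_38c95b_ag

namespace BoxP

theorem finrank_RD (K : Type) [Field K] (m N : ℕ) :
    Module.finrank K (MvPolynomial.restrictDegree (Fin m) K N) = (N + 1) ^ m := by
  classical
  let e : {a : Fin m →₀ ℕ | ∀ i, a i ≤ N} ≃ (Fin m → Fin (N + 1)) :=
    { toFun := fun a i => ⟨a.1 i, Nat.lt_succ_of_le (a.2 i)⟩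
      invFun := fun b => ⟨Finsupp.equivFunOnFinite.symm fun i => (b i : ℕ), fun i => by
        simpa using Nat.le_of_lt_succ (b i).2⟩
      left_inv := fun a => by ext i; simp
      right_inv := fun b => by ext i; simp }
  have hb := (MvPolynomial.basisRestrictSupport K {a : Fin m →₀ ℕ | ∀ i, a i ≤ N}).reindex e
  have := Module.finrank_eq_card_basis hb
  rw [Fintype.card_fun, Fintype.card_fin, Fintype.card_fin] at this
  exact this

theorem pow_sub_le (a b d : ℕ) (h : b ≤ a) :
    a ^ (d + 1) ≤ b ^ (d + 1) + (d + 1) * (a - b) * a ^ d := by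
  obtain ⟨c, rfl⟩ := Nat.exists_eq_add_of_le h
  rw [Nat.add_sub_cancel_left]
  induction d with
  | zero => simp
  | succ d ih =>
    have h1 : b ^ (d + 1) ≤ (b + c) ^ (d + 1) := Nat.pow_le_pow_left (Nat.le_add_right _ _) _
    calc (b + c) ^ (d + 1 + 1) = (b + c) ^ (d + 1) * (b + c) := by ring
      _ ≤ (b ^ (d + 1) + (d + 1) * c * (b + c) ^ d) * (b + c) := Nat.mul_le_mul_right _ ih
      _ = b ^ (d + 1 + 1) + c * b ^ (d + 1) + (d + 1) * c * (b + c) ^ (d + 1) := by ring
      _ ≤ b ^ (d + 1 + 1) + c * (b + c) ^ (d + 1) + (d + 1) * c * (b + c) ^ (d + 1) := by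
          gcongr
      _ = _ := by ring

theorem mul_mem_RD {K σ : Type} [CommRing K] (θ q : MvPolynomial σ K) (N : ℕ)
    (hq : q ∈ MvPolynomial.restrictDegree σ K N) :
    θ * q ∈ MvPolynomial.restrictDegree σ K (θ.totalDegree + N) := by
  rw [MvPolynomial.mem_restrictDegree] at hq ⊢
  intro s hs i
  have h1 : MvPolynomial.degreeOf i q ≤ N := MvPolynomial.degreeOf_le_iff.mpr fun s hs => hq s hs i
  have h2 := MvPolynomial.degreeOf_mul_le i θ q
  have h3 := MvPolynomial.degreeOf_le_totalDegree θ i
  have h4 := MvPolynomial.degreeOf_le_iff.mp (le_refl (MvPolynomial.degreeOf i (θ * q))) s hs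
  omega

end BoxP

open BoxP in
theorem box : S_Box := by
  intro K _ d θ hθ
  set D := θ.totalDegree with hD
  refine ⟨(d + 1) * D + D, fun N V _ _ ψ hψ => ?_⟩
  have hle : Module.finrank K ((MvPolynomial.restrictDegree (Fin (d + 1)) K N).map ψ) ≤
      (N + 1) ^ (d + 1) := by
    rw [← finrank_RD K (d + 1) N]
    exact Submodule.finrank_map_le _ _
  by_cases hN : N < D
  · refine hle.trans ?_
    rw [pow_succ, mul_comm]
    exact Nat.mul_le_mul_right _ (by omega)
  · push Not at hN
    set W := MvPolynomial.restrictDegree (Fin (d + 1)) K N with hW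
    set W' := MvPolynomial.restrictDegree (Fin (d + 1)) K (N - D) with hW'
    have hrn := LinearMap.finrank_range_add_finrank_ker (ψ.comp W.subtype)
    have hr : LinearMap.range (ψ.comp W.subtype) = W.map ψ := by
      rw [LinearMap.range_comp, Submodule.range_subtype]
    let μ : W' →ₗ[K] LinearMap.ker (ψ.comp W.subtype) :=
      { toFun := fun q => ⟨⟨θ * q.1, by
          have := mul_mem_RD θ q.1 _ q.2
          rwa [← hD, Nat.add_sub_cancel' hN] at this⟩, by simp [hψ]⟩
        map_add' := fun a b => by ext : 2; simp [mul_add]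
        map_smul' := fun c a => by ext : 2; simp }
    have hμ : Function.Injective μ := by
      intro a b hab
      have : θ * a.1 = θ * b.1 := congrArg (fun z => z.1.1) hab
      exact Subtype.ext (mul_left_cancel₀ hθ this)
    have h1 := LinearMap.finrank_le_finrank_of_injective hμ
    rw [hW', finrank_RD] at h1
    rw [hr, hW, finrank_RD] at hrn
    have h2 := pow_sub_le (N + 1) (N - D + 1) d (by omega)
    have h3 : N + 1 - (N - D + 1) = D := by omega
    rw [h3] at h2
    have h4 : ((d + 1) * D + D) * (N + 1) ^ d = (d + 1) * D * (N + 1) ^ d + D * (N + 1) ^ d := by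
      ring
    rw [← hW] at hrn
    omega

end Pool.Agent.P.MP_38c95b_ag
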