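import Pool.Agent.P.MP_38c95b_ag.Stmts

/-!
The formal branch, specialisation of linear independence and of primality, and Hilbert
irreducibility with approximation.
-/

set_option autoImplicit false

open Polynomial
open scoped NNReal

namespace Pool.Agent.P.MP_38c95b_ag

namespace BranchP

/-- the blow up coordinates with polynomial values -/
noncomputable def Ph (A : Type) [CommRing A] (d : ℕ) :
    MvPolynomial (Fin (d + 1)) A →+* (MvPolynomial (Fin d) A)[X] :=
  (MvPolynomial.aeval (Fin.cons X fun i => X * C (MvPolynomial.X i)) :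
    MvPolynomial (Fin (d + 1)) A →ₐ[A] (MvPolynomial (Fin d) A)[X]).toRingHom

variable {A : Type} [CommRing A] {d : ℕ}

@[simp] lemma Ph_C (a : A) : Ph A d (MvPolynomial.C a) = C (MvPolynomial.C a) := by
  simp [Ph]

@[simp] lemma Ph_zero : Ph A d (MvPolynomial.X 0) = X := by
  simp [Ph]

@[simp] lemma Ph_succ (i : Fin d) : Ph A d (MvPolynomial.X i.succ) = X * C (MvPolynomial.X i) := by
  simp [Ph]

lemma coe_Ph : (coeToPowerSeries.ringHom).comp (Ph A d) =
    (MvPolynomial.aeval (yhat A d) :
      MvPolynomial (Fin (d + 1)) A →ₐ[A] PowerSeries (MvPolynomial (Fin d) A)).toRingHom := by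
  refine MvPolynomial.ringHom_ext (fun a => ?_) (fun i => ?_)
  · simp [PowerSeries.algebraMap_apply]
  · refine Fin.cases ?_ (fun i => ?_) i
    · simp [yhat]
    · rw [RingHom.comp_apply, Ph_succ, map_mul]
      simp [yhat]

lemma ev2_yhat (r : PowerSeries (MvPolynomial (Fin d) A)) (G : (MvPolynomial (Fin (d + 1)) A)[X]) :
    ev2 (yhat A d) r G = (G.map (Ph A d)).eval₂ coeToPowerSeries.ringHom r := by
  rw [eval₂_map, coe_Ph]
  rfl

lemma const_ev2 (r : PowerSeries (MvPolynomial (Fin d) A)) (r₀ : A)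
    (hr : PowerSeries.constantCoeff r = MvPolynomial.C r₀)
    (G : (MvPolynomial (Fin (d + 1)) A)[X]) :
    PowerSeries.constantCoeff (ev2 (yhat A d) r G) =
      MvPolynomial.C (ev2 (fun _ => (0 : A)) r₀ G) := by
  have h1 := ringHom_ev2 (RingHom.id A)
    (PowerSeries.constantCoeff (R := MvPolynomial (Fin d) A))
    (fun a => by simp [PowerSeries.algebraMap_apply]) (yhat A d) r G
  have h2 := ringHom_ev2 (RingHom.id A) (MvPolynomial.C : A →+* MvPolynomial (Fin d) A)
    (fun a => by simp) (fun _ : Fin (d + 1) => (0 : A)) r₀ G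
  rw [h1, h2, hr]
  congr 2
  funext l
  refine Fin.cases ?_ (fun i => ?_) l <;> simp [yhat]

lemma Ph_inj {K : Type} [Field K] : Function.Injective (Ph K d) := by
  let F := FractionRing (MvPolynomial (Fin (d + 1)) K)
  let y : Fin (d + 1) → F := fun l => algebraMap (MvPolynomial (Fin (d + 1)) K) F (MvPolynomial.X l)
  have hy : y 0 ≠ 0 := fun h => MvPolynomial.X_ne_zero (R := K) (0 : Fin (d + 1))
    (IsFractionRing.injective (MvPolynomial (Fin (d + 1)) K) F (by rw [map_zero]; exact h))
  let ψ : (MvPolynomial (Fin d) K)[X] →+* F :=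
    eval₂RingHom (MvPolynomial.aeval (fun i : Fin d => y i.succ / y 0) :
      MvPolynomial (Fin d) K →ₐ[K] F).toRingHom (y 0)
  have h : ψ.comp (Ph K d) = algebraMap (MvPolynomial (Fin (d + 1)) K) F := by
    refine MvPolynomial.ringHom_ext (fun a => ?_) (fun i => ?_)
    · simp only [ψ, RingHom.comp_apply, Ph_C, coe_eval₂RingHom, eval₂_C, AlgHom.toRingHom_eq_coe,
        RingHom.coe_coe, MvPolynomial.algHom_C]
      exact IsScalarTower.algebraMap_apply K (MvPolynomial (Fin (d + 1)) K) F a
    · refine Fin.cases ?_ (fun i => ?_) i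
      · simp [ψ, y]
      · simp only [ψ, RingHom.comp_apply, Ph_succ, map_mul, coe_eval₂RingHom, eval₂_C, eval₂_X,
          AlgHom.toRingHom_eq_coe, RingHom.coe_coe, MvPolynomial.aeval_X]
        exact mul_div_cancel₀ _ hy
  have : Function.Injective (ψ.comp (Ph K d)) := by
    rw [h]; exact IsFractionRing.injective _ _
  exact Function.Injective.of_comp (f := ψ) this

lemma Ph_shift {b : (MvPolynomial (Fin d) A)[X]} {N M : ℕ} (h : N ≤ M)
    (hb : ∃ g, X ^ N * b = Ph A d g) : ∃ g, X ^ M * b = Ph A d g := by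
  obtain ⟨g, hg⟩ := hb
  obtain ⟨k, rfl⟩ := Nat.exists_eq_add_of_le h
  refine ⟨MvPolynomial.X 0 ^ k * g, ?_⟩
  rw [map_mul, map_pow, Ph_zero, ← hg]; ring

lemma Ph_den_C (q : MvPolynomial (Fin d) A) : ∃ N g, X ^ N * C q = Ph A d g := by
  induction q using MvPolynomial.induction_on with
  | C a => exact ⟨0, MvPolynomial.C a, by simp⟩
  | add p q hp hq =>
    obtain ⟨N, hN⟩ := hp
    obtain ⟨M, hM⟩ := hq
    obtain ⟨g, hg⟩ := Ph_shift (le_max_left N M) hN
    obtain ⟨g', hg'⟩ := Ph_shift (le_max_right N M) hM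
    exact ⟨max N M, g + g', by rw [map_add, map_add, mul_add, hg, hg']⟩
  | mul_X p i hp =>
    obtain ⟨N, g, hg⟩ := hp
    exact ⟨N + 1, g * MvPolynomial.X i.succ, by rw [map_mul, map_mul, ← hg, Ph_succ]; ring⟩

lemma Ph_den (b : (MvPolynomial (Fin d) A)[X]) : ∃ N g, X ^ N * b = Ph A d g := by
  induction b using Polynomial.induction_on' with
  | add p q hp hq =>
    obtain ⟨N, hN⟩ := hp
    obtain ⟨M, hM⟩ := hq
    obtain ⟨g, hg⟩ := Ph_shift (le_max_left N M) hN
    obtain ⟨g', hg'⟩ := Ph_shift (le_max_right N M) hM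
    exact ⟨max N M, g + g', by rw [map_add, mul_add, hg, hg']⟩
  | monomial n q =>
    obtain ⟨N, g, hg⟩ := Ph_den_C q
    exact ⟨N, g * MvPolynomial.X 0 ^ n, by
      rw [map_mul, map_pow, ← hg, Ph_zero, ← C_mul_X_pow_eq_monomial]; ring⟩

lemma Ph_map {B : Type} [CommRing B] (e : A →+* B) :
    (Ph B d).comp (MvPolynomial.map e) = (mapRingHom (MvPolynomial.map e)).comp (Ph A d) := by
  refine MvPolynomial.ringHom_ext (fun a => ?_) (fun i => ?_)
  · simp
  · refine Fin.cases ?_ (fun i => ?_) i <;> simp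

lemma map_eval₂ {R S : Type} [CommRing R] [CommRing S] (e : R →+* S) (r : PowerSeries R)
    (Q : R[X][X]) : PowerSeries.map e (Q.eval₂ coeToPowerSeries.ringHom r) =
      (Q.map (mapRingHom e)).eval₂ coeToPowerSeries.ringHom (PowerSeries.map e r) := by
  rw [hom_eval₂, eval₂_map]
  congr 1
  refine RingHom.ext fun q => ?_
  simp [polynomial_map_coe]

lemma map_ev2_yhat {B : Type} [CommRing B] (e : A →+* B) (r : PowerSeries (MvPolynomial (Fin d) A))
    (G : (MvPolynomial (Fin (d + 1)) A)[X]) :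
    PowerSeries.map (MvPolynomial.map e) (ev2 (yhat A d) r G) =
      ev2 (yhat B d) (PowerSeries.map (MvPolynomial.map e) r) (G.map (MvPolynomial.map e)) := by
  rw [ev2_yhat, ev2_yhat, map_eval₂, Polynomial.map_map, Polynomial.map_map, Ph_map]

/-- independence of the products of powers of t and of r -/
def Ind {R : Type} [CommRing R] (r : PowerSeries R) (m δ : ℕ) : Prop :=
  ∀ c : Fin (m + 1) × Fin δ → R,
    ∑ z, PowerSeries.C (c z) * (PowerSeries.X ^ (z.1 : ℕ) * r ^ (z.2 : ℕ)) = 0 → ∀ z, c z = 0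

lemma ind_iff {R : Type} [CommRing R] (r : PowerSeries R) (m δ : ℕ) :
    Ind r m δ ↔ LinearIndependent R (fun (z : Fin (m + 1) × Fin δ) (n : ℕ) =>
      PowerSeries.coeff n ((PowerSeries.X : PowerSeries R) ^ (z.1 : ℕ) * r ^ (z.2 : ℕ))) := by
  rw [Fintype.linearIndependent_iff]
  refine forall_congr' fun c => imp_congr ?_ Iff.rfl
  rw [PowerSeries.ext_iff, funext_iff]
  refine forall_congr' fun n => ?_
  simp only [map_sum, PowerSeries.coeff_C_mul, map_zero, Finset.sum_apply, Pi.smul_apply,
    smul_eq_mul, Pi.zero_apply]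

lemma ind_spec (hS : S_Spec) {R : Type} [CommRing R] [IsDomain R] {r : PowerSeries R} {m δ : ℕ}
    (h : Ind r m δ) : ∃ θ : R, θ ≠ 0 ∧ ∀ (B : Type) [CommRing B] [IsDomain B] (e : R →+* B),
      e θ ≠ 0 → Ind (PowerSeries.map e r) m δ := by
  obtain ⟨θ, h0, hθ⟩ := hS R _ _ _ ((ind_iff r m δ).1 h)
  refine ⟨θ, h0, fun B _ _ e he => (ind_iff _ m δ).2 ?_⟩
  convert hθ B e he using 3
  rw [← PowerSeries.coeff_map, map_mul (PowerSeries.map e), map_pow (PowerSeries.map e),
    map_pow (PowerSeries.map e), PowerSeries.map_X]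

lemma ind_inj {R B : Type} [CommRing R] [CommRing B] (e : R →+* B) (he : Function.Injective e)
    {r : PowerSeries R} {m δ : ℕ} (h : Ind (PowerSeries.map e r) m δ) : Ind r m δ := by
  intro c hc z
  refine he ?_
  rw [map_zero]
  refine h (fun z => e (c z)) ?_ z
  have := congrArg (PowerSeries.map e) hc
  simpa using this

lemma ind_of {R : Type} [CommRing R] {r : PowerSeries R} {δ : ℕ}
    (h : ∀ a : Fin δ → R[X], ∑ j, (a j : PowerSeries R) * r ^ (j : ℕ) = 0 → ∀ j, a j = 0)
    (m : ℕ) : Ind r m δ := by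
  intro c hc z
  have h1 := h (fun j => ∑ b : Fin (m + 1), monomial (b : ℕ) (c (b, j))) (by
    rw [← hc, Fintype.sum_prod_type_right]
    refine Finset.sum_congr rfl fun j _ => ?_
    rw [← coeToPowerSeries.ringHom_apply, map_sum, Finset.sum_mul]
    refine Finset.sum_congr rfl fun b _ => ?_
    rw [← C_mul_X_pow_eq_monomial]
    simp [mul_assoc]) z.2
  have h2 := congrArg (fun q => q.coeff z.1) h1
  simp only [finsetSum_coeff, coeff_monomial, coeff_zero] at h2
  rw [Finset.sum_eq_single z.1 (fun b _ hb => if_neg fun h => hb (Fin.ext h)) (by simp)] at h2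
  simpa using h2

lemma zero_of_ind {R : Type} [CommRing R] {r : PowerSeries R} {m δ : ℕ} (h : Ind r m δ)
    {G : R[X][X]} (hG : G.natDegree < δ) (hc : ∀ j, (G.coeff j).natDegree ≤ m)
    (h0 : G.eval₂ coeToPowerSeries.ringHom r = 0) : G = 0 := by
  have h1 := h (fun z => (G.coeff z.2).coeff z.1) (by
    rw [← h0, eval₂_eq_sum_range' _ hG, Finset.sum_range, Fintype.sum_prod_type_right]
    refine Finset.sum_congr rfl fun j _ => ?_
    conv_rhs => rw [as_sum_range' (G.coeff j) (m + 1) (Nat.lt_succ_of_le (hc j))]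
    rw [Finset.sum_range, map_sum, Finset.sum_mul]
    refine Finset.sum_congr rfl fun b _ => ?_
    rw [← C_mul_X_pow_eq_monomial]
    simp [mul_assoc])
  ext j b
  by_cases hj : j < δ
  · by_cases hb : b < m + 1
    · simpa using h1 (⟨b, hb⟩, ⟨j, hj⟩)
    · simpa using coeff_eq_zero_of_natDegree_lt (p := G.coeff j) (n := b) (by have := hc j; omega)
  · rw [coeff_eq_zero_of_natDegree_lt (p := G) (n := j) (by omega)]
    simp

lemma swap_coeff {R : Type} [CommRing R] (G : R[X][X]) (i j : ℕ) :
    ((Bivariate.swap G).coeff i).coeff j = (G.coeff j).coeff i := by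
  induction G using Polynomial.induction_on' with
  | add p q hp hq => simp [hp, hq]
  | monomial n f =>
    induction f using Polynomial.induction_on' with
    | add p q hp hq => simp [hp, hq]
    | monomial m a =>
      rw [Bivariate.swap_monomial_monomial]
      simp only [coeff_monomial]
      split_ifs <;> simp_all [coeff_monomial]

lemma deg_of_dvd {R : Type} [CommRing R] [IsDomain R] {G Q : R[X][X]} (h : G ∣ Q) (hQ : Q ≠ 0)
    {m : ℕ} (hm : ∀ j, (Q.coeff j).natDegree ≤ m) (j : ℕ) : (G.coeff j).natDegree ≤ m := by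
  have h1 : (Bivariate.swap Q).natDegree ≤ m := by
    rw [natDegree_le_iff_coeff_eq_zero]
    intro i hi
    ext j
    rw [swap_coeff, coeff_zero]
    exact coeff_eq_zero_of_natDegree_lt ((hm j).trans_lt hi)
  have h2 : (Bivariate.swap G).natDegree ≤ m :=
    (natDegree_le_of_dvd (map_dvd Bivariate.swap h) (by simpa using hQ)).trans h1
  rw [natDegree_le_iff_coeff_eq_zero]
  intro i hi
  rw [← swap_coeff, coeff_eq_zero_of_natDegree_lt (h2.trans_lt hi), coeff_zero]

lemma exists_deg {R : Type} [CommRing R] (Q : R[X][X]) : ∃ m, ∀ j, (Q.coeff j).natDegree ≤ m := by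
  refine ⟨Q.support.sup fun j => (Q.coeff j).natDegree, fun j => ?_⟩
  by_cases hj : j ∈ Q.support
  · exact Finset.le_sup (f := fun j => (Q.coeff j).natDegree) hj
  · rw [notMem_support_iff.1 hj]; simp

lemma spec_fin {R : Type} [CommRing R] [IsDomain R] {κ : Type} (n : ℕ) :
    ∀ w : Fin n → κ → R, LinearIndependent R w → ∃ θ : R, θ ≠ 0 ∧
      ∀ (B : Type) [CommRing B] [IsDomain B] (e : R →+* B), e θ ≠ 0 →
        LinearIndependent B (fun i k => e (w i k)) := by
  induction n with
  | zero => exact fun w _ => ⟨1, one_ne_zero, fun B _ _ e _ => linearIndependent_empty_type⟩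
  | succ n ih =>
    intro w hw
    obtain ⟨k, hk⟩ := Function.ne_iff.1 (hw.ne_zero 0)
    replace hk : w 0 k ≠ 0 := hk
    obtain ⟨θ, h0, hθ⟩ := ih (fun i k' => w 0 k * w i.succ k' - w i.succ k * w 0 k') (by
      rw [Fintype.linearIndependent_iff] at hw ⊢
      intro c hc i
      have := hw (Fin.cons (-∑ i, c i * w i.succ k) fun i => c i * w 0 k) (by
        funext k'
        have := congrFun hc k'
        simp only [Finset.sum_apply, Pi.smul_apply, smul_eq_mul, Pi.zero_apply, mul_sub,
          Finset.sum_sub_distrib, Fin.sum_univ_succ, Fin.cons_zero, Fin.cons_succ] at this ⊢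
        rw [neg_mul, Finset.sum_mul]
        simp only [mul_assoc]
        linear_combination this) i.succ
      simpa [hk] using this)
    refine ⟨w 0 k * θ, mul_ne_zero hk h0, fun B _ _ e he => ?_⟩
    rw [map_mul, mul_ne_zero_iff] at he
    have h1 := hθ B e he.2
    rw [Fintype.linearIndependent_iff] at h1 ⊢
    intro c hc
    have hk' := fun k' => congrFun hc k'
    simp only [Finset.sum_apply, Pi.smul_apply, smul_eq_mul, Pi.zero_apply,
      Fin.sum_univ_succ] at hk'
    have h2 := h1 (fun i => c i.succ) (by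
      funext k'
      simp only [Finset.sum_apply, Pi.smul_apply, smul_eq_mul, Pi.zero_apply, map_sub, map_mul,
        mul_sub, Finset.sum_sub_distrib]
      have a1 : ∑ i : Fin n, c i.succ * (e (w 0 k) * e (w i.succ k')) =
          e (w 0 k) * ∑ i : Fin n, c i.succ * e (w i.succ k') := by
        rw [Finset.mul_sum]; exact Finset.sum_congr rfl fun i _ => by ring
      have a2 : ∑ i : Fin n, c i.succ * (e (w i.succ k) * e (w 0 k')) =
          e (w 0 k') * ∑ i : Fin n, c i.succ * e (w i.succ k) := by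
        rw [Finset.mul_sum]; exact Finset.sum_congr rfl fun i _ => by ring
      rw [a1, a2]
      linear_combination e (w 0 k) * hk' k' - e (w 0 k') * hk' k)
    intro i
    refine Fin.cases ?_ h2 i
    have := hk' k
    simpa [h2, he.1] using this

end BranchP

open BranchP

theorem br : S_Br := by
  intro A _ d P r₀ hP h0 h1
  let Φ := (MvPolynomial.aeval (yhat A d) :
    MvPolynomial (Fin (d + 1)) A →ₐ[A] PowerSeries (MvPolynomial (Fin d) A)).toRingHom
  obtain ⟨r, hr, hr0⟩ := HenselianRing.is_henselian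
    (I := Ideal.span {(PowerSeries.X : PowerSeries (MvPolynomial (Fin d) A))}) (P.map Φ) (hP.map Φ)
    (PowerSeries.C (MvPolynomial.C r₀)) (by
      rw [Ideal.mem_span_singleton, PowerSeries.X_dvd_iff, ← ev2_eq_eval_map,
        const_ev2 _ r₀ (by simp), h0, map_zero]) (by
      refine IsUnit.map _ ?_
      rw [PowerSeries.isUnit_iff_constantCoeff, derivative_map, ← ev2_eq_eval_map,
        const_ev2 _ r₀ (by simp)]
      exact h1.map _)
  refine ⟨r, ?_, ?_⟩
  · rw [ev2_eq_eval_map]; exact hr
  · rw [Ideal.mem_span_singleton, PowerSeries.X_dvd_iff, map_sub, sub_eq_zero] at hr0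
    simpa using hr0

theorem brind : S_BrInd := by
  intro K _ d P hP hpr r hr
  have hinj : Function.Injective (MvPolynomial.aeval (yhat K d) :
      MvPolynomial (Fin (d + 1)) K →ₐ[K] PowerSeries (MvPolynomial (Fin d) K)).toRingHom := by
    rw [← coe_Ph]
    exact (coe_injective _).comp Ph_inj
  have key : ∀ G, ev2 (yhat K d) r G = 0 → P ∣ G := by
    let : Algebra (MvPolynomial (Fin (d + 1)) K) (PowerSeries (MvPolynomial (Fin d) K)) :=
      (MvPolynomial.aeval (yhat K d) :
        MvPolynomial (Fin (d + 1)) K →ₐ[K] PowerSeries (MvPolynomial (Fin d) K)).toRingHom.toAlgebra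
    have : Module.IsTorsionFree (MvPolynomial (Fin (d + 1)) K)
        (PowerSeries (MvPolynomial (Fin d) K)) :=
      Module.isTorsionFree_iff_algebraMap_injective.2 hinj
    have hint : IsIntegral (MvPolynomial (Fin (d + 1)) K) r := ⟨P, hP, hr⟩
    have h1 : minpoly (MvPolynomial (Fin (d + 1)) K) r ∣ P :=
      minpoly.isIntegrallyClosed_dvd hint hr
    have h2 : P ∣ minpoly (MvPolynomial (Fin (d + 1)) K) r :=
      ((hpr.irreducible.dvd_iff.1 h1).resolve_left (minpoly.not_isUnit _ _)).dvd
    intro G hG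
    exact h2.trans (minpoly.isIntegrallyClosed_dvd hint hG)
  refine ⟨key, fun a ha => ?_⟩
  choose N hN using fun j => Ph_den (a j)
  choose g hg using fun j => Ph_shift (Finset.le_sup (f := N) (Finset.mem_univ j)) (hN j)
  have hG : (∑ j : Fin P.natDegree, monomial (j : ℕ) (g j)) = 0 := by
    refine eq_zero_of_dvd_of_degree_lt (key _ ?_) ?_
    · have : ev2 (yhat K d) r (∑ j : Fin P.natDegree, monomial (j : ℕ) (g j)) =
          PowerSeries.X ^ (Finset.univ.sup N) *
            ∑ j, (a j : PowerSeries (MvPolynomial (Fin d) K)) * r ^ (j : ℕ) := by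
        rw [map_sum, Finset.mul_sum]
        refine Finset.sum_congr rfl fun j _ => ?_
        rw [ev2_yhat, map_monomial, eval₂_monomial, ← hg]
        simp [mul_assoc]
      rw [this, ha, mul_zero]
    · rw [degree_eq_natDegree hP.ne_zero]
      refine (degree_sum_le _ _).trans_lt ((Finset.sup_lt_iff (WithBot.bot_lt_coe _)).2 ?_)
      intro j _
      exact (degree_monomial_le _ _).trans_lt (by exact_mod_cast j.2)
  intro j
  have h2 := congrArg (fun q => q.coeff j) hG
  simp only [finsetSum_coeff, coeff_monomial, coeff_zero] at h2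
  rw [Finset.sum_eq_single j (fun b _ hb => if_neg fun h => hb (Fin.ext h)) (by simp)] at h2
  have h3 := hg j
  rw [if_pos rfl] at h2
  rw [h2, map_zero] at h3
  exact (mul_eq_zero.1 h3).resolve_left (pow_ne_zero _ X_ne_zero)

theorem spec : S_Spec := by
  intro A _ _ ι κ _ w hw
  obtain ⟨θ, h0, h⟩ := spec_fin (Fintype.card ι) (w ∘ (Fintype.equivFin ι).symm)
    ((linearIndependent_equiv _).2 hw)
  exact ⟨θ, h0, fun B _ _ e he =>
    (linearIndependent_equiv (Fintype.equivFin ι).symm).1 (h B e he)⟩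

theorem noeth (hBr : S_Br) (hI : S_BrInd) (hS : S_Spec) : S_Noeth := by
  intro A Ω _ _ _ _ hinj d P r₀ hP hpr h0 h1
  obtain ⟨r, hr, -⟩ := hBr A d P r₀ hP h0 h1
  obtain ⟨m, hm⟩ := exists_deg (P.map (Ph A d))
  have hind : Ind r m P.natDegree := by
    refine ind_inj (MvPolynomial.map (algebraMap A Ω)) (MvPolynomial.map_injective _ hinj) ?_
    rw [← hP.natDegree_map (MvPolynomial.map (algebraMap A Ω))]
    refine ind_of (hI Ω d _ (hP.map _) hpr _ ?_).2 m
    rw [← map_ev2_yhat, hr, map_zero]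
  obtain ⟨θ, hθ0, hθ⟩ := ind_spec hS hind
  obtain ⟨a, ha⟩ := MvPolynomial.ne_zero_iff.1 hθ0
  refine ⟨θ.coeff a, ha, fun k _ e he => ?_⟩
  have hk := hθ (MvPolynomial (Fin d) k) (MvPolynomial.map e) (fun h => he (by
    rw [← MvPolynomial.coeff_map, h, MvPolynomial.coeff_zero]))
  have hroot : ev2 (yhat k d) (PowerSeries.map (MvPolynomial.map e) r)
      (P.map (MvPolynomial.map e)) = 0 := by rw [← map_ev2_yhat, hr, map_zero]
  have hmon := hP.map (MvPolynomial.map (σ := Fin (d + 1)) e)
  have aux : ∀ G H : (MvPolynomial (Fin (d + 1)) k)[X], G.Monic → H.Monic →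
      G * H = P.map (MvPolynomial.map e) →
      ev2 (yhat k d) (PowerSeries.map (MvPolynomial.map e) r) G = 0 → H = 1 := by
    intro G H hG hH hGH hG0
    by_contra hH1
    have hd : G.natDegree < P.natDegree := by
      rw [← hP.natDegree_map (MvPolynomial.map e), ← hGH, hG.natDegree_mul hH]
      have := (hH.natDegree_pos).2 hH1
      omega
    refine (hG.map (Ph k d)).ne_zero (zero_of_ind hk (natDegree_map_le.trans_lt hd) ?_
      (by rw [← ev2_yhat, hG0]))
    refine deg_of_dvd (Q := (P.map (MvPolynomial.map e)).map (Ph k d))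
      (Polynomial.map_dvd _ ⟨H, hGH.symm⟩) (hmon.map _).ne_zero fun j => ?_
    rw [Polynomial.map_map, Ph_map, ← Polynomial.map_map, coeff_map]
    exact natDegree_map_le.trans (hm j)
  refine Irreducible.prime ((irreducible_of_monic hmon fun h => ?_).2 fun G H hG hH hGH => ?_)
  · rw [h, map_one] at hroot
    exact one_ne_zero hroot
  · rw [← hGH, map_mul, mul_eq_zero] at hroot
    rcases hroot with h | h
    · exact Or.inr (aux G H hG hH hGH h)
    · exact Or.inl (aux H G hH hG (by rw [mul_comm, hGH]) h)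

theorem hilb (hBr : S_Br) (hI : S_BrInd) (hS : S_Spec) (hSpr : S_Spr) : S_Hilb := by
  intro K _ v p hp hv d P y₀ r₀ hP hpr h0 h1 η hη
  set P' := P.map (transl y₀).toRingEquiv.toRingHom with hP'
  have hm' : P'.Monic := hP.map _
  have hpr' : Prime P' :=
    (MulEquiv.prime_iff (mapEquiv (transl y₀).toRingEquiv)).2 hpr
  have h0' : ev2 (fun _ => (0 : K)) r₀ P' = 0 := by
    rw [hP', ev2_map_transl]; simpa using h0
  have h1' : ev2 (fun _ => (0 : K)) r₀ (derivative P') ≠ 0 := by
    rw [hP', derivative_map, ev2_map_transl]; simpa using h1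
  obtain ⟨r, hr, hr0⟩ := hBr K d P' r₀ hm' h0' h1'.isUnit
  obtain ⟨c, hc⟩ := exists_deg (P'.map (Ph K d))
  obtain ⟨θ, hθ0, hθ⟩ := ind_spec hS (ind_of (hI K d P' hm' hpr' r hr).2 (c * P'.natDegree ^ 2 + 1))
  obtain ⟨w, hw⟩ : ∃ w : Fin d → K, MvPolynomial.eval w θ ≠ 0 := by
    by_contra h
    push Not at h
    exact hθ0 (MvPolynomial.funext fun x => by rw [h x, map_zero])
  have hind := hθ K (MvPolynomial.eval w) hw
  set P₁ := (P'.map (Ph K d)).map (mapRingHom (MvPolynomial.eval w)) with hP₁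
  have hm₁ : P₁.Monic := (hm'.map _).map _
  have hd₁ : P₁.natDegree = P'.natDegree := by
    rw [hP₁, (hm'.map _).natDegree_map, hm'.natDegree_map]
  have hcc : PowerSeries.constantCoeff (PowerSeries.map (MvPolynomial.eval w) r) = r₀ := by
    rw [← PowerSeries.coeff_zero_eq_constantCoeff_apply, PowerSeries.coeff_map,
      PowerSeries.coeff_zero_eq_constantCoeff_apply, hr0, MvPolynomial.eval_C]
  set M : ℝ≥0 := 1 + ∑ i, v (algebraMap K Qb (w i)) with hM
  have hM0 : 0 < M := by positivity
  have hM1 : η / M ≤ η := div_le_self zero_le (by rw [hM]; exact le_self_add)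
  obtain ⟨ℓ, s, hl, hs, hs0, hdeg⟩ := hSpr K v p hp hv P₁ (PowerSeries.map (MvPolynomial.eval w) r)
    c (c * P₁.natDegree ^ 2 + 1) hm₁ (by rw [hP₁, ← map_eval₂, ← ev2_yhat, hr, map_zero])
    (by
      rw [hcc, hP₁, derivative_map, derivative_map, eval₂_map, eval₂_map]
      convert h1' using 1
      unfold ev2
      rw [coe_eval₂RingHom]
      congr 1
      refine MvPolynomial.ringHom_ext (fun a => ?_) (fun i => ?_)
      · simp
      · refine Fin.cases ?_ (fun i => ?_) i <;> simp)
    (fun i => by rw [hP₁, coeff_map]; exact natDegree_map_le.trans (hc i))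
    (Nat.lt_succ_self _)
    (by
      rw [← hd₁] at hind
      rw [Fintype.linearIndependent_iff]
      intro g hg
      refine hind g ?_
      simpa only [PowerSeries.smul_eq_C_mul] using hg)
    (η / M) (div_pos hη hM0)
  refine ⟨fun l => Fin.cons (α := fun _ => K) ((p : K) ^ ℓ) (fun i => (p : K) ^ ℓ * w i) l + y₀ l,
    s, ?_, fun l => ?_, ?_, ?_⟩
  · simp only [map_add]
    rw [← ev2_map_transl, ← hP', ← hs, hP₁, eval₂_map, eval₂_map]
    unfold ev2
    rw [coe_eval₂RingHom]
    congr 1
    refine MvPolynomial.ringHom_ext (fun a => ?_) (fun i => ?_)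
    · simp
    · refine Fin.cases ?_ (fun i => ?_) i
      · simp
      · simp only [RingHom.comp_apply, Ph_succ, map_mul]
        simp
  · rw [map_add, add_sub_cancel_right]
    refine Fin.cases ?_ (fun i => ?_) l
    · simpa using hl.trans hM1
    · have h2 : v (algebraMap K Qb (w i)) ≤ M := by
        rw [hM]
        exact (Finset.single_le_sum (f := fun i => v (algebraMap K Qb (w i)))
          (fun _ _ => zero_le) (Finset.mem_univ i)).trans le_add_self
      rw [Fin.cons_succ, map_mul, map_mul, map_pow, map_natCast]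
      calc v ((p : Qb) ^ ℓ) * v (algebraMap K Qb (w i)) ≤ η / M * M := by gcongr
        _ = η := div_mul_cancel₀ _ hM0.ne'
  · rw [hcc] at hs0
    exact hs0.trans hM1
  · rw [hd₁, hP', hP.natDegree_map] at hdeg
    exact hdeg

end Pool.Agent.P.MP_38c95b_ag
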