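import Pool.Agent.P.MP_38c95b_ag.Tools

/-!
From the affine cone statement to the projective statement.
-/

set_option autoImplicit false

open Polynomial

namespace Pool.Agent.P.MP_38c95b_ag

theorem cone_eval_smul {K σ : Type} [Field K] {h : MvPolynomial σ K} {e : ℕ}
    (hh : h.IsHomogeneous e) (t : K) (x : σ → K) :
    MvPolynomial.eval (fun i => t * x i) h = t ^ e * MvPolynomial.eval x h := by
  classical
  rw [MvPolynomial.eval_eq, MvPolynomial.eval_eq, Finset.mul_sum]
  refine Finset.sum_congr rfl fun a ha => ?_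
  have hdeg : ∑ i ∈ a.support, a i = e := by
    have := hh (MvPolynomial.mem_support_iff.mp ha)
    rw [← this, Finsupp.weight_apply, Finsupp.sum]
    simp
  simp only [mul_pow, Finset.prod_mul_distrib, Finset.prod_pow_eq_pow_sum, hdeg]
  ring

theorem cone_component_zero {K σ : Type} [Field K] [Infinite K] (h : MvPolynomial σ K)
    (x : σ → K) (hx : ∀ t : K, MvPolynomial.eval (fun i => t * x i) h = 0) (e : ℕ) :
    MvPolynomial.eval x (MvPolynomial.homogeneousComponent e h) = 0 := by
  by_cases he : h.totalDegree < e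
  · rw [MvPolynomial.homogeneousComponent_eq_zero _ _ he, map_zero]
  have hpoly : (∑ i ∈ Finset.range (h.totalDegree + 1), Polynomial.monomial i
      (MvPolynomial.eval x (MvPolynomial.homogeneousComponent i h))) = 0 := by
    apply Polynomial.funext
    intro t
    have := hx t
    rw [← MvPolynomial.sum_homogeneousComponent h, map_sum] at this
    rw [Polynomial.eval_finsetSum, Polynomial.eval_zero, ← this]
    refine Finset.sum_congr rfl fun i _ => ?_
    rw [cone_eval_smul (MvPolynomial.homogeneousComponent_isHomogeneous i h),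
      Polynomial.eval_monomial, mul_comm]
  have := congrArg (Polynomial.coeff · e) hpoly
  simp only [Polynomial.finsetSum_coeff, Polynomial.coeff_monomial, Finset.sum_ite_eq',
    Finset.mem_range, Polynomial.coeff_zero] at this
  rwa [if_pos (by omega)] at this

theorem cone_of_main (hMain : S_Main) :
    ∀ (N q : ℕ) (f : Fin (N + 1) → MvPolynomial (Fin (N + 1)) (AlgebraicClosure ℚ))
      (S : Set (MvPolynomial (Fin (N + 1)) (AlgebraicClosure ℚ))),
      2 ≤ q →
      (∀ i, (f i).IsHomogeneous q) →
      (∀ x : Fin (N + 1) → AlgebraicClosure ℚ,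
          (∀ i, MvPolynomial.eval x (f i) = 0) → x = 0) →
      (∀ p ∈ S, ∃ d : ℕ, p.IsHomogeneous d) →
      (∃ x : Fin (N + 1) → AlgebraicClosure ℚ,
          x ≠ 0 ∧ ∀ p ∈ S, MvPolynomial.eval x p = 0) →
      (∀ (g h : MvPolynomial (Fin (N + 1)) (AlgebraicClosure ℚ)) (dg dh : ℕ),
          g.IsHomogeneous dg → h.IsHomogeneous dh →
          (∀ x : Fin (N + 1) → AlgebraicClosure ℚ,
              (∀ p ∈ S, MvPolynomial.eval x p = 0) →
              MvPolynomial.eval x g * MvPolynomial.eval x h = 0) →
          (∀ x : Fin (N + 1) → AlgebraicClosure ℚ,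
              (∀ p ∈ S, MvPolynomial.eval x p = 0) → MvPolynomial.eval x g = 0) ∨
          (∀ x : Fin (N + 1) → AlgebraicClosure ℚ,
              (∀ p ∈ S, MvPolynomial.eval x p = 0) → MvPolynomial.eval x h = 0)) →
      (∀ x : Fin (N + 1) → AlgebraicClosure ℚ,
          (∀ p ∈ S, MvPolynomial.eval x p = 0) →
          ∀ p ∈ S, MvPolynomial.eval (fun i => MvPolynomial.eval x (f i)) p = 0) →
      ∃ a : Fin (N + 1) → AlgebraicClosure ℚ,
        a ≠ 0 ∧ (∀ p ∈ S, MvPolynomial.eval a p = 0) ∧
        ∀ (g : MvPolynomial (Fin (N + 1)) (AlgebraicClosure ℚ)) (d : ℕ),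
          g.IsHomogeneous d →
          (∀ n : ℕ, MvPolynomial.eval
              ((fun y : Fin (N + 1) → AlgebraicClosure ℚ =>
                  fun i => MvPolynomial.eval y (f i))^[n] a) g = 0) →
          ∀ x : Fin (N + 1) → AlgebraicClosure ℚ,
            (∀ p ∈ S, MvPolynomial.eval x p = 0) → MvPolynomial.eval x g = 0 := by
  classical
  intro N q f S hq hf hz hS hne hirr hinv
  set C : Set (Fin (N + 1) → Qb) := {x | ∀ p ∈ S, MvPolynomial.eval x p = 0} with hC
  set I : Ideal (MvPolynomial (Fin (N + 1)) Qb) := MvPolynomial.vanishingIdeal Qb C with hI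
  have hmem : ∀ h, h ∈ I ↔ ∀ x ∈ C, MvPolynomial.eval x h = 0 := fun h => by
    rw [hI, MvPolynomial.mem_vanishingIdeal_iff]
    simp only [MvPolynomial.aeval_eq_eval]
  have hcone : ∀ x ∈ C, ∀ t : Qb, (fun i => t * x i) ∈ C := by
    intro x hx t p hp
    obtain ⟨e, he⟩ := hS p hp
    rw [cone_eval_smul he, hx p hp, mul_zero]
  obtain ⟨x₁, hx₁, hx₁C⟩ := hne
  have hprime : I.IsPrime := by
    let := MvPolynomial.gradedAlgebra (σ := Fin (N + 1)) (R := Qb)
    refine Ideal.IsHomogeneous.isPrime_of_homogeneous_mem_or_mem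
      (𝒜 := MvPolynomial.homogeneousSubmodule (Fin (N + 1)) Qb) ?_ ?_ ?_
    · intro e h hh
      have : ((DirectSum.decompose (MvPolynomial.homogeneousSubmodule (Fin (N + 1)) Qb) h e :
          MvPolynomial.homogeneousSubmodule (Fin (N + 1)) Qb e) : MvPolynomial (Fin (N + 1)) Qb) =
          MvPolynomial.homogeneousComponent e h :=
        MvPolynomial.decomposition.decompose'_apply h e
      rw [this]
      refine (hmem _).mpr fun x hx => cone_component_zero h x (fun t => ?_) e
      exact (hmem h).mp hh _ (hcone x hx t)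
    · intro htop
      have : (1 : MvPolynomial (Fin (N + 1)) Qb) ∈ I := by rw [htop]; trivial
      simpa using (hmem 1).mp this x₁ hx₁C
    · rintro g h ⟨dg, hg⟩ ⟨dh, hh⟩ hgh
      rw [hmem, hmem]
      refine hirr g h dg dh hg hh fun x hx => ?_
      rw [← map_mul]
      exact (hmem _).mp hgh x hx
  have hstab : ∀ h ∈ I, MvPolynomial.aeval f h ∈ I := by
    intro h hh
    rw [hmem]
    intro x hx
    have := aeval_dyn f x h
    simp only [MvPolynomial.aeval_eq_eval] at this
    rw [this]
    exact (hmem h).mp hh _ (hinv x hx)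
  obtain ⟨α, hα, hdense⟩ := hMain (N + 1) q f I hq hf
    (fun x hx => hz x fun i => hx i) hprime hstab
  refine ⟨α, ?_, fun p hp => hα p ((hmem p).mpr fun x hx => hx p hp), fun g d _ hg x hx =>
    (hmem g).mp (hdense g fun m => hg m) x hx⟩
  rintro rfl
  apply hx₁
  funext i
  have h0 : dyn f (0 : Fin (N + 1) → Qb) = 0 := by
    funext j
    have := cone_eval_smul (hf j) 0 (0 : Fin (N + 1) → Qb)
    rw [zero_pow (by omega), zero_mul] at this
    simpa [dyn, Pi.zero_def] using this
  have := (hmem _).mp (hdense (MvPolynomial.X i) fun m => by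
    rw [Function.iterate_fixed h0]; simp) x₁ hx₁C
  simpa using this

end Pool.Agent.P.MP_38c95b_ag
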