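import Pool.Agent.P.MP_38c95b_ag.Stmts

/-!
Unramified points, standard form at such points, and the geometric set-up.
-/

set_option autoImplicit false

open Polynomial

namespace Pool.Agent.P.MP_38c95b_ag

namespace EtaleP

theorem unr_zero {K R σ : Type} [Field K] [CommRing R] [Algebra K R] {n : ℕ} (x : Fin n → R)
    (u : σ → R) (Pi : Fin n → (MvPolynomial σ K)[X]) (hx : Algebra.adjoin K (Set.range x) = ⊤)
    (h : ∀ i, ev2 u (x i) (Pi i) = 0) (ξ : R →ₐ[K] K)
    (hξ : ∀ i, ξ (ev2 u (x i) (derivative (Pi i))) ≠ 0) :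
    ∃ e, ξ e ≠ 0 ∧ ∀ b, ξ b = 0 →
      e * b ∈ Ideal.span (Set.range fun l => u l - algebraMap K R (ξ (u l))) := by
  set J := Ideal.span (Set.range fun l => u l - algebraMap K R (ξ (u l))) with hJ
  have h1 : ∀ i, ∃ q, ξ q ≠ 0 ∧ q * (x i - algebraMap K R (ξ (x i))) ∈ J := fun i => by
    obtain ⟨k, hk⟩ := ((Pi i).map (MvPolynomial.aeval u : MvPolynomial σ K →ₐ[K] R).toRingHom
      ).binomExpansion (x i) (algebraMap K R (ξ (x i)) - x i)
    rw [derivative_map, ← ev2_eq_eval_map, ← ev2_eq_eval_map, ← ev2_eq_eval_map, h i,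
      add_sub_cancel] at hk
    have h2 : ev2 u (algebraMap K R (ξ (x i))) (Pi i) ∈ J := by
      rw [← Ideal.Quotient.eq_zero_iff_mem, ← Ideal.Quotient.mkₐ_eq_mk K, map_ev2]
      have e1 : (fun l => Ideal.Quotient.mkₐ K J (u l)) =
          fun l => Algebra.ofId K (R ⧸ J) (ξ (u l)) := by
        funext l
        rw [Algebra.ofId_apply, ← (Ideal.Quotient.mkₐ K J).commutes, Ideal.Quotient.mkₐ_eq_mk,
          Ideal.Quotient.eq]
        exact Ideal.subset_span ⟨l, rfl⟩
      rw [e1, AlgHom.commutes, ← Algebra.ofId_apply, ← map_ev2 (Algebra.ofId K (R ⧸ J)), ← map_ev2,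
        h i, map_zero, map_zero]
    refine ⟨ev2 u (x i) (derivative (Pi i)) + k * (algebraMap K R (ξ (x i)) - x i),
      by simpa using hξ i, ?_⟩
    have e2 : (ev2 u (x i) (derivative (Pi i)) + k * (algebraMap K R (ξ (x i)) - x i)) *
        (x i - algebraMap K R (ξ (x i))) = -ev2 u (algebraMap K R (ξ (x i))) (Pi i) := by
      rw [hk]; ring
    rw [e2]
    exact J.neg_mem h2
  choose q hq1 hq2 using h1
  refine ⟨∏ i, q i, by rw [map_prod]; exact Finset.prod_ne_zero_iff.2 fun i _ => hq1 i,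
    fun b hb => ?_⟩
  have h3 : ∀ c ∈ Algebra.adjoin K (Set.range x),
      (∏ i, q i) * (c - algebraMap K R (ξ c)) ∈ J := fun c hc => by
    induction hc using Algebra.adjoin_induction with
    | mem c hc =>
      obtain ⟨i, rfl⟩ := hc
      rw [← Finset.prod_erase_mul _ _ (Finset.mem_univ i), mul_assoc]
      exact J.mul_mem_left _ (hq2 i)
    | algebraMap a => simp
    | add a c _ _ ha hc =>
      have := J.add_mem ha hc
      rwa [← mul_add, sub_add_sub_comm, ← map_add, ← map_add] at this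
    | mul a c _ _ ha hc =>
      have := J.add_mem (J.mul_mem_left c ha) (J.mul_mem_left (algebraMap K R (ξ a)) hc)
      convert this using 1
      rw [map_mul, map_mul]
      ring
  have := h3 b (hx ▸ Algebra.mem_top)
  rwa [hb, map_zero, sub_zero] at this

theorem cert {K R σ : Type} [Field K] [CharZero K] [CommRing R] [IsDomain R] [Algebra K R]
    (u : σ → R) (hu : (MvPolynomial.aeval u : MvPolynomial σ K →ₐ[K] R).Finite) (b : R) :
    ∃ P : (MvPolynomial σ K)[X], P.Monic ∧ ev2 u b P = 0 ∧ ev2 u b (derivative P) ≠ 0 := by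
  let : Algebra (MvPolynomial σ K) R :=
    (MvPolynomial.aeval u : MvPolynomial σ K →ₐ[K] R).toRingHom.toAlgebra
  have hf : Module.Finite (MvPolynomial σ K) R := hu
  have hb : IsIntegral (MvPolynomial σ K) b := Algebra.IsIntegral.isIntegral b
  have hm := minpoly.monic hb
  refine ⟨minpoly _ b, hm, minpoly.aeval _ b, fun h => ?_⟩
  obtain ⟨k, hk⟩ : ∃ k, (minpoly (MvPolynomial σ K) b).natDegree = k + 1 :=
    ⟨_, (Nat.succ_pred_eq_of_pos (minpoly.natDegree_pos hb)).symm⟩
  have hd : (C (MvPolynomial.C ((k : K) + 1)⁻¹) *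
      derivative (minpoly (MvPolynomial σ K) b)).natDegree ≤ k :=
    (natDegree_C_mul_le _ _).trans ((natDegree_derivative_le _).trans (by omega))
  have hmon : (C (MvPolynomial.C ((k : K) + 1)⁻¹) *
      derivative (minpoly (MvPolynomial σ K) b)).Monic := by
    refine monic_of_natDegree_le_of_coeff_eq_one k hd ?_
    rw [coeff_C_mul, coeff_derivative, ← hk, hm.coeff_natDegree, one_mul,
      show ((k : MvPolynomial σ K) + 1) = MvPolynomial.C ((k : K) + 1) by simp, ← map_mul,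
      inv_mul_cancel₀ (Nat.cast_add_one_ne_zero k), map_one]
  have h2 := minpoly.min (MvPolynomial σ K) b hmon (by
    rw [map_mul]
    exact mul_eq_zero_of_right _ h)
  have h3 := natDegree_le_natDegree h2
  omega

end EtaleP

open EtaleP

theorem unr : S_Unr := by
  intro K R _ _ _ n d x y φ Pi hx h m
  induction m with
  | zero =>
    intro ξ hξ
    simpa using unr_zero x (fun l => φ (y l)) Pi hx h ξ fun i => by simpa using hξ 0 i
  | succ m ih =>
    intro ξ hξ
    obtain ⟨e0, h0, h1⟩ := unr_zero x (fun l => φ (y l)) Pi hx h ξ fun i => by simpa using hξ 0 i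
    obtain ⟨e1, h2, h3⟩ := ih (ξ.comp φ) fun j i => by
      have := hξ (j + 1) i
      rwa [pow_succ', AlgHom.mul_apply] at this
    refine ⟨φ e1 * e0, by rw [map_mul]; exact mul_ne_zero h2 h0, fun b hb => ?_⟩
    rw [mul_assoc]
    have h4 := h1 b hb
    generalize e0 * b = z at h4
    induction h4 using Submodule.span_induction with
    | mem z hz =>
      obtain ⟨l, rfl⟩ := hz
      have h5 := Ideal.mem_map_of_mem φ (h3 (y l - algebraMap K R (ξ (φ (y l)))) (by simp))
      rw [Ideal.map_span, ← Set.range_comp, map_mul, map_sub, AlgHom.commutes] at h5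
      convert h5 using 3
      funext l
      simp [pow_succ' φ (m + 1)]
    | zero => simp
    | add a c _ _ ha hc => rw [mul_add]; exact add_mem ha hc
    | smul c a _ ha => rw [smul_eq_mul, mul_left_comm]; exact Ideal.mul_mem_left _ _ ha

open scoped Pointwise in
theorem etale : S_Etale := by
  intro k A B _ _ _ _ _ _ _ _ hinj ξ hsurj e₀ he₀ hb
  have : FaithfulSMul A B := (faithfulSMul_iff_algebraMap_injective A B).2 hinj
  obtain ⟨a₀, ha₀⟩ := hsurj (ξ e₀)⁻¹
  have ha₀' : ξ (algebraMap A B a₀) = (ξ e₀)⁻¹ := ha₀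
  obtain ⟨r, hr1, hr⟩ : ∃ r : B, ξ r = 1 ∧ ∀ b, ξ b = 0 → r * b ∈
      Ideal.map (algebraMap A B) (RingHom.ker (ξ.comp (algebraMap A B))) :=
    ⟨algebraMap A B a₀ * e₀, by rw [map_mul, ha₀', inv_mul_cancel₀ he₀], fun b h => by
      rw [mul_assoc]; exact Ideal.mul_mem_left _ _ (hb b h)⟩
  let S := Algebra.adjoin A {r}
  have hrS : r ∈ S := Algebra.subset_adjoin rfl
  have : Module.Finite S B := Module.Finite.of_restrictScalars_finite A S B
  let nn : Ideal S := RingHom.ker (ξ.comp (algebraMap S B))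
  have hp : ∀ z ∈ Ideal.map (algebraMap A B) (RingHom.ker (ξ.comp (algebraMap A B))),
      ∀ c, c * z ∈ nn • (⊤ : Submodule S B) := fun z hz => by
    induction hz using Submodule.span_induction with
    | mem z hz =>
      obtain ⟨p, hp, rfl⟩ := hz
      intro c
      rw [mul_comm]
      exact Submodule.smul_mem_smul (r := algebraMap A S p) hp (Submodule.mem_top (x := c))
    | zero => simp
    | add a c _ _ ha hc => intro w; rw [mul_add]; exact add_mem (ha w) (hc w)
    | smul c a _ ha => intro w; rw [smul_eq_mul, ← mul_assoc]; exact ha _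
  obtain ⟨e, he1, he⟩ := Submodule.exists_sub_one_mem_and_smul_le_of_fg_of_le_sup (I := nn)
    (N := LinearMap.range (Algebra.linearMap S B)) (N' := ⊤) (P := ⊤) Module.Finite.fg_top le_rfl
    (fun b _ => by
      obtain ⟨a, ha⟩ := hsurj (ξ b)
      have ha' : ξ (algebraMap A B a) = ξ b := ha
      have e1 : b = algebraMap A B a * r + (1 * (r * (b - algebraMap A B a)) + (1 - r) * b) := by
        ring
      rw [e1]
      refine Submodule.add_mem_sup ⟨⟨_, S.mul_mem (S.algebraMap_mem a) hrS⟩, rfl⟩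
        (add_mem (hp _ (hr _ (by rw [map_sub, ha', sub_self])) 1) ?_)
      exact Submodule.smul_mem_smul (r := (⟨1 - r, S.sub_mem S.one_mem hrS⟩ : S))
        (show ξ (1 - r) = 0 by rw [map_sub, map_one, hr1, sub_self]) (Submodule.mem_top (x := b)))
  have he2 : ξ (e : B) = 1 := by
    have h1 : ξ ((e : B) - 1) = 0 := he1
    rwa [map_sub, map_one, sub_eq_zero] at h1
  have he3 : ∀ b : B, (e : B) * b ∈ S := fun b => by
    obtain ⟨s, hs⟩ := he (Submodule.smul_mem_pointwise_smul b e ⊤ Submodule.mem_top)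
    have h1 : (s : B) = (e : B) * b := hs
    rw [← h1]
    exact s.2
  refine ⟨r, e, by rw [he2]; exact one_ne_zero, he3, fun hder => ?_⟩
  have he4 : ∀ b : B, ∃ G : A[X], aeval r G = (e : B) * b := fun b => by
    have h1 : (e : B) * b ∈ Algebra.adjoin A {r} := he3 b
    exact (Algebra.adjoin_singleton_eq_range_aeval A r).le h1
  have hq : ∀ z ∈ Ideal.map (algebraMap A B) (RingHom.ker (ξ.comp (algebraMap A B))),
      ∀ c, ∃ G : A[X], aeval r G = (e : B) * (c * z) ∧ ξ (aeval r (derivative G)) = 0 :=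
    fun z hz => by
      induction hz using Submodule.span_induction with
      | mem z hz =>
        obtain ⟨p, hp, rfl⟩ := hz
        intro c
        obtain ⟨G, hG⟩ := he4 c
        have hp' : ξ (algebraMap A B p) = 0 := hp
        exact ⟨C p * G, by rw [map_mul, aeval_C, hG]; ring, by simp [hp']⟩
      | zero => exact fun _ => ⟨0, by simp, by simp⟩
      | add a c _ _ ha hc =>
        intro w
        obtain ⟨G, h1, h2⟩ := ha w
        obtain ⟨H, h3, h4⟩ := hc w
        exact ⟨G + H, by rw [map_add, h1, h3]; ring, by simp [h2, h4]⟩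
      | smul c a _ ha => intro w; rw [smul_eq_mul, ← mul_assoc w]; exact ha _
  obtain ⟨G, hG1, hG2⟩ := hq _ (hr (r - 1) (by rw [map_sub, map_one, hr1, sub_self])) 1
  obtain ⟨ε, hε⟩ := he4 1
  obtain ⟨H, hH⟩ := minpoly.isIntegrallyClosed_dvd (R := A) (Algebra.IsIntegral.isIntegral r)
    (p := ε * (X * (X - 1)) - G) (by simp [hG1, hε])
  have h5 := congrArg (fun F : A[X] => ξ (aeval r (derivative F))) hH
  simp [hG2, hder, hε, he2, hr1] at h5

theorem prim (h : S_Etale) : S_Prim := by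
  intro K R _ _ _ _ d y hy hfin ξ e₀ he₀ hb
  let : Algebra (MvPolynomial (Fin d) K) R :=
    (MvPolynomial.aeval y : MvPolynomial (Fin d) K →ₐ[K] R).toRingHom.toAlgebra
  have hf : Module.Finite (MvPolynomial (Fin d) K) R := hfin
  have hal : ∀ q, algebraMap (MvPolynomial (Fin d) K) R q = MvPolynomial.aeval y q := fun _ => rfl
  have hinj : Function.Injective (algebraMap (MvPolynomial (Fin d) K) R) := hy
  have : FaithfulSMul (MvPolynomial (Fin d) K) R :=
    (faithfulSMul_iff_algebraMap_injective _ R).2 hinj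
  obtain ⟨r, e, h1, h2, h3⟩ := h K (MvPolynomial (Fin d) K) R hinj ξ.toRingHom
    (fun c => ⟨MvPolynomial.C c, by simp [hal]⟩) e₀ he₀ (fun b h0 => by
      refine Ideal.span_le.2 ?_ (hb b h0)
      rintro _ ⟨l, rfl⟩
      have e1 : y l - algebraMap K R (ξ (y l)) = algebraMap (MvPolynomial (Fin d) K) R
          (MvPolynomial.X l - MvPolynomial.C (ξ (y l))) := by simp [hal]
      beta_reduce
      rw [e1]
      exact Ideal.mem_map_of_mem _ (by simp [RingHom.mem_ker, hal]))
  have hr : IsIntegral (MvPolynomial (Fin d) K) r := Algebra.IsIntegral.isIntegral r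
  have he4 : ∀ b : R, ∃ G : (MvPolynomial (Fin d) K)[X], ev2 y r G = e * b := fun b => by
    have h4 := h2 b
    rwa [Algebra.adjoin_singleton_eq_range_aeval] at h4
  obtain ⟨ε, hε⟩ := he4 1
  rw [mul_one] at hε
  refine ⟨r, minpoly _ r, ε, minpoly.monic hr, minpoly.prime_of_isIntegrallyClosed hr,
    fun G => minpoly.isIntegrallyClosed_dvd_iff hr G, ?_, ?_, fun b => ?_⟩
  · rw [← map_ev2]
    exact h3
  · rw [← map_ev2, hε]
    exact h1
  · obtain ⟨G, hG⟩ := he4 b
    exact ⟨G, by rw [hε, hG]⟩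

theorem setup (hF : S_Fin) (hU : S_Unr) (hP : S_Prim) : S_Setup := by
  intro n q f I hq hf hpow hI hst hpts
  let mk := Ideal.Quotient.mkₐ Qb I
  have hmk : ∀ z, mk z = 0 ↔ z ∈ I := fun z => Ideal.Quotient.eq_zero_iff_mem
  have hsurj : Function.Surjective mk := Ideal.Quotient.mkₐ_surjective Qb I
  let x : Fin n → MvPolynomial (Fin n) Qb ⧸ I := fun i => mk (MvPolynomial.X i)
  have hax : MvPolynomial.aeval x = mk := by ext i; simp [x]
  have hx : Algebra.adjoin Qb (Set.range x) = ⊤ := by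
    rw [Algebra.adjoin_range_eq_range_aeval, hax, AlgHom.range_eq_top]
    exact hsurj
  have hpt : ∀ z ∈ MvPolynomial.zeroLocus Qb I, ∃ ξ : (MvPolynomial (Fin n) Qb ⧸ I) →ₐ[Qb] Qb,
      ∀ g, ξ (mk g) = MvPolynomial.aeval z g := fun z hz =>
    ⟨Ideal.Quotient.liftₐ I (MvPolynomial.aeval z) hz, fun _ => rfl⟩
  obtain ⟨φ, hφ⟩ : ∃ φ : (MvPolynomial (Fin n) Qb ⧸ I) →ₐ[Qb] (MvPolynomial (Fin n) Qb ⧸ I),
      ∀ g, φ (mk g) = mk (MvPolynomial.aeval f g) :=
    ⟨Ideal.Quotient.liftₐ I (mk.comp (MvPolynomial.aeval f)) fun g hg => (hmk _).2 (hst g hg),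
      fun _ => rfl⟩
  have hφf : φ.Finite := hF Qb _ n q x f φ hx hq hf hpow fun i => by
    rw [hax, hφ, MvPolynomial.aeval_X]
  obtain ⟨s, g, ginj, gfin⟩ := exists_finite_inj_algHom_of_fg Qb (MvPolynomial (Fin n) Qb ⧸ I)
  rcases s with _ | d
  · exfalso
    obtain ⟨x₁, h1, x₂, h2, hne⟩ := hpts
    have hC : (MvPolynomial.C : Qb →+* MvPolynomial (Fin 0) Qb).Finite :=
      RingHom.Finite.of_surjective _ fun p => ⟨_, (MvPolynomial.eq_C_of_isEmpty p).symm⟩
    have h3 : (algebraMap Qb (MvPolynomial (Fin n) Qb ⧸ I)).Finite := by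
      have h4 := RingHom.Finite.comp gfin hC
      convert h4 using 1
      exact g.comp_algebraMap.symm
    have : Module.Finite Qb (MvPolynomial (Fin n) Qb ⧸ I) := RingHom.finite_algebraMap.1 h3
    obtain ⟨ξ₁, k1⟩ := hpt x₁ h1
    obtain ⟨ξ₂, k2⟩ := hpt x₂ h2
    refine hne (funext fun i => ?_)
    obtain ⟨c, hc⟩ := (IsAlgClosed.algebraMap_bijective_of_isIntegral (k := Qb)).2 (x i)
    have e1 := k1 (MvPolynomial.X i)
    have e2 := k2 (MvPolynomial.X i)
    rw [MvPolynomial.aeval_X] at e1 e2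
    rw [← e1, ← e2]
    show ξ₁ (x i) = ξ₂ (x i)
    rw [← hc, AlgHom.commutes, AlgHom.commutes]
  obtain ⟨y0, rfl⟩ : ∃ y0, g = MvPolynomial.aeval y0 := ⟨_, MvPolynomial.aeval_unique g⟩
  choose m0 m1 m2 m3 using fun i => cert y0 gfin (x i)
  obtain ⟨ξ, hξ⟩ : ∃ ξ : (MvPolynomial (Fin n) Qb ⧸ I) →ₐ[Qb] Qb,
      ξ (∏ i, ev2 y0 (x i) (derivative (m0 i))) ≠ 0 := by
    obtain ⟨w, hw⟩ := hsurj (∏ i, ev2 y0 (x i) (derivative (m0 i)))
    have h1 : w ∉ MvPolynomial.vanishingIdeal Qb (MvPolynomial.zeroLocus Qb I) := by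
      rw [MvPolynomial.vanishingIdeal_zeroLocus_eq_radical, hI.radical, ← hmk, hw]
      exact Finset.prod_ne_zero_iff.2 fun i _ => m3 i
    rw [MvPolynomial.mem_vanishingIdeal_iff] at h1
    push Not at h1
    obtain ⟨z, hz, h2⟩ := h1
    obtain ⟨ξ, k1⟩ := hpt z hz
    exact ⟨ξ, by rwa [← hw, k1]⟩
  rw [map_prod, Finset.prod_ne_zero_iff] at hξ
  obtain ⟨e₀, he₀, hb⟩ := hU Qb _ n (d + 1) x y0 1 m0 hx m2 0 ξ fun j i => by
    simpa using hξ i (Finset.mem_univ i)
  obtain ⟨y1, hy1⟩ : ∃ y1 : Fin (d + 1) → MvPolynomial (Fin n) Qb ⧸ I,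
      y1 = fun l => y0 l + algebraMap Qb _ (-ξ (y0 l)) := ⟨_, rfl⟩
  have hξ0 : (fun l => ξ (y1 l)) = fun _ => 0 := by
    funext l
    simp [hy1]
  have hfin1 : (MvPolynomial.aeval y1 : MvPolynomial (Fin (d + 1)) Qb →ₐ[Qb] _).Finite := by
    have e1 : (MvPolynomial.aeval y1 : MvPolynomial (Fin (d + 1)) Qb →ₐ[Qb] _) =
        (MvPolynomial.aeval y0).comp (transl fun l => -ξ (y0 l)).toAlgHom :=
      AlgHom.ext fun z => by rw [hy1, ← aeval_transl]; rfl
    rw [e1]
    exact gfin.comp (AlgHom.Finite.of_surjective _ (transl _).surjective)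
  have hind1 : AlgebraicIndependent Qb y1 := algInd_of_finite y0 y1 ginj hfin1
  obtain ⟨r1, P, ε, p1, p2, p3, p4, p5, p6⟩ := hP Qb _ (d + 1) y1 hind1 hfin1 ξ e₀ he₀
    fun b h0 => by
      convert hb b h0 using 3 with l
      simp [hy1, sub_eq_add_neg]
  obtain ⟨c, hc0, e', hc⟩ : ∃ c : MvPolynomial (Fin (d + 1)) Qb, c ≠ 0 ∧
      ev2 y1 r1 ε ∣ MvPolynomial.aeval y1 c := by
    let : Algebra (MvPolynomial (Fin (d + 1)) Qb) (MvPolynomial (Fin n) Qb ⧸ I) :=
      (MvPolynomial.aeval y1 : MvPolynomial (Fin (d + 1)) Qb →ₐ[Qb] _).toRingHom.toAlgebra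
    have hf : Module.Finite (MvPolynomial (Fin (d + 1)) Qb) (MvPolynomial (Fin n) Qb ⧸ I) := hfin1
    refine (Algebra.IsIntegral.isIntegral (R := MvPolynomial (Fin (d + 1)) Qb)
      (ev2 y1 r1 ε)).isAlgebraic.exists_nonzero_dvd (mem_nonZeroDivisors_of_ne_zero fun e => ?_)
    rw [← map_ev2, e, map_zero] at p5
    exact p5 rfl
  have hfin2 : (MvPolynomial.aeval fun l => φ (y1 l) :
      MvPolynomial (Fin (d + 1)) Qb →ₐ[Qb] _).Finite := by
    rw [← MvPolynomial.comp_aeval]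
    exact hφf.comp hfin1
  choose m n1 n2 _ using fun i => cert y1 hfin1 (x i)
  choose Pi q1 q2 q3 using fun i => cert _ hfin2 (x i)
  choose y hy using fun l => hsurj (y1 l)
  obtain ⟨r, hr⟩ := hsurj r1
  have hy' : (fun l => mk (y l)) = y1 := funext hy
  have hy'' : (fun l => mk (MvPolynomial.aeval f (y l))) = fun l => φ (y1 l) :=
    funext fun l => by rw [← hφ, hy]
  refine ⟨d, y, r, P, ξ r1, c, m, Pi, hI, hst, p1, p2, fun G => ?_, ?_, ?_, hc0, fun z => ?_, n1,
    fun i => ?_, q1, fun i => ?_, fun i => ?_⟩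
  · rw [← hmk, map_ev2, hy', hr, p3]
  · rw [← hξ0, ← map_ev2, (p3 P).2 dvd_rfl, map_zero]
  · rwa [← hξ0]
  · obtain ⟨G, hG⟩ := p6 (e' * mk z)
    refine ⟨G, ?_⟩
    rw [← hmk, map_sub, map_mul, map_ev2, MvPolynomial.comp_aeval_apply, hy', hr, hc, ← hG]
    ring
  · rw [← hmk, map_ev2, hy']
    exact n2 i
  · rw [← hmk, map_ev2, hy'']
    exact q2 i
  · rw [← hmk, map_ev2, hy'']
    exact q3 i

end Pool.Agent.P.MP_38c95b_ag
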