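import Pool.Agent.P.MP_38c95b_ag.Stmts

/-!
Independence of the auxiliary family and the final count.
-/

set_option autoImplicit false

open Polynomial

namespace Pool.Agent.P.MP_38c95b_ag

/-- Order bound for combinations of powers of a branch. -/
theorem lam_order {D : Type} [CommRing D] [IsDomain D] {δ : ℕ} (hδ : 0 < δ) (r : PowerSeries D)
    (h1 : ∀ n, ∃ c : Fin δ → D[X], r ^ n = ∑ j, (c j : PowerSeries D) * r ^ (j : ℕ))
    (h2 : ∀ a : Fin δ → D[X], ∑ j, (a j : PowerSeries D) * r ^ (j : ℕ) = 0 → ∀ j, a j = 0) :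
    ∃ C₀ : ℕ, ∀ (B e : ℕ) (η : Fin (B + 1) × Fin δ → D), δ * (B + C₀) < e →
      PowerSeries.X ^ e ∣ ∑ z, PowerSeries.C (η z) * PowerSeries.X ^ (z.1 : ℕ) * r ^ (z.2 : ℕ) →
      ∀ z, η z = 0 := by
  classical
  choose c hc using h1
  refine ⟨Finset.univ.sup fun z : Fin δ × Fin δ × Fin δ => (c (z.1 + z.2.1) z.2.2).natDegree,
    fun B e η he hd => ?_⟩
  set C₀ := Finset.univ.sup fun z : Fin δ × Fin δ × Fin δ => (c (z.1 + z.2.1) z.2.2).natDegree
  set φ := ∑ z : Fin (B + 1) × Fin δ,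
    PowerSeries.C (η z) * PowerSeries.X ^ (z.1 : ℕ) * r ^ (z.2 : ℕ) with hφ
  let M : Matrix (Fin δ) (Fin δ) D[X] := fun i j =>
    ∑ z : Fin (B + 1) × Fin δ, C (η z) * X ^ (z.1 : ℕ) * c (i + z.2) j
  have hM : ∀ i : Fin δ, φ * r ^ (i : ℕ) = ∑ j, (M i j : PowerSeries D) * r ^ (j : ℕ) := by
    intro i
    have : ∀ j, (M i j : PowerSeries D) = ∑ z : Fin (B + 1) × Fin δ,
        PowerSeries.C (η z) * PowerSeries.X ^ (z.1 : ℕ) * (c (i + z.2) j : PowerSeries D) :=
      fun j => by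
        rw [← coeToPowerSeries.ringHom_apply, map_sum]
        simp
    simp only [this, Finset.sum_mul, hφ]
    rw [Finset.sum_comm]
    refine Finset.sum_congr rfl fun z _ => ?_
    rw [mul_assoc, ← pow_add, add_comm (z.2 : ℕ), hc, Finset.mul_sum]
    exact Finset.sum_congr rfl fun j _ => by ring
  have hv : ∀ v : Fin δ → D[X], φ * ∑ i, (v i : PowerSeries D) * r ^ (i : ℕ) =
      ∑ j : Fin δ, ((Matrix.vecMul v M j : D[X]) : PowerSeries D) * r ^ (j : ℕ) := by
    intro v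
    have : ∀ j, ((Matrix.vecMul v M j : D[X]) : PowerSeries D) =
        ∑ i, (v i : PowerSeries D) * (M i j : PowerSeries D) := fun j => by
      rw [← coeToPowerSeries.ringHom_apply, Matrix.vecMul, dotProduct, map_sum]
      simp
    simp only [this, Finset.sum_mul]
    rw [Finset.sum_comm, Finset.mul_sum]
    refine Finset.sum_congr rfl fun i _ => ?_
    rw [mul_left_comm, hM, Finset.mul_sum]
    exact Finset.sum_congr rfl fun j _ => by ring
  have hdeg : M.det.natDegree ≤ δ * (B + C₀) := by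
    rw [Matrix.det_apply]
    refine natDegree_sum_le_of_forall_le _ _ fun σ _ => (natDegree_smul_le _ _).trans
      ((natDegree_prod_le _ _).trans ?_)
    refine (Finset.sum_le_card_nsmul _ _ (B + C₀) fun i _ => ?_).trans (by simp)
    refine natDegree_sum_le_of_forall_le _ _ fun z _ => natDegree_mul_le.trans (add_le_add
      ((natDegree_C_mul_X_pow_le _ _).trans (Nat.lt_succ_iff.mp z.1.2)) ?_)
    exact Finset.le_sup (f := fun z : Fin δ × Fin δ × Fin δ =>
      (c (z.1 + z.2.1) z.2.2).natDegree) (Finset.mem_univ (σ i, z.2, i))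
  have hdet : M.det = 0 := by
    have h3 := hv (M.adjugate ⟨0, hδ⟩)
    have h4 : Matrix.vecMul (M.adjugate ⟨0, hδ⟩) M = fun j => if ⟨0, hδ⟩ = j then M.det else 0 := by
      funext j
      have := congrFun (congrFun (Matrix.adjugate_mul M) ⟨0, hδ⟩) j
      rw [Matrix.smul_apply, Matrix.one_apply, smul_eq_mul, mul_ite, mul_one, mul_zero] at this
      exact this
    have h8 : ∑ j : Fin δ, ((Matrix.vecMul (M.adjugate ⟨0, hδ⟩) M j : D[X]) : PowerSeries D) *
        r ^ (j : ℕ) = (M.det : PowerSeries D) := by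
      rw [h4, Finset.sum_eq_single ⟨0, hδ⟩ (fun j _ hj => by simp [hj.symm]) (by simp)]
      simp
    have h5 := PowerSeries.X_pow_dvd_iff.mp (h8 ▸ h3 ▸ hd.mul_right _)
    ext n
    by_cases hn : n < e
    · simpa using h5 n hn
    · exact coeff_eq_zero_of_natDegree_lt (by omega)
  obtain ⟨v, hv0, hv1⟩ := Matrix.exists_vecMul_eq_zero_iff.mpr hdet
  have h6 := hv v
  rw [hv1] at h6
  simp only [Pi.zero_apply, coe_zero, zero_mul, Finset.sum_const_zero, mul_eq_zero] at h6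
  have h7 := h2 (fun j => ∑ b : Fin (B + 1), C (η (b, j)) * X ^ (b : ℕ)) (by
    rw [← h6.resolve_right fun h => hv0 (funext (h2 v h)), hφ, Fintype.sum_prod_type_right]
    refine Finset.sum_congr rfl fun j _ => ?_
    rw [← coeToPowerSeries.ringHom_apply, map_sum, Finset.sum_mul]
    simp)
  rintro ⟨b, j⟩
  have := congrArg (coeff · b) (h7 j)
  simpa [finsetSum_coeff, coeff_X_pow, Fin.val_inj] using this

/-- The box monomials are independent over the `p ^ j`-th powers. -/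
theorem lam_box {k : Type} [Field k] (p : ℕ) [Fact p.Prime] [CharP k p] {d j : ℕ}
    (e : (Fin d → Fin (p ^ j)) → MvPolynomial (Fin d) k)
    (h : ∑ a, e a ^ (p ^ j) * ∏ l, MvPolynomial.X l ^ (a l : ℕ) = 0) (a : Fin d → Fin (p ^ j)) :
    e a = 0 := by
  classical
  have hN : 0 < p ^ j := pow_pos (Fact.out : p.Prime).pos j
  let f : (Fin d → Fin (p ^ j)) → Fin d →₀ ℕ := fun a =>
    Finsupp.equivFunOnFinite.symm fun l => a l
  have h1 : ∀ a : Fin d → Fin (p ^ j), (∏ l, MvPolynomial.X l ^ (a l : ℕ) :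
      MvPolynomial (Fin d) k) = MvPolynomial.monomial (f a) 1 := fun a => by
    rw [MvPolynomial.monomial_eq, Finsupp.prod_fintype _ _ (by simp)]
    simp [f]
  ext m
  have h2 := congrArg (MvPolynomial.coeff (p ^ j • m + f a)) h
  simp only [h1, MvPolynomial.coeff_sum, MvPolynomial.coeff_mul_monomial', mul_one,
    ← MvPolynomial.map_iterateFrobenius_expand, MvPolynomial.coeff_map] at h2
  rw [Finset.sum_eq_single a _ (by simp), if_pos le_add_self, add_tsub_cancel_right,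
    MvPolynomial.coeff_expand_smul _ hN.ne', iterateFrobenius_def] at h2
  · exact pow_eq_zero_iff hN.ne' |>.mp h2
  · intro b _ hb
    split_ifs with hle
    · obtain ⟨l, hl⟩ := Function.ne_iff.mp hb
      rw [MvPolynomial.coeff_expand_of_not_dvd (i := l), map_zero]
      have h3 : (b l : ℕ) ≤ p ^ j * m l + a l := hle l
      rintro ⟨t, ht⟩
      have h4 : p ^ j * m l + a l - b l = p ^ j * t := ht
      have h5 : (p ^ j * m l + a l) % p ^ j = (p ^ j * t + b l) % p ^ j := by congr 1; omega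
      rw [Nat.mul_add_mod, Nat.mul_add_mod, Nat.mod_eq_of_lt (a l).2,
        Nat.mod_eq_of_lt (b l).2] at h5
      exact hl (Fin.ext h5.symm)
    · rfl

theorem lamind (hBr : S_Br) (hI : S_BrInd) : S_Lam := by
  intro k _ p _ _ d P r₀ hP hpr h0 h1
  obtain ⟨r, hr, -⟩ := hBr k d P r₀ hP h0 (isUnit_iff_ne_zero.mpr h1)
  obtain ⟨hk, hind⟩ := hI k d P hP hpr r hr
  have hδ : 0 < P.natDegree := hP.natDegree_pos.mpr hpr.ne_one
  let Φ : MvPolynomial (Fin (d + 1)) k →+* (MvPolynomial (Fin d) k)[X] :=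
    (MvPolynomial.aeval (Fin.cons X fun i => X * C (MvPolynomial.X i)) :
      MvPolynomial (Fin (d + 1)) k →ₐ[k] (MvPolynomial (Fin d) k)[X]).toRingHom
  have hΦ : coeToPowerSeries.ringHom.comp Φ = (MvPolynomial.aeval (yhat k d) :
      MvPolynomial (Fin (d + 1)) k →ₐ[k] _).toRingHom := by
    refine MvPolynomial.ringHom_ext (fun a => ?_) fun i => ?_
    · simp [Φ, PowerSeries.algebraMap_apply]
    · refine Fin.cases ?_ (fun i => ?_) i <;> simp [Φ, yhat]
      exact mul_comm _ _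
  obtain ⟨C₀, hC⟩ := lam_order hδ r (fun n => ⟨fun j => Φ ((X ^ n %ₘ P).coeff j), by
    have h2 := congrArg (ev2 (yhat k d) r) (modByMonic_add_div (X ^ n) P)
    rw [map_add, map_mul, hr, zero_mul, add_zero, map_pow, ev2_X] at h2
    rw [← h2, ev2, coe_eval₂RingHom, eval₂_eq_sum_range' _
      (natDegree_modByMonic_lt _ hP hpr.ne_one), ← hΦ, Finset.sum_range]
    rfl⟩) hind
  refine ⟨C₀, fun j B hB ε hε z => hk _ ?_⟩
  have hN : 0 < p ^ j := pow_pos (Fact.out : p.Prime).pos j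
  have : CharP (PowerSeries (MvPolynomial (Fin d) k)) p :=
    charP_of_injective_algebraMap (algebraMap k _).injective p
  have key : ∀ n, ∀ u : (Fin d → Fin (p ^ j)) × Fin (B + 1) × Fin P.natDegree →
      PowerSeries (MvPolynomial (Fin d) k), ∑ z, u z ^ (p ^ j) *
        (PowerSeries.C (∏ l, MvPolynomial.X l ^ (z.1 l : ℕ)) * PowerSeries.X ^ (z.2.1 : ℕ) *
          r ^ (z.2.2 : ℕ)) = 0 → ∀ z, PowerSeries.coeff n (u z) = 0 := by
    intro n
    have split : ∀ (u : (Fin d → Fin (p ^ j)) × Fin (B + 1) × Fin P.natDegree →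
        PowerSeries (MvPolynomial (Fin d) k)) (w : _ → PowerSeries (MvPolynomial (Fin d) k)),
        ∑ z, u z ^ (p ^ j) * w z = PowerSeries.X ^ (p ^ j) * ∑ z,
          (PowerSeries.mk fun m => PowerSeries.coeff (m + 1) (u z)) ^ (p ^ j) * w z +
          ∑ z, PowerSeries.C (PowerSeries.constantCoeff (u z) ^ (p ^ j)) * w z := by
      intro u w
      rw [Finset.mul_sum, ← Finset.sum_add_distrib]
      refine Finset.sum_congr rfl fun z _ => ?_
      conv_lhs => rw [PowerSeries.eq_X_mul_shift_add_const (u z), add_pow_char_pow]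
      rw [map_pow]
      ring
    have zero : ∀ u : (Fin d → Fin (p ^ j)) × Fin (B + 1) × Fin P.natDegree →
        PowerSeries (MvPolynomial (Fin d) k), ∑ z, u z ^ (p ^ j) *
        (PowerSeries.C (∏ l, MvPolynomial.X l ^ (z.1 l : ℕ)) * PowerSeries.X ^ (z.2.1 : ℕ) *
          r ^ (z.2.2 : ℕ)) = 0 → ∀ z, PowerSeries.constantCoeff (u z) = 0 := by
      rintro u hu ⟨a, w⟩
      rw [split, add_comm, add_eq_zero_iff_eq_neg] at hu
      refine lam_box p (fun a => PowerSeries.constantCoeff (u (a, w))) (hC B _ (fun w => ∑ a,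
        PowerSeries.constantCoeff (u (a, w)) ^ (p ^ j) * ∏ l, MvPolynomial.X l ^ (a l : ℕ))
        hB ?_ w) a
      convert (hu ▸ (dvd_mul_right _ _).neg_right :) using 1
      symm
      rw [Fintype.sum_prod_type_right]
      symm
      refine Finset.sum_congr rfl fun w _ => ?_
      rw [map_sum, Finset.sum_mul, Finset.sum_mul]
      exact Finset.sum_congr rfl fun a _ => by rw [map_mul]; ring
    induction n with
    | zero => intro u hu z; simpa using zero u hu z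
    | succ n ih =>
      intro u hu z
      have h2 := zero u hu
      rw [split] at hu
      simp only [h2, zero_pow hN.ne', map_zero, zero_mul, Finset.sum_const_zero, add_zero] at hu
      simpa using ih _ ((mul_eq_zero.mp hu).resolve_left
        (pow_ne_zero _ PowerSeries.X_ne_zero)) z
  ext1 n
  refine key n (fun z => ev2 (yhat k d) r (ε z)) ?_ z
  obtain ⟨H, hH⟩ := hε
  have h2 := congrArg (ev2 (yhat k d) r) hH
  rw [map_mul, hr, zero_mul, map_sum] at h2
  refine (mul_eq_zero.mp ?_).resolve_left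
    (pow_ne_zero (d * p ^ j) (PowerSeries.X_ne_zero (R := MvPolynomial (Fin d) k)))
  rw [← h2, Finset.mul_sum]
  refine Finset.sum_congr rfl fun z _ => ?_
  have h3 : ∑ l, (z.1 l : ℕ) ≤ d * p ^ j :=
    (Finset.sum_le_card_nsmul _ _ _ fun l _ => (z.1 l).2.le).trans (by simp)
  obtain ⟨t, ht⟩ := Nat.exists_eq_add_of_le h3
  have h4 : (z.2.1 : ℕ) + d * p ^ j - ∑ l, (z.1 l : ℕ) = z.2.1 + t := by omega
  simp only [lam, map_mul, map_pow, ev2_C, ev2_X, map_prod, MvPolynomial.aeval_X, yhat,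
    Fin.cons_zero, Fin.cons_succ, h4, mul_pow, Finset.prod_mul_distrib,
    Finset.prod_pow_eq_pow_sum]
  rw [ht]
  ring

theorem lam_pow (F d : ℕ) : ∃ G, ∀ N, 1 ≤ N → (N + F) ^ (d + 1) ≤ N ^ (d + 1) + G * N ^ d := by
  induction d with
  | zero => exact ⟨F, fun N _ => by simp⟩
  | succ d ih =>
    obtain ⟨G, hG⟩ := ih
    refine ⟨F + G + G * F, fun N hN => ?_⟩
    have h1 : N ^ d ≤ N ^ (d + 1) := Nat.pow_le_pow_right hN d.le_succ
    calc (N + F) ^ (d + 1 + 1) = (N + F) ^ (d + 1) * (N + F) := pow_succ _ _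
      _ ≤ (N ^ (d + 1) + G * N ^ d) * (N + F) := Nat.mul_le_mul_right _ (hG N hN)
      _ = N ^ (d + 1 + 1) + (F + G) * N ^ (d + 1) + G * F * N ^ d := by ring
      _ ≤ N ^ (d + 1 + 1) + (F + G) * N ^ (d + 1) + G * F * N ^ (d + 1) := by gcongr
      _ = _ := by ring

theorem lam_count (m d C C' E : ℕ) : ∃ N₀, ∀ N B s : ℕ, N₀ ≤ N → (m + 1) * B ≤ N →
    N ≤ (m + 1) * (B + 1) + E → (m + 1) * (N * N) ^ (d + 1) ≤ s + C * (N * N) ^ d →
    s + N ^ d * (B + 1) * (m + 1) * (N ^ (d + 1) * (m + 1)) ≤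
      m * ((m + 1) * ((N * N + C' * N) ^ d * (N * B + C' * N))) +
        (m + 1) * (N * N + C' * N) ^ (d + 1) → False := by
  obtain ⟨G, hG⟩ := lam_pow ((m + 1) * C') d
  refine ⟨C + (m + 1) * E + (2 * m + 1) * G + 1, fun N B s h1 h2 h3 h4 h5 => ?_⟩
  have hN : 1 ≤ N := by omega
  have h6 := hG N hN
  obtain ⟨Y, hY⟩ : ∃ Y, Y = N + (m + 1) * C' := ⟨_, rfl⟩
  rw [← hY] at h6
  have a1 : N * N + C' * N ≤ N * Y := by rw [hY]; nlinarith [Nat.zero_le (m * C' * N)]
  have a2 : (m + 1) * (N * B + C' * N) ≤ N * Y := by rw [hY]; nlinarith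
  have a3 : m * ((m + 1) * ((N * N + C' * N) ^ d * (N * B + C' * N))) ≤ m * (N * Y) ^ (d + 1) := by
    rw [mul_left_comm (m + 1), pow_succ]
    gcongr
  have a4 : (m + 1) * (N * N + C' * N) ^ (d + 1) ≤ (m + 1) * (N * Y) ^ (d + 1) := by gcongr
  have a5 : (2 * m + 1) * (N * Y) ^ (d + 1) ≤
      (2 * m + 1) * (N ^ (d + 1) * (N ^ (d + 1) + G * N ^ d)) := by
    rw [mul_pow]
    gcongr
  have a6 : (m + 1) * (N ^ d * N ^ (d + 1)) * N ≤
      (m + 1) * (N ^ d * N ^ (d + 1)) * ((m + 1) * (B + 1) + E) := by gcongr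
  have a7 : C * (N ^ d * N ^ d) ≤ C * (N ^ d * N ^ (d + 1)) := by
    gcongr
    exact d.le_succ
  have a8 : 0 < N ^ d * N ^ (d + 1) := by positivity
  rw [mul_pow, mul_pow] at h4
  obtain ⟨Z, hZ⟩ : ∃ Z, Z = N ^ d := ⟨_, rfl⟩
  simp only [pow_succ, ← hZ] at h4 a5 a6 a7 a8
  have a9 : Z * (Z * N) * N ≤ Z * (Z * N) * (C + (m + 1) * E + (2 * m + 1) * G) := by
    simp only [pow_succ N, ← hZ] at h5
    simp only [pow_succ] at a3 a4 h5
    nlinarith
  have := Nat.le_of_mul_le_mul_left a9 a8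
  omega

theorem step (hLow : S_Low) (hMult : S_Mult) (hLam : S_Lam) (hUp : S_Up) : S_Step := by
  intro k R _ _ p _ _ _ _ _ n d x y u r ρ θ P r₀ c Pi a hx hfin hP hpr hker hc hden h0 h1 ha hF hρ
    hPi hθ
  classical
  have hδ : 0 < P.natDegree := hP.natDegree_pos.mpr hpr.ne_one
  obtain ⟨K, hK⟩ : ∃ K, ∀ b : R, ∃ G : (MvPolynomial (Fin (d + 1)) k)[X],
      MvPolynomial.aeval y (c ^ K) * b = ev2 y r G := by
    have up : ∀ (b : R) (K K' : ℕ), K ≤ K' → (∃ G : (MvPolynomial (Fin (d + 1)) k)[X],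
        MvPolynomial.aeval y (c ^ K) * b = ev2 y r G) →
        ∃ G : (MvPolynomial (Fin (d + 1)) k)[X], MvPolynomial.aeval y (c ^ K') * b = ev2 y r G := by
      rintro b K K' h ⟨G, hG⟩
      obtain ⟨t, rfl⟩ := Nat.exists_eq_add_of_le h
      exact ⟨C (c ^ t) * G, by rw [map_mul, ← hG, ev2_C, pow_add, map_mul]; ring⟩
    have all : ∀ b : R, ∃ K, ∃ G : (MvPolynomial (Fin (d + 1)) k)[X],
        MvPolynomial.aeval y (c ^ K) * b = ev2 y r G := by
      intro b
      have hb : b ∈ Algebra.adjoin k (Set.range x) := hx ▸ Algebra.mem_top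
      induction hb using Algebra.adjoin_induction with
      | mem b hb => obtain ⟨i, rfl⟩ := hb; exact ⟨1, by simpa using hden i⟩
      | algebraMap t => exact ⟨0, C (MvPolynomial.C t), by simp⟩
      | add b b' _ _ h h' =>
        obtain ⟨K, h⟩ := h
        obtain ⟨K', h'⟩ := h'
        obtain ⟨G, hG⟩ := up b K (K + K') (by omega) h
        obtain ⟨G', hG'⟩ := up b' K' (K + K') (by omega) h'
        exact ⟨K + K', G + G', by rw [mul_add, hG, hG', map_add]⟩
      | mul b b' _ _ h h' =>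
        obtain ⟨K, G, hG⟩ := h
        obtain ⟨K', G', hG'⟩ := h'
        exact ⟨K + K', G * G', by rw [map_mul, ← hG, ← hG', pow_add, map_mul]; ring⟩
    choose κ hκ using all
    obtain ⟨ω, -, hω⟩ := exists_Gen y hfin
    refine ⟨ω.sup κ, fun b => ?_⟩
    obtain ⟨N, hN⟩ := hω b
    induction hN using Submodule.span_induction with
    | mem φ h =>
      obtain ⟨q, w, hw, -, rfl⟩ := h
      obtain ⟨G, hG⟩ := up w _ _ (Finset.le_sup hw) (hκ w)
      exact ⟨C q * G, by rw [map_mul, ← hG, ev2_C]; ring⟩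
    | zero => exact ⟨0, by simp⟩
    | add b b' _ _ h h' =>
      obtain ⟨G, hG⟩ := h
      obtain ⟨G', hG'⟩ := h'
      exact ⟨G + G', by rw [mul_add, hG, hG', map_add]⟩
    | smul t b _ h =>
      obtain ⟨G, hG⟩ := h
      exact ⟨C (MvPolynomial.C t) * G, by
        rw [map_mul, ← hG, ev2_C, MvPolynomial.aeval_C, Algebra.smul_def]; ring⟩
  obtain ⟨θ₁, hθ₁, hd⟩ : ∃ θ₁ : MvPolynomial (Fin (d + 1)) k, θ₁ ≠ 0 ∧
      θ * ∏ i, ev2 u (x i) (derivative (Pi i)) ∣ MvPolynomial.aeval y θ₁ := by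
    let : Algebra (MvPolynomial (Fin (d + 1)) k) R :=
      (MvPolynomial.aeval y : MvPolynomial (Fin (d + 1)) k →ₐ[k] R).toRingHom.toAlgebra
    have hf : Module.Finite (MvPolynomial (Fin (d + 1)) k) R := hfin
    exact (Algebra.IsIntegral.isIntegral _).isAlgebraic.exists_nonzero_dvd
      (mem_nonZeroDivisors_of_ne_zero (mul_ne_zero hθ
        (Finset.prod_ne_zero_iff.mpr fun i _ => (hPi i).2.2)))
  obtain ⟨M₀, hM⟩ := hLow k R (d + 1) y u r P _ hfin hP hker (pow_ne_zero K hc) hK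
  obtain ⟨j₀, C₁, hm⟩ := hMult k R p n d x y u Pi θ₁ hx hfin (fun i => ⟨(hPi i).1, (hPi i).2.1,
    ((Finset.dvd_prod_of_mem _ (Finset.mem_univ i)).mul_left θ).trans hd⟩) hθ₁
  obtain ⟨C₀, hL⟩ := hLam k p d P r₀ hP hpr h0 h1
  obtain ⟨C₂, j₁, hU⟩ := hUp k R p d y u r ρ P _ a hfin hP hker (pow_ne_zero K hc) hK hF hρ
  obtain ⟨m, hm'⟩ : ∃ m, P.natDegree = m + 1 := ⟨_, (Nat.succ_pred_eq_of_pos hδ).symm⟩
  obtain ⟨N₀, hN⟩ := lam_count m d C₁ C₂ ((m + 1) * (C₀ + 1))
  by_contra hno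
  push Not at hno
  obtain ⟨j, hj⟩ : ∃ j, j = M₀ + j₀ + j₁ + N₀ + (m + 1) * (C₀ + 1) + 1 := ⟨_, rfl⟩
  obtain ⟨N, hNj⟩ : ∃ N, N = p ^ (a * j) := ⟨_, rfl⟩
  have b1 : j ≤ a * j := Nat.le_mul_of_pos_left _ ha
  have b2 : j < N := hNj ▸ b1.trans_lt (Nat.lt_pow_self (Fact.out : p.Prime).one_lt)
  have b3 : N * N = p ^ (a * (2 * j)) := by rw [hNj]; ring
  obtain ⟨B, hB⟩ : ∃ B, N / (m + 1) = B + (C₀ + 1) := by
    refine ⟨N / (m + 1) - (C₀ + 1), (Nat.sub_add_cancel ?_).symm⟩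
    rw [Nat.le_div_iff_mul_le (Nat.add_one_pos m), mul_comm]
    exact le_trans (by omega) b2.le
  have b4 := Nat.mul_div_le N (m + 1)
  have b5 := Nat.lt_mul_div_succ N (Nat.add_one_pos m)
  rw [hB] at b4 b5
  have hU' := hU j B N (by omega) hNj (by omega) (by nlinarith) (by
    subst hNj
    exact hL _ B (by rw [hm']; nlinarith))
  let T : Set (R →ₐ[k] k) :=
    {ξ | (∀ l, ξ (y l) ^ (N * N) = ξ (u l)) ∧ ξ (MvPolynomial.aeval y θ₁) ≠ 0}
  have hT : ∀ ξ ∈ T, (∀ l, ξ (y l) ^ (N * N) = ξ (u l)) ∧ ξ r ^ (N * N) ≠ ξ ρ := by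
    refine fun ξ h => ⟨h.1, ?_⟩
    rw [b3]
    refine hno (2 * j) ξ (by omega) (fun h0 => h.2 ?_) (b3 ▸ h.1)
    obtain ⟨t, ht⟩ := (dvd_mul_right θ _).trans hd
    rw [ht, map_mul, h0, zero_mul]
  have hfinT : T.Finite := by
    by_contra hinf
    obtain ⟨S, hS, hcard⟩ := Set.Infinite.exists_subset_card_eq hinf
      ((P.natDegree - 1) * (P.natDegree * ((N * N + C₂ * N) ^ d * (N * B + C₂ * N))) +
        P.natDegree * (N * N + C₂ * N) ^ (d + 1) + 1)
    have := hU' S fun ξ h => hT ξ (hS h)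
    omega
  have c1 := hU' hfinT.toFinset fun ξ h => hT ξ (hfinT.mem_toFinset.mp h)
  have c2 := hm (a * (2 * j)) (by nlinarith) hfinT.toFinset fun ξ h h' =>
    hfinT.mem_toFinset.mpr ⟨b3 ▸ h, h'⟩
  have c3 := (hM (N * N) (by nlinarith)).2
  rw [← b3] at c2
  rw [hm'] at c1 c3
  exact hN N B _ (by omega) (by nlinarith) (by nlinarith) (c3.trans c2) c1

end Pool.Agent.P.MP_38c95b_ag
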