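import Pool.Agent.P.MP_38c95b_ag.LocalA

/-!
Local dynamics on a residue disc: some iterate is congruent to the identity modulo `p ^ 3`.
-/

set_option autoImplicit false

open Polynomial
open scoped NNReal

namespace Pool.Agent.P.MP_38c95b_ag

namespace Loc

section hom

variable {A R S : Type} [CommRing A] [CommRing R] [CommRing S] [Algebra A R] [Algebra A S] {n : ℕ}

theorem map_aeval' {ι : Type} (ψ : R →ₐ[A] S) (x : ι → R) (q : MvPolynomial ι A) :
    ψ (MvPolynomial.aeval x q) = MvPolynomial.aeval (fun i => ψ (x i)) q :=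
  MvPolynomial.comp_aeval_apply _ _ _

theorem map_dyn (ψ : R →ₐ[A] S) (f : Fin n → MvPolynomial (Fin n) A) (x : Fin n → R) :
    (fun i => ψ (dyn f x i)) = dyn f fun i => ψ (x i) :=
  funext fun i => map_aeval' ψ x (f i)

theorem map_dyn_iter (ψ : R →ₐ[A] S) (f : Fin n → MvPolynomial (Fin n) A) (m : ℕ)
    (x : Fin n → R) : (fun i => ψ ((dyn f)^[m] x i)) = (dyn f)^[m] fun i => ψ (x i) := by
  induction m with
  | zero => rfl
  | succ m ih => rw [Function.iterate_succ_apply', Function.iterate_succ_apply', map_dyn, ih]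

theorem map_cert {d : ℕ} (ψ : R →ₐ[A] S) (f : Fin n → MvPolynomial (Fin n) A)
    (y : Fin d → MvPolynomial (Fin n) A) (G : (MvPolynomial (Fin d) A)[X]) (m : ℕ)
    (x : Fin n → R) (i : Fin n) :
    ψ (ev2 (fun l => MvPolynomial.aeval (dyn f ((dyn f)^[m] x)) (y l)) (((dyn f)^[m] x) i) G) =
      ev2 (fun l => MvPolynomial.aeval (dyn f ((dyn f)^[m] fun i => ψ (x i))) (y l))
        (((dyn f)^[m] fun i => ψ (x i)) i) G := by
  rw [map_ev2, ← map_dyn_iter ψ, ← map_dyn ψ]
  simp only [map_aeval']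

end hom

section val

variable {Ω : Type} [Field Ω] (v : Valuation Ω ℝ≥0)

theorem lift1 {σ : Type} (q : MvPolynomial σ Ω) (h : Int1 v q) :
    ∃ q' : MvPolynomial σ v.integer, MvPolynomial.map (algebraMap v.integer Ω) q' = q := by
  classical
  refine MvPolynomial.mem_range_map_iff_coeffs_subset.mpr fun a ha => ?_
  obtain ⟨m, -, rfl⟩ := MvPolynomial.mem_coeffs_iff.mp ha
  exact ⟨⟨_, h m⟩, rfl⟩

theorem lift2 {σ : Type} (G : (MvPolynomial σ Ω)[X]) (h : Int2 v G) :
    ∃ G' : (MvPolynomial σ v.integer)[X],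
      G'.map (MvPolynomial.map (algebraMap v.integer Ω)) = G :=
  (Polynomial.mem_lifts G).mp ((Polynomial.lifts_iff_coeff_lifts G).mpr fun i => lift1 v _ (h i))

/-- The ideal of elements of valuation below one. -/
def small : Ideal v.integer where
  carrier := {a | v (a : Ω) < 1}
  add_mem' := fun {a b} ha hb => v.map_add_lt ha hb
  zero_mem' := by simp
  smul_mem' := fun c a ha => by
    change v ((c : Ω) * a) < 1
    rw [map_mul]
    exact mul_lt_one_of_nonneg_of_lt_one_right c.2 zero_le ha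

theorem exists_mul_of_le {a b : Ω} (h : v a ≤ v b) : ∃ c : v.integer, a = b * c := by
  by_cases hb : b = 0
  · subst hb
    rw [map_zero, le_zero_iff, v.zero_iff] at h
    exact ⟨0, by simp [h]⟩
  · refine ⟨⟨a / b, ?_⟩, by field_simp⟩
    change v (a / b) ≤ 1
    rw [map_div₀]
    exact div_le_one_of_le₀ h zero_le

theorem dvd_of_le {a b : v.integer} (h : v (a : Ω) ≤ v (b : Ω)) : b ∣ a := by
  obtain ⟨c, hc⟩ := exists_mul_of_le v h
  exact ⟨c, Subtype.ext hc⟩

end val

end Loc

open Loc in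
theorem localDyn : S_Local := by
  intro Ω _ v p hp hp0 hp1 hres n d f y Pi C hf hy hPi hC hcert x₀ hx₀ hx₀v hder hl₀
  obtain ⟨l₀, hl₀, hper⟩ := hl₀
  choose f' hf' using fun i => lift1 v (f i) (hf i)
  choose y' hy' using fun l => lift1 v (y l) (hy l)
  choose Pi' hPi' using fun i => lift2 v (Pi i) (hPi i)
  have hdyn : (dyn f : (Fin n → Ω) → Fin n → Ω) = dyn f' := by
    funext x i
    simp only [dyn, ← hf', MvPolynomial.aeval_map_algebraMap]
  rw [hdyn] at hC hcert hder hper ⊢
  simp only [← hy', ← hPi', MvPolynomial.aeval_map_algebraMap, Polynomial.derivative_map,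
    ev2_map_algebraMap] at hcert hder
  have hCm : ∀ (m : ℕ), ∀ x ∈ C, (dyn f')^[m] x ∈ C := by
    intro m
    induction m with
    | zero => exact fun x hx => hx
    | succ m ih => exact fun x hx => ih _ (hC x hx)
  have hdvd : ∀ a b : v.integer, a ∣ b ∨ b ∣ a := fun a b =>
    (le_total (v (b : Ω)) (v (a : Ω))).imp (dvd_of_le v) (dvd_of_le v)
  let a : Fin n → v.integer := fun i => ⟨x₀ i, hx₀v i⟩
  let ι₀ : v.integer →ₐ[v.integer] Ω := Algebra.ofId _ _
  have ha : ∀ (m : ℕ) i, (((dyn f')^[m] a i : v.integer) : Ω) = (dyn f')^[m] x₀ i :=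
    fun m i => congrFun (map_dyn_iter ι₀ f' m a) i
  have hpI : (p : v.integer) ∈ small v := by
    change v ((p : v.integer) : Ω) < 1
    simpa using hp1
  obtain ⟨π, hπI, hπp, hπa⟩ := exists_common hdvd (small v)
    (fun i => (dyn f')^[l₀] a i - a i) (fun i => by
      change v ((((dyn f')^[l₀] a i : v.integer) : Ω) - x₀ i) < 1
      rw [ha]
      exact hper i) p hpI
  have hπ0 : (π : Ω) ≠ 0 := by
    obtain ⟨c, hc⟩ := hπp
    intro h0
    have h1 : (p : Ω) = π * c := by exact_mod_cast congrArg Subtype.val hc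
    rw [h1, h0, zero_mul, map_zero] at hp0
    exact lt_irrefl _ hp0
  let U : Type := {x : Fin n → Ω // x ∈ C ∧ ∀ i, v (x i - x₀ i) ≤ v (π : Ω)}
  let x : Fin n → U → Ω := fun i u => u.1 i
  let s : Fin n → U → Ω := fun i u => (u.1 i - x₀ i) / π
  let st : Option (Fin n) → U → Ω := fun o => o.elim 1 s
  let ev : U → ((U → Ω) →ₐ[v.integer] Ω) := fun u => _root_.Pi.evalAlgHom _ (fun _ => Ω) u
  set BB := Algebra.adjoin v.integer (Set.range st) with hBB
  have hsB : ∀ i, s i ∈ BB := fun i => Algebra.subset_adjoin ⟨some i, rfl⟩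
  have hxs : ∀ i, x i = algebraMap v.integer (U → Ω) (a i) + π • s i := fun i => by
    funext u
    change u.1 i = x₀ i + (π : Ω) * ((u.1 i - x₀ i) / π)
    field_simp
    ring
  have hBv : ∀ β ∈ BB, ∀ u, v (β u) ≤ 1 := by
    intro β hβ u
    have h1 : BB ≤ (ι₀.range).comap (ev u) := by
      refine Algebra.adjoin_le ?_
      rintro _ ⟨o, rfl⟩
      cases o with
      | none => exact one_mem _
      | some i =>
        refine ⟨⟨(u.1 i - x₀ i) / π, ?_⟩, rfl⟩
        change v ((u.1 i - x₀ i) / π) ≤ 1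
        rw [map_div₀]
        exact div_le_one_of_le₀ (u.2.2 i) zero_le
    obtain ⟨c, hc⟩ := h1 hβ
    have : β u = c := hc.symm
    rw [this]
    exact c.2
  have hcan : ∀ ψ : U → Ω, π • ψ = 0 → ψ = 0 := fun ψ h => by
    funext u
    have h1 : (π : Ω) * ψ u = 0 := congrFun h u
    exact (mul_eq_zero.mp h1).resolve_left hπ0
  obtain ⟨σ, hσ, hspan⟩ := span_iter BB (small v • BB.toSubmodule) π hcan
    (fun ψ h => Submodule.smul_le_right h) (fun β h => Submodule.smul_mem_smul hπI h)
    f' y' Pi' a x s hsB hxs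
    (fun m i => by
      funext u
      exact (map_cert (ev u) f' y' (Pi' i) m x i).trans (hcert _ (hCm m _ u.2.1) i))
    (fun m i => Subtype.ext ((map_cert ι₀ f' y' (Pi' i) m a i).trans (hcert _ (hCm m _ hx₀) i)))
    (fun m i => by
      refine isUnit_of_dvd_one (dvd_of_le v ?_)
      have h1 := map_cert ι₀ f' y' (derivative (Pi' i)) m a i
      have h2 := hder m i
      rw [← show (fun i => ι₀ (a i)) = x₀ from rfl, ← h1] at h2
      rw [OneMemClass.coe_one, map_one]
      exact h2.ge) l₀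
  have hσN : ∀ i, σ i ∈ Submodule.span v.integer (Set.range s) ⊔ small v • BB.toSubmodule :=
    fun i => by
      rw [← hspan]
      exact Submodule.mem_sup_left (Submodule.subset_span ⟨i, rfl⟩)
  have hσB : ∀ i, σ i ∈ BB := fun i => by
    have : Submodule.span v.integer (Set.range s) ⊔ small v • BB.toSubmodule ≤ BB.toSubmodule :=
      sup_le (Submodule.span_le.mpr (by rintro _ ⟨i, rfl⟩; exact hsB i)) Submodule.smul_le_right
    exact this (hσN i)
  choose e he using hπa
  have hgu : ∀ (u : U) i, (dyn f')^[l₀] u.1 i - x₀ i = π * (σ i u + e i) := fun u i => by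
    have h1 : (dyn f')^[l₀] x i u = (dyn f')^[l₀] u.1 i :=
      congrFun (map_dyn_iter (ev u) f' l₀ x) i
    have h2 : (dyn f')^[l₀] x i u = (((dyn f')^[l₀] a i : v.integer) : Ω) + π * σ i u :=
      congrFun (hσ i) u
    have h3 : (((dyn f')^[l₀] a i : v.integer) : Ω) - x₀ i = π * e i :=
      congrArg Subtype.val (he i)
    linear_combination h2 + h3 - h1
  let g : U → U := fun u => ⟨(dyn f')^[l₀] u.1, hCm _ _ u.2.1, fun i => by
    rw [hgu, map_mul]
    exact mul_le_of_le_one_right' (v.map_add_le (hBv _ (hσB i) u) (e i).2)⟩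
  let T : (U → Ω) →ₐ[v.integer] (U → Ω) :=
    { toFun := fun ψ u => ψ (g u)
      map_one' := rfl
      map_mul' := fun _ _ => rfl
      map_zero' := rfl
      map_add' := fun _ _ => rfl
      commutes' := fun _ => rfl }
  have hTs : ∀ i, T (s i) = σ i + e i • (1 : U → Ω) := fun i => by
    funext u
    change ((dyn f')^[l₀] u.1 i - x₀ i) / π = σ i u + e i * 1
    rw [hgu]
    field_simp
  obtain ⟨c, hc, hcong⟩ := exists_cong hdvd (small v) p hp.one_lt hpI
    (fun b => by
      obtain ⟨j, hj, h⟩ := hres b b.2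
      exact ⟨j, hj, h⟩)
    (fun b hb => by
      obtain ⟨k, hk⟩ := exists_pow_lt_of_lt_one (pow_pos hp0 3) (show v (b : Ω) < 1 from hb)
      refine ⟨k, dvd_of_le v ?_⟩
      push_cast
      rw [map_pow, map_pow, pow_succ]
      exact (mul_le_of_le_one_right' b.2).trans hk.le) st T
    (fun o => by
      have h1 : (1 : U → Ω) ∈ Submodule.span v.integer (Set.range st) :=
        Submodule.subset_span ⟨none, rfl⟩
      cases o with
      | none => exact Submodule.mem_sup_left h1
      | some i =>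
        change T (s i) ∈ _
        rw [hTs]
        have h2 : Submodule.span v.integer (Set.range s) ≤
            Submodule.span v.integer (Set.range st) :=
          Submodule.span_mono (by rintro _ ⟨i, rfl⟩; exact ⟨some i, rfl⟩)
        exact add_mem (SetLike.le_def.mp (sup_le_sup_right h2 _) (hσN i))
          (Submodule.mem_sup_left (Submodule.smul_mem _ _ h1)))
    (fun o => by
      have h1 : (1 : U → Ω) ∈ Submodule.span v.integer (Set.range fun o => T (st o)) :=
        Submodule.subset_span ⟨none, rfl⟩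
      cases o with
      | none => exact Submodule.mem_sup_left h1
      | some i =>
        have h2 : s i ∈ Submodule.span v.integer (Set.range σ) ⊔ small v • BB.toSubmodule := by
          rw [hspan]
          exact Submodule.mem_sup_left (Submodule.subset_span ⟨i, rfl⟩)
        have h4 : Submodule.span v.integer (Set.range σ) ≤
            Submodule.span v.integer (Set.range fun o => T (st o)) := by
          refine Submodule.span_le.mpr ?_
          rintro _ ⟨i, rfl⟩
          have h3 : σ i = T (s i) - e i • (1 : U → Ω) := by rw [hTs]; ring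
          rw [SetLike.mem_coe, h3]
          exact sub_mem (Submodule.subset_span ⟨some i, rfl⟩) (Submodule.smul_mem _ _ h1)
        exact SetLike.le_def.mp (sup_le_sup_right h4 _) h2)
  have hTm : ∀ (m : ℕ) (u : U), ∃ u' : U, u'.1 = (dyn f')^[l₀ * m] u.1 ∧
      ∀ ψ : U → Ω, (T ^ m) ψ u = ψ u' := by
    intro m
    induction m with
    | zero => exact fun u => ⟨u, rfl, fun ψ => rfl⟩
    | succ m ih =>
      intro u
      obtain ⟨u', h1, h2⟩ := ih u
      refine ⟨g u', ?_, fun ψ => ?_⟩
      · change (dyn f')^[l₀] u'.1 = _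
        rw [h1, ← Function.iterate_add_apply, Nat.mul_succ, add_comm]
      · rw [pow_succ, AlgHom.mul_apply, h2]
        rfl
  refine ⟨v (π : Ω), l₀ * c, zero_lt_iff.mpr (v.ne_zero_iff.mpr hπ0), hπI, Nat.mul_pos hl₀ hc,
    fun j α hα hαv h => ?_⟩
  have hh : ∃ (b : Ω), ∃ β ∈ BB, ∀ u : U, MvPolynomial.aeval u.1 h = b * β u := by
    induction h using MvPolynomial.induction_on with
    | C b => exact ⟨b, 1, one_mem _, fun u => by simp⟩
    | add h₁ h₂ ih₁ ih₂ =>
      obtain ⟨b₁, β₁, hβ₁, e₁⟩ := ih₁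
      obtain ⟨b₂, β₂, hβ₂, e₂⟩ := ih₂
      rcases le_total (v b₁) (v b₂) with hle | hle
      · obtain ⟨o, rfl⟩ := exists_mul_of_le v hle
        refine ⟨b₂, o • β₁ + β₂, add_mem (BB.smul_mem hβ₁ o) hβ₂, fun u => ?_⟩
        rw [map_add, e₁, e₂]
        change _ = b₂ * (o * β₁ u + β₂ u)
        ring
      · obtain ⟨o, rfl⟩ := exists_mul_of_le v hle
        refine ⟨b₁, β₁ + o • β₂, add_mem hβ₁ (BB.smul_mem hβ₂ o), fun u => ?_⟩
        rw [map_add, e₁, e₂]
        change _ = b₁ * (β₁ u + o * β₂ u)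
        ring
    | mul_X h i ih =>
      obtain ⟨b, β, hβ, e₁⟩ := ih
      have hxB : x i ∈ BB := by
        rw [hxs]
        exact add_mem (BB.algebraMap_mem _) (BB.smul_mem (hsB i) _)
      refine ⟨b, β * x i, mul_mem hβ hxB, fun u => ?_⟩
      rw [map_mul, e₁, MvPolynomial.aeval_X]
      exact mul_assoc _ _ _
  obtain ⟨b, β, hβ, hb⟩ := hh
  refine ⟨v b, fun k => ?_⟩
  obtain ⟨γ, hγ, h1⟩ := (hcong.pow j).fwd (ev ⟨α, hα, hαv⟩).toLinearMap hβ k
  have h2 : (fun m : ℕ => MvPolynomial.aeval ((dyn f')^[l₀ * c * j * m] α) h) =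
      b • fun m : ℕ => (ev ⟨α, hα, hαv⟩).toLinearMap ((((T ^ c) ^ j) ^ m) β) := by
    funext m
    obtain ⟨u', h3, h4⟩ := hTm (c * j * m) ⟨α, hα, hαv⟩
    change _ = b * (((T ^ c) ^ j) ^ m) β ⟨α, hα, hαv⟩
    rw [← pow_mul, ← pow_mul, ← mul_assoc, h4, ← hb, h3, mul_assoc l₀ c, mul_assoc l₀]
  rw [h2, fwdDiff_iter_const_smul, h1]
  change v (b * ((((p : v.integer) ^ 3) ^ k : v.integer) * γ ⟨α, hα, hαv⟩)) ≤ _
  push_cast
  rw [map_mul, map_mul, map_pow, map_pow, ← pow_mul]
  exact mul_le_mul_right (mul_le_of_le_one_right' (hBv γ hγ _)) _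

end Pool.Agent.P.MP_38c95b_ag
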