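import Pool.Agent.P.MP_38c95b_ag.Stmts

/-!
Lower bound for the length of the twisted fixed point scheme.
-/

set_option autoImplicit false

open Polynomial

namespace Pool.Agent.P.MP_38c95b_ag

namespace Low

variable {k R : Type} [Field k] [CommRing R] [Algebra k R] {d : ℕ}

theorem indep_pow (y : Fin d → R) (r : R) (P : (MvPolynomial (Fin d) k)[X]) (hP : P.Monic)
    (hker : ∀ G, ev2 y r G = 0 ↔ P ∣ G) (a : Fin P.natDegree → MvPolynomial (Fin d) k)
    (h : ∑ i, MvPolynomial.aeval y (a i) * r ^ (i : ℕ) = 0) (i : Fin P.natDegree) : a i = 0 := by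
  have h1 : ev2 y r (∑ i, C (a i) * X ^ (i : ℕ)) = 0 := by
    rw [← h]; simp
  have h2 : (∑ i, C (a i) * X ^ (i : ℕ) : (MvPolynomial (Fin d) k)[X]) = 0 := by
    by_contra h0
    refine hP.not_dvd_of_degree_lt h0 ?_ ((hker _).1 h1)
    rw [degree_eq_natDegree hP.ne_zero]
    exact degree_sum_fin_lt a
  have h3 := congrArg (fun G => coeff G (i : ℕ)) h2
  simp only [finsetSum_coeff, coeff_C_mul_X_pow, coeff_zero] at h3
  rw [Finset.sum_eq_single i (fun j _ hj => if_neg fun e => hj (Fin.ext e).symm) (by simp)] at h3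
  simpa using h3

theorem rep [Nontrivial R] (y : Fin d → R) (r : R) (P : (MvPolynomial (Fin d) k)[X])
    (hP : P.Monic) (hker : ∀ G, ev2 y r G = 0 ↔ P ∣ G) (G : (MvPolynomial (Fin d) k)[X]) :
    ∃ a : Fin P.natDegree → MvPolynomial (Fin d) k,
      ev2 y r G = ∑ i, MvPolynomial.aeval y (a i) * r ^ (i : ℕ) := by
  have hP0 : ev2 y r P = 0 := (hker P).2 dvd_rfl
  have hP1 : P ≠ 1 := by
    rintro rfl
    simp at hP0
  refine ⟨fun i => (G %ₘ P).coeff i, ?_⟩
  have h1 : ev2 y r G = ev2 y r (G %ₘ P) := by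
    conv_lhs => rw [← modByMonic_add_div G P]
    rw [map_add, map_mul, hP0, zero_mul, add_zero]
  rw [h1, Fin.sum_univ_eq_sum_range
    (fun i => MvPolynomial.aeval y ((G %ₘ P).coeff i) * r ^ i) P.natDegree]
  exact eval₂_eq_sum_range' _ (natDegree_modByMonic_lt G hP hP1) r

theorem rep_deg [Nontrivial R] (y : Fin d → R) (r : R) (P : (MvPolynomial (Fin d) k)[X])
    (c : MvPolynomial (Fin d) k) (hP : P.Monic) (hker : ∀ G, ev2 y r G = 0 ↔ P ∣ G)
    (hc : ∀ b : R, ∃ G : (MvPolynomial (Fin d) k)[X], MvPolynomial.aeval y c * b = ev2 y r G)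
    (ω : Finset R) :
    ∃ κ : ℕ, ∀ n φ, φ ∈ Gen k y ω n → ∃ a : Fin P.natDegree → MvPolynomial (Fin d) k,
      (∀ i, (a i).totalDegree ≤ n + κ) ∧
        MvPolynomial.aeval y c * φ = ∑ i, MvPolynomial.aeval y (a i) * r ^ (i : ℕ) := by
  classical
  have h : ∀ b : R, ∃ a : Fin P.natDegree → MvPolynomial (Fin d) k,
      MvPolynomial.aeval y c * b = ∑ i, MvPolynomial.aeval y (a i) * r ^ (i : ℕ) := by
    intro b
    obtain ⟨G, hG⟩ := hc b
    obtain ⟨a, ha⟩ := rep y r P hP hker G
    exact ⟨a, hG.trans ha⟩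
  choose A hA using h
  refine ⟨ω.sup fun w => Finset.univ.sup fun i => (A w i).totalDegree, fun n φ hφ => ?_⟩
  induction hφ using Submodule.span_induction with
  | mem φ h =>
    obtain ⟨q, w, hw, hq, rfl⟩ := h
    refine ⟨fun i => q * A w i, fun i => ?_, ?_⟩
    · have h1 := MvPolynomial.totalDegree_mul q (A w i)
      have h2 : (A w i).totalDegree ≤ Finset.univ.sup fun i => (A w i).totalDegree :=
        Finset.le_sup (f := fun i => (A w i).totalDegree) (Finset.mem_univ i)
      have h3 : (Finset.univ.sup fun i => (A w i).totalDegree) ≤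
          ω.sup fun w => Finset.univ.sup fun i => (A w i).totalDegree :=
        Finset.le_sup (f := fun w => Finset.univ.sup fun i => (A w i).totalDegree) hw
      beta_reduce
      omega
    · rw [mul_left_comm, hA, Finset.mul_sum]
      simp [mul_assoc]
  | zero => exact ⟨0, by simp, by simp⟩
  | add a b _ _ ha hb =>
    obtain ⟨a1, h1, e1⟩ := ha
    obtain ⟨a2, h2, e2⟩ := hb
    refine ⟨a1 + a2, fun i => ?_, ?_⟩
    · exact (MvPolynomial.totalDegree_add _ _).trans (max_le (h1 i) (h2 i))
    · rw [mul_add, e1, e2, ← Finset.sum_add_distrib]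
      simp [add_mul]
  | smul s a _ ha =>
    obtain ⟨a1, h1, e1⟩ := ha
    refine ⟨s • a1, fun i => ?_, ?_⟩
    · exact (MvPolynomial.totalDegree_smul_le _ _).trans (h1 i)
    · rw [mul_smul_comm, e1, Finset.smul_sum]
      simp

theorem pow_mul_mem (y : Fin d → R) (ω : Finset R) (l : Fin d) (M : ℕ) {n : ℕ} {φ : R}
    (hφ : φ ∈ Gen k y ω n) : y l ^ M * φ ∈ Gen k y ω (n + M) := by
  have := aeval_mul_mem_Gen y ω (MvPolynomial.X l ^ M : MvPolynomial (Fin d) k) hφ
  rw [MvPolynomial.totalDegree_X_pow] at this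
  simpa using this

theorem twist (y u : Fin d → R) (ω : Finset R) (κ M : ℕ) (hM : κ ≤ M)
    (hu : ∀ l n φ, φ ∈ Gen k y ω n → u l * φ ∈ Gen k y ω (n + κ)) (s : ℕ) :
    ∀ b : Fin d →₀ ℕ, b.degree = s → ∀ n φ, φ ∈ Gen k y ω n →
      MvPolynomial.aeval (fun l => y l ^ M - u l) (MvPolynomial.monomial b (1 : k)) * φ ∈
        Gen k y ω (n + M * s) ∧
      ∀ t, n + M * s + κ ≤ t + M →
        (MvPolynomial.aeval (fun l => y l ^ M - u l) (MvPolynomial.monomial b (1 : k)) -
          MvPolynomial.aeval (fun l => y l ^ M) (MvPolynomial.monomial b (1 : k))) * φ ∈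
          Gen k y ω t := by
  induction s with
  | zero =>
    intro b hb n φ hφ
    rw [Finsupp.degree_eq_zero_iff] at hb
    subst hb
    simpa using hφ
  | succ s ih =>
    intro b hb n φ hφ
    have hb0 : b ≠ 0 := by
      rintro rfl
      simp at hb
    obtain ⟨l, hl⟩ := Finsupp.ne_iff.1 hb0
    obtain ⟨b', rfl⟩ : ∃ b', b = b' + Finsupp.single l 1 :=
      ⟨b - Finsupp.single l 1, (tsub_add_cancel_of_le (Finsupp.single_le_iff.mpr
        (Nat.pos_of_ne_zero hl))).symm⟩
    have hb' : b'.degree = s := by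
      rw [map_add, Finsupp.degree_single] at hb
      omega
    obtain ⟨h1, h2⟩ := ih b' hb' _ _ (pow_mul_mem y ω l M hφ)
    have h3 := hu l _ _ (ih b' hb' _ _ hφ).1
    simp only [MvPolynomial.monomial_add_single, pow_one, map_mul, MvPolynomial.aeval_X]
    constructor
    · have e : n + M * (s + 1) = n + M + M * s := by ring
      rw [e]
      have := sub_mem h1 (Gen_mono y ω (by omega) h3)
      convert this using 1
      ring
    · intro t ht
      have e : n + M * (s + 1) = n + M + M * s := by ring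
      have := sub_mem (h2 t (by omega)) (Gen_mono y ω (by omega) h3)
      convert this using 1
      ring

/-- the exponent attached to a point of the box -/
noncomputable def ex {M : ℕ} (a : Fin d → Fin M) : Fin d →₀ ℕ :=
  Finsupp.equivFunOnFinite.symm fun l => (a l : ℕ)

theorem ex_apply {M : ℕ} (a : Fin d → Fin M) (l : Fin d) : ex a l = a l := rfl

theorem coeff_box {M : ℕ} (hM : M ≠ 0) (g : (Fin d → Fin M) → MvPolynomial (Fin d) k)
    (a : Fin d → Fin M) (b : Fin d →₀ ℕ) :
    MvPolynomial.coeff (M • b + ex a)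
      (∑ a', MvPolynomial.expand M (g a') * MvPolynomial.monomial (ex a') (1 : k)) =
      MvPolynomial.coeff b (g a) := by
  classical
  rw [MvPolynomial.coeff_sum, Finset.sum_eq_single a _ (by simp)]
  · rw [MvPolynomial.coeff_mul_monomial, MvPolynomial.coeff_expand_smul _ hM, mul_one]
  · intro a' _ hne
    rw [MvPolynomial.coeff_mul_monomial']
    split_ifs with hle
    · obtain ⟨l, hl⟩ := Function.ne_iff.1 hne
      rw [MvPolynomial.coeff_expand_of_not_dvd (i := l), zero_mul]
      rintro ⟨q, hq⟩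
      have h1 := hle l
      simp only [Finsupp.coe_tsub, Finsupp.coe_add, Finsupp.coe_smul, Pi.sub_apply, Pi.add_apply,
        Pi.smul_apply, smul_eq_mul, ex_apply] at hq h1
      have h2 : M * b l + a l = M * q + a' l := by omega
      have h3 := congrArg (· % M) h2
      simp only [Nat.mul_add_mod, Nat.mod_eq_of_lt (a l).2, Nat.mod_eq_of_lt (a' l).2] at h3
      exact hl (Fin.ext h3.symm)
    · rfl

theorem indep [Nontrivial R] (y u : Fin d → R) (r : R) (P : (MvPolynomial (Fin d) k)[X])
    (c : MvPolynomial (Fin d) k) (hP : P.Monic) (hker : ∀ G, ev2 y r G = 0 ↔ P ∣ G) (hc0 : c ≠ 0)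
    (hc : ∀ b : R, ∃ G : (MvPolynomial (Fin d) k)[X], MvPolynomial.aeval y c * b = ev2 y r G)
    (ω : Finset R) (hω : ∀ φ : R, ∃ n, φ ∈ Gen k y ω n) :
    ∃ M₀ : ℕ, ∀ M, M₀ ≤ M →
      ∀ g : (Fin d → Fin M) × Fin P.natDegree → MvPolynomial (Fin d) k,
        ∑ z, MvPolynomial.aeval (fun l => y l ^ M - u l) (g z) *
          (MvPolynomial.aeval y (MvPolynomial.monomial (ex z.1) (1 : k)) * r ^ (z.2 : ℕ)) = 0 →
        ∀ z, g z = 0 := by
  classical
  choose κ hκ using fun l => exists_mul_mem_Gen y ω hω (u l)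
  choose ν hν using hω
  obtain ⟨κc, hκc⟩ := rep_deg y r P c hP hker hc ω
  obtain ⟨κu, hκu⟩ : ∃ κu, ∀ l n φ, φ ∈ Gen k y ω n → u l * φ ∈ Gen k y ω (n + κu) :=
    ⟨Finset.univ.sup κ, fun l n φ h => Gen_mono y ω
      (Nat.add_le_add_left (Finset.le_sup (Finset.mem_univ l)) n) (hκ l n φ h)⟩
  obtain ⟨κr, hκr⟩ : ∃ κr, ∀ i : Fin P.natDegree, r ^ (i : ℕ) ∈ Gen k y ω κr :=
    ⟨Finset.univ.sup fun i : Fin P.natDegree => ν (r ^ (i : ℕ)), fun i => Gen_mono y ω
      (Finset.le_sup (f := fun i : Fin P.natDegree => ν (r ^ (i : ℕ))) (Finset.mem_univ i))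
      (hν _)⟩
  refine ⟨κu + κr + κc + 1, fun M hM g hg => ?_⟩
  have hM0 : M ≠ 0 := by omega
  set H : Fin P.natDegree → MvPolynomial (Fin d) k := fun i =>
    ∑ a, MvPolynomial.expand M (g (a, i)) * MvPolynomial.monomial (ex a) (1 : k) with hH
  suffices h : ∀ i, H i = 0 by
    rintro ⟨a, i⟩
    ext b
    rw [← coeff_box hM0 (fun a => g (a, i)) a b]
    change MvPolynomial.coeff _ (H i) = _
    rw [h i]
    simp
  by_contra hne
  push Not at hne
  obtain ⟨i₀, hi₀, hmax⟩ := Finset.exists_max_image (Finset.univ.filter fun i => H i ≠ 0)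
    (fun i => (H i).totalDegree) (by
      obtain ⟨i, hi⟩ := hne
      exact ⟨i, by simp [hi]⟩)
  have hi₀' : H i₀ ≠ 0 := by simpa using hi₀
  set N := (H i₀).totalDegree with hN
  have hdeg : ∀ a i b, MvPolynomial.coeff b (g (a, i)) ≠ 0 →
      M * b.degree + (ex a).degree ≤ N := by
    intro a i b hb
    rw [← coeff_box hM0 (fun a => g (a, i)) a b] at hb
    change MvPolynomial.coeff _ (H i) ≠ 0 at hb
    have h0 : H i ≠ 0 := by
      intro h
      rw [h] at hb
      simp at hb
    have h1 := MvPolynomial.le_totalDegree (MvPolynomial.mem_support_iff.2 hb)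
    have h2 := hmax i (by simp [h0])
    have h3 : ((M • b + ex a).sum fun _ e => e) = M * b.degree + (ex a).degree := by
      change Finsupp.degree (M • b + ex a) = _
      rw [map_add, map_nsmul, smul_eq_mul]
    omega
  have key : ∀ W : Submodule k R, (∀ (a : Fin d → Fin M) (i : Fin P.natDegree) (b : Fin d →₀ ℕ),
      M * b.degree + (ex a).degree ≤ N →
      (MvPolynomial.aeval (fun l => y l ^ M - u l) (MvPolynomial.monomial b (1 : k)) -
          MvPolynomial.aeval (fun l => y l ^ M) (MvPolynomial.monomial b (1 : k))) *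
        (MvPolynomial.aeval y (MvPolynomial.monomial (ex a) (1 : k)) * r ^ (i : ℕ)) ∈ W) →
      ∑ i, MvPolynomial.aeval y (H i) * r ^ (i : ℕ) ∈ W := by
    intro W hW
    have e : ∑ i, MvPolynomial.aeval y (H i) * r ^ (i : ℕ) =
        -∑ z : (Fin d → Fin M) × Fin P.natDegree,
          (MvPolynomial.aeval (fun l => y l ^ M - u l) (g z) -
            MvPolynomial.aeval (fun l => y l ^ M) (g z)) *
          (MvPolynomial.aeval y (MvPolynomial.monomial (ex z.1) (1 : k)) * r ^ (z.2 : ℕ)) := by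
      simp only [sub_mul, Finset.sum_sub_distrib, hg, zero_sub, neg_neg]
      rw [Fintype.sum_prod_type_right]
      refine Finset.sum_congr rfl fun i _ => ?_
      simp only [hH, map_sum, map_mul, Finset.sum_mul, MvPolynomial.aeval_expand, mul_assoc]
      rfl
    rw [e]
    refine neg_mem (Submodule.sum_mem _ fun z _ => ?_)
    obtain ⟨a, i⟩ := z
    have e2 : g (a, i) = ∑ b ∈ (g (a, i)).support,
        MvPolynomial.coeff b (g (a, i)) • MvPolynomial.monomial b (1 : k) := by
      conv_lhs => rw [(g (a, i)).as_sum]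
      refine Finset.sum_congr rfl fun b _ => ?_
      rw [MvPolynomial.smul_monomial, smul_eq_mul, mul_one]
    rw [e2, map_sum, map_sum, ← Finset.sum_sub_distrib, Finset.sum_mul]
    refine Submodule.sum_mem _ fun b hb => ?_
    rw [map_smul, map_smul, ← smul_sub, smul_mul_assoc]
    exact Submodule.smul_mem _ _ (hW a i b (hdeg a i b (MvPolynomial.mem_support_iff.1 hb)))
  by_cases hNM : N < M
  · have := key ⊥ fun a i b hb => by
      have : b.degree = 0 := by
        by_contra h
        have : M * 1 ≤ M * b.degree := Nat.mul_le_mul_left _ (Nat.pos_of_ne_zero h)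
        omega
      rw [Finsupp.degree_eq_zero_iff] at this
      subst this
      simp
    exact hi₀' (indep_pow y r P hP hker H (by simpa using this) i₀)
  · have := key (Gen k y ω (N + κu + κr - M)) fun a i b hb => by
      have h1 := aeval_mul_mem_Gen y ω (MvPolynomial.monomial (ex a) (1 : k)) (hκr i)
      have h2 : (MvPolynomial.monomial (ex a) (1 : k)).totalDegree ≤ (ex a).degree :=
        MvPolynomial.totalDegree_monomial_le _ _
      exact (twist y u ω κu M (by omega) hκu _ b rfl _ _ h1).2 _ (by omega)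
    obtain ⟨A, hA, hA'⟩ := hκc _ _ this
    have h0 := indep_pow y r P hP hker (fun i => c * H i - A i) (by
      simp only [map_sub, map_mul, sub_mul, Finset.sum_sub_distrib, ← hA', Finset.mul_sum,
        mul_assoc, sub_self]) i₀
    have h1 := hA i₀
    rw [← sub_eq_zero.1 h0, MvPolynomial.totalDegree_mul_of_isDomain hc0 hi₀'] at h1
    omega

theorem count {ι : Type} [Fintype ι] (z : Fin d → R) (s : Finset R)
    (hs : ∀ N : Submodule k R, (∀ w ∈ s, w ∈ N) → (∀ l, ∀ φ ∈ N, z l * φ ∈ N) → N = ⊤)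
    (e : ι → R) (he : ∀ g : ι → MvPolynomial (Fin d) k,
      ∑ j, MvPolynomial.aeval z (g j) * e j = 0 → ∀ j, g j = 0) :
    Module.Finite k (R ⧸ Ideal.span (Set.range z)) ∧
      Fintype.card ι ≤ Module.finrank k (R ⧸ Ideal.span (Set.range z)) := by
  classical
  set I := Ideal.span (Set.range z) with hI
  let π : R →ₗ[k] R ⧸ I := (Ideal.Quotient.mkₐ k I).toLinearMap
  have hπ : Function.Surjective π := Ideal.Quotient.mk_surjective
  have hfin : Module.Finite k (R ⧸ I) := by
    have h1 := hs ((Submodule.span k (π '' (s : Set R))).comap π)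
      (fun w hw => Submodule.subset_span ⟨w, hw, rfl⟩) (fun l φ _ => by
        have : π (z l * φ) = 0 := Ideal.Quotient.eq_zero_iff_mem.2
          (Ideal.mul_mem_right _ _ (Ideal.subset_span ⟨l, rfl⟩))
        rw [Submodule.mem_comap, this]
        exact zero_mem _)
    refine ⟨⟨s.image π, ?_⟩⟩
    rw [Finset.coe_image, eq_top_iff]
    intro x _
    obtain ⟨w, rfl⟩ := hπ x
    have : w ∈ (Submodule.span k (π '' (s : Set R))).comap π := by rw [h1]; trivial
    exact this
  refine ⟨hfin, ?_⟩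
  let : Algebra (MvPolynomial (Fin d) k) R :=
    (MvPolynomial.aeval z : MvPolynomial (Fin d) k →ₐ[k] R).toRingHom.toAlgebra
  have hsm : ∀ (q : MvPolynomial (Fin d) k) (φ : R), q • φ = MvPolynomial.aeval z q * φ :=
    fun _ _ => rfl
  have : IsScalarTower k (MvPolynomial (Fin d) k) R :=
    ⟨fun a q φ => by rw [hsm, hsm, map_smul, smul_mul_assoc]⟩
  have hfg : (⊤ : Submodule (MvPolynomial (Fin d) k) R).FG := by
    refine ⟨s, ?_⟩
    have h1 := hs ((Submodule.span (MvPolynomial (Fin d) k) (s : Set R)).restrictScalars k)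
      (fun w hw => Submodule.subset_span hw) (fun l φ hφ => by
        have := Submodule.smul_mem (Submodule.span (MvPolynomial (Fin d) k) (s : Set R))
          (MvPolynomial.X l) hφ
        rw [hsm, MvPolynomial.aeval_X] at this
        exact this)
    exact (Submodule.restrictScalars_eq_top_iff _ _ _).1 h1
  let bs := Module.finBasis k (R ⧸ I)
  choose v hv using fun j => hπ (bs j)
  let m : Ideal (MvPolynomial (Fin d) k) := Ideal.span (Set.range MvPolynomial.X)
  have hIm : ∀ φ ∈ I, φ ∈ m • (⊤ : Submodule (MvPolynomial (Fin d) k) R) := by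
    intro φ hφ
    obtain ⟨f, rfl⟩ := Ideal.mem_span_range_iff_exists_fun.1 hφ
    refine Submodule.sum_mem _ fun l _ => ?_
    have : f l * z l = (MvPolynomial.X l : MvPolynomial (Fin d) k) • f l := by
      rw [hsm, MvPolynomial.aeval_X, mul_comm]
    rw [this]
    exact Submodule.smul_mem_smul (Ideal.subset_span ⟨l, rfl⟩) trivial
  obtain ⟨θ, hθ1, hθ⟩ := Submodule.exists_sub_one_mem_and_smul_le_of_fg_of_le_sup (I := m)
    (N := Submodule.span (MvPolynomial (Fin d) k) (Set.range v)) (P := ⊤) hfg le_rfl (by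
      intro φ _
      have h1 : φ - ∑ j, bs.repr (π φ) j • v j ∈ I := by
        rw [← Ideal.Quotient.eq_zero_iff_mem]
        change π _ = 0
        simp only [map_sub, map_sum, map_smul, hv, Module.Basis.sum_repr, sub_self]
      rw [← add_sub_cancel (∑ j, bs.repr (π φ) j • v j) φ]
      rw [add_sub_assoc', add_sub_assoc]
      refine Submodule.add_mem_sup (Submodule.sum_mem _ fun j _ => ?_) (hIm _ h1)
      exact Submodule.smul_of_tower_mem _ _ (Submodule.subset_span ⟨j, rfl⟩))
  have hθ0 : θ ≠ 0 := by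
    rintro rfl
    have h1 : m ≤ RingHom.ker (MvPolynomial.constantCoeff : MvPolynomial (Fin d) k →+* k) := by
      refine Ideal.span_le.2 ?_
      rintro _ ⟨l, rfl⟩
      simp
    have := h1 hθ1
    simp at this
  have hli : LinearIndependent (MvPolynomial (Fin d) k) fun j => θ • e j := by
    rw [Fintype.linearIndependent_iff]
    intro g hg j
    have := he (fun j => g j * θ) (by
      rw [← hg]
      refine Finset.sum_congr rfl fun j _ => ?_
      rw [← mul_smul, hsm]) j
    exact (mul_eq_zero.1 this).resolve_right hθ0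
  have h2 := linearIndependent_le_span_aux' _ hli (Set.range v) (by
    rintro _ ⟨j, rfl⟩
    exact hθ (Submodule.smul_mem_pointwise_smul _ _ _ trivial))
  exact h2.trans ((Fintype.card_range_le v).trans (by simp))

end Low

theorem low : S_Low := by
  intro k R _ _ _ _ d y u r P c hfin hP hker hc0 hc
  classical
  obtain ⟨ω, -, hω⟩ := exists_Gen y hfin
  obtain ⟨M₁, h₁⟩ := exists_box_span y u ω hω
  obtain ⟨M₂, h₂⟩ := Low.indep y u r P c hP hker hc0 hc ω hω
  refine ⟨max M₁ M₂, fun M hM => ?_⟩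
  have := Low.count (k := k) (fun l => y l ^ M - u l)
    ((Finset.univ ×ˢ ω).image fun z : (Fin d → Fin M) × R =>
      MvPolynomial.aeval y (MvPolynomial.monomial (Low.ex z.1) (1 : k)) * z.2)
    (fun N hN hz => h₁ M (le_of_max_le_left hM) N (fun a w hw ha => hN _ (by
      refine Finset.mem_image.2 ⟨(fun l => ⟨a l, ha l⟩, w), by simp [hw], ?_⟩
      have : Low.ex (fun l => (⟨a l, ha l⟩ : Fin M)) = a := by
        ext l; rfl
      simp only [this])) hz)
    (fun z : (Fin d → Fin M) × Fin P.natDegree =>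
      MvPolynomial.aeval y (MvPolynomial.monomial (Low.ex z.1) (1 : k)) * r ^ (z.2 : ℕ))
    (h₂ M (le_of_max_le_right hM))
  refine ⟨this.1, ?_⟩
  have h3 := this.2
  rw [Fintype.card_prod, Fintype.card_fun, Fintype.card_fin, Fintype.card_fin,
    Fintype.card_fin, mul_comm] at h3
  exact h3

end Pool.Agent.P.MP_38c95b_ag
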