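import Pool.Agent.P.MP_38c95b_ag.Box

/-!
Multiplicities of the twisted fixed point scheme.
-/

set_option autoImplicit false

open Polynomial

namespace Pool.Agent.P.MP_38c95b_ag

namespace MultP

variable {k R : Type} [Field k] [CommRing R] [Algebra k R]

theorem aeval_sub_mem {σ : Type} (I : Ideal R) (u : σ → R) (c : σ → k)
    (h : ∀ l, u l - algebraMap k R (c l) ∈ I) (q : MvPolynomial σ k) :
    MvPolynomial.aeval u q - algebraMap k R (MvPolynomial.aeval c q) ∈ I := by
  rw [← Ideal.Quotient.eq]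
  induction q using MvPolynomial.induction_on with
  | C a => simp
  | add p q hp hq => simp only [map_add, hp, hq]
  | mul_X p i hp =>
    simp only [map_mul, hp, MvPolynomial.aeval_X, Ideal.Quotient.eq.mpr (h i)]

theorem ev2_sub_mem {σ : Type} (I : Ideal R) (u : σ → R) (c : σ → k)
    (h : ∀ l, u l - algebraMap k R (c l) ∈ I) (r : R) (G : (MvPolynomial σ k)[X]) :
    ev2 u r G - Polynomial.aeval r
      (G.map (MvPolynomial.aeval c : MvPolynomial σ k →ₐ[k] k).toRingHom) ∈ I := by
  induction G using Polynomial.induction_on' with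
  | add p q hp hq =>
    rw [Polynomial.map_add, map_add, map_add, add_sub_add_comm]
    exact add_mem hp hq
  | monomial n a =>
    rw [← Polynomial.C_mul_X_pow_eq_monomial, Polynomial.map_mul, Polynomial.map_pow, map_mul,
      map_mul, map_pow, map_pow, ev2_C, ev2_X, Polynomial.map_C, Polynomial.map_X, aeval_C,
      aeval_X, ← sub_mul]
    exact I.mul_mem_right _ (aeval_sub_mem I u c h a)

theorem sub_mem_span {n : ℕ} (x : Fin n → R) (hx : Algebra.adjoin k (Set.range x) = ⊤)
    (ξ : R →ₐ[k] k) (b : R) :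
    b - algebraMap k R (ξ b) ∈
      Ideal.span (Set.range fun i => x i - algebraMap k R (ξ (x i))) := by
  have hb : b ∈ Algebra.adjoin k (Set.range x) := by rw [hx]; trivial
  rw [Algebra.adjoin_range_eq_range_aeval] at hb
  obtain ⟨q, rfl⟩ := hb
  have := aeval_sub_mem (Ideal.span (Set.range fun i => x i - algebraMap k R (ξ (x i)))) x
    (fun i => ξ (x i)) (fun l => Ideal.subset_span ⟨l, rfl⟩) q
  have h2 : ξ (MvPolynomial.aeval x q) = MvPolynomial.aeval (fun i => ξ (x i)) q :=
    MvPolynomial.comp_aeval_apply _ _ _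
  change MvPolynomial.aeval x q - algebraMap k R (ξ (MvPolynomial.aeval x q)) ∈ _
  rwa [h2]

theorem pow_mem_span {n : ℕ} (g : Fin n → R) (E : ℕ) {b : R}
    (hb : b ∈ Ideal.span (Set.range g)) :
    b ^ (n * E + 1) ∈ Ideal.span (Set.range fun i => g i ^ (E + 1)) := by
  obtain ⟨c, rfl⟩ := Ideal.mem_span_range_iff_exists_fun.mp hb
  have := Ideal.sum_pow_mem_span_pow Finset.univ (fun i => c i * g i) E
  rw [Finset.card_univ, Fintype.card_fin] at this
  refine Ideal.span_le.mpr ?_ this
  rintro _ ⟨i, _, rfl⟩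
  simp only [mul_pow]
  exact Ideal.mul_mem_left _ _ (Ideal.subset_span ⟨i, rfl⟩)

theorem exists_point [IsAlgClosed k] [Algebra.FiniteType k R] (I : Ideal R) (hI : I ≠ ⊤) :
    ∃ ξ : R →ₐ[k] k, ∀ b ∈ I, ξ b = 0 := by
  obtain ⟨m, hm, hIm⟩ := Ideal.exists_le_maximal I hI
  let := Ideal.Quotient.field m
  have hfin : Module.Finite k (R ⧸ m) := finite_of_finite_type_of_isJacobsonRing k (R ⧸ m)
  have hb : Function.Bijective (algebraMap k (R ⧸ m)) :=
    IsAlgClosed.algebraMap_bijective_of_isIntegral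
  let e : k ≃ₐ[k] (R ⧸ m) := AlgEquiv.ofBijective (Algebra.ofId k (R ⧸ m)) hb
  refine ⟨e.symm.toAlgHom.comp (Ideal.Quotient.mkₐ k m), fun b hb => ?_⟩
  have : Ideal.Quotient.mk m b = 0 := Ideal.Quotient.eq_zero_iff_mem.mpr (hIm hb)
  simp [this]

/-- The local statement at a point of the twisted scheme. -/
theorem loc (p : ℕ) [Fact p.Prime] [CharP k p] {n : ℕ} {σ : Type} (x : Fin n → R) (y u : σ → R)
    (Pi : Fin n → (MvPolynomial σ k)[X]) (hx : Algebra.adjoin k (Set.range x) = ⊤)
    (hm : ∀ i, (Pi i).Monic) (h0 : ∀ i, ev2 u (x i) (Pi i) = 0) (j E : ℕ)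
    (hj : n * E + 1 < p ^ j) (ξ : R →ₐ[k] k) (hξ : ∀ l, ξ (y l) ^ (p ^ j) = ξ (u l))
    (hE : ∀ i, ((Pi i).map (MvPolynomial.aeval (fun l => ξ (u l)) :
      MvPolynomial σ k →ₐ[k] k).toRingHom).rootMultiplicity (ξ (x i)) ≤ E + 1) :
    ∃ r : R, ξ r = 1 ∧ ∀ b, ξ b = 0 →
      r * b ^ (n * E + 1) ∈ Ideal.span (Set.range fun l => y l ^ (p ^ j) - u l) := by
  have hnt : Nontrivial R := ξ.toRingHom.domain_nontrivial
  have hch : CharP R p := charP_of_injective_algebraMap (algebraMap k R).injective p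
  set Z := Ideal.span (Set.range fun l => y l ^ (p ^ j) - u l) with hZ
  set g : Fin n → R := fun i => x i - algebraMap k R (ξ (x i)) with hg
  set m := Ideal.span (Set.range g) with hmdef
  set J := Ideal.span (Set.range fun i => g i ^ (E + 1)) with hJ
  have hsub : ∀ b, b - algebraMap k R (ξ b) ∈ m := sub_mem_span x hx ξ
  have hmξ : ∀ b ∈ m, ξ b = 0 := by
    intro b hb
    have : m ≤ RingHom.ker ξ.toRingHom := by
      refine Ideal.span_le.mpr ?_
      rintro _ ⟨i, rfl⟩
      simp [hg]
    exact this hb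
  have hu : ∀ l, u l - algebraMap k R (ξ (u l)) ∈ Z ⊔ m • J := by
    intro l
    have e1 : u l - algebraMap k R (ξ (u l)) =
        (y l - algebraMap k R (ξ (y l))) ^ (p ^ j) - (y l ^ (p ^ j) - u l) := by
      rw [sub_pow_char_pow, ← map_pow, hξ]; ring
    rw [e1]
    refine sub_mem (Submodule.mem_sup_right ?_)
      (Submodule.mem_sup_left (Ideal.subset_span ⟨l, rfl⟩))
    obtain ⟨c, hc⟩ := Nat.exists_eq_add_of_lt hj
    have e2 : p ^ j = (c + 1) + (n * E + 1) := by omega
    rw [e2, pow_add, pow_succ]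
    exact Submodule.smul_mem_smul (m.mul_mem_left _ (hsub _)) (pow_mem_span g E (hsub _))
  have hJle : J ≤ Z ⊔ m • J := by
    refine Ideal.span_le.mpr ?_
    rintro _ ⟨i, rfl⟩
    have h1 := ev2_sub_mem (Z ⊔ m • J) u (fun l => ξ (u l)) hu (x i) (Pi i)
    rw [h0, zero_sub, neg_mem_iff] at h1
    have hEi := hE i
    set F := (Pi i).map (MvPolynomial.aeval (fun l => ξ (u l)) :
      MvPolynomial σ k →ₐ[k] k).toRingHom with hF
    obtain ⟨q, hq, hnd⟩ := exists_eq_pow_rootMultiplicity_mul_and_not_dvd F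
      ((hm i).map _).ne_zero (ξ (x i))
    rw [dvd_iff_isRoot, IsRoot.def] at hnd
    obtain ⟨c, hc⟩ := Nat.exists_eq_add_of_le hEi
    rw [hq, map_mul, map_pow, map_sub, aeval_X, aeval_C] at h1
    have h2 : g i ^ (E + 1) * Polynomial.aeval (x i) q ∈ Z ⊔ m • J := by
      rw [hc, pow_add, mul_right_comm]
      exact Ideal.mul_mem_right _ _ h1
    have h3 : ξ (Polynomial.aeval (x i) q) = q.eval (ξ (x i)) := by
      rw [← Polynomial.aeval_algHom_apply, Polynomial.coe_aeval_eq_eval]
    have h4 : (Polynomial.aeval (x i) q - algebraMap k R (q.eval (ξ (x i)))) * g i ^ (E + 1) ∈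
        Z ⊔ m • J := by
      refine Submodule.mem_sup_right (Submodule.smul_mem_smul ?_ (Ideal.subset_span ⟨i, rfl⟩))
      rw [← h3]; exact hsub _
    have h5 : g i ^ (E + 1) = algebraMap k R (q.eval (ξ (x i)))⁻¹ *
        (g i ^ (E + 1) * Polynomial.aeval (x i) q -
          (Polynomial.aeval (x i) q - algebraMap k R (q.eval (ξ (x i)))) * g i ^ (E + 1)) := by
      have : algebraMap k R (q.eval (ξ (x i)))⁻¹ * algebraMap k R (q.eval (ξ (x i))) = 1 := by
        rw [← map_mul, inv_mul_cancel₀ hnd, map_one]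
      linear_combination (-(g i ^ (E + 1))) * this
    change g i ^ (E + 1) ∈ Z ⊔ m • J
    rw [h5]
    exact Ideal.mul_mem_left _ _ (sub_mem h2 h4)
  obtain ⟨r, hr1, hr⟩ := Submodule.exists_sub_one_mem_and_smul_le_of_fg_of_le_sup
    (I := m) (N := Z) (N' := J) (P := J)
    (Submodule.fg_span (Set.finite_range _)) le_rfl hJle
  refine ⟨r, ?_, fun b hb => ?_⟩
  · have := hmξ _ hr1
    rwa [map_sub, map_one, sub_eq_zero] at this
  · have hbm : b ∈ m := by simpa [hb] using hsub b
    exact hr (Submodule.smul_mem_pointwise_smul _ r J (pow_mem_span g E hbm))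

theorem finrank_sup_le {V ι : Type} [AddCommGroup V] [Module k V] (s : Finset ι)
    (W : ι → Submodule k V) [∀ i, FiniteDimensional k (W i)] (B : ℕ)
    (h : ∀ i, Module.finrank k (W i) ≤ B) :
    Module.finrank k (s.sup W : Submodule k V) ≤ s.card * B := by
  classical
  induction s using Finset.induction_on with
  | empty => simp
  | insert a s ha ih =>
    rw [Finset.sup_insert, Finset.card_insert_of_notMem ha]
    refine (Submodule.finrank_add_le_finrank_add_finrank _ _).trans ?_
    have := h a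
    rw [add_mul, one_mul]
    omega

/-- The linear map `q ↦ π (q(y) * w)`. -/
noncomputable def psi {σ V : Type} [AddCommGroup V] [Module k V] (y : σ → R) (π : R →ₗ[k] V)
    (w : R) : MvPolynomial σ k →ₗ[k] V :=
  π.comp ((LinearMap.mulRight k w).comp (MvPolynomial.aeval y).toLinearMap)

theorem psi_apply {σ V : Type} [AddCommGroup V] [Module k V] (y : σ → R) (π : R →ₗ[k] V)
    (w : R) (q : MvPolynomial σ k) : psi y π w q = π (MvPolynomial.aeval y q * w) := rfl

theorem sup_top {σ V : Type} [AddCommGroup V] [Module k V] (y u : σ → R) (ω : Finset R)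
    (M : ℕ)
    (H : ∀ N : Submodule k R,
      (∀ (a : σ →₀ ℕ), ∀ w ∈ ω, (∀ l, a l < M) →
        MvPolynomial.aeval y (MvPolynomial.monomial a (1 : k)) * w ∈ N) →
      (∀ l, ∀ φ ∈ N, (y l ^ M - u l) * φ ∈ N) → N = ⊤)
    (π : R →ₗ[k] V) (hs : Function.Surjective π) (hz : ∀ l φ, π ((y l ^ M - u l) * φ) = 0) :
    ω.sup (fun w => (MvPolynomial.restrictDegree σ k (M - 1)).map (psi y π w)) = ⊤ := by
  set T := ω.sup (fun w => (MvPolynomial.restrictDegree σ k (M - 1)).map (psi y π w)) with hT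
  have := H (T.comap π) (fun a w hw ha => by
      have h1 : (MvPolynomial.restrictDegree σ k (M - 1)).map (psi y π w) ≤ T :=
        Finset.le_sup (f := fun w => (MvPolynomial.restrictDegree σ k (M - 1)).map (psi y π w)) hw
      refine h1 ⟨MvPolynomial.monomial a 1, ?_, rfl⟩
      refine MvPolynomial.monomial_mem_restrictSupport k |>.mpr (Or.inl fun i => ?_)
      have := ha i
      omega)
    (fun l φ _ => by
      rw [Submodule.mem_comap, hz]
      exact zero_mem _)
  refine eq_top_iff.mpr fun v _ => ?_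
  obtain ⟨b, rfl⟩ := hs v
  have hb : b ∈ T.comap π := by rw [this]; trivial
  exact hb

end MultP

open MultP in
theorem mult (h : S_Box) : S_Mult := by
  intro k R _ _ p _ _ _ _ n d x y u Pi θ hx hfin hPi hθ
  classical
  have hft : Algebra.FiniteType k R := ⟨⟨(Set.finite_range x).toFinset, by simpa using hx⟩⟩
  set E := Finset.univ.sup fun i => (Pi i).natDegree with hE
  set μ := n * E + 1 with hμ
  obtain ⟨ω, -, hω⟩ := exists_Gen y hfin
  obtain ⟨M₀, hM₀⟩ := exists_box_span y u ω hω
  obtain ⟨C, hC⟩ := h k d (θ ^ μ) (pow_ne_zero _ hθ)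
  refine ⟨M₀ + μ, ω.card * C, fun j hj S hS => ?_⟩
  have hjp : j < p ^ j := Nat.lt_pow_self (Fact.out : p.Prime).one_lt
  set M := p ^ j with hM
  set Z := Ideal.span (Set.range fun l => y l ^ M - u l) with hZ
  set t := MvPolynomial.aeval y θ with ht
  have hZmem : ∀ l, y l ^ M - u l ∈ Z := fun l => Ideal.subset_span ⟨l, rfl⟩
  have H := hM₀ M (by omega)
  -- the key membership
  have key : ∀ φ : R, (∀ ξ ∈ S, (∀ l, ξ (y l) ^ M = ξ (u l)) → ξ φ = 0) → t ^ μ * φ ∈ Z := by
    intro φ hφ
    by_contra hne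
    have hI : Z.colon {t ^ μ * φ} ≠ ⊤ := by
      intro htop
      have : (1 : R) ∈ Z.colon {t ^ μ * φ} := by rw [htop]; trivial
      rw [Submodule.mem_colon_singleton, one_smul] at this
      exact hne this
    obtain ⟨ξ, hξ⟩ := exists_point (k := k) _ hI
    have hz : ∀ l, ξ (y l) ^ M = ξ (u l) := fun l => by
      have := hξ (y l ^ M - u l) (by
        rw [Submodule.mem_colon_singleton, smul_eq_mul]
        exact Z.mul_mem_right _ (hZmem l))
      rwa [map_sub, map_pow, sub_eq_zero] at this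
    have : ∃ r, ξ r = 1 ∧ r * (t ^ μ * φ) ∈ Z := by
      by_cases hξt : ξ t = 0
      · obtain ⟨r, hr1, hr⟩ := loc p x y u Pi hx (fun i => (hPi i).1) (fun i => (hPi i).2.1) j E
          (by omega) ξ hz (fun i => by
            have hmon := (hPi i).1.map (MvPolynomial.aeval (fun l => ξ (u l)) :
              MvPolynomial (Fin (d + 1)) k →ₐ[k] k).toRingHom
            have h1 := natDegree_le_of_dvd (pow_rootMultiplicity_dvd _ (ξ (x i))) hmon.ne_zero
            rw [natDegree_pow, natDegree_X_sub_C, mul_one, (hPi i).1.natDegree_map] at h1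
            have h2 : (Pi i).natDegree ≤ E :=
              Finset.le_sup (f := fun i => (Pi i).natDegree) (Finset.mem_univ i)
            omega)
        refine ⟨r, hr1, ?_⟩
        rw [← mul_assoc]
        exact Z.mul_mem_right _ (hr t hξt)
      · obtain ⟨r, hr1, hr⟩ := loc p x y u Pi hx (fun i => (hPi i).1) (fun i => (hPi i).2.1) j 0
          (by omega) ξ hz (fun i => by
            have hmon := (hPi i).1.map (MvPolynomial.aeval (fun l => ξ (u l)) :
              MvPolynomial (Fin (d + 1)) k →ₐ[k] k).toRingHom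
            by_contra hlt
            push Not at hlt
            rw [zero_add, one_lt_rootMultiplicity_iff_isRoot hmon.ne_zero] at hlt
            obtain ⟨c, hc⟩ := (hPi i).2.2
            apply hξt
            rw [hc, map_mul, map_ev2, ev2_eq_eval_map, ← derivative_map, hlt.2.eq_zero, zero_mul])
        refine ⟨r, hr1, ?_⟩
        have := hr φ (hφ ξ (hS ξ hz hξt) hz)
        rw [mul_zero, zero_add, pow_one] at this
        rw [mul_left_comm]
        exact Z.mul_mem_left _ this
    obtain ⟨r, hr1, hr⟩ := this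
    have := hξ r (by rwa [Submodule.mem_colon_singleton, smul_eq_mul])
    rw [hr1] at this
    exact one_ne_zero this
  -- finite dimensionality
  let π₀ : R →ₗ[k] (R ⧸ Z) := (Ideal.Quotient.mkₐ k Z).toLinearMap
  have hπ₀s : Function.Surjective π₀ := Ideal.Quotient.mk_surjective
  have hπ₀z : ∀ l φ, π₀ ((y l ^ M - u l) * φ) = 0 := fun l φ =>
    Ideal.Quotient.eq_zero_iff_mem.mpr (Z.mul_mem_right _ (hZmem l))
  have hfd : FiniteDimensional k (R ⧸ Z) := by
    have h1 := sup_top y u ω M H π₀ hπ₀s hπ₀z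
    have h2 : FiniteDimensional k (⊤ : Submodule k (R ⧸ Z)) := by
      rw [← h1]; infer_instance
    exact Module.Finite.equiv Submodule.topEquiv
  -- multiplication by a power of `t`
  let T : (R ⧸ Z) →ₗ[k] (R ⧸ Z) := LinearMap.mulLeft k (Ideal.Quotient.mk Z (t ^ μ))
  let π : R →ₗ[k] ((R ⧸ Z) ⧸ LinearMap.range T) := (LinearMap.range T).mkQ.comp π₀
  have hπs : Function.Surjective π := (Submodule.mkQ_surjective _).comp hπ₀s
  have hπz : ∀ l φ, π ((y l ^ M - u l) * φ) = 0 := fun l φ => by
    change (LinearMap.range T).mkQ (π₀ _) = 0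
    rw [hπ₀z, map_zero]
  have hcoker : Module.finrank k ((R ⧸ Z) ⧸ LinearMap.range T) ≤ ω.card * (C * M ^ d) := by
    rw [← finrank_top, ← sup_top y u ω M H π hπs hπz]
    refine finrank_sup_le ω _ _ fun w => ?_
    have := hC (M - 1) _ (psi y π w) (fun q => by
      rw [psi_apply, map_mul (MvPolynomial.aeval y), map_pow, mul_assoc]
      exact (Submodule.Quotient.mk_eq_zero _).mpr ⟨π₀ (MvPolynomial.aeval y q * w), rfl⟩)
    rwa [Nat.sub_add_cancel (by omega)] at this
  have h1 := Submodule.finrank_quotient_add_finrank (LinearMap.range T)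
  have h2 := LinearMap.finrank_range_add_finrank_ker T
  -- evaluation at the points
  let S' := S.filter fun ξ => ∀ l, ξ (y l) ^ M = ξ (u l)
  have hZξ : ∀ ξ : S', ∀ a ∈ Z, ξ.1 a = 0 := by
    intro ξ a ha
    have : Z ≤ RingHom.ker ξ.1.toRingHom := by
      refine Ideal.span_le.mpr ?_
      rintro _ ⟨l, rfl⟩
      have := (Finset.mem_filter.mp ξ.2).2 l
      simp [this]
    exact this ha
  let ev : (R ⧸ Z) →ₗ[k] (S' → k) :=
    LinearMap.pi fun ξ => (Ideal.Quotient.liftₐ Z ξ.1 (hZξ ξ)).toLinearMap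
  have hker : LinearMap.ker ev ≤ LinearMap.ker T := by
    intro a ha
    obtain ⟨φ, rfl⟩ := Ideal.Quotient.mk_surjective a
    have := key φ fun ξ hξ hz => congrFun ha ⟨ξ, Finset.mem_filter.mpr ⟨hξ, hz⟩⟩
    exact Ideal.Quotient.eq_zero_iff_mem.mpr this
  have h3 := LinearMap.finrank_range_add_finrank_ker ev
  have h4 := Submodule.finrank_mono hker
  have h5 : Module.finrank k (LinearMap.range ev) ≤ S.card := by
    refine (Submodule.finrank_le _).trans ?_
    rw [Module.finrank_fintype_fun_eq_card, Fintype.card_coe]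
    exact Finset.card_filter_le _ _
  rw [mul_assoc]
  omega

end Pool.Agent.P.MP_38c95b_ag
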