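import Pool.Agent.P.MP_38c95b_ag.NormA

/-!
The fibre count over a point with dense unramified forward orbit.
-/

set_option autoImplicit false

open Polynomial

namespace Pool.Agent.P.MP_38c95b_ag

variable {K A : Type} [Field K] [CommRing A] [IsDomain A] [Algebra K A]

/-- Extension of an injective endomorphism to the fraction field. -/
noncomputable def normExt (ψ : A →ₐ[K] A) (h : Function.Injective ψ) :
    FractionRing A →+* FractionRing A :=
  IsFractionRing.lift (g := (algebraMap A (FractionRing A)).comp ψ.toRingHom)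
    ((IsFractionRing.injective A (FractionRing A)).comp h)

theorem normExt_algebraMap (ψ : A →ₐ[K] A) (h : Function.Injective ψ) (a : A) :
    normExt ψ h (algebraMap A (FractionRing A) a) = algebraMap A (FractionRing A) (ψ a) :=
  IsFractionRing.lift_algebraMap _ a

/-- The image of the integral closure under the extended endomorphism. -/
noncomputable def normImg (ψ : A →ₐ[K] A) (h : Function.Injective ψ) :
    Subring (FractionRing A) :=
  (integralClosure A (FractionRing A)).toSubring.map (normExt ψ h)

theorem norm_closed : IsIntegrallyClosed (integralClosure A (FractionRing A)) := by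
  have : IsFractionRing (integralClosure A (FractionRing A)) (FractionRing A) :=
    IsIntegralClosure.isFractionRing_of_finite_extension A (FractionRing A) (FractionRing A) _
  rw [isIntegrallyClosed_iff (FractionRing A)]
  intro z hz
  exact ⟨⟨z, isIntegral_trans z hz⟩, rfl⟩

theorem normImg_closed (ψ : A →ₐ[K] A) (h : Function.Injective ψ) :
    IsIntegrallyClosed (normImg ψ h) :=
  @IsIntegrallyClosed.of_equiv _ _ _ _
    (Subring.equivMapOfInjective (integralClosure A (FractionRing A)).toSubring (normExt ψ h)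
      (normExt ψ h).injective) norm_closed

/-- The map from `A` to the image ring. -/
noncomputable def normTo (ψ : A →ₐ[K] A) (h : Function.Injective ψ) : A →+* normImg ψ h :=
  ((algebraMap A (FractionRing A)).comp ψ.toRingHom).codRestrict (normImg ψ h) fun a =>
    ⟨algebraMap A (FractionRing A) a, isIntegral_algebraMap, normExt_algebraMap ψ h a⟩

theorem normTo_coe (ψ : A →ₐ[K] A) (h : Function.Injective ψ) (a : A) :
    algebraMap (normImg ψ h) (FractionRing A) (normTo ψ h a) =
      algebraMap A (FractionRing A) (ψ a) := rfl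

theorem normImg_integral_base (ψ : A →ₐ[K] A) (h : Function.Injective ψ) (hfin : ψ.Finite)
    (a : A) : IsIntegral (normImg ψ h) (algebraMap A (FractionRing A) a) := by
  obtain ⟨G, hG, hGa⟩ := RingHom.Finite.to_isIntegral hfin a
  refine ⟨G.map (normTo ψ h), hG.map _, ?_⟩
  rw [Polynomial.eval₂_map]
  have := congrArg (algebraMap A (FractionRing A)) hGa
  rw [Polynomial.hom_eval₂, map_zero] at this
  exact this

theorem normImg_integral (ψ : A →ₐ[K] A) (h : Function.Injective ψ) (hfin : ψ.Finite)
    (z : FractionRing A) (hz : IsIntegral A z) : IsIntegral (normImg ψ h) z := by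
  obtain ⟨G, hG, hGz⟩ := hz
  let j : A →+* integralClosure (normImg ψ h) (FractionRing A) :=
    (algebraMap A (FractionRing A)).codRestrict _ (normImg_integral_base ψ h hfin)
  refine isIntegral_trans (A := integralClosure (normImg ψ h) (FractionRing A)) z
    ⟨G.map j, hG.map j, ?_⟩
  rw [Polynomial.eval₂_map]
  exact hGz

/-- Normality is inherited along an unramified finite map. -/
theorem norm_pull (hE : S_Etale) (ψ : A →ₐ[K] A) (h : Function.Injective ψ) (hfin : ψ.Finite)
    (β : A →ₐ[K] K) (c : A) (hc : ∀ z : FractionRing A, IsIntegral A z →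
      ∃ a : A, algebraMap A (FractionRing A) a = algebraMap A (FractionRing A) c * z)
    (hβc : β (ψ c) ≠ 0) (e₀ : A) (he₀ : β e₀ ≠ 0)
    (hunr : ∀ b, β b = 0 → e₀ * b ∈ Ideal.span {c | ∃ a, β (ψ a) = 0 ∧ c = ψ a}) :
    ∃ e : A, β e ≠ 0 ∧ ∀ z : FractionRing A, IsIntegral A z →
      ∃ a : A, algebraMap A (FractionRing A) a = algebraMap A (FractionRing A) e * z := by
  classical
  have := normImg_closed ψ h
  obtain ⟨s, hs⟩ : ∃ s : Finset A, ∀ a : A, ∃ w : A → A, a = ∑ t ∈ s, ψ (w t) * t := by
    let : Algebra A A := ψ.toRingHom.toAlgebra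
    have hf : @Module.Finite A A _ _ Algebra.toModule := hfin
    obtain ⟨s, hs⟩ := hf.fg_top
    refine ⟨s, fun a => ?_⟩
    have ha : a ∈ @Submodule.span A A _ _ Algebra.toModule (s : Set A) := by rw [hs]; trivial
    obtain ⟨w, _, hw⟩ := (@Submodule.mem_span_finset A A _ _ Algebra.toModule s a).mp ha
    exact ⟨w, hw.symm⟩
  let B : Subalgebra (normImg ψ h) (FractionRing A) :=
    Algebra.adjoin (normImg ψ h) (algebraMap A (FractionRing A) '' (s : Set A))
  have hBfin : Module.Finite (normImg ψ h) B :=
    Module.Finite.iff_fg.mpr (fg_adjoin_of_finite (s.finite_toSet.image _)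
      (by rintro _ ⟨a, _, rfl⟩; exact normImg_integral_base ψ h hfin a))
  have hAB : ∀ a : A, algebraMap A (FractionRing A) a ∈ B := by
    intro a
    obtain ⟨w, rfl⟩ := hs a
    rw [map_sum]
    refine Subalgebra.sum_mem _ fun t ht => ?_
    rw [map_mul, ← normTo_coe ψ h]
    exact mul_mem (Subalgebra.algebraMap_mem _ _) (Algebra.subset_adjoin ⟨t, ht, rfl⟩)
  let ι : A →+* B := (algebraMap A (FractionRing A)).codRestrict B hAB
  have hιinj : Function.Injective ι := fun a b hab =>
    IsFractionRing.injective A (FractionRing A) (congrArg Subtype.val hab)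
  have hden : ∀ b : B, ∃ a : A, ι (ψ c) * b = ι a := by
    rintro ⟨b, hb⟩
    have hb' : b ∈ Submodule.span (normImg ψ h) (Set.range (algebraMap A (FractionRing A))) := by
      have h1 : b ∈ Subalgebra.toSubmodule B := hb
      rw [Algebra.adjoin_eq_span] at h1
      refine Submodule.span_mono ?_ h1
      exact (Submonoid.closure_le (S := MonoidHom.mrange (algebraMap A (FractionRing A)))).mpr
        (by rintro _ ⟨a, _, rfl⟩; exact ⟨a, rfl⟩)
    have key : ∀ z : normImg ψ h, ∃ a : A, algebraMap A (FractionRing A) (ψ c) * (z * b) =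
        algebraMap A (FractionRing A) a := by
      clear hb
      induction hb' using Submodule.span_induction with
      | mem b hb =>
        obtain ⟨a, rfl⟩ := hb
        rintro ⟨_, z, hz, rfl⟩
        obtain ⟨a', ha'⟩ := hc z hz
        refine ⟨ψ a' * a, ?_⟩
        rw [map_mul, ← normExt_algebraMap ψ h a', ha', map_mul, normExt_algebraMap, mul_assoc]
      | zero => exact fun z => ⟨0, by simp⟩
      | add a b _ _ ha hb =>
        intro z
        obtain ⟨a', ha'⟩ := ha z
        obtain ⟨b', hb'⟩ := hb z
        exact ⟨a' + b', by rw [map_add, ← ha', ← hb']; ring⟩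
      | smul d a _ ha =>
        intro z
        obtain ⟨a', ha'⟩ := ha (z * d)
        refine ⟨a', ?_⟩
        rw [← ha', Subring.smul_def, smul_eq_mul, Subring.coe_mul, mul_assoc]
    obtain ⟨a, ha⟩ := key 1
    rw [Subring.coe_one, one_mul] at ha
    exact ⟨a, Subtype.ext ha⟩
  obtain ⟨ξ, hξ⟩ := exists_ext_of_denom ι β.toRingHom
    (fun a ha => by rw [(injective_iff_map_eq_zero ι).mp hιinj a ha, map_zero]) (ψ c) hβc hden
  have hιψ : ∀ a, algebraMap (normImg ψ h) B (normTo ψ h a) = ι (ψ a) := fun a => rfl
  have hconst : ∀ t : K, ξ (algebraMap (normImg ψ h) B (normTo ψ h (algebraMap K A t))) = t := by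
    intro t
    rw [hιψ, hξ, AlgHom.commutes]
    simp
  set 𝔓 := Ideal.map (algebraMap (normImg ψ h) B)
    (RingHom.ker (ξ.comp (algebraMap (normImg ψ h) B))) with h𝔓
  have h𝔓ξ : ∀ b ∈ 𝔓, ξ b = 0 := by
    intro b hb
    have : 𝔓 ≤ RingHom.ker ξ := Ideal.map_le_iff_le_comap.mpr fun a ha => ha
    exact this hb
  have hclaim : ∀ b : B, ∃ z : normImg ψ h,
      ι e₀ * (b - algebraMap (normImg ψ h) B z) ∈ 𝔓 := by
    rintro ⟨b, hb⟩
    induction hb using Algebra.adjoin_induction with
    | mem b hb =>
      obtain ⟨a, _, rfl⟩ := hb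
      refine ⟨normTo ψ h (algebraMap K A (β a)), ?_⟩
      have h1 := Ideal.mem_map_of_mem ι (hunr (a - algebraMap K A (β a)) (by simp))
      rw [map_mul, map_sub, Ideal.map_span] at h1
      rw [hιψ, AlgHom.commutes]
      refine (Ideal.span_le.mpr ?_ : _ ≤ 𝔓) h1
      rintro _ ⟨_, ⟨a', ha', rfl⟩, rfl⟩
      rw [← hιψ]
      refine Ideal.mem_map_of_mem _ ?_
      rw [RingHom.mem_ker, RingHom.comp_apply, hιψ, hξ]
      exact ha'
    | algebraMap z => exact ⟨z, by
        have : (⟨algebraMap (normImg ψ h) (FractionRing A) z, Subalgebra.algebraMap_mem B z⟩ : B) =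
          algebraMap (normImg ψ h) B z := rfl
        rw [this, sub_self, mul_zero]; exact zero_mem _⟩
    | add a b ha' hb' ha hb =>
      obtain ⟨z, hz⟩ := ha
      obtain ⟨w, hw⟩ := hb
      refine ⟨z + w, ?_⟩
      have : (⟨a + b, add_mem ha' hb'⟩ : B) = ⟨a, ha'⟩ + ⟨b, hb'⟩ := rfl
      rw [this, map_add]
      convert add_mem hz hw using 1
      ring
    | mul a b ha' hb' ha hb =>
      obtain ⟨z, hz⟩ := ha
      obtain ⟨w, hw⟩ := hb
      refine ⟨z * w, ?_⟩
      have : (⟨a * b, mul_mem ha' hb'⟩ : B) = ⟨a, ha'⟩ * ⟨b, hb'⟩ := rfl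
      rw [this, map_mul]
      convert add_mem (𝔓.mul_mem_right ⟨b, hb'⟩ hz)
        (𝔓.mul_mem_left (algebraMap (normImg ψ h) B z) hw) using 1
      ring
  have hξe₀ : ξ (ι e₀) ≠ 0 := by rw [hξ]; exact he₀
  obtain ⟨r, e, he, hre, hder⟩ := hE K (normImg ψ h) B
    (fun a b hab => Subtype.ext (congrArg (fun x : B => (x : FractionRing A)) hab)) ξ
    (fun t => ⟨_, hconst t⟩) (ι e₀) hξe₀
    (fun b hb => by
      obtain ⟨z, hz⟩ := hclaim b
      have h1 := h𝔓ξ _ hz
      rw [map_mul, map_sub, hb, zero_sub, mul_eq_zero, neg_eq_zero] at h1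
      have h2 : algebraMap (normImg ψ h) B z ∈ 𝔓 :=
        Ideal.mem_map_of_mem _ (h1.resolve_left hξe₀)
      convert add_mem hz (𝔓.mul_mem_left (ι e₀) h2) using 1
      ring)
  have hadj : ∀ b : B, b ∈ Algebra.adjoin (normImg ψ h) {r} →
      (b : FractionRing A) ∈ Algebra.adjoin (normImg ψ h) {(r : FractionRing A)} := by
    intro b hb
    have := Subalgebra.mem_map.mpr ⟨b, hb, (rfl : B.val b = B.val b)⟩
    rwa [AlgHom.map_adjoin_singleton] at this
  have he0 : (e : FractionRing A) ≠ 0 := fun h0 =>
    he (by rw [show e = 0 from Subtype.ext h0]; exact map_zero ξ)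
  have hrint : IsIntegral (normImg ψ h) (r : FractionRing A) :=
    (Algebra.IsIntegral.isIntegral (R := normImg ψ h) r).map B.val
  obtain ⟨a₁, ha₁⟩ := hden (Polynomial.aeval r (derivative (minpoly (normImg ψ h) r)))
  refine ⟨a₁, ?_, fun z hz => ?_⟩
  · have := hξ a₁
    rw [← ha₁, map_mul, hξ] at this
    exact this ▸ mul_ne_zero hβc hder
  · have h1 := norm_deriv (A := normImg ψ h) Subtype.val_injective (r : FractionRing A) hrint
      (fun w => by
        obtain ⟨a, b, hb, rfl⟩ := IsFractionRing.div_surjective (A := A) w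
        have hb0 : algebraMap A (FractionRing A) b ≠ 0 :=
          IsFractionRing.to_map_ne_zero_of_mem_nonZeroDivisors hb
        refine ⟨_, hadj _ (hre (ι a)), _, hadj _ (hre (ι b)), mul_ne_zero he0 hb0, ?_⟩
        change _ * ((e : FractionRing A) * algebraMap A (FractionRing A) b) =
          (e : FractionRing A) * algebraMap A (FractionRing A) a
        field_simp)
      z (normImg_integral ψ h hfin z hz)
    have h2 : Algebra.adjoin (normImg ψ h) {(r : FractionRing A)} ≤ B :=
      Algebra.adjoin_le (by rintro _ rfl; exact r.2)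
    obtain ⟨a, ha⟩ := hden ⟨_, h2 h1⟩
    refine ⟨a, ?_⟩
    have h3 := congrArg Subtype.val ha
    have h4 := congrArg Subtype.val ha₁
    have h5 : minpoly (normImg ψ h) (r : FractionRing A) = minpoly (normImg ψ h) r :=
      minpoly.algHom_eq B.val Subtype.val_injective r
    have h6 : ((Polynomial.aeval r (derivative (minpoly (normImg ψ h) r)) : B) : FractionRing A) =
        Polynomial.aeval (r : FractionRing A) (derivative (minpoly (normImg ψ h) r)) :=
      (Polynomial.aeval_algHom_apply B.val r _).symm
    change algebraMap A (FractionRing A) (ψ c) * (_ * z) = algebraMap A (FractionRing A) a at h3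
    change algebraMap A (FractionRing A) (ψ c) * _ = algebraMap A (FractionRing A) a₁ at h4
    rw [← h3, ← h4, h5, h6, mul_assoc]

omit [IsDomain A] in
theorem norm_pow_inj (φ : A →ₐ[K] A) (h : Function.Injective φ) (i : ℕ) :
    Function.Injective (φ ^ i) := by
  rw [AlgHom.coe_pow]
  exact h.iterate i

omit [IsDomain A] in
theorem norm_pow_fin (φ : A →ₐ[K] A) (h : φ.Finite) (i : ℕ) : (φ ^ i).Finite := by
  induction i with
  | zero => exact AlgHom.Finite.id K A
  | succ i ih => rw [pow_succ]; exact ih.comp h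

theorem norm (hE : S_Etale) : S_Norm := by
  classical
  intro K A _ _ _ _ _ _ φ hinj hfin β hdense hunr s α b hα hsep a ha
  obtain ⟨c, hc0, hc⟩ := norm_conductor K A
  obtain ⟨i, hi⟩ := hdense c hc0
  obtain ⟨e₀, he₀, hu⟩ := hunr i
  obtain ⟨e, he, hez⟩ := norm_pull hE (φ ^ i) (norm_pow_inj φ hinj i) (norm_pow_fin φ hfin i)
    β c hc hi e₀ he₀ hu
  have := normImg_closed φ hinj
  have hb := normImg_integral_base φ hinj hfin b
  set μ := minpoly (normImg φ hinj) (algebraMap A (FractionRing A) b) with hμ
  have hcoef : ∀ k, ∃ a' : A, algebraMap A (FractionRing A) (φ a') =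
      algebraMap A (FractionRing A) (φ e) * (μ.coeff k : FractionRing A) := by
    intro k
    obtain ⟨z, hz, hz'⟩ := (μ.coeff k).2
    obtain ⟨a', ha'⟩ := hez z hz
    exact ⟨a', by rw [← normExt_algebraMap φ hinj, ha', map_mul, normExt_algebraMap, hz']⟩
  choose a' ha' using hcoef
  have hlead : a' μ.natDegree = e := by
    apply hinj
    apply IsFractionRing.injective A (FractionRing A)
    rw [ha', (minpoly.monic hb).coeff_natDegree]
    simp
  have hrel : ∑ k ∈ Finset.range (μ.natDegree + 1), φ (a' k) * b ^ k = 0 := by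
    apply IsFractionRing.injective A (FractionRing A)
    have h0 := minpoly.aeval (normImg φ hinj) (algebraMap A (FractionRing A) b)
    rw [Polynomial.aeval_eq_sum_range] at h0
    rw [map_sum, map_zero, ← mul_zero (algebraMap A (FractionRing A) (φ e)), ← h0, Finset.mul_sum]
    refine Finset.sum_congr rfl fun k _ => ?_
    rw [map_mul, map_pow, ha', mul_assoc]
    rfl
  set H : K[X] := ∑ k ∈ Finset.range (μ.natDegree + 1), Polynomial.monomial k (β (a' k)) with hH
  have hHc : H.coeff μ.natDegree = β e := by
    simp [hH, Polynomial.finsetSum_coeff, Polynomial.coeff_monomial, hlead]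
  have hH0 : H ≠ 0 := fun h0 => he (by rw [← hHc, h0, Polynomial.coeff_zero])
  have hHdeg : H.natDegree ≤ μ.natDegree :=
    Polynomial.natDegree_sum_le_of_forall_le _ _ fun k hk =>
      (Polynomial.natDegree_monomial_le _).trans (Nat.lt_succ_iff.mp (Finset.mem_range.mp hk))
  have hroot : ∀ j, H.IsRoot (α j b) := by
    intro j
    have := congrArg (α j) hrel
    rw [map_sum, map_zero] at this
    rw [Polynomial.IsRoot, hH, Polynomial.eval_finsetSum, ← this]
    refine Finset.sum_congr rfl fun k _ => ?_
    rw [Polynomial.eval_monomial, map_mul, map_pow, ← hα j]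
    rfl
  have hs : s ≤ μ.natDegree := by
    have h1 : (Finset.univ.image fun j => α j b) ⊆ H.roots.toFinset := by
      intro t ht
      obtain ⟨j, _, rfl⟩ := Finset.mem_image.mp ht
      rw [Multiset.mem_toFinset, Polynomial.mem_roots hH0]
      exact hroot j
    have h2 := Finset.card_le_card h1
    rw [Finset.card_image_of_injective _ hsep, Finset.card_univ, Fintype.card_fin] at h2
    exact h2.trans ((Multiset.toFinset_card_le _).trans ((Polynomial.card_roots' H).trans hHdeg))
  set G : (normImg φ hinj)[X] := ∑ j : Fin s, Polynomial.monomial (j : ℕ) (normTo φ hinj (a j))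
    with hG
  have hGb : Polynomial.aeval (algebraMap A (FractionRing A) b) G = 0 := by
    have := congrArg (algebraMap A (FractionRing A)) ha
    rw [map_sum, map_zero] at this
    rw [hG, map_sum, ← this]
    refine Finset.sum_congr rfl fun j _ => ?_
    rw [Polynomial.aeval_monomial, normTo_coe, map_mul, map_pow]
  have hG0 : G = 0 := by
    refine Polynomial.eq_zero_of_dvd_of_degree_lt (minpoly.isIntegrallyClosed_dvd hb hGb) ?_
    rw [Polynomial.degree_eq_natDegree (minpoly.ne_zero hb)]
    refine lt_of_lt_of_le ?_ (Nat.cast_le.mpr hs : (s : WithBot ℕ) ≤ μ.natDegree)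
    have := Polynomial.degree_sum_fin_lt (fun j : Fin s => normTo φ hinj (a j))
    simpa only [Polynomial.C_mul_X_pow_eq_monomial] using this
  intro j
  have h1 : G.coeff j = normTo φ hinj (a j) := by
    rw [hG, Polynomial.finsetSum_coeff, Finset.sum_eq_single j]
    · simp
    · intro k _ hk
      rw [Polynomial.coeff_monomial, if_neg fun hkj => hk (Fin.ext hkj)]
    · simp
  rw [hG0, Polynomial.coeff_zero] at h1
  have h2 := normTo_coe φ hinj (a j)
  rw [← h1, map_zero] at h2
  apply hinj
  apply IsFractionRing.injective A (FractionRing A)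
  rw [← h2, map_zero, map_zero]

end Pool.Agent.P.MP_38c95b_ag
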