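import Pool.Agent.P.MP_38c95b_ag.Stmts

/-!
An unramified periodic residue point and its lift to characteristic zero.
-/

set_option autoImplicit false

open Polynomial
open scoped NNReal

namespace Pool.Agent.P.MP_38c95b_ag

theorem per_finite {k R σ : Type} [Field k] [CommRing R] [Algebra k R] {n : ℕ} (x : Fin n → R)
    (Y : σ → R) (m : Fin n → (MvPolynomial σ k)[X]) (hx : Algebra.adjoin k (Set.range x) = ⊤)
    (hm : ∀ i, (m i).Monic ∧ ev2 Y (x i) (m i) = 0) :
    (MvPolynomial.aeval Y : MvPolynomial σ k →ₐ[k] R).Finite := by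
  let : Algebra (MvPolynomial σ k) R :=
    (MvPolynomial.aeval Y : MvPolynomial σ k →ₐ[k] R).toRingHom.toAlgebra
  have : IsScalarTower k (MvPolynomial σ k) R := IsScalarTower.of_algebraMap_eq fun a =>
    ((MvPolynomial.aeval Y : MvPolynomial σ k →ₐ[k] R).commutes a).symm
  have h1 : (Algebra.adjoin (MvPolynomial σ k) (Set.range x)).toSubmodule.FG :=
    fg_adjoin_of_finite (Set.finite_range x) (by rintro _ ⟨i, rfl⟩; exact ⟨m i, hm i⟩)
  have h2 : Algebra.adjoin (MvPolynomial σ k) (Set.range x) = ⊤ := by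
    refine eq_top_iff.mpr fun z _ => ?_
    have h3 : Algebra.adjoin k (Set.range x) ≤
        (Algebra.adjoin (MvPolynomial σ k) (Set.range x)).restrictScalars k :=
      Algebra.adjoin_le Algebra.subset_adjoin
    exact h3 (hx ▸ Algebra.mem_top)
  rw [h2] at h1
  exact (⟨h1⟩ : Module.Finite (MvPolynomial σ k) R)

theorem per_fix {k : Type} [Monoid k] {z : k} {p a : ℕ} (h : z ^ p ^ a = z) (j : ℕ) :
    z ^ p ^ (a * j) = z := by
  induction j with
  | zero => simp
  | succ j ih => rw [mul_add, pow_add, pow_mul, ih, mul_one, h]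

theorem per_exp {k ι : Type} [Monoid k] [Fintype ι] {p : ℕ}
    (h : ∀ z : k, ∃ j, 1 ≤ j ∧ z ^ p ^ j = z) (z : ι → k) :
    ∃ a, 1 ≤ a ∧ ∀ i, z i ^ p ^ a = z i := by
  choose j h1 h2 using h
  refine ⟨∏ i, j (z i), Finset.one_le_prod' fun i _ => h1 _, fun i => ?_⟩
  obtain ⟨t, ht⟩ := Finset.dvd_prod_of_mem (fun i => j (z i)) (Finset.mem_univ i)
  rw [ht]
  exact per_fix (h2 _) t

theorem per_twist (hStep : S_Step) {A k R : Type} [CommRing A] [Field k] [IsAlgClosed k] {p : ℕ}
    [Fact p.Prime] [CharP k p] [CommRing R] [IsDomain R] [Algebra A k] [Algebra k R] [Algebra A R]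
    [IsScalarTower A k R] {n d a : ℕ} (ha : 1 ≤ a)
    (hA : ∀ z : A, algebraMap A k z ^ p ^ a = algebraMap A k z) (x fx : Fin n → R)
    (Y U : Fin (d + 1) → R) (r ρ : R) (P : (MvPolynomial (Fin (d + 1)) A)[X]) (r₀ : A)
    (c : MvPolynomial (Fin (d + 1)) A) (m Pi b G : Fin n → (MvPolynomial (Fin (d + 1)) A)[X])
    (hx : Algebra.adjoin k (Set.range x) = ⊤) (hP : P.Monic)
    (hP' : Prime (P.map (MvPolynomial.map (algebraMap A k))))
    (hker : ∀ H : (MvPolynomial (Fin (d + 1)) k)[X],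
      ev2 Y r H = 0 ↔ P.map (MvPolynomial.map (algebraMap A k)) ∣ H)
    (hc : MvPolynomial.map (algebraMap A k) c ≠ 0)
    (hb : ∀ i, MvPolynomial.aeval Y c * x i = ev2 Y r (b i))
    (hb' : ∀ i, MvPolynomial.aeval U c * fx i = ev2 U ρ (b i))
    (h0 : ev2 (fun _ => (0 : A)) r₀ P = 0) (h1 : IsUnit (ev2 (fun _ => (0 : A)) r₀ (derivative P)))
    (hU : ev2 U ρ P = 0) (hm : ∀ i, (m i).Monic ∧ ev2 Y (x i) (m i) = 0)
    (hPi : ∀ i, (Pi i).Monic ∧ ev2 U (x i) (Pi i) = 0)
    (hG : ∀ i, MvPolynomial.aeval Y c * ev2 U (x i) (derivative (Pi i)) = ev2 Y r (G i) ∧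
      (G i).degree < P.degree ∧ (G i).map (MvPolynomial.map (algebraMap A k)) ≠ 0) :
    ∃ j, 1 ≤ j ∧ ∃ ξ : R →ₐ[k] k, ξ (MvPolynomial.aeval Y c) ≠ 0 ∧
      (∀ i, ξ (ev2 U (x i) (derivative (Pi i))) ≠ 0) ∧ ∀ i, ξ (x i) ^ p ^ (a * j) = ξ (fx i) := by
  have hdeg : (P.map (MvPolynomial.map (algebraMap A k))).degree = P.degree := hP.degree_map _
  have hG1 : ∀ i, ev2 Y r (G i) ≠ 0 := fun i h => by
    rw [← ev2_map_algebraMap (K' := k), hker] at h
    exact (hG i).2.2 (eq_zero_of_dvd_of_degree_lt h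
      (hdeg ▸ (degree_map_le.trans_lt (hG i).2.1)))
  have hG2 : ∀ i, ev2 U (x i) (derivative (Pi i)) ≠ 0 := fun i h =>
    hG1 i (by rw [← (hG i).1, h, mul_zero])
  have hc1 : MvPolynomial.aeval Y c ≠ 0 := fun h => by
    rw [← MvPolynomial.aeval_map_algebraMap k, ← ev2_C Y r, hker] at h
    exact hP'.not_isUnit (isUnit_of_dvd_one (by
      rw [(hP.map _).degree_le_zero_iff_eq_one.mp ((degree_le_of_dvd h (C_ne_zero.mpr hc)).trans
        degree_C_le)]))
  have e0 : ∀ H : (MvPolynomial (Fin (d + 1)) A)[X],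
      ev2 (fun _ => (0 : k)) (algebraMap A k r₀) (H.map (MvPolynomial.map (algebraMap A k))) =
        algebraMap A k (ev2 (fun _ => (0 : A)) r₀ H) := fun H => by
    rw [ringHom_ev2 (algebraMap A k) (algebraMap A k) (fun _ => rfl)]; simp
  obtain ⟨j, ξ, hj, k1, k2, k3⟩ := hStep k R p n d x Y U r ρ
    (MvPolynomial.aeval Y c * ∏ i, ev2 U (x i) (derivative (Pi i))) _ (algebraMap A k r₀) _
    (fun i => (Pi i).map (MvPolynomial.map (algebraMap A k))) a hx
    (per_finite x Y (fun i => (m i).map (MvPolynomial.map (algebraMap A k))) hx fun i =>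
      ⟨(hm i).1.map _, by rw [ev2_map_algebraMap, (hm i).2]⟩)
    (hP.map _) hP' hker hc
    (fun i => ⟨(b i).map (MvPolynomial.map (algebraMap A k)), by
      rw [ev2_map_algebraMap, MvPolynomial.aeval_map_algebraMap, hb]⟩)
    (by rw [e0, h0, map_zero]) (by rw [derivative_map, e0]; exact (h1.map _).ne_zero) ha
    (fun i s => by rw [coeff_map, MvPolynomial.coeff_map, hA])
    (by rw [ev2_map_algebraMap, hU])
    (fun i => ⟨(hPi i).1.map _, by rw [ev2_map_algebraMap, (hPi i).2],
      by rw [derivative_map, ev2_map_algebraMap]; exact hG2 i⟩)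
    (mul_ne_zero hc1 (Finset.prod_ne_zero_iff.mpr fun i _ => hG2 i))
  rw [map_mul, map_prod, mul_ne_zero_iff, Finset.prod_ne_zero_iff] at k1
  refine ⟨j, hj, ξ, k1.1, fun i => k1.2 i (Finset.mem_univ _), fun i => ?_⟩
  let F : R →ₐ[A] k :=
    { (iterateFrobenius k p (a * j)).comp ξ.toRingHom with
      commutes' := fun z => by
        change ξ (algebraMap A R z) ^ p ^ (a * j) = _
        rw [IsScalarTower.algebraMap_apply A k R, ξ.commutes]
        exact per_fix (hA z) j }
  have hF : ∀ z, F z = ξ z ^ p ^ (a * j) := fun _ => rfl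
  have q1 : ∀ H : (MvPolynomial (Fin (d + 1)) A)[X], F (ev2 Y r H) = ξ (ev2 U ρ H) := fun H => by
    rw [map_ev2]
    refine Eq.trans ?_ (map_ev2 (ξ.restrictScalars A) U ρ H).symm
    simp only [hF, k2, k3, AlgHom.restrictScalars_apply]
  have q2 : F (MvPolynomial.aeval Y c) = ξ (MvPolynomial.aeval U c) := by
    simpa only [ev2_C] using q1 (C c)
  have q3 : F (MvPolynomial.aeval Y c) ≠ 0 := pow_ne_zero _ k1.1
  refine mul_left_cancel₀ q3 ?_
  rw [← hF, ← map_mul, hb, q1, ← hb', map_mul, q2]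

theorem per_dyn {A S S' : Type} [CommRing A] [CommRing S] [CommRing S'] [Algebra A S]
    [Algebra A S'] {n : ℕ} (ψ : S →ₐ[A] S') (f : Fin n → MvPolynomial (Fin n) A) (j : ℕ)
    (z : Fin n → S) : (fun i => ψ ((dyn f)^[j] z i)) = (dyn f)^[j] fun i => ψ (z i) := by
  induction j generalizing z with
  | zero => rfl
  | succ j ih =>
    rw [Function.iterate_succ_apply, Function.iterate_succ_apply, ih]
    congr 1
    funext i
    exact MvPolynomial.comp_aeval_apply _ _ _

theorem per_root (v : Valuation Qb ℝ≥0) (G : Qb[X]) (hG : G.Monic) (a : Qb)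
    (h : v (G.eval a) < 1) : ∃ r, G.eval r = 0 ∧ v (r - a) < 1 := by
  by_contra hc
  push Not at hc
  rw [(IsAlgClosed.splits G).eq_prod_roots_of_monic hG, eval_multiset_prod, map_multiset_prod] at h
  refine h.not_ge (Multiset.one_le_prod_of_one_le fun z hz => ?_)
  simp only [Multiset.mem_map] at hz
  obtain ⟨_, ⟨_, ⟨r, hr, rfl⟩, rfl⟩, rfl⟩ := hz
  rw [eval_sub, eval_X, eval_C, v.map_sub_swap]
  exact hc r (isRoot_of_mem_roots hr)

section val

variable (v : Valuation Qb ℝ≥0)

theorem per_res_zero (z : v.valuationSubring) :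
    IsLocalRing.residue v.valuationSubring z = 0 ↔ v z < 1 := by
  rw [IsLocalRing.residue_eq_zero_iff, Valuation.mem_maximalIdeal_iff]

theorem per_res_ne (z : v.valuationSubring) :
    IsLocalRing.residue v.valuationSubring z ≠ 0 ↔ v z = 1 := by
  rw [Ne, per_res_zero, not_lt]
  exact ⟨fun h => le_antisymm z.2 h, fun h => h.ge⟩

variable {A : Type} [CommRing A] [Algebra A Qb] [Algebra A v.valuationSubring]
  [IsScalarTower A v.valuationSubring Qb]

theorem per_lift {n : ℕ} {σ : Type} (I : Ideal (MvPolynomial (Fin n) Qb))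
    (y : σ → MvPolynomial (Fin n) Qb) (r : MvPolynomial (Fin n) Qb) (P : (MvPolynomial σ A)[X])
    (c : MvPolynomial σ A) (b : Fin n → (MvPolynomial σ A)[X]) (hP : P.Monic)
    (hker : ∀ G : (MvPolynomial σ Qb)[X], ev2 y r G ∈ I →
      P.map (MvPolynomial.map (algebraMap A Qb)) ∣ G)
    (hden : ∀ q, ∃ G : (MvPolynomial σ Qb)[X], MvPolynomial.aeval y c * q - ev2 y r G ∈ I)
    (hb : ∀ i, MvPolynomial.aeval y c * MvPolynomial.X i - ev2 y r (b i) ∈ I)
    (x' : Fin n → IsLocalRing.ResidueField v.valuationSubring)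
    (y' : σ → IsLocalRing.ResidueField v.valuationSubring)
    (r' : IsLocalRing.ResidueField v.valuationSubring) (h1 : MvPolynomial.aeval y' c ≠ 0)
    (h2 : ev2 y' r' P = 0) (h3 : ∀ i, MvPolynomial.aeval y' c * x' i = ev2 y' r' (b i)) :
    ∃ z : Fin n → v.valuationSubring, (fun i => (z i : Qb)) ∈ MvPolynomial.zeroLocus Qb I ∧
      ∀ i, IsLocalRing.residue _ (z i) = x' i := by
  choose yO hy using fun l => IsLocalRing.residue_surjective (y' l)
  obtain ⟨rO, hr⟩ := IsLocalRing.residue_surjective r'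
  let ι := IsScalarTower.toAlgHom A v.valuationSubring Qb
  let π := IsScalarTower.toAlgHom A v.valuationSubring (IsLocalRing.ResidueField v.valuationSubring)
  have hπ : ∀ z, π z = IsLocalRing.residue _ z := fun _ => rfl
  have hι : ∀ z, ι z = z := fun _ => rfl
  have e1 : ∀ (s : v.valuationSubring) (H : (MvPolynomial σ A)[X]),
      IsLocalRing.residue _ (ev2 yO s H) = ev2 y' (IsLocalRing.residue _ s) H := fun s H => by
    rw [← hπ, map_ev2]; simp only [hπ, hy]
  have e2 : ∀ (s : v.valuationSubring) (H : (MvPolynomial σ A)[X]),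
      ((ev2 yO s H : v.valuationSubring) : Qb) = ev2 (fun l => (yO l : Qb)) (s : Qb) H :=
    fun s H => map_ev2 ι yO s H
  obtain ⟨s, hs1, hs2⟩ := per_root v _
    (hP.map (MvPolynomial.aeval fun l => (yO l : Qb) : MvPolynomial σ A →ₐ[A] Qb).toRingHom) rO
    (by rw [← ev2_eq_eval_map, ← e2, ← per_res_zero, e1, hr, h2])
  rw [← ev2_eq_eval_map] at hs1
  have hs3 : v s ≤ 1 := by
    rw [← sub_add_cancel s rO]
    exact v.map_add_le hs2.le rO.2
  have hs4 : IsLocalRing.residue v.valuationSubring ⟨s, hs3⟩ = r' := by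
    rw [← hr, ← sub_eq_zero, ← map_sub, per_res_zero]
    exact hs2
  have c1 : IsLocalRing.residue _ (MvPolynomial.aeval yO c) = MvPolynomial.aeval y' c := by
    simpa only [ev2_C] using e1 0 (C c)
  have c2 : ((MvPolynomial.aeval yO c : v.valuationSubring) : Qb) =
      MvPolynomial.aeval (fun l => (yO l : Qb)) c := by simpa only [ev2_C] using e2 0 (C c)
  have c3 : v (MvPolynomial.aeval (fun l => (yO l : Qb)) c) = 1 := by
    rw [← c2, ← per_res_ne, c1]; exact h1
  let mk := Ideal.Quotient.mkₐ Qb I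
  have hmk : ∀ q q', q - q' ∈ I → mk q = mk q' := fun q q' h => Ideal.Quotient.eq.mpr h
  obtain ⟨ξ, hξ⟩ := exists_point_of_root (fun l => mk (y l)) (mk r)
    (P.map (MvPolynomial.map (algebraMap A Qb))) (C (MvPolynomial.map (algebraMap A Qb) c))
    (fun G hG => hker G (by rw [← map_ev2] at hG; exact Ideal.Quotient.eq_zero_iff_mem.mp hG))
    (fun q => by
      obtain ⟨q, rfl⟩ := Ideal.Quotient.mkₐ_surjective Qb I q
      obtain ⟨G, hG⟩ := hden q
      exact ⟨G, by rw [← map_ev2, ← map_ev2, ← hmk _ _ hG, ev2_C,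
        MvPolynomial.aeval_map_algebraMap, map_mul]⟩)
    (fun l => (yO l : Qb)) s (by rw [ev2_map_algebraMap, hs1])
    (by
      rw [ev2_C, MvPolynomial.aeval_map_algebraMap]
      intro h
      rw [h, map_zero] at c3
      exact zero_ne_one c3)
  have hξ' : ∀ H : (MvPolynomial σ A)[X], ξ (mk (ev2 y r H)) = ev2 (fun l => (yO l : Qb)) s H :=
    fun H => by
      rw [← ev2_map_algebraMap (K' := Qb), map_ev2, hξ, ev2_map_algebraMap]
  have k1 : ∀ i, MvPolynomial.aeval (fun l => (yO l : Qb)) c * ξ (mk (MvPolynomial.X i)) =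
      ev2 (fun l => (yO l : Qb)) s (b i) := fun i => by
    rw [← hξ', ← hmk _ _ (hb i), map_mul, map_mul, ← ev2_C y r, hξ', ev2_C]
  have k2 : ∀ i, v (ξ (mk (MvPolynomial.X i))) ≤ 1 := fun i => by
    have := congrArg v (k1 i)
    rw [map_mul, c3, one_mul, ← e2 ⟨s, hs3⟩] at this
    exact this ▸ (ev2 yO ⟨s, hs3⟩ (b i)).2
  refine ⟨fun i => ⟨_, k2 i⟩, fun q hq => ?_, fun i => mul_left_cancel₀ h1 ?_⟩
  · have := MvPolynomial.comp_aeval_apply MvPolynomial.X (ξ.comp mk) q
    rw [MvPolynomial.aeval_X_left_apply, AlgHom.comp_apply,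
      show mk q = 0 from Ideal.Quotient.eq_zero_iff_mem.mpr hq, map_zero] at this
    exact this.symm
  · rw [h3, ← hs4, ← e1, ← c1, ← map_mul]
    congr 1
    exact Subtype.ext (by rw [e2, ← k1, ← c2]; rfl)

end val

theorem per_ev0 (a : Qb) : ∀ᶠ T : Finset Qb in Filter.atTop,
    ∃ a' : Subring.closure (T : Set Qb), algebraMap _ Qb a' = a := by
  filter_upwards [Filter.eventually_ge_atTop {a}] with T hT
  exact ⟨⟨a, Subring.subset_closure (hT (Finset.mem_singleton_self a))⟩, rfl⟩

theorem per_ev1 {σ : Type} (q : MvPolynomial σ Qb) : ∀ᶠ T : Finset Qb in Filter.atTop,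
    ∃ q' : MvPolynomial σ (Subring.closure (T : Set Qb)),
      MvPolynomial.map (algebraMap _ Qb) q' = q := by
  filter_upwards [Filter.eventually_ge_atTop q.coeffs] with T hT
  exact MvPolynomial.mem_range_map_iff_coeffs_subset.mpr fun a ha =>
    ⟨⟨a, Subring.subset_closure (hT ha)⟩, rfl⟩

theorem per_ev2 {σ : Type} (G : (MvPolynomial σ Qb)[X]) : ∀ᶠ T : Finset Qb in Filter.atTop,
    ∃ G' : (MvPolynomial σ (Subring.closure (T : Set Qb)))[X],
      G'.map (MvPolynomial.map (algebraMap _ Qb)) = G := by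
  filter_upwards [(Filter.eventually_all_finset G.support).mpr fun i _ => per_ev1 (G.coeff i)]
    with T hT
  refine (mem_lifts _).mp ((lifts_iff_coeff_lifts _).mpr fun i => ?_)
  by_cases hi : i ∈ G.support
  · exact hT i hi
  · exact ⟨0, by rw [map_zero, notMem_support_iff.mp hi]⟩

theorem per_cert {A S : Type} [CommRing A] [CommRing S] [Algebra A S] {n : ℕ} {σ : Type}
    (f : Fin n → MvPolynomial (Fin n) A) (y : σ → MvPolynomial (Fin n) A) (w : Fin n → S)
    (i : Fin n) (H : (MvPolynomial σ A)[X]) :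
    MvPolynomial.aeval w (ev2 (fun l => MvPolynomial.aeval f (y l)) (MvPolynomial.X i) H) =
      ev2 (fun l => MvPolynomial.aeval (dyn f w) (y l)) (w i) H := by
  rw [map_ev2]
  simp only [aeval_dyn, MvPolynomial.aeval_X]

theorem periodic (hVal : S_Val) (hNoeth : S_Noeth) (hRed : S_Red) (hStep : S_Step)
    (_hNear : S_Near) : S_Periodic := by
  intro n d f I y r P r₀ c m Pi g
  have hpos : 0 < P.natDegree := Nat.pos_of_ne_zero fun h =>
    g.primeP.not_isUnit (g.monic.natDegree_eq_zero.mp h ▸ isUnit_one)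
  have hcI : MvPolynomial.aeval y c ∉ I := fun h => by
    rw [← ev2_C y r, g.ker] at h
    have := natDegree_le_of_dvd h (C_ne_zero.mpr g.c_ne)
    rw [natDegree_C] at this
    omega
  choose b hb using fun i => g.denom (MvPolynomial.X i)
  have hG : ∀ i, ∃ G : (MvPolynomial (Fin (d + 1)) Qb)[X], MvPolynomial.aeval y c *
      ev2 (fun l => MvPolynomial.aeval f (y l)) (MvPolynomial.X i) (derivative (Pi i)) -
        ev2 y r G ∈ I ∧ G.degree < P.degree ∧ G ≠ 0 := fun i => by
    obtain ⟨G, hG⟩ := g.denom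
      (ev2 (fun l => MvPolynomial.aeval f (y l)) (MvPolynomial.X i) (derivative (Pi i)))
    have h1 := I.add_mem hG ((g.ker (P * (G /ₘ P))).mpr (dvd_mul_right _ _))
    rw [eq_sub_iff_add_eq'.mpr (modByMonic_add_div G P), map_sub, sub_add_sub_cancel] at h1
    refine ⟨_, h1, degree_modByMonic_lt _ g.monic, fun h => ?_⟩
    rw [h, map_zero, sub_zero] at h1
    exact (g.prime.mem_or_mem h1).elim hcI (g.Pi_der i)
  choose G hG1 hG2 hG3 using hG
  obtain ⟨T, hT⟩ :=
    ((Filter.eventually_all.mpr fun i => per_ev1 (f i)).and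
    ((Filter.eventually_all.mpr fun l => per_ev1 (y l)).and ((per_ev1 r).and ((per_ev2 P).and
    ((per_ev1 c).and ((per_ev0 r₀).and ((per_ev0 (ev2 (fun _ => (0 : Qb)) r₀ (derivative P))⁻¹).and
    ((Filter.eventually_all.mpr fun i => per_ev2 (m i)).and
    ((Filter.eventually_all.mpr fun i => per_ev2 (Pi i)).and
    ((Filter.eventually_all.mpr fun i => per_ev2 (b i)).and
    (Filter.eventually_all.mpr fun i => per_ev2 (G i)))))))))))).exists
  generalize hAdef : Subring.closure (T : Set Qb) = A at hT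
  obtain ⟨hf, hy, ⟨r, rfl⟩, ⟨P, rfl⟩, ⟨c, rfl⟩, ⟨r₀, rfl⟩, ⟨u, hu⟩, hm, hPi, hb', hG'⟩ := hT
  have hTA : ∀ z ∈ T, z ∈ A := fun z hz => hAdef ▸ Subring.subset_closure hz
  choose f hf using hf
  choose y hy using hy
  choose m hm using hm
  choose Pi hPi using hPi
  choose b hb' using hb'
  choose G hG' using hG'
  obtain rfl := funext hf
  obtain rfl := funext hy
  obtain rfl := funext hm
  obtain rfl := funext hPi
  obtain rfl := funext hb'
  obtain rfl := funext hG'
  clear hf hy hm hPi hb' hG'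
  have inj : Function.Injective (algebraMap A Qb) := Subtype.val_injective
  have inj1 : Function.Injective (MvPolynomial.map (σ := Fin (d + 1)) (algebraMap A Qb)) :=
    MvPolynomial.map_injective _ inj
  have hP : P.Monic := monic_of_injective inj1 g.monic
  have e0 : ∀ H : (MvPolynomial (Fin (d + 1)) A)[X],
      (algebraMap A Qb) (ev2 (fun _ => (0 : A)) r₀ H) =
        ev2 (fun _ => (0 : Qb)) ((algebraMap A Qb) r₀) (H.map (MvPolynomial.map (algebraMap A Qb))) := fun H => by
    rw [ringHom_ev2 (algebraMap A Qb) (algebraMap A Qb) (fun _ => rfl)]; simp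
  have h0 : ev2 (fun _ => (0 : A)) r₀ P = 0 := inj (by rw [e0, g.root, map_zero])
  have h1 : IsUnit (ev2 (fun _ => (0 : A)) r₀ (derivative P)) := IsUnit.of_mul_eq_one u (inj (by
    rw [map_mul, e0, hu, ← derivative_map, mul_inv_cancel₀ g.simple, map_one]))
  obtain ⟨θ, hθ, hθ'⟩ := hNoeth A Qb inj d P r₀ hP g.primeP h0 h1
  obtain ⟨s, hs⟩ := MvPolynomial.ne_zero_iff.mp (show c ≠ 0 from fun h => g.c_ne (by simp [h]))
  choose t ht using fun i => MvPolynomial.ne_zero_iff.mp
    (leadingCoeff_ne_zero.mpr (show G i ≠ 0 from fun h => hG3 i (by simp [h])))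
  have hθ1 : θ * (MvPolynomial.coeff s c * ∏ i, MvPolynomial.coeff (t i) (G i).leadingCoeff) ≠ 0 :=
    mul_ne_zero hθ (mul_ne_zero hs (Finset.prod_ne_zero_iff.mpr fun i _ => ht i))
  classical
  obtain ⟨p, v, hp, hvp, hT, hfin, hac, hch⟩ := hVal (insert ((algebraMap A Qb) (θ * (MvPolynomial.coeff s c *
    ∏ i, MvPolynomial.coeff (t i) (G i).leadingCoeff))) T)
  have := Fact.mk hp
  have hAO : ∀ z : A, v ((algebraMap A Qb) z) ≤ 1 := by
    have : A ≤ v.valuationSubring.toSubring := hAdef ▸ Subring.closure_le.mpr fun z hz => by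
      change v z ≤ 1
      by_cases h : z = 0
      · simp [h]
      · exact (hT z (Finset.mem_insert_of_mem hz) h).le
    exact fun z => this z.2
  let : Algebra A v.valuationSubring := ((algebraMap A Qb).codRestrict v.valuationSubring hAO).toAlgebra
  have : IsScalarTower A v.valuationSubring Qb := IsScalarTower.of_algebraMap_eq fun _ => rfl
  set k := IsLocalRing.ResidueField v.valuationSubring
  have hθ2 : (algebraMap A k) (θ * (MvPolynomial.coeff s c *
      ∏ i, MvPolynomial.coeff (t i) (G i).leadingCoeff)) ≠ 0 :=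
    (per_res_ne v (algebraMap A _ _)).mpr
      (hT _ (Finset.mem_insert_self _ _) ((map_ne_zero_iff _ inj).mpr hθ1))
  rw [map_mul, map_mul, map_prod, mul_ne_zero_iff, mul_ne_zero_iff,
    Finset.prod_ne_zero_iff] at hθ2
  have hPk := hθ' k (algebraMap A k) hθ2.1
  have hck : MvPolynomial.map (algebraMap A k) c ≠ 0 :=
    MvPolynomial.ne_zero_iff.mpr ⟨s, by rw [MvPolynomial.coeff_map]; exact hθ2.2.1⟩
  have hGk : ∀ i, (G i).map (MvPolynomial.map (algebraMap A k)) ≠ 0 := fun i h => by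
    have := congrArg (fun H => MvPolynomial.coeff (t i) (H.coeff (G i).natDegree)) h
    simp only [coeff_map, MvPolynomial.coeff_map, coeff_zero, MvPolynomial.coeff_zero] at this
    exact hθ2.2.2 i (Finset.mem_univ _) this
  have hk : ∀ z : k, ∃ j, 1 ≤ j ∧ z ^ p ^ j = z := fun z => by
    obtain ⟨z, rfl⟩ := IsLocalRing.residue_surjective z
    obtain ⟨j, h1, h2⟩ := hfin z z.2
    exact ⟨j, h1, by rw [← sub_eq_zero, ← map_pow, ← map_sub, per_res_zero]; exact h2⟩
  obtain ⟨a, ha, ha'⟩ := per_exp hk fun z : T => (algebraMap A k) ⟨z, hTA z z.2⟩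
  have hA : ∀ z : A, (algebraMap A k) z ^ p ^ a = (algebraMap A k) z := by
    intro z
    have h2 : A ≤ (RingHom.eqLocus ((iterateFrobenius k p a).comp (algebraMap A k)) (algebraMap A k)).map A.subtype :=
      hAdef.ge.trans (Subring.closure_le.mpr fun z hz => ⟨⟨z, hTA z hz⟩, ha' ⟨z, hz⟩, rfl⟩)
    obtain ⟨w, hw, h3⟩ := h2 z.2
    exact (show w = z from Subtype.ext h3) ▸ hw
  have hφ1 : ∀ z : A, MvPolynomial.map (σ := Fin n) (algebraMap A Qb) (algebraMap A _ z) = algebraMap Qb _ ((algebraMap A Qb) z) :=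
    fun z => MvPolynomial.map_C _ _
  have m1 := fun (Y : Fin (d + 1) → MvPolynomial (Fin n) A) => ringHom_ev2 (algebraMap A Qb) _ hφ1 Y
  have m2 := fun (Y : Fin (d + 1) → MvPolynomial (Fin n) A) => ringHom_aeval (algebraMap A Qb) _ hφ1 Y
  have m3 := ringHom_aeval (algebraMap A Qb) _ hφ1 f
  have hbA : ∀ i, MvPolynomial.map (algebraMap A Qb)
      (MvPolynomial.aeval y c * MvPolynomial.X i - ev2 y r (b i)) ∈ I := fun i => by
    rw [map_sub, map_mul, m1, m2, MvPolynomial.map_X]; exact hb i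
  obtain ⟨J, hJ, hJ1, hJ2⟩ := hRed A Qb k (algebraMap A k) inj n (d + 1) I y r P c b hP
    (by rwa [hP.natDegree_map] at hpos) (fun H hH => (g.ker _).mp (by rwa [m1] at hH)) hbA hPk hck
  let mk := Ideal.Quotient.mkₐ k J
  let x : Fin n → MvPolynomial (Fin n) k ⧸ J := fun i => mk (MvPolynomial.X i)
  let π : MvPolynomial (Fin n) A →ₐ[A] MvPolynomial (Fin n) k ⧸ J := MvPolynomial.aeval x
  have hπ : ∀ q, π q = mk (MvPolynomial.map (algebraMap A k) q) := fun q => by
    have := MvPolynomial.comp_aeval_apply MvPolynomial.X mk (MvPolynomial.map (algebraMap A k) q)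
    rw [MvPolynomial.aeval_X_left_apply, MvPolynomial.aeval_map_algebraMap] at this
    exact this.symm
  have hπx : ∀ i, π (MvPolynomial.X i) = x i := fun i => MvPolynomial.aeval_X _ _
  have Z : ∀ q, MvPolynomial.map (algebraMap A Qb) q ∈ I → π q = 0 := fun q hq =>
    (hπ q).trans (Ideal.Quotient.eq_zero_iff_mem.mpr (hJ1 q hq))
  have Z' : ∀ q, MvPolynomial.map (algebraMap A Qb) q ∈ I → π (MvPolynomial.aeval f q) = 0 := fun q hq =>
    Z _ (by rw [m3]; exact g.stable _ hq)
  have hc1 : ∀ (ψ : MvPolynomial (Fin n) A →ₐ[A] MvPolynomial (Fin n) k ⧸ J),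
      ψ (MvPolynomial.aeval y c) = MvPolynomial.aeval (fun l => ψ (y l)) c :=
    fun ψ => MvPolynomial.comp_aeval_apply _ _ _
  have hbR : ∀ i, MvPolynomial.aeval (fun l => π (y l)) c * x i =
      ev2 (fun l => π (y l)) (π r) (b i) := fun i => by
    have := Z _ (hbA i)
    rwa [map_sub, map_mul, map_ev2, hc1, hπx, sub_eq_zero] at this
  have hPI : MvPolynomial.map (algebraMap A Qb) (ev2 y r P) ∈ I := by rw [m1]; exact (g.ker _).mpr dvd_rfl
  obtain ⟨j, hj, ξ, k1, k2, k3⟩ := per_twist hStep ha hA x (fun i => π (f i)) (fun l => π (y l))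
    (fun l => π (MvPolynomial.aeval f (y l))) (π r) (π (MvPolynomial.aeval f r)) P r₀ c m Pi b G
    (by
      rw [eq_top_iff]
      intro z _
      obtain ⟨z, rfl⟩ := Ideal.Quotient.mkₐ_surjective k J z
      rw [Algebra.adjoin_range_eq_range_aeval]
      refine ⟨z, ?_⟩
      have := MvPolynomial.comp_aeval_apply MvPolynomial.X mk z
      rw [MvPolynomial.aeval_X_left_apply] at this
      exact this.symm)
    hP hPk
    (fun H => by
      simp only [hπ]
      rw [← map_ev2, ← hJ2]
      exact Ideal.Quotient.eq_zero_iff_mem)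
    hck hbR
    (fun i => by
      have := Z' _ (hbA i)
      rw [← AlgHom.comp_apply, map_sub, map_mul, map_ev2, hc1, sub_eq_zero] at this
      simpa only [AlgHom.comp_apply, MvPolynomial.aeval_X] using this)
    h0 h1
    (by
      have := Z' _ hPI
      rw [← AlgHom.comp_apply, map_ev2] at this
      exact this)
    (fun i => ⟨monic_of_injective inj1 (g.m_monic i), by
      rw [← hπx, ← map_ev2]
      exact Z _ (by rw [m1, MvPolynomial.map_X]; exact g.m_mem i)⟩)
    (fun i => ⟨monic_of_injective inj1 (g.Pi_monic i), by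
      rw [← hπx, ← map_ev2]
      exact Z _ (by rw [m1, MvPolynomial.map_X]; simp only [m3]; exact g.Pi_mem i)⟩)
    (fun i => ⟨by
      rw [← hπx, ← map_ev2, ← map_ev2, ← hc1, ← map_mul, ← sub_eq_zero, ← map_sub]
      refine Z _ ?_
      rw [map_sub, map_mul, m1, m1, m2, MvPolynomial.map_X, ← derivative_map]
      simp only [m3]
      exact hG1 i, by
      have := hG2 i
      rwa [degree_map_eq_of_injective inj1, degree_map_eq_of_injective inj1] at this, hGk i⟩)
  let ξ' := ξ.restrictScalars A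
  have hξ' : ∀ z, ξ' z = ξ z := fun _ => rfl
  have c1 : ξ (MvPolynomial.aeval (fun l => π (y l)) c) =
      MvPolynomial.aeval (fun l => ξ (π (y l))) c := MvPolynomial.comp_aeval_apply _ ξ' _
  obtain ⟨z, hz1, hz2⟩ := per_lift v I _ _ P c b hP (fun H => (g.ker H).mp)
    (fun q => by simpa only [MvPolynomial.aeval_map_algebraMap] using g.denom q)
    (fun i => by simpa only [MvPolynomial.aeval_map_algebraMap, ev2_map_algebraMap] using hb i)
    (fun i => ξ (x i)) (fun l => ξ (π (y l))) (ξ (π r)) (c1 ▸ k1)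
    (by
      have := congrArg ξ' (Z _ hPI)
      rwa [map_ev2, map_ev2, map_zero] at this)
    (fun i => by
      have := congrArg ξ' (hbR i)
      rwa [map_mul, map_ev2, hξ', c1] at this)
  let F : k →ₐ[A] k := { iterateFrobenius k p (a * j) with commutes' := fun z => per_fix (hA z) j }
  have hF : ∀ z, F z = z ^ p ^ (a * j) := fun _ => rfl
  have hξπ : ∀ q, ξ (π q) = MvPolynomial.aeval (fun i => ξ (x i)) q :=
    fun q => MvPolynomial.comp_aeval_apply _ ξ' _
  have d1 : ∀ l, (dyn f)^[l + 1] (fun i => ξ (x i)) =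
      fun i => F ((dyn f)^[l] (fun i => ξ (x i)) i) := fun l => by
    rw [per_dyn F, Function.iterate_succ_apply]
    congr 1
    funext i
    rw [hF, k3, hξπ]
    rfl
  let ι := IsScalarTower.toAlgHom A v.valuationSubring Qb
  let ρ := IsScalarTower.toAlgHom A v.valuationSubring k
  have d2 : ∀ l, (fun i => ρ ((dyn f)^[l] z i)) = (dyn f)^[l] fun i => ξ (x i) := fun l => by
    rw [per_dyn ρ]
    congr 1
    exact funext hz2
  have d3 : ∀ l, (dyn (fun i => MvPolynomial.map (algebraMap A Qb) (f i)))^[l] (fun i => (z i : Qb)) =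
      fun i => ι ((dyn f)^[l] z i) := fun l => by
    rw [per_dyn ι]
    congr 1
    funext w i
    exact MvPolynomial.aeval_map_algebraMap _ _ _
  refine ⟨p, v, hp, hvp, hfin, fun i s => by rw [MvPolynomial.coeff_map]; exact hAO _,
    fun i s => by rw [MvPolynomial.coeff_map]; exact hAO _,
    fun i s s' => by rw [coeff_map, MvPolynomial.coeff_map]; exact hAO _,
    _, hz1, fun i => (z i).2, fun l i => ?_, ?_⟩
  · have d4 : ∀ l, MvPolynomial.aeval ((dyn f)^[l] fun i => ξ (x i))
        (ev2 (fun l => MvPolynomial.aeval f (y l)) (MvPolynomial.X i) (derivative (Pi i))) ≠ 0 := by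
      intro l
      induction l with
      | zero =>
        have := k2 i
        rwa [← hπx, ← map_ev2, hξπ] at this
      | succ l ih =>
        rw [d1, ← MvPolynomial.comp_aeval_apply, hF]
        exact pow_ne_zero _ ih
    have d5 := d4 l
    rw [← d2, ← MvPolynomial.comp_aeval_apply] at d5
    rw [← per_cert, d3, derivative_map, ← (per_res_ne v _).mp d5]
    congr 1
    simp only [← m3]
    rw [← MvPolynomial.map_X (algebraMap A Qb), ← m1, MvPolynomial.aeval_map_algebraMap,
      ← MvPolynomial.comp_aeval_apply]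
    rfl
  · obtain ⟨l, hl, hl'⟩ := per_exp hk fun i => ξ (x i)
    have d4 : ∀ l i, (dyn f)^[l] (fun i => ξ (x i)) i = ξ (x i) ^ p ^ (l * (a * j)) := by
      intro l i
      induction l with
      | zero => simp
      | succ l ih => rw [d1, add_mul, pow_add, pow_mul, ← ih, one_mul]; rfl
    refine ⟨l, hl, fun i => ?_⟩
    have d5 := congrFun (d2 l) i
    rw [d4, per_fix (hl' i), ← hz2] at d5
    rw [d3]
    exact (per_res_zero v ((dyn f)^[l] z i - z i)).mp (by rw [map_sub, ← d5]; exact sub_self _)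

end Pool.Agent.P.MP_38c95b_ag
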