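import Pool.Agent.P.MP_38c95b_ag.Stmts

/-!
Degree growth counts: graded finiteness, the lower bound for the degree over the pulled back
coordinates, and the degree bound on a proper invariant subvariety.
-/

set_option autoImplicit false

open Polynomial
open scoped NNReal

namespace Pool.Agent.P.MP_38c95b_ag

namespace Rho

/-! ### degrees of multivariate polynomials -/

theorem monomial_eq_smul {K σ : Type} [CommRing K] (a : σ →₀ ℕ) (c : K) :
    MvPolynomial.monomial a c = c • MvPolynomial.monomial a (1 : K) := by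
  rw [MvPolynomial.smul_monomial, smul_eq_mul, mul_one]

theorem totalDegree_aeval_monomial {K σ τ : Type} [CommRing K] (g : σ → MvPolynomial τ K)
    {Q : ℕ} (hg : ∀ i, (g i).totalDegree ≤ Q) (a : σ →₀ ℕ) :
    (MvPolynomial.aeval g (MvPolynomial.monomial a (1 : K))).totalDegree ≤
      Q * a.sum fun _ e => e := by
  induction a using Finsupp.induction_linear with
  | zero => simp
  | add a b ha hb =>
    have : MvPolynomial.monomial (a + b) (1 : K) =
        MvPolynomial.monomial a 1 * MvPolynomial.monomial b 1 := by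
      rw [MvPolynomial.monomial_mul, mul_one]
    rw [this, map_mul, Finsupp.sum_add_index' (fun _ => rfl) (fun _ _ _ => rfl), mul_add]
    exact (MvPolynomial.totalDegree_mul _ _).trans (add_le_add ha hb)
  | single i e =>
    rw [← MvPolynomial.X_pow_eq_monomial, Finsupp.sum_single_index rfl, map_pow,
      MvPolynomial.aeval_X, mul_comm]
    exact (MvPolynomial.totalDegree_pow _ _).trans (Nat.mul_le_mul_left _ (hg i))

theorem totalDegree_aeval {K σ τ : Type} [CommRing K] (g : σ → MvPolynomial τ K)
    {Q : ℕ} (hg : ∀ i, (g i).totalDegree ≤ Q) (q : MvPolynomial σ K) :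
    (MvPolynomial.aeval g q).totalDegree ≤ Q * q.totalDegree := by
  conv_lhs => rw [q.as_sum, map_sum]
  refine MvPolynomial.totalDegree_finsetSum_le fun a ha => ?_
  rw [monomial_eq_smul, map_smul]
  exact (MvPolynomial.totalDegree_smul_le _ _).trans
    ((totalDegree_aeval_monomial g hg a).trans
      (Nat.mul_le_mul_left _ (MvPolynomial.le_totalDegree ha)))

/-- the component of degree `a` of a multiple of a form of degree `Q` -/
theorem component_mul {K σ : Type} [CommRing K] {Q a : ℕ} (hQ : Q ≤ a) (c g : MvPolynomial σ K)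
    (hg : g.IsHomogeneous Q) :
    MvPolynomial.homogeneousComponent a (c * g) =
      MvPolynomial.homogeneousComponent (a - Q) c * g := by
  have key : ∀ k, MvPolynomial.homogeneousComponent a (MvPolynomial.homogeneousComponent k c * g) =
      MvPolynomial.homogeneousComponent (a - Q) (MvPolynomial.homogeneousComponent k c) * g := by
    intro k
    have h1 := MvPolynomial.homogeneousComponent_isHomogeneous k c
    rw [MvPolynomial.homogeneousComponent_of_mem (h1.mul hg),
      MvPolynomial.homogeneousComponent_of_mem h1]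
    by_cases h : a = k + Q
    · rw [if_pos h, if_pos (by omega)]
    · rw [if_neg h, if_neg (by omega), zero_mul]
  conv_lhs => rw [← MvPolynomial.sum_homogeneousComponent c, Finset.sum_mul, map_sum]
  conv_rhs => rw [← MvPolynomial.sum_homogeneousComponent c, map_sum, Finset.sum_mul]
  exact Finset.sum_congr rfl fun k _ => key k

end Rho

open Rho

theorem homfin : S_HomFin := by
  classical
  intro K _ n Q g hQ hg hX
  choose a₀ ha₀ using hX
  set a := Finset.univ.sup a₀ + Q with ha
  have hQa : Q ≤ a := by omega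
  have hc : ∀ i : Fin n, ∃ c : Fin n → MvPolynomial (Fin n) K,
      (∀ j, (c j).totalDegree ≤ a - Q) ∧ MvPolynomial.X i ^ a = ∑ j, c j * g j := by
    intro i
    have h1 : a₀ i ≤ a := (Finset.le_sup (f := a₀) (Finset.mem_univ i)).trans (by omega)
    have h2 : MvPolynomial.X i ^ a ∈ Ideal.span (Set.range g) := by
      obtain ⟨e, he⟩ := Nat.exists_eq_add_of_le h1
      rw [he, pow_add]
      exact Ideal.mul_mem_right _ _ (ha₀ i)
    obtain ⟨c, hc⟩ := Ideal.mem_span_range_iff_exists_fun.1 h2
    refine ⟨fun j => MvPolynomial.homogeneousComponent (a - Q) (c j), fun j =>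
      (MvPolynomial.homogeneousComponent_isHomogeneous _ _).totalDegree_le, ?_⟩
    have h3 : (MvPolynomial.X i ^ a : MvPolynomial (Fin n) K).IsHomogeneous a := by
      simpa using (MvPolynomial.isHomogeneous_X K i).pow a
    have h4 := congrArg (MvPolynomial.homogeneousComponent a) hc
    rw [MvPolynomial.homogeneousComponent_of_mem h3, if_pos rfl, map_sum] at h4
    rw [← h4]
    exact Finset.sum_congr rfl fun j _ => component_mul hQa _ _ (hg j)
  choose c hcd hc using hc
  refine ⟨n * a, ?_⟩
  let S : ℕ → Submodule K (MvPolynomial (Fin n) K) := fun D =>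
    Submodule.span K {z | ∃ q w : MvPolynomial (Fin n) K,
      Q * q.totalDegree ≤ D ∧ w.totalDegree ≤ n * a ∧ z = MvPolynomial.aeval g q * w}
  have hmul : ∀ D j z, z ∈ S D → z * g j ∈ S (D + Q) := by
    intro D j z hz
    induction hz using Submodule.span_induction with
    | mem z h =>
      obtain ⟨q, w, hq, hw, rfl⟩ := h
      refine Submodule.subset_span ⟨q * MvPolynomial.X j, w, ?_, hw, ?_⟩
      · have h1 := MvPolynomial.totalDegree_mul q (MvPolynomial.X j)
        have h2 : (MvPolynomial.X j : MvPolynomial (Fin n) K).totalDegree = 1 :=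
          MvPolynomial.totalDegree_X j
        calc Q * (q * MvPolynomial.X j).totalDegree ≤ Q * (q.totalDegree + 1) :=
              Nat.mul_le_mul_left _ (by omega)
          _ ≤ D + Q := by rw [mul_add, mul_one]; omega
      · simp only [map_mul, MvPolynomial.aeval_X]
        ring
    | zero => simp
    | add u v _ _ hu hv => rw [add_mul]; exact add_mem hu hv
    | smul r u _ hu => rw [smul_mul_assoc]; exact Submodule.smul_mem _ r hu
  have key : ∀ D (h : MvPolynomial (Fin n) K), h.totalDegree ≤ D → h ∈ S D := by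
    intro D
    induction D using Nat.strong_induction_on with
    | _ D ih =>
      intro h hh
      rw [h.as_sum]
      refine Submodule.sum_mem _ fun m hm => ?_
      have hdeg : (m.sum fun _ e => e) ≤ D := (MvPolynomial.le_totalDegree hm).trans hh
      rw [monomial_eq_smul]
      refine Submodule.smul_mem _ _ ?_
      by_cases hall : ∀ i, m i < a
      · refine Submodule.subset_span ⟨1, MvPolynomial.monomial m 1, by simp, ?_, by simp⟩
        refine (MvPolynomial.totalDegree_monomial_le _ _).trans ?_
        rw [Finsupp.sum_fintype _ _ (fun _ => rfl)]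
        calc ∑ i, id (m i) ≤ ∑ _i : Fin n, a := Finset.sum_le_sum fun i _ => (hall i).le
          _ = n * a := by simp
      · push Not at hall
        obtain ⟨i, hi⟩ := hall
        obtain ⟨m', rfl⟩ : ∃ m', m = m' + Finsupp.single i a :=
          ⟨m - Finsupp.single i a,
            (tsub_add_cancel_of_le (Finsupp.single_le_iff.mpr hi)).symm⟩
        rw [Finsupp.sum_add_index' (fun _ => rfl) (fun _ _ _ => rfl),
          Finsupp.sum_single_index rfl] at hdeg
        rw [MvPolynomial.monomial_add_single, hc i, Finset.mul_sum]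
        refine Submodule.sum_mem _ fun j _ => ?_
        have h1 : (MvPolynomial.monomial m' (1 : K) * c i j).totalDegree ≤ D - Q := by
          have h2 := MvPolynomial.totalDegree_mul (MvPolynomial.monomial m' (1 : K)) (c i j)
          have h3 : (MvPolynomial.monomial m' (1 : K)).totalDegree ≤ m'.sum fun _ e => e :=
            MvPolynomial.totalDegree_monomial_le _ _
          have h4 := hcd i j
          omega
        have h5 := hmul _ j _ (ih (D - Q) (by omega) _ h1)
        rw [show D - Q + Q = D by omega] at h5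
        rw [← mul_assoc]
        exact h5
  exact fun h => key _ h le_rfl

namespace Rho

/-- finitely many polynomials span the polynomials of bounded degree -/
theorem exists_span_degree (K : Type) [Field K] (n L : ℕ) :
    ∃ T : Finset (MvPolynomial (Fin n) K), ∀ w : MvPolynomial (Fin n) K, w.totalDegree ≤ L →
      w ∈ Submodule.span K (T : Set (MvPolynomial (Fin n) K)) := by
  have : (MvPolynomial.restrictTotalDegree (Fin n) K L).FG :=
    Module.Finite.iff_fg.1 inferInstance
  obtain ⟨T, hT⟩ := this
  exact ⟨T, fun w hw => by rw [hT]; exact (MvPolynomial.mem_restrictTotalDegree _ _ _).2 hw⟩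

theorem finite_of_span {K A B : Type} [Field K] [CommRing A] [CommRing B] [Algebra K A]
    [Algebra K B] (φ : A →ₐ[K] B) (s : Finset B)
    (h : ∀ b, b ∈ Submodule.span K {z | ∃ a, ∃ w ∈ s, z = φ a * w}) : φ.Finite := by
  let _ : Algebra A B := φ.toRingHom.toAlgebra
  refine (⟨⟨s, eq_top_iff.2 fun b _ => ?_⟩⟩ : Module.Finite A B)
  induction h b using Submodule.span_induction with
  | mem z hz =>
    obtain ⟨a, w, hw, rfl⟩ := hz
    exact Submodule.smul_mem _ a (Submodule.subset_span hw)
  | zero => exact zero_mem _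
  | add u v _ _ hu hv => exact add_mem (hu trivial) (hv trivial)
  | smul r u _ hu =>
    have : r • u = algebraMap K A r • u := by
      change _ = φ (algebraMap K A r) * u
      rw [φ.commutes, Algebra.smul_def]
    rw [this]
    exact Submodule.smul_mem _ _ (hu trivial)

theorem aeval_surj {K R σ : Type} [CommRing K] [CommRing R] [Algebra K R] {x : σ → R}
    (hx : Algebra.adjoin K (Set.range x) = ⊤) (b : R) :
    ∃ q : MvPolynomial σ K, MvPolynomial.aeval x q = b := by
  have : b ∈ Algebra.adjoin K (Set.range x) := by rw [hx]; trivial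
  rw [Algebra.adjoin_range_eq_range_aeval] at this
  exact this

theorem aeval_aeval {K R σ : Type} [CommRing K] [CommRing R] [Algebra K R] {x : σ → R}
    {g : σ → MvPolynomial σ K} {φ : R →ₐ[K] R} (h : ∀ i, φ (x i) = MvPolynomial.aeval x (g i))
    (q : MvPolynomial σ K) :
    MvPolynomial.aeval x (MvPolynomial.aeval g q) = φ (MvPolynomial.aeval x q) := by
  rw [MvPolynomial.comp_aeval_apply, MvPolynomial.comp_aeval_apply]
  simp only [h]

end Rho

theorem fin (hH : S_HomFin) : S_Fin := by
  classical
  intro K R _ _ _ n Q x g φ hx hQ hg hX hφ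
  obtain ⟨L, hL⟩ := hH K n Q g hQ hg hX
  obtain ⟨T, hT⟩ := exists_span_degree K n L
  refine finite_of_span φ (T.image (MvPolynomial.aeval x)) fun b => ?_
  obtain ⟨h, rfl⟩ := aeval_surj hx b
  generalize hD : h.totalDegree = D
  have h1 := hL h
  rw [hD] at h1
  clear hD
  induction h1 using Submodule.span_induction with
  | mem z hz =>
    obtain ⟨q, w, -, hw, rfl⟩ := hz
    rw [map_mul, aeval_aeval hφ]
    have h2 := hT w hw
    clear hw
    induction h2 using Submodule.span_induction with
    | mem t ht =>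
      exact Submodule.subset_span ⟨_, _, Finset.mem_image_of_mem _ ht, rfl⟩
    | zero => simp
    | add u v _ _ hu hv => rw [map_add, mul_add]; exact add_mem hu hv
    | smul r u _ hu => rw [map_smul, mul_smul_comm]; exact Submodule.smul_mem _ _ hu
  | zero => simp
  | add u v _ _ hu hv => rw [map_add]; exact add_mem hu hv
  | smul r u _ hu => rw [map_smul]; exact Submodule.smul_mem _ _ hu

namespace Rho

/-! ### dimension counts -/

theorem finrank_sup_le {K V ι : Type} [Field K] [AddCommGroup V] [Module K V] (s : Finset ι)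
    (f : ι → Submodule K V) [∀ i, Module.Finite K (f i)] (B : ℕ)
    (h : ∀ i ∈ s, Module.finrank K (f i) ≤ B) :
    Module.finrank K (s.sup f : Submodule K V) ≤ s.card * B := by
  classical
  induction s using Finset.induction_on with
  | empty => simp
  | insert i s hi ih =>
    rw [Finset.sup_insert, Finset.card_insert_of_notMem hi, add_mul, one_mul, add_comm]
    exact (Submodule.finrank_add_le_finrank_add_finrank _ _).trans
      (add_le_add (h i (Finset.mem_insert_self _ _))
        (ih fun j hj => h j (Finset.mem_insert_of_mem hj)))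

/-- the exponent vector of a function -/
noncomputable def expo {d N : ℕ} (a : Fin d → Fin N) : Fin d →₀ ℕ :=
  Finsupp.equivFunOnFinite.symm fun l => (a l : ℕ)

theorem expo_apply {d N : ℕ} (a : Fin d → Fin N) (l : Fin d) : expo a l = a l := rfl

theorem expo_injective {d N : ℕ} : Function.Injective (expo (d := d) (N := N)) := by
  intro a b h
  funext l
  exact Fin.ext (by rw [← expo_apply, ← expo_apply, h])

theorem finrank_box (K : Type) [Field K] (d N : ℕ) :
    Module.finrank K (MvPolynomial.restrictDegree (Fin d) K N) ≤ (N + 1) ^ d := by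
  have h : MvPolynomial.restrictDegree (Fin d) K N ≤ Submodule.span K
      (Set.range fun a : Fin d → Fin (N + 1) => MvPolynomial.monomial (expo a) (1 : K)) := by
    intro q hq
    rw [MvPolynomial.mem_restrictDegree] at hq
    rw [q.as_sum]
    refine Submodule.sum_mem _ fun m hm => ?_
    rw [monomial_eq_smul]
    refine Submodule.smul_mem _ _ (Submodule.subset_span
      ⟨fun l => ⟨m l, Nat.lt_succ_of_le (hq m hm l)⟩, ?_⟩)
    have : expo (fun l => (⟨m l, Nat.lt_succ_of_le (hq m hm l)⟩ : Fin (N + 1))) = m := by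
      ext l
      rfl
    simp only [this]
  have : Module.Finite K (Submodule.span K
      (Set.range fun a : Fin d → Fin (N + 1) => MvPolynomial.monomial (expo a) (1 : K))) :=
    Module.Finite.span_of_finite K (Set.finite_range _)
  refine (Submodule.finrank_mono h).trans ((finrank_range_le_card _).trans ?_)
  simp

/-- the linear map `q ↦ π (q(y) w)` -/
noncomputable def psi {K R V σ : Type} [Field K] [CommRing R] [Algebra K R] [AddCommGroup V]
    [Module K V] (π : R →ₗ[K] V) (y : σ → R) (w : R) : MvPolynomial σ K →ₗ[K] V :=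
  π ∘ₗ LinearMap.mulRight K w ∘ₗ (MvPolynomial.aeval y : MvPolynomial σ K →ₐ[K] R).toLinearMap

theorem psi_apply {K R V σ : Type} [Field K] [CommRing R] [Algebra K R] [AddCommGroup V]
    [Module K V] (π : R →ₗ[K] V) (y : σ → R) (w : R) (q : MvPolynomial σ K) :
    psi π y w q = π (MvPolynomial.aeval y q * w) := rfl

theorem map_Gen_le {K R V : Type} [Field K] [CommRing R] [Algebra K R] [AddCommGroup V]
    [Module K V] {d : ℕ} (π : R →ₗ[K] V) (y : Fin d → R) (ω : Finset R) (N : ℕ) :
    (Gen K y ω N).map π ≤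
      ω.sup fun w => (MvPolynomial.restrictDegree (Fin d) K N).map (psi π y w) := by
  rw [Gen, Submodule.map_span, Submodule.span_le]
  rintro _ ⟨_, ⟨q, w, hw, hq, rfl⟩, rfl⟩
  refine (Finset.le_sup (f := fun w => (MvPolynomial.restrictDegree (Fin d) K N).map (psi π y w))
    hw) ⟨q, ?_, rfl⟩
  exact MvPolynomial.restrictTotalDegree_le_restrictDegree _ _ _
    ((MvPolynomial.mem_restrictTotalDegree _ _ _).2 hq)

/-- a bound for the dimension of any subspace of the image of a level -/
theorem finrank_le_of_le_Gen {K R V : Type} [Field K] [CommRing R] [Algebra K R] [AddCommGroup V]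
    [Module K V] {d : ℕ} (π : R →ₗ[K] V) (y : Fin d → R) (ω : Finset R) (N B : ℕ)
    (h : ∀ w ∈ ω,
      Module.finrank K ((MvPolynomial.restrictDegree (Fin d) K N).map (psi π y w)) ≤ B)
    (W : Submodule K V) (hW : W ≤ (Gen K y ω N).map π) : Module.finrank K W ≤ ω.card * B :=
  (Submodule.finrank_mono (hW.trans (map_Gen_le π y ω N))).trans (finrank_sup_le ω _ B h)

/-- polynomials in the generators raise the level linearly in the degree -/
theorem exists_level {K R σ : Type} [Field K] [CommRing R] [Algebra K R] {n : ℕ} (x : Fin n → R)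
    (y : σ → R) (ω : Finset R) (h1 : (1 : R) ∈ ω) (h : ∀ φ : R, ∃ n, φ ∈ Gen K y ω n) :
    ∃ k : ℕ, ∀ q : MvPolynomial (Fin n) K,
      MvPolynomial.aeval x q ∈ Gen K y ω (k * q.totalDegree) := by
  classical
  choose κ hκ using fun i => exists_mul_mem_Gen y ω h (x i)
  set k := Finset.univ.sup κ with hk
  have hle : ∀ i, κ i ≤ k := fun i => Finset.le_sup (Finset.mem_univ i)
  have hpow : ∀ i e N φ, φ ∈ Gen K y ω N → x i ^ e * φ ∈ Gen K y ω (N + k * e) := by
    intro i e
    induction e with
    | zero => intro N φ hφ; simpa using hφ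
    | succ e ih =>
      intro N φ hφ
      rw [pow_succ', mul_assoc]
      refine Gen_mono y ω ?_ (hκ i _ _ (ih N φ hφ))
      have := hle i
      rw [mul_add, mul_one]
      omega
  have hmon : ∀ (a : Fin n →₀ ℕ) N φ, φ ∈ Gen K y ω N →
      MvPolynomial.aeval x (MvPolynomial.monomial a (1 : K)) * φ ∈
        Gen K y ω (N + k * a.sum fun _ e => e) := by
    intro a
    induction a using Finsupp.induction_linear with
    | zero => intro N φ hφ; simpa using hφ
    | add a b ha hb =>
      intro N φ hφ
      have : MvPolynomial.monomial (a + b) (1 : K) =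
          MvPolynomial.monomial a 1 * MvPolynomial.monomial b 1 := by
        rw [MvPolynomial.monomial_mul, mul_one]
      rw [this, map_mul, Finsupp.sum_add_index' (fun _ => rfl) (fun _ _ _ => rfl), mul_assoc]
      refine Gen_mono y ω (le_of_eq ?_) (ha _ _ (hb N φ hφ))
      ring
    | single i e =>
      intro N φ hφ
      rw [← MvPolynomial.X_pow_eq_monomial, Finsupp.sum_single_index rfl, map_pow,
        MvPolynomial.aeval_X]
      exact hpow i e N φ hφ
  refine ⟨k, fun q => ?_⟩
  have hone : (1 : R) ∈ Gen K y ω 0 := Submodule.subset_span ⟨1, 1, h1, by simp, by simp⟩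
  generalize hD : q.totalDegree = D
  rw [q.as_sum, map_sum]
  refine Submodule.sum_mem _ fun a ha => ?_
  rw [monomial_eq_smul, map_smul]
  refine Submodule.smul_mem _ _ ?_
  have h2 := hmon a 0 1 hone
  rw [mul_one, zero_add] at h2
  exact Gen_mono y ω (Nat.mul_le_mul_left _ (hD ▸ MvPolynomial.le_totalDegree ha)) h2

theorem map_mem_Gen {K R S σ : Type} [Field K] [CommRing R] [Algebra K R] [CommRing S]
    [Algebra K S] [DecidableEq S] (φ : R →ₐ[K] S) (y : σ → R) (ω : Finset R) {N : ℕ} {b : R}
    (hb : b ∈ Gen K y ω N) : φ b ∈ Gen K (fun l => φ (y l)) (ω.image φ) N := by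
  induction hb using Submodule.span_induction with
  | mem z hz =>
    obtain ⟨q, w, hw, hq, rfl⟩ := hz
    refine Submodule.subset_span ⟨q, φ w, Finset.mem_image_of_mem _ hw, hq, ?_⟩
    rw [map_mul, MvPolynomial.comp_aeval_apply]
  | zero => simp
  | add u v _ _ hu hv => rw [map_add]; exact add_mem hu hv
  | smul r u _ hu => rw [map_smul]; exact Submodule.smul_mem _ _ hu

/-- change of the finite set: if `e * w` lies in level `k` of `ω'` for all `w` in `ω` -/
theorem mul_mem_Gen_of {K R σ : Type} [Field K] [CommRing R] [Algebra K R] (y : σ → R)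
    (ω ω' : Finset R) (e : R) (k : ℕ) (h : ∀ w ∈ ω, e * w ∈ Gen K y ω' k) {N : ℕ} {b : R}
    (hb : b ∈ Gen K y ω N) : e * b ∈ Gen K y ω' (N + k) := by
  induction hb using Submodule.span_induction with
  | mem z hz =>
    obtain ⟨q, w, hw, hq, rfl⟩ := hz
    rw [mul_left_comm]
    exact Gen_mono y ω' (by omega) (aeval_mul_mem_Gen y ω' q (h w hw))
  | zero => simp
  | add u v _ _ hu hv => rw [mul_add]; exact add_mem hu hv
  | smul r u _ hu => rw [mul_smul_comm]; exact Submodule.smul_mem _ _ hu

/-- values of polynomials in `(u, r)` lie in some level over the first powers of `r` -/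
theorem ev2_mem_Gen {K R σ : Type} [Field K] [CommRing R] [Nontrivial R] [Algebra K R]
    [DecidableEq R] (u : σ → R) (r : R) (P : (MvPolynomial σ K)[X]) (hP : P.Monic)
    (h0 : ev2 u r P = 0) (G : (MvPolynomial σ K)[X]) :
    ∃ k, ev2 u r G ∈ Gen K u ((Finset.range P.natDegree).image fun i => r ^ i) k := by
  have hP1 : P ≠ 1 := by
    rintro rfl
    simp at h0
  have e : ev2 u r G = ev2 u r (G %ₘ P) := by
    conv_lhs => rw [← Polynomial.modByMonic_add_div G P]
    rw [map_add, map_mul, h0, zero_mul, add_zero]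
  have hlt := Polynomial.natDegree_modByMonic_lt G hP hP1
  refine ⟨(Finset.range P.natDegree).sup fun i => ((G %ₘ P).coeff i).totalDegree, ?_⟩
  rw [e, ev2_eq_sum]
  refine Submodule.sum_mem _ fun i hi => ?_
  have hi' : i ∈ Finset.range P.natDegree := by
    rw [Finset.mem_range] at hi ⊢
    omega
  exact Submodule.subset_span ⟨_, _, Finset.mem_image_of_mem _ hi',
    Finset.le_sup (f := fun i => ((G %ₘ P).coeff i).totalDegree) hi', rfl⟩

end Rho

theorem rho (hH : S_HomFin) : S_Rho := by
  classical
  intro K R _ _ _ _ n d x y hx hy hfin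
  obtain ⟨ω, h1, hω⟩ := exists_Gen y hfin
  obtain ⟨k0, hk0⟩ := exists_level x y ω h1 hω
  choose Y hY using fun l => aeval_surj hx (y l)
  set k1 := Finset.univ.sup fun l => (Y l).totalDegree with hk1
  have hY1 : ∀ l, (Y l).totalDegree ≤ k1 := fun l =>
    Finset.le_sup (f := fun l => (Y l).totalDegree) (Finset.mem_univ l)
  refine ⟨(k0 * k1 * d + 1) ^ d, ?_⟩
  intro Q g φ hQ hg hX hφ r P ε hP hP0 hε hden
  obtain ⟨L, hL⟩ := hH K n Q g hQ hg hX
  obtain ⟨T, hT⟩ := exists_span_degree K n L
  set u : Fin d → R := fun l => φ (y l) with hu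
  set e := ev2 u r ε with he
  set ρ : Finset R := (Finset.range P.natDegree).image fun i => r ^ i with hρ
  have hlev : ∀ b, ∃ k, e * b ∈ Gen K u ρ k := by
    intro b
    obtain ⟨G, hG⟩ := hden b
    rw [hG]
    exact ev2_mem_Gen u r P hP hP0 G
  choose lev hlev using hlev
  set k3 := (T ×ˢ ω.image φ).sup fun z => lev (MvPolynomial.aeval x z.1 * z.2) with hk3
  -- polynomials of degree at most `Q * m` in `x`, times `e`, lie in level `k0 * m + k3`
  have hmain : ∀ (m : ℕ) (h : MvPolynomial (Fin n) K), h.totalDegree ≤ Q * m →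
      e * MvPolynomial.aeval x h ∈ Gen K u ρ (k0 * m + k3) := by
    intro m h hm
    have h2 := hL h
    generalize h.totalDegree = D at hm h2
    induction h2 using Submodule.span_induction with
    | mem z hz =>
      obtain ⟨q, w, hq, hw, rfl⟩ := hz
      have hqm : q.totalDegree ≤ m := Nat.le_of_mul_le_mul_left (hq.trans hm) hQ
      have h3 : φ (MvPolynomial.aeval x q) ∈ Gen K u (ω.image φ) (k0 * m) :=
        map_mem_Gen φ y ω (Gen_mono y ω (Nat.mul_le_mul_left _ hqm) (hk0 q))
      rw [map_mul, aeval_aeval hφ]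
      have h4 := hT w hw
      clear hw
      induction h4 using Submodule.span_induction with
      | mem t ht =>
        rw [mul_comm (φ _), ← mul_assoc]
        refine mul_mem_Gen_of u (ω.image φ) ρ _ k3 (fun w hw => ?_) h3
        rw [mul_assoc]
        exact Gen_mono u ρ (Finset.le_sup
          (f := fun z : MvPolynomial (Fin n) K × R => lev (MvPolynomial.aeval x z.1 * z.2))
          (Finset.mk_mem_product ht hw)) (hlev _)
      | zero => simp
      | add a b _ _ ha hb => rw [map_add, mul_add, mul_add]; exact add_mem ha hb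
      | smul c a _ ha =>
        rw [map_smul, mul_smul_comm, mul_smul_comm]; exact Submodule.smul_mem _ _ ha
    | zero => simp
    | add a b _ _ ha hb => rw [map_add, mul_add]; exact add_mem ha hb
    | smul c a _ ha => rw [map_smul, mul_smul_comm]; exact Submodule.smul_mem _ _ ha
  set l := k3 + 1 with hl
  let v : (Fin d → Fin (Q * l)) → R := fun a =>
    e * MvPolynomial.aeval y (MvPolynomial.monomial (expo a) (1 : K))
  have hv : LinearIndependent K v := by
    have i1 : LinearIndependent K fun a : Fin d → Fin (Q * l) =>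
        MvPolynomial.monomial (expo a) (1 : K) :=
      (MvPolynomial.basisMonomials (Fin d) K).linearIndependent.comp expo expo_injective
    have i2 := i1.map' (psi (LinearMap.mulLeft K e) y 1) (LinearMap.ker_eq_bot'.2 fun q hq => by
      rw [psi_apply, mul_one, LinearMap.mulLeft_apply] at hq
      exact hy.eq_zero_of_aeval_eq_zero q ((mul_eq_zero.1 hq).resolve_left hε))
    have i3 : v = psi (LinearMap.mulLeft K e) y 1 ∘ fun a : Fin d → Fin (Q * l) =>
        MvPolynomial.monomial (expo a) (1 : K) := by
      funext a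
      simp only [v, Function.comp, psi_apply, mul_one, LinearMap.mulLeft_apply]
    rw [i3]
    exact i2
  have hmem : ∀ a, v a ∈ Gen K u ρ (k0 * (k1 * d * l) + k3) := by
    intro a
    have h2 : MvPolynomial.aeval y (MvPolynomial.monomial (expo a) (1 : K)) =
        MvPolynomial.aeval x (MvPolynomial.aeval Y (MvPolynomial.monomial (expo a) (1 : K))) := by
      rw [MvPolynomial.comp_aeval_apply]
      simp only [hY]
    change e * _ ∈ _
    rw [h2]
    refine hmain _ _ ((totalDegree_aeval_monomial Y hY1 _).trans ?_)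
    rw [Finsupp.sum_fintype _ _ (fun _ => rfl)]
    have : ∑ i, expo a i ≤ d * (Q * l) :=
      calc ∑ i, expo a i ≤ ∑ _i : Fin d, Q * l := Finset.sum_le_sum fun i _ => (a i).2.le
        _ = d * (Q * l) := by simp
    calc k1 * ∑ i, expo a i ≤ k1 * (d * (Q * l)) := Nat.mul_le_mul_left _ this
      _ = Q * (k1 * d * l) := by ring
  have hb := finrank_le_of_le_Gen (LinearMap.id : R →ₗ[K] R) u ρ (k0 * (k1 * d * l) + k3)
    ((k0 * (k1 * d * l) + k3 + 1) ^ d)
    (fun w _ => (Submodule.finrank_map_le _ _).trans (finrank_box K d _))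
    (Submodule.span K (Set.range v)) (by
      rw [Submodule.map_id, Submodule.span_le]
      rintro _ ⟨a, rfl⟩
      exact hmem a)
  rw [finrank_span_eq_card hv] at hb
  have hρc : ρ.card ≤ P.natDegree := Finset.card_image_le.trans (by simp)
  have h5 : Q ^ d * l ^ d ≤ P.natDegree * (k0 * k1 * d + 1) ^ d * l ^ d := by
    calc Q ^ d * l ^ d = Fintype.card (Fin d → Fin (Q * l)) := by simp [mul_pow]
      _ ≤ ρ.card * (k0 * (k1 * d * l) + k3 + 1) ^ d := hb
      _ ≤ P.natDegree * (k0 * (k1 * d * l) + k3 + 1) ^ d := Nat.mul_le_mul_right _ hρc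
      _ = P.natDegree * (k0 * k1 * d + 1) ^ d * l ^ d := by
        rw [mul_assoc P.natDegree, ← mul_pow]
        congr 2
        rw [hl]
        ring
  exact Nat.le_of_mul_le_mul_right h5 (by positivity)

namespace Rho

theorem le_of_pow_le {s q C e d : ℕ} (hq : 1 ≤ q)
    (h : ∀ k, s ^ k ≤ C * (e * k + 1) ^ d * q ^ k) : s ≤ q := by
  by_contra hlt
  push Not at hlt
  have hq' : (0 : ℝ) < q := by exact_mod_cast hq
  have hr : (1 : ℝ) < s / q := by
    rw [one_lt_div hq']
    exact_mod_cast hlt
  have ht := (tendsto_pow_const_div_const_pow_of_one_lt d hr).const_mul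
    ((C : ℝ) * ((e : ℝ) + 1) ^ d)
  rw [mul_zero] at ht
  obtain ⟨k, hk1, hk2⟩ :=
    ((ht.eventually (gt_mem_nhds one_pos)).and (Filter.eventually_ge_atTop 1)).exists
  have h1 : (s : ℝ) ^ k ≤ C * (e * k + 1) ^ d * q ^ k := by exact_mod_cast h k
  have hk : (1 : ℝ) ≤ k := by exact_mod_cast hk2
  have h2 : ((e : ℝ) * k + 1) ^ d ≤ ((e + 1) * k) ^ d :=
    pow_le_pow_left₀ (by positivity) (by nlinarith) d
  have h3 : ((s : ℝ) / q) ^ k ≤ C * ((e + 1) * k) ^ d := by
    rw [div_pow, div_le_iff₀ (by positivity)]
    exact h1.trans (mul_le_mul_of_nonneg_right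
      (mul_le_mul_of_nonneg_left h2 (by positivity)) (by positivity))
  rw [← mul_div_assoc, div_lt_one (by positivity), mul_assoc, ← mul_pow] at hk1
  linarith

end Rho

theorem dbound (hB : S_Box) : S_DBound := by
  classical
  intro K R A _ _ _ _ _ _ _ n d Q x y hx hfin π hπ hninj φ g hQ hg hφ s b hind
  -- a nonzero polynomial in `y` killed by `π`
  obtain ⟨θ, hθ0, hθ⟩ : ∃ θ : MvPolynomial (Fin (d + 1)) K, θ ≠ 0 ∧
      π (MvPolynomial.aeval y θ) = 0 := by
    let _ : Algebra (MvPolynomial (Fin (d + 1)) K) R :=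
      (MvPolynomial.aeval y : MvPolynomial (Fin (d + 1)) K →ₐ[K] R).toRingHom.toAlgebra
    have hf : Module.Finite (MvPolynomial (Fin (d + 1)) K) R := hfin
    rw [injective_iff_map_eq_zero] at hninj
    push Not at hninj
    obtain ⟨b₀, hb₀, hne⟩ := hninj
    have h1 := Ideal.comap_ne_bot_of_integral_mem (R := MvPolynomial (Fin (d + 1)) K)
      (I := RingHom.ker π.toRingHom) hne hb₀ (Algebra.IsIntegral.isIntegral b₀)
    obtain ⟨θ, hθ, hθ0⟩ := Submodule.exists_mem_ne_zero_of_ne_bot h1
    exact ⟨θ, hθ0, hθ⟩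
  obtain ⟨C, hC⟩ := hB K d θ hθ0
  obtain ⟨ω, h1, hω⟩ := exists_Gen y hfin
  obtain ⟨k0, hk0⟩ := exists_level x y ω h1 hω
  set x' : Fin n → A := fun i => π (x i) with hx'
  let W : ℕ → Submodule K A := fun m => (MvPolynomial.restrictTotalDegree (Fin n) K m).map
    (MvPolynomial.aeval x' : MvPolynomial (Fin n) K →ₐ[K] A).toLinearMap
  have hmem : ∀ m z, z ∈ W m ↔ ∃ q : MvPolynomial (Fin n) K, q.totalDegree ≤ m ∧
      MvPolynomial.aeval x' q = z := by
    intro m z
    simp only [W, Submodule.mem_map, MvPolynomial.mem_restrictTotalDegree,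
      AlgHom.toLinearMap_apply]
  have hπx : ∀ q : MvPolynomial (Fin n) K,
      MvPolynomial.aeval x' q = π (MvPolynomial.aeval x q) := fun q => by
    rw [MvPolynomial.comp_aeval_apply]
  -- upper bound
  have hup : ∀ m, Module.finrank K (W m) ≤ ω.card * (C * (k0 * m + 1) ^ d) := by
    intro m
    refine finrank_le_of_le_Gen π.toLinearMap y ω (k0 * m) _ (fun w _ => hC _ A _ fun q => ?_)
      (W m) fun z hz => ?_
    · rw [psi_apply, AlgHom.toLinearMap_apply, map_mul, map_mul, map_mul, hθ, zero_mul, zero_mul]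
    · obtain ⟨q, hq, rfl⟩ := (hmem m z).1 hz
      exact ⟨_, Gen_mono y ω (Nat.mul_le_mul_left _ hq) (hk0 q), (hπx q).symm⟩
  -- growth
  obtain ⟨B, hBb⟩ : ∃ B : MvPolynomial (Fin n) K, MvPolynomial.aeval x' B = b := by
    obtain ⟨b', rfl⟩ := hπ b
    obtain ⟨B, rfl⟩ := aeval_surj hx b'
    exact ⟨B, hπx B⟩
  set c := s * B.totalDegree with hc
  have hstep : ∀ m, s * Module.finrank K (W m) ≤ Module.finrank K (W (Q * m + c)) := by
    intro m
    let Ψ : (Fin s → W m) →ₗ[K] A := ∑ j : Fin s,
      LinearMap.mulRight K (b ^ (j : ℕ)) ∘ₗ φ.toLinearMap ∘ₗ (W m).subtype ∘ₗ LinearMap.proj j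
    have hΨ : ∀ a, Ψ a = ∑ j, φ (a j) * b ^ (j : ℕ) := fun a => by
      simp [Ψ, LinearMap.sum_apply]
    have hinj : Function.Injective Ψ := by
      rw [injective_iff_map_eq_zero]
      intro a ha
      rw [hΨ] at ha
      funext j
      exact Subtype.ext (hind (fun j => (a j : A)) ha j)
    have hle : LinearMap.range Ψ ≤ W (Q * m + c) := by
      rintro _ ⟨a, rfl⟩
      rw [hΨ]
      refine Submodule.sum_mem _ fun j _ => ?_
      obtain ⟨q, hq, e⟩ := (hmem m _).1 (a j).2
      refine (hmem _ _).2 ⟨MvPolynomial.aeval g q * B ^ (j : ℕ), ?_, ?_⟩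
      · refine (MvPolynomial.totalDegree_mul _ _).trans (add_le_add ?_ ?_)
        · exact (totalDegree_aeval g hg q).trans (Nat.mul_le_mul_left _ hq)
        · exact (MvPolynomial.totalDegree_pow _ _).trans (Nat.mul_le_mul_right _ j.2.le)
      · rw [map_mul, map_pow, hBb, aeval_aeval hφ, e]
    have h2 := Submodule.finrank_mono hle
    rw [LinearMap.finrank_range_of_inj hinj, Module.finrank_pi_fintype] at h2
    simpa using h2
  have h0 : 1 ≤ Module.finrank K (W 0) := by
    have : Nontrivial (W 0) := by
      refine ⟨⟨⟨1, (hmem 0 1).2 ⟨1, by simp, by simp⟩⟩, 0, fun h => ?_⟩⟩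
      exact one_ne_zero (congrArg Subtype.val h)
    exact Module.finrank_pos
  have hit : ∀ k, ∃ m, m ≤ c * k * Q ^ k ∧ s ^ k ≤ Module.finrank K (W m) := by
    intro k
    induction k with
    | zero => exact ⟨0, Nat.zero_le _, by simpa using h0⟩
    | succ k ih =>
      obtain ⟨m, hm, hs⟩ := ih
      refine ⟨Q * m + c, ?_, ?_⟩
      · have h2 : 1 ≤ Q ^ (k + 1) := Nat.one_le_pow _ _ hQ
        calc Q * m + c ≤ Q * (c * k * Q ^ k) + c * Q ^ (k + 1) :=
              add_le_add (Nat.mul_le_mul_left _ hm) (Nat.le_mul_of_pos_right _ h2)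
          _ = c * (k + 1) * Q ^ (k + 1) := by ring
      · rw [pow_succ']
        exact (Nat.mul_le_mul_left _ hs).trans (hstep m)
  refine le_of_pow_le (C := ω.card * C) (e := k0 * c) (d := d) (Nat.one_le_pow _ _ hQ) fun k => ?_
  obtain ⟨m, hm, hs⟩ := hit k
  have h2 : 1 ≤ Q ^ k := Nat.one_le_pow _ _ hQ
  have h3 : k0 * m + 1 ≤ (k0 * c * k + 1) * Q ^ k :=
    calc k0 * m + 1 ≤ k0 * (c * k * Q ^ k) + Q ^ k := add_le_add (Nat.mul_le_mul_left _ hm) h2
      _ = (k0 * c * k + 1) * Q ^ k := by ring
  calc s ^ k ≤ ω.card * (C * (k0 * m + 1) ^ d) := hs.trans (hup m)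
    _ ≤ ω.card * (C * ((k0 * c * k + 1) * Q ^ k) ^ d) := by gcongr
    _ = ω.card * C * (k0 * c * k + 1) ^ d * (Q ^ d) ^ k := by
      rw [mul_pow, ← pow_mul, ← pow_mul, mul_comm k d]
      ring

end Pool.Agent.P.MP_38c95b_ag
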