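import Pool.Agent.P.MP_38c95b_ag.Stmts

/-!
The Stepanov upper count for the spurious solutions.
-/

set_option autoImplicit false

open Polynomial

namespace Pool.Agent.P.MP_38c95b_ag

namespace Up

section linalg

variable {k V W : Type} [Field k] [AddCommGroup V] [Module k V] [AddCommGroup W] [Module k W]

theorem rank_null (f : V →ₗ[k] W) (A : Submodule k V) [FiniteDimensional k A] :
    Module.finrank k (A.map f) + Module.finrank k (A ⊓ LinearMap.ker f : Submodule k V) =
      Module.finrank k A := by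
  have h := (f.domRestrict A).finrank_range_add_finrank_ker
  rw [LinearMap.range_domRestrict, LinearMap.ker_domRestrict] at h
  rw [← h]
  congr 1
  rw [← Submodule.finrank_map_subtype_eq A, Submodule.map_comap_subtype]

theorem map_add_le (f : V →ₗ[k] W) (T A : Submodule k V) (h : T ≤ A) [FiniteDimensional k A] :
    Module.finrank k (A.map f) + Module.finrank k T ≤
      Module.finrank k (T.map f) + Module.finrank k A := by
  have : FiniteDimensional k T := Submodule.finiteDimensional_of_le h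
  have h1 := rank_null f A
  have h2 := rank_null f T
  have : FiniteDimensional k (A ⊓ LinearMap.ker f : Submodule k V) :=
    Submodule.finiteDimensional_of_le inf_le_left
  have h3 : Module.finrank k (T ⊓ LinearMap.ker f : Submodule k V) ≤
      Module.finrank k (A ⊓ LinearMap.ker f : Submodule k V) :=
    Submodule.finrank_mono (inf_le_inf_right _ h)
  omega

theorem comap_fin (f : V →ₗ[k] W) (hf : Function.Injective f) (A : Submodule k W)
    [FiniteDimensional k A] :
    FiniteDimensional k (A.comap f) ∧ Module.finrank k (A.comap f) ≤ Module.finrank k A := by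
  let g : A.comap f →ₗ[k] A := f.restrict (fun x hx => hx)
  have hg : Function.Injective g := by
    intro a b hab
    apply Subtype.ext
    apply hf
    exact congrArg Subtype.val hab
  exact ⟨FiniteDimensional.of_injective g hg, LinearMap.finrank_le_finrank_of_injective hg⟩

theorem twist [IsAlgClosed k] (p : ℕ) [Fact p.Prime] [CharP k p] (m : ℕ) {ι S : Type}
    [Fintype ι] [Fintype S] (v : ι → S → k) (A : Submodule k (S → k))
    (h : ∀ i, (fun s => v i s ^ (p ^ m)) ∈ A) :
    Module.finrank k (Submodule.span k (Set.range v)) ≤ Module.finrank k A := by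
  classical
  obtain ⟨κ, a, ha, hsp, hli⟩ := exists_linearIndependent' k v
  have : Finite κ := Finite.of_injective a ha
  have : Fintype κ := Fintype.ofFinite κ
  rw [← hsp, finrank_span_eq_card hli]
  have hli2 : LinearIndependent k (fun t : κ => fun s => v (a t) s ^ (p ^ m)) := by
    rw [Fintype.linearIndependent_iff] at hli ⊢
    intro g hg
    have hp : 0 < p ^ m := pow_pos (Fact.out : p.Prime).pos m
    choose g' hg' using fun t => IsAlgClosed.exists_pow_nat_eq (g t) hp
    have : ∑ t, g' t • (v ∘ a) t = 0 := by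
      funext s
      have h1 := congrFun hg s
      simp only [Finset.sum_apply, Pi.smul_apply, smul_eq_mul, Pi.zero_apply,
        Function.comp_apply] at h1 ⊢
      apply pow_eq_zero_iff hp.ne' |>.mp
      rw [sum_pow_char_pow, ← h1]
      refine Finset.sum_congr rfl fun t _ => ?_
      rw [mul_pow, hg']
    intro t
    rw [← hg', hli g' this t, zero_pow hp.ne']
  rw [← finrank_span_eq_card hli2]
  apply Submodule.finrank_mono
  rw [Submodule.span_le]
  rintro _ ⟨t, rfl⟩
  exact h _

end linalg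

section mon

variable {k R σ : Type} [Field k] [CommRing R] [Algebra k R] [Fintype σ]

/-- Monomials. -/
def mon (y : σ → R) (A : σ → ℕ) : R := ∏ l, y l ^ A l

theorem mon_add (y : σ → R) (A E : σ → ℕ) : mon y (A + E) = mon y A * mon y E := by
  simp [mon, pow_add, Finset.prod_mul_distrib]

theorem mon_pow (y : σ → R) (A : σ → ℕ) (N : ℕ) : mon y A ^ N = mon y (fun l => A l * N) := by
  simp [mon, ← Finset.prod_pow, pow_mul]

theorem aeval_monomial (y : σ → R) (a : σ →₀ ℕ) (c : k) :
    MvPolynomial.aeval y (MvPolynomial.monomial a c) = c • mon y a := by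
  rw [MvPolynomial.aeval_monomial, Finsupp.prod_fintype _ _ (by simp), Algebra.smul_def]
  rfl

theorem aeval_mem (y : σ → R) (A : Submodule k R) (ψ : R) (n : ℕ)
    (h : ∀ E : σ → ℕ, ∑ l, E l ≤ n → ψ * mon y E ∈ A) (q : MvPolynomial σ k)
    (hq : q.totalDegree ≤ n) : ψ * MvPolynomial.aeval y q ∈ A := by
  rw [q.as_sum, map_sum, Finset.mul_sum]
  refine Submodule.sum_mem _ fun a ha => ?_
  rw [aeval_monomial, mul_smul_comm]
  refine Submodule.smul_mem _ _ (h _ ?_)
  have := (MvPolynomial.le_totalDegree ha).trans hq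
  rwa [Finsupp.sum_fintype _ _ (by simp)] at this

theorem exists_level (y : σ → R) (r : R) (P : (MvPolynomial σ k)[X]) (c : MvPolynomial σ k)
    (hP : P.Monic) (hP0 : P.natDegree ≠ 0) (hr : ev2 y r P = 0)
    (hc : ∀ b : R, ∃ G : (MvPolynomial σ k)[X], MvPolynomial.aeval y c * b = ev2 y r G)
    (ω : Finset R) :
    ∃ kc : ℕ, ∀ (n : ℕ) (A : Submodule k R) (ψ : R),
      (∀ (E : σ → ℕ) (i : ℕ), ∑ l, E l ≤ n + kc → i < P.natDegree → ψ * r ^ i * mon y E ∈ A) →
      ∀ φ ∈ Gen k y ω n, MvPolynomial.aeval y c * (ψ * φ) ∈ A := by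
  classical
  choose G hG using hc
  have hP1 : P ≠ 1 := by
    rintro rfl
    exact hP0 (by simp)
  have hG' : ∀ b, MvPolynomial.aeval y c * b =
      ∑ i ∈ Finset.range P.natDegree, MvPolynomial.aeval y ((G b %ₘ P).coeff i) * r ^ i := by
    intro b
    have h1 : ev2 y r (G b) = ev2 y r (G b %ₘ P) := by
      conv_lhs => rw [← Polynomial.modByMonic_add_div (G b) P]
      rw [map_add, map_mul, hr, zero_mul, add_zero]
    rw [hG, h1]
    have h2 := Polynomial.natDegree_modByMonic_lt (G b) hP hP1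
    simp only [ev2, Polynomial.coe_eval₂RingHom]
    rw [Polynomial.eval₂_eq_sum_range' _ h2]
    rfl
  refine ⟨ω.sup fun w => (Finset.range P.natDegree).sup fun i => ((G w %ₘ P).coeff i).totalDegree,
    fun n A ψ hA φ hφ => ?_⟩
  induction hφ using Submodule.span_induction with
  | mem φ h =>
    obtain ⟨q, w, hw, hq, rfl⟩ := h
    have : MvPolynomial.aeval y c * (ψ * (MvPolynomial.aeval y q * w)) =
        ∑ i ∈ Finset.range P.natDegree,
          ψ * r ^ i * MvPolynomial.aeval y (q * (G w %ₘ P).coeff i) := by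
      rw [show MvPolynomial.aeval y c * (ψ * (MvPolynomial.aeval y q * w)) =
        ψ * MvPolynomial.aeval y q * (MvPolynomial.aeval y c * w) by ring, hG', Finset.mul_sum]
      refine Finset.sum_congr rfl fun i _ => ?_
      rw [map_mul]
      ring
    rw [this]
    refine Submodule.sum_mem _ fun i hi => ?_
    refine aeval_mem y A _ _ (fun E hE => hA E i hE (Finset.mem_range.mp hi)) _ ?_
    have h1 := MvPolynomial.totalDegree_mul q ((G w %ₘ P).coeff i)
    have h2 : ((G w %ₘ P).coeff i).totalDegree ≤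
        (Finset.range P.natDegree).sup fun i => ((G w %ₘ P).coeff i).totalDegree :=
      Finset.le_sup (f := fun i => ((G w %ₘ P).coeff i).totalDegree) hi
    have h3 : ((Finset.range P.natDegree).sup fun i => ((G w %ₘ P).coeff i).totalDegree) ≤
        ω.sup fun w => (Finset.range P.natDegree).sup fun i => ((G w %ₘ P).coeff i).totalDegree :=
      Finset.le_sup
        (f := fun w => (Finset.range P.natDegree).sup fun i => ((G w %ₘ P).coeff i).totalDegree) hw
    omega
  | zero => simp
  | add a b _ _ ha hb => rw [mul_add, mul_add]; exact add_mem ha hb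
  | smul t a _ ha => rw [mul_smul_comm, mul_smul_comm]; exact Submodule.smul_mem _ t ha

/-- Multiplication by `ψ` raises the level by at most `κ`. -/
def Rz (k : Type) [Field k] [Algebra k R] (y : σ → R) (ω : Finset R) (ψ : R) (κ : ℕ) : Prop :=
  ∀ n φ, φ ∈ Gen k y ω n → ψ * φ ∈ Gen k y ω (n + κ)

omit [Fintype σ] in
theorem Rz.mono {y : σ → R} {ω : Finset R} {ψ : R} {κ κ' : ℕ} (h : Rz k y ω ψ κ) (hκ : κ ≤ κ') :
    Rz k y ω ψ κ' := fun n φ hφ => Gen_mono y ω (by omega) (h n φ hφ)

omit [Fintype σ] in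
theorem Rz.one (y : σ → R) (ω : Finset R) : Rz k y ω 1 0 := fun n φ hφ => by simpa using hφ

omit [Fintype σ] in
theorem Rz.mul {y : σ → R} {ω : Finset R} {ψ ψ' : R} {κ κ' : ℕ} (h : Rz k y ω ψ κ)
    (h' : Rz k y ω ψ' κ') : Rz k y ω (ψ * ψ') (κ + κ') := fun n φ hφ => by
  rw [mul_assoc]
  exact Gen_mono y ω (by omega) (h _ _ (h' n φ hφ))

omit [Fintype σ] in
theorem Rz.pow {y : σ → R} {ω : Finset R} {ψ : R} {κ : ℕ} (h : Rz k y ω ψ κ) (m : ℕ) :
    Rz k y ω (ψ ^ m) (m * κ) := by
  induction m with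
  | zero => simpa using Rz.one y ω
  | succ m ih =>
    rw [pow_succ, Nat.succ_mul]
    exact ih.mul h

theorem Rz.mon {y u : σ → R} {ω : Finset R} {κ : ℕ} (h : ∀ l, Rz k y ω (u l) κ) (e : σ → ℕ) :
    Rz k y ω (mon u e) ((∑ l, e l) * κ) := by
  classical
  unfold Up.mon
  induction (Finset.univ : Finset σ) using Finset.induction_on with
  | empty => simpa using Rz.one y ω
  | insert l s hl ih =>
    rw [Finset.prod_insert hl, Finset.sum_insert hl, add_mul]
    exact ((h l).pow _).mul ih

omit [Fintype σ] in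
theorem Rz.mem {y : σ → R} {ω : Finset R} (h1 : (1 : R) ∈ ω) {ψ : R} {κ : ℕ}
    (h : Rz k y ω ψ κ) : ψ ∈ Gen k y ω κ := by
  have := h 0 1 (Submodule.subset_span ⟨1, 1, h1, by simp, by simp⟩)
  simpa using this

/-- The span of monomials with exponents in a finite family. -/
noncomputable def Sp (k : Type) [Field k] [Algebra k R] (y : σ → R) (r : R) (δ : ℕ) {ι : Type}
    (g : ι → σ → ℕ) : Submodule k R :=
  Submodule.span k (Set.range fun t : ι × Fin δ => mon y (g t.1) * r ^ (t.2 : ℕ))

theorem Sp_fin (y : σ → R) (r : R) (δ : ℕ) {ι : Type} [Fintype ι] (g : ι → σ → ℕ) :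
    FiniteDimensional k (Sp k y r δ g) ∧
      Module.finrank k (Sp k y r δ g) ≤ δ * Fintype.card ι := by
  refine ⟨FiniteDimensional.span_of_finite k (Set.finite_range _), ?_⟩
  refine (finrank_range_le_card _).trans ?_
  simp [mul_comm]

theorem mem_Sp (y : σ → R) (r : R) (δ : ℕ) {ι : Type} (g : ι → σ → ℕ) (A E : σ → ℕ) (i : ℕ)
    (hi : i < δ) (t : ι) (ht : g t = A + E) : mon y A * r ^ i * mon y E ∈ Sp k y r δ g := by
  refine Submodule.subset_span ⟨(t, ⟨i, hi⟩), ?_⟩
  simp only [ht, mon_add]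
  ring

omit [CommRing R] [Algebra k R] in
theorem li_mon (P : (MvPolynomial σ k)[X]) (hP : P.Monic)
    {ι : Type} [Fintype ι] (g : ι → σ → ℕ) (hg : Function.Injective g)
    (c : ι × Fin P.natDegree → k)
    (h : P ∣ ∑ t : ι × Fin P.natDegree,
      Polynomial.C (MvPolynomial.monomial (Finsupp.equivFunOnFinite.symm (g t.1)) (c t)) *
        Polynomial.X ^ (t.2 : ℕ)) (t : ι × Fin P.natDegree) : c t = 0 := by
  classical
  have hdeg : (∑ t : ι × Fin P.natDegree,
      Polynomial.C (MvPolynomial.monomial (Finsupp.equivFunOnFinite.symm (g t.1)) (c t)) *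
        Polynomial.X ^ (t.2 : ℕ) : (MvPolynomial σ k)[X]).degree < P.degree := by
    rw [Polynomial.degree_eq_natDegree hP.ne_zero]
    refine (Polynomial.degree_sum_le _ _).trans_lt ?_
    rw [Finset.sup_lt_iff (WithBot.bot_lt_coe _)]
    intro t _
    refine (Polynomial.degree_C_mul_X_pow_le _ _).trans_lt ?_
    exact_mod_cast t.2.2
  have h0 := Polynomial.eq_zero_of_dvd_of_degree_lt h hdeg
  have h1 := congrArg (fun G : (MvPolynomial σ k)[X] =>
    (G.coeff t.2).coeff (Finsupp.equivFunOnFinite.symm (g t.1))) h0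
  simp only [Polynomial.finsetSum_coeff, Polynomial.coeff_C_mul_X_pow, MvPolynomial.coeff_sum,
    Polynomial.coeff_zero, MvPolynomial.coeff_zero] at h1
  rw [Finset.sum_eq_single t] at h1
  · simpa using h1
  · intro s _ hs
    split_ifs with h2
    · rw [MvPolynomial.coeff_monomial, if_neg]
      intro h3
      apply hs
      exact Prod.ext (hg (Finsupp.equivFunOnFinite.symm.injective h3)) (Fin.ext h2.symm)
    · simp
  · simp

end mon

theorem frob_ev2 {k σ : Type} [Field k] (p : ℕ) [Fact p.Prime] [CharP k p] (a m : ℕ)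
    (P : (MvPolynomial σ k)[X])
    (hP : ∀ i e, ((P.coeff i).coeff e) ^ (p ^ a) = (P.coeff i).coeff e)
    (y : σ → k) (r : k) (h : ev2 y r P = 0) :
    ev2 (fun l => y l ^ (p ^ (a * m))) (r ^ (p ^ (a * m))) P = 0 := by
  have h2 : P.map (MvPolynomial.map (iterateFrobenius k p (a * m))) = P := by
    ext i e
    rw [Polynomial.coeff_map, MvPolynomial.coeff_map, iterateFrobenius_def]
    induction m with
    | zero => simp
    | succ m ih => rw [Nat.mul_succ, pow_add, pow_mul, ih, hP]
  have h1 := ringHom_ev2 (iterateFrobenius k p (a * m)) (iterateFrobenius k p (a * m))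
    (fun _ => rfl) y r P
  rw [h, map_zero, h2] at h1
  exact h1.symm

/-- The exponent of the monomial `lam`. -/
def lex (d N : ℕ) (a : Fin d → ℕ) (b : ℕ) : Fin (d + 1) → ℕ :=
  Fin.cons (b + d * N - ∑ l, a l) a

theorem ev2_lam {k R : Type} [Field k] [CommRing R] [Algebra k R] (d N : ℕ)
    (y : Fin (d + 1) → R) (r : R) (a : Fin d → ℕ) (b i : ℕ) :
    ev2 y r (lam k d N a b i) = mon y (lex d N a b) * r ^ i := by
  simp [lam, mon, lex, Fin.prod_univ_succ]

theorem sum_lex (d N : ℕ) (a : Fin d → ℕ) (b : ℕ) (h : ∀ l, a l < N) :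
    ∑ l, lex d N a b l = b + d * N := by
  have : ∑ l, a l ≤ d * N := by
    have := Finset.sum_le_card_nsmul Finset.univ a N (fun l _ => (h l).le)
    simpa using this
  rw [Fin.sum_univ_succ]
  simp only [lex, Fin.cons_zero, Fin.cons_succ]
  omega

theorem lex_le (d N : ℕ) (a : Fin d → ℕ) (b : ℕ) (h : ∀ l, a l < N) (hb : b ≤ N) (l) :
    lex d N a b l ≤ (d + 1) * N := by
  have h1 := sum_lex d N a b h
  have h2 : lex d N a b l ≤ ∑ l, lex d N a b l :=
    Finset.single_le_sum (fun _ _ => Nat.zero_le _) (Finset.mem_univ l)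
  rw [add_mul]
  omega

theorem ev_surj {k R : Type} [Field k] [CommRing R] [Algebra k R] (S : Finset (R →ₐ[k] k)) :
    LinearMap.range (LinearMap.pi fun ξ : S => ξ.1.toLinearMap) = ⊤ := by
  have hli : LinearIndependent k (fun ξ : S => (ξ.1 : R → k)) := by
    have := (linearIndependent_monoidHom R k).comp (fun ξ : S => (ξ.1 : R →* k))
      (fun ξ ξ' h => Subtype.ext (AlgHom.ext fun b => DFunLike.congr_fun h b))
    exact this
  rw [← span_flip_eq_top_iff_linearIndependent] at hli
  rw [eq_top_iff, ← hli, Submodule.span_le]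
  rintro _ ⟨b, rfl⟩
  exact ⟨b, rfl⟩

theorem li_tv {k R : Type} [Field k] [IsAlgClosed k] (p : ℕ) [Fact p.Prime] [CharP k p]
    [CommRing R] [IsDomain R] [Algebra k R] {σ Z : Type} [Fintype σ] [DecidableEq σ] [Fintype Z]
    (y : σ → R) (r : R)
    (P : (MvPolynomial σ k)[X]) (hP : P.Monic) (hker : ∀ G, ev2 y r G = 0 → P ∣ G) (m N : ℕ)
    (hN : N = p ^ m) (la : Z → (MvPolynomial σ k)[X])
    (hlam : ∀ ε : Z → (MvPolynomial σ k)[X], P ∣ ∑ z, ε z ^ N * la z → ∀ z, P ∣ ε z) :
    LinearIndependent k fun t : Z × ((σ → Fin N) × Fin P.natDegree) =>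
      ev2 y r (la t.1) * (mon y (fun l => t.2.1 l) * r ^ (t.2.2 : ℕ)) ^ N := by
  have : CharP R p := charP_of_injective_algebraMap (algebraMap k R).injective p
  rw [Fintype.linearIndependent_iff]
  intro g hg
  have hp : 0 < N := hN ▸ pow_pos (Fact.out : p.Prime).pos m
  choose g' hg' using fun t => IsAlgClosed.exists_pow_nat_eq (g t) hp
  have hsum : ∀ (ι : Type) (s : Finset ι) (f : ι → R), (∑ i ∈ s, f i) ^ N = ∑ i ∈ s, f i ^ N := by
    intro ι s f
    rw [hN, sum_pow_char_pow]
  have h := hlam (fun z => ∑ t : (σ → Fin N) × Fin P.natDegree,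
    Polynomial.C (MvPolynomial.monomial (Finsupp.equivFunOnFinite.symm (fun l => (t.1 l : ℕ)))
      (g' (z, t))) * Polynomial.X ^ (t.2 : ℕ)) (by
    apply hker
    rw [← hg, Fintype.sum_prod_type, map_sum]
    refine Finset.sum_congr rfl fun z _ => ?_
    rw [map_mul, map_pow, map_sum]
    rw [hsum, Finset.sum_mul]
    refine Finset.sum_congr rfl fun t _ => ?_
    rw [map_mul, map_pow, ev2_C, ev2_X, aeval_monomial, smul_mul_assoc, _root_.smul_pow, hg',
      smul_mul_assoc, mul_comm]
    rfl)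
  intro t
  have h2 := li_mon P hP (fun (e : σ → Fin N) l => (e l : ℕ))
    (fun e e' he => funext fun l => Fin.ext (congrFun he l)) (fun s => g' (t.1, s)) (h t.1) t.2
  rw [← hg', h2, zero_pow hp.ne']

theorem exists_W {k R S : Type} [Field k] [CommRing R] [Algebra k R] (ev : R →ₗ[k] (S → k))
    (U : Submodule k R) [FiniteDimensional k U] (τ : S → k) (n : ℕ) :
    ∃ W : Submodule k (S → k), Module.finrank k W ≤ n * Module.finrank k U ∧
      ∀ φ ∈ U, ∀ i < n, ev φ * τ ^ i ∈ W := by
  classical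
  let Φ : (Fin n → U) →ₗ[k] (S → k) := ∑ i : Fin n,
    (LinearMap.mulRight k (τ ^ (i : ℕ))) ∘ₗ ev ∘ₗ U.subtype ∘ₗ LinearMap.proj i
  refine ⟨LinearMap.range Φ, ?_, fun φ hφ i hi => ⟨Pi.single ⟨i, hi⟩ ⟨φ, hφ⟩, ?_⟩⟩
  · refine Φ.finrank_range_le.trans ?_
    rw [Module.finrank_pi_fintype]
    simp
  · simp only [Φ, LinearMap.sum_apply, LinearMap.comp_apply, LinearMap.proj_apply]
    rw [Finset.sum_eq_single ⟨i, hi⟩]
    · simp
    · intro j _ hj
      simp [Pi.single_eq_of_ne hj]
    · simp

end Up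

open Up in
theorem up : S_Up := by
  intro k R _ _ p _ _ _ _ _ d y u r ρ P c a hfin hP hker hc hden hfix hρ
  classical
  obtain ⟨ω, h1, hω⟩ := exists_Gen y hfin
  obtain ⟨M₀, hM₀⟩ := exists_box_span y u ω hω
  have hr : ev2 y r P = 0 := (hker P).mpr dvd_rfl
  have hδ : P.natDegree ≠ 0 := by
    intro h0
    rw [hP.natDegree_eq_zero.mp h0, map_one] at hr
    exact one_ne_zero hr
  obtain ⟨kc, hkc⟩ := exists_level y r P c hP hδ hr hden ω
  obtain ⟨P1, hP1m, hP1d, hP1⟩ : ∃ P1 : R[X], P1.Monic ∧ P1.natDegree = P.natDegree - 1 ∧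
      (X - C ρ) * P1 =
        P.map (MvPolynomial.aeval u : MvPolynomial (Fin (d + 1)) k →ₐ[k] R).toRingHom := by
    have hG := hP.map (MvPolynomial.aeval u : MvPolynomial (Fin (d + 1)) k →ₐ[k] R).toRingHom
    have hGd := hP.natDegree_map
      (MvPolynomial.aeval u : MvPolynomial (Fin (d + 1)) k →ₐ[k] R).toRingHom
    rw [ev2_eq_eval_map] at hρ
    have h2 := Polynomial.mul_divByMonic_eq_iff_isRoot.mpr hρ
    have h3 := (Polynomial.monic_X_sub_C ρ).of_mul_monic_left (h2.symm ▸ hG)
    refine ⟨_, h3, ?_, h2⟩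
    have h4 := (Polynomial.monic_X_sub_C ρ).natDegree_mul h3
    rw [h2, hGd, Polynomial.natDegree_X_sub_C] at h4
    omega
  obtain ⟨κ, hκr, hκu, hκP⟩ : ∃ κ, Rz k y ω r κ ∧ (∀ l, Rz k y ω (u l) κ) ∧
      ∀ i < P.natDegree, Rz k y ω (P1.coeff i) κ := by
    choose K hK using exists_mul_mem_Gen y ω hω
    refine ⟨K r + (Finset.univ.sup fun l => K (u l)) +
      (Finset.range P.natDegree).sup fun i => K (P1.coeff i), Rz.mono (hK r) (by omega),
      fun l => Rz.mono (hK _) ?_, fun i hi => Rz.mono (hK _) ?_⟩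
    · have : K (u l) ≤ Finset.univ.sup fun l => K (u l) :=
        Finset.le_sup (f := fun l => K (u l)) (Finset.mem_univ l)
      omega
    · have : K (P1.coeff i) ≤ (Finset.range P.natDegree).sup fun i => K (P1.coeff i) :=
        Finset.le_sup (f := fun i => K (P1.coeff i)) (Finset.mem_range.mpr hi)
      omega
  obtain ⟨C, hC⟩ : ∃ C, C = κ * (2 * P.natDegree + d + 2) + kc + d + 2 := ⟨_, rfl⟩
  refine ⟨C, M₀ + 1, ?_⟩
  intro j B N _ hN hN1 hB hlam S hS
  have hNpos : 1 ≤ N := by omega
  have hkcN : kc ≤ kc * N := Nat.le_mul_of_pos_right _ hNpos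
  have hκN : κ ≤ κ * N := Nat.le_mul_of_pos_right _ hNpos
  have hcy : MvPolynomial.aeval y c ≠ 0 := by
    intro h0
    have h2 := (hker (Polynomial.C c)).mp (by simpa using h0)
    have h3 := Polynomial.natDegree_le_of_dvd h2 (by simpa using hc)
    rw [Polynomial.natDegree_C] at h3
    omega
  let mc : R →ₗ[k] R := LinearMap.mulLeft k (MvPolynomial.aeval y c)
  have hmc : Function.Injective mc := fun b b' h => mul_left_cancel₀ hcy h
  let ev : R →ₗ[k] (S → k) := LinearMap.pi fun ξ : S => ξ.1.toLinearMap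
  have hev : ∀ b (ξ : S), ev b ξ = ξ.1 b := fun _ _ => rfl
  let gV : (Fin (d + 1) → Fin (N * N + C * N)) → Fin (d + 1) → ℕ := fun t l => t l
  let gU : (Fin d → Fin (N * N + C * N)) × Fin (N * B + C * N) → Fin (d + 1) → ℕ := fun t =>
    Fin.cons (d * (N * N) + t.2 - ∑ l, (t.1 l : ℕ)) (fun l => t.1 l)
  obtain ⟨hVf, hVd⟩ := Sp_fin (k := k) y r P.natDegree gV
  obtain ⟨hUf, hUd⟩ := Sp_fin (k := k) y r P.natDegree gU
  obtain ⟨hVf', hVd'⟩ := comap_fin mc hmc (Sp k y r P.natDegree gV)
  obtain ⟨hUf', hUd'⟩ := comap_fin mc hmc (Sp k y r P.natDegree gU)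
  set VV := (Sp k y r P.natDegree gV).comap mc
  set UU := (Sp k y r P.natDegree gU).comap mc
  have hV : ∀ A : Fin (d + 1) → ℕ, (∀ l, A l < N * N + (d + 1) * N) →
      ∀ φ ∈ Gen k y ω (2 * P.natDegree * N * κ), mon y A * φ ∈ VV := by
    intro A hA φ hφ
    refine hkc _ (Sp k y r P.natDegree gV) (mon y A) (fun E i hE hi => ?_) φ hφ
    refine mem_Sp y r _ gV A E i hi (fun l => ⟨A l + E l, ?_⟩) rfl
    have h2 : E l ≤ ∑ l, E l :=
      Finset.single_le_sum (fun _ _ => Nat.zero_le _) (Finset.mem_univ l)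
    have h3 := hA l
    have h4 : C * N = 2 * P.natDegree * N * κ + kc * N + (d + 1) * N + (κ * (d + 2) + 1) * N := by
      rw [hC]; ring
    omega
  have hU : ∀ A : Fin (d + 1) → ℕ, (∀ l : Fin d, A l.succ < N * N) →
      d * (N * N) ≤ ∑ l, A l → ∑ l, A l ≤ d * (N * N) + N * B →
      ∀ φ ∈ Gen k y ω (P.natDegree * N * κ + (d + 1) * N * κ + κ), mon y A * φ ∈ UU := by
    intro A hA hA1 hA2 φ hφ
    refine hkc _ (Sp k y r P.natDegree gU) (mon y A) (fun E i hE hi => ?_) φ hφ
    have h4 : C * N = P.natDegree * N * κ + (d + 1) * N * κ + κ * N + kc * N +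
        (κ * P.natDegree + d + 1) * N + N := by
      rw [hC]; ring
    refine mem_Sp y r _ gU A E i hi
      (fun l => ⟨A l.succ + E l.succ, ?_⟩, ⟨∑ l, A l + ∑ l, E l - d * (N * N), by omega⟩) ?_
    · have h2 : E l.succ ≤ ∑ l, E l :=
        Finset.single_le_sum (fun _ _ => Nat.zero_le _) (Finset.mem_univ _)
      have h3 := hA l
      omega
    · funext l
      refine Fin.cases ?_ (fun l => rfl) l
      simp only [gU, Fin.cons_zero, Pi.add_apply, Finset.sum_add_distrib]
      rw [Fin.sum_univ_succ] at hA1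
      rw [Fin.sum_univ_succ A, Fin.sum_univ_succ E]
      omega
  have hli := li_tv p y r P hP (fun G hG => (hker G).mp hG) (a * j) N hN _ hlam
  set tv : ((Fin d → Fin N) × Fin (B + 1) × Fin P.natDegree) ×
      ((Fin (d + 1) → Fin N) × Fin P.natDegree) → R := fun t =>
    ev2 y r (lam k d N (fun l => (t.1.1 l : ℕ)) t.1.2.1 t.1.2.2) *
      (mon y (fun l => t.2.1 l) * r ^ (t.2.2 : ℕ)) ^ N with htv
  have hT : Module.finrank k (Submodule.span k (Set.range tv)) =
      N ^ d * (B + 1) * P.natDegree * (N ^ (d + 1) * P.natDegree) := by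
    rw [finrank_span_eq_card hli]
    simp [mul_assoc]
  have hTV : Submodule.span k (Set.range tv) ≤ VV := by
    rw [Submodule.span_le]
    rintro _ ⟨⟨⟨a', b, i⟩, e, i'⟩, rfl⟩
    have h2 : tv ⟨⟨a', b, i⟩, e, i'⟩ =
        mon y (lex d N (fun l => a' l) b + fun l => e l * N) * r ^ (i + i' * N : ℕ) := by
      simp only [htv]
      rw [ev2_lam, mul_pow, mon_pow, mon_add, pow_add, pow_mul]
      ring
    rw [h2]
    refine hV _ (fun l => ?_) _ (Gen_mono y ω ?_ ((hκr.pow _).mem h1))
    · have h3 := lex_le d N (fun l => a' l) b (fun l => (a' l).2) (by omega) l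
      have h4 : (e l + 1) * N ≤ N * N := Nat.mul_le_mul_right _ (e l).2
      rw [add_mul] at h4
      simp only [Pi.add_apply]
      omega
    · apply Nat.mul_le_mul_right
      have h3 : (i : ℕ) ≤ P.natDegree * N :=
        i.2.le.trans (Nat.le_mul_of_pos_right _ hNpos)
      have h4 : (i' : ℕ) * N ≤ P.natDegree * N := Nat.mul_le_mul_right _ i'.2.le
      rw [mul_assoc]
      omega
  have hVtop : VV.map ev = ⊤ := by
    have h2 : VV ⊔ LinearMap.ker ev = ⊤ := by
      refine hM₀ (N * N) (le_trans (by omega) (Nat.le_mul_of_pos_right N hNpos)) _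
        (fun A w hw hA => Submodule.mem_sup_left ?_) (fun l φ _ => Submodule.mem_sup_right ?_)
      · rw [Up.aeval_monomial, one_smul]
        refine hV _ (fun l => ?_) _ (Gen_mono y ω (Nat.zero_le _)
          (Submodule.subset_span ⟨1, w, hw, by simp, by simp⟩))
        have := hA l
        omega
      · funext ξ
        rw [hev, map_mul, map_sub, map_pow, (hS ξ.1 ξ.2).1 l, sub_self, zero_mul]
        rfl
    rw [← ev_surj S, ← Submodule.map_top, ← h2, Submodule.map_sup]
    exact (sup_eq_left.mpr (by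
      rintro _ ⟨b, hb, rfl⟩
      rw [show ev b = 0 from hb]
      exact zero_mem _)).symm
  let τ : S → k := fun ξ => ξ.1 r ^ (N * N)
  obtain ⟨W, hWd, hW⟩ := exists_W ev UU τ (P.natDegree - 1)
  have hτ : ∀ ξ : S, τ ξ ^ (P.natDegree - 1) =
      -∑ i ∈ Finset.range (P.natDegree - 1), ξ.1 (P1.coeff i) * τ ξ ^ i := by
    intro ξ
    have h2 := frob_ev2 p a (j + j) P hfix (fun l => ξ.1 (y l)) (ξ.1 r)
      (by rw [← map_ev2, hr, map_zero])
    rw [mul_add, pow_add, ← hN] at h2
    simp only [(hS ξ.1 ξ.2).1] at h2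
    have h3 : ev2 (fun l => ξ.1 (u l)) (τ ξ) P =
        (P.map (MvPolynomial.aeval u : MvPolynomial (Fin (d + 1)) k →ₐ[k] R).toRingHom).eval₂
          (ξ.1 : R →+* k) (τ ξ) := by
      rw [Polynomial.eval₂_map]
      simp only [ev2, Polynomial.coe_eval₂RingHom]
      congr 1
      refine RingHom.ext fun q => ?_
      exact (MvPolynomial.comp_aeval_apply u ξ.1 q).symm
    rw [h3, ← hP1, Polynomial.eval₂_mul, Polynomial.eval₂_sub, Polynomial.eval₂_X,
      Polynomial.eval₂_C] at h2
    have h4 := (mul_eq_zero.mp h2).resolve_left (sub_ne_zero.mpr (hS ξ.1 ξ.2).2)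
    rw [Polynomial.eval₂_eq_sum_range, Finset.sum_range_succ, hP1m.coeff_natDegree, hP1d] at h4
    simp only [map_one, one_mul, RingHom.coe_coe] at h4
    linear_combination h4
  have hTW : Module.finrank k ((Submodule.span k (Set.range tv)).map ev) ≤ Module.finrank k W := by
    rw [Submodule.map_span, ← Set.range_comp]
    refine twist p (a * j) _ W ?_
    rintro ⟨⟨a', b, i⟩, e, i'⟩
    have hbase : ∀ ψ, Rz k y ω ψ κ → mon y (fun l => lex d N (fun l => a' l) b l * N) *
        (r ^ (i * N : ℕ) * mon u (fun l => e l) * ψ) ∈ UU := by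
      intro ψ hψ
      have h3 : ∑ l, lex d N (fun l => a' l) b l * N = d * (N * N) + N * b := by
        rw [← Finset.sum_mul, sum_lex d N _ b (fun l => (a' l).2)]
        ring
      refine hU _ (fun l => ?_) (by omega) ?_ _
        (Gen_mono y ω ?_ ((((hκr.pow _).mul (Rz.mon hκu _)).mul hψ).mem h1))
      · exact Nat.mul_lt_mul_of_pos_right (a' l).2 hNpos
      · have : N * b ≤ N * B := Nat.mul_le_mul_left _ (Nat.lt_succ_iff.mp b.2)
        omega
      · have h4 : (i : ℕ) * N * κ ≤ P.natDegree * N * κ :=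
          Nat.mul_le_mul_right _ (Nat.mul_le_mul_right _ i.2.le)
        have h5 : ∑ l, (e l : ℕ) ≤ (d + 1) * N := by
          have := Finset.sum_le_card_nsmul Finset.univ (fun l => (e l : ℕ)) N
            (fun l _ => (e l).2.le)
          simpa using this
        have h6 := Nat.mul_le_mul_right κ h5
        omega
    set φ := mon y (fun l => lex d N (fun l => a' l) b l * N) *
        (r ^ (i * N : ℕ) * mon u (fun l => e l)) with hφ
    have h2 : (fun s => (ev ∘ tv) ⟨⟨a', b, i⟩, e, i'⟩ s ^ (p ^ (a * j))) =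
        ev φ * τ ^ (i' : ℕ) := by
      funext ξ
      have h3 : ξ.1 (mon y fun l => e l) ^ (N * N) = ξ.1 (mon u fun l => e l) := by
        simp only [mon, map_prod, map_pow]
        rw [← Finset.prod_pow]
        refine Finset.prod_congr rfl fun l _ => ?_
        rw [← pow_mul, mul_comm, pow_mul, (hS ξ.1 ξ.2).1 l]
      simp only [Function.comp_apply, Pi.mul_apply, Pi.pow_apply, hev, htv, hφ, τ]
      rw [← hN, ev2_lam, ← mon_pow]
      simp only [map_mul, map_pow, ← h3]
      ring
    rw [h2]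
    by_cases hi' : (i' : ℕ) < P.natDegree - 1
    · refine hW _ ?_ _ hi'
      have := hbase 1 ((Rz.one y ω).mono (Nat.zero_le _))
      rwa [mul_one] at this
    · have h3 : (i' : ℕ) = P.natDegree - 1 := by
        have := i'.2
        omega
      have h4 : ev φ * τ ^ (i' : ℕ) =
          -∑ i ∈ Finset.range (P.natDegree - 1), ev (φ * P1.coeff i) * τ ^ i := by
        funext ξ
        simp only [Pi.mul_apply, Pi.pow_apply, Pi.neg_apply, Finset.sum_apply, hev, map_mul]
        rw [h3, hτ, mul_neg, Finset.mul_sum]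
        simp only [mul_assoc]
      rw [h4]
      refine neg_mem (Submodule.sum_mem _ fun i'' hi'' => ?_)
      have h5 := Finset.mem_range.mp hi''
      refine hW _ ?_ _ h5
      have := hbase _ (hκP i'' (by omega))
      rwa [← mul_assoc] at this
  have hfinal := map_add_le ev _ VV hTV
  rw [hVtop, finrank_top, Module.finrank_fintype_fun_eq_card, Fintype.card_coe, hT] at hfinal
  have hV2 : Module.finrank k VV ≤ P.natDegree * (N * N + C * N) ^ (d + 1) := by
    refine hVd'.trans (hVd.trans ?_)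
    simp
  have hU2 : Module.finrank k UU ≤ P.natDegree * ((N * N + C * N) ^ d * (N * B + C * N)) := by
    refine hUd'.trans (hUd.trans ?_)
    simp
  have hW2 := hWd.trans (Nat.mul_le_mul_left _ hU2)
  omega

end Pool.Agent.P.MP_38c95b_ag
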