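import Pool.Agent.P.MP_38c95b_ag.Stmts

/-!
Interpolation, places of the algebraic numbers, and reduction along a ring map.
-/

set_option autoImplicit false

open Polynomial
open scoped NNReal

namespace Pool.Agent.P.MP_38c95b_ag

section valuation

variable {Ω : Type} [Field Ω] (v : Valuation Ω ℝ≥0)

theorem val_nat_le (n : ℕ) : v (n : Ω) ≤ 1 := by
  induction n with
  | zero => simp
  | succ n ih =>
    rw [Nat.cast_succ]
    exact v.map_add_le ih (by simp)

theorem val_int_le (n : ℤ) : v (n : Ω) ≤ 1 := by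
  obtain ⟨m, rfl | rfl⟩ := Int.eq_nat_or_neg n
  · simpa using val_nat_le v m
  · simpa using val_nat_le v m

theorem val_nat_eq_one {p : ℕ} (hp : p.Prime) (hv : v (p : Ω) < 1) {n : ℕ} (hn : ¬ p ∣ n) :
    v (n : Ω) = 1 := by
  refine le_antisymm (val_nat_le v n) (not_lt.1 fun hlt => ?_)
  have hc : Nat.gcd p n = 1 := (Nat.Prime.coprime_iff_not_dvd hp).2 hn
  have hb := Nat.gcd_eq_gcd_ab p n
  rw [hc] at hb
  have hb' : (1 : Ω) = p * (Nat.gcdA p n : ℤ) + n * (Nat.gcdB p n : ℤ) := by
    exact_mod_cast congrArg (Int.cast : ℤ → Ω) hb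
  have h1 : v ((p : Ω) * (Nat.gcdA p n : ℤ)) < 1 := by
    rw [map_mul]; exact mul_lt_one_of_nonneg_of_lt_one_left zero_le hv (val_int_le v _)
  have h2 : v ((n : Ω) * (Nat.gcdB p n : ℤ)) < 1 := by
    rw [map_mul]; exact mul_lt_one_of_nonneg_of_lt_one_left zero_le hlt (val_int_le v _)
  have := v.map_add_lt h1 h2
  rw [← hb', map_one] at this
  exact lt_irrefl _ this

theorem val_factorial {p : ℕ} (hp : p.Prime) (hv : v (p : Ω) < 1) (N : ℕ) :
    v (p : Ω) ^ N ≤ v (N.factorial : Ω) := by
  have := Fact.mk hp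
  have h1 := sub_one_mul_padicValNat_factorial (p := p) N
  have h2 : padicValNat p N.factorial ≤ N := by
    have := hp.two_le
    have h3 : 1 * padicValNat p N.factorial ≤ (p - 1) * padicValNat p N.factorial :=
      Nat.mul_le_mul_right _ (by omega)
    omega
  obtain ⟨m, hm⟩ : p ^ padicValNat p N.factorial ∣ N.factorial := pow_padicValNat_dvd
  have hpm : ¬ p ∣ m := by
    rintro ⟨m', rfl⟩
    refine pow_succ_padicValNat_not_dvd (p := p) N.factorial_ne_zero ⟨m', ?_⟩
    rw [pow_succ, mul_assoc]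
    exact hm
  have h4 : v (N.factorial : Ω) = v (p : Ω) ^ padicValNat p N.factorial := by
    conv_lhs => rw [hm]
    rw [Nat.cast_mul, map_mul, val_nat_eq_one v hp hv hpm, mul_one, Nat.cast_pow, map_pow]
  rw [h4]
  exact pow_le_pow_right_of_le_one' hv.le h2

theorem val_nodes {p : ℕ} (hp : p.Prime) (hv : v (p : Ω) < 1) (T : Finset ℕ) (N : ℕ)
    (hT : ∀ j ∈ T, j < N) {i : ℕ} (hi : i ∈ T) :
    v (p : Ω) ^ N ≤ ∏ j ∈ T.erase i, v ((i : Ω) - j) := by
  have hiN := hT i hi
  have hsub : T.erase i ⊆ Finset.range i ∪ Finset.Ico (i + 1) N := by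
    intro j hj
    rw [Finset.mem_erase] at hj
    have := hT j hj.2
    have := hj.1
    simp only [Finset.mem_union, Finset.mem_range, Finset.mem_Ico]
    omega
  have hdisj : Disjoint (Finset.range i) (Finset.Ico (i + 1) N) := by
    rw [Finset.disjoint_left]
    intro j h1 h2
    simp only [Finset.mem_range, Finset.mem_Ico] at h1 h2
    omega
  refine le_trans ?_ (Finset.prod_le_prod_of_subset_of_le_one' hsub fun j _ _ => by
    simpa using val_int_le v ((i : ℤ) - j))
  rw [Finset.prod_union hdisj]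
  have h1 : ∏ j ∈ Finset.range i, v ((i : Ω) - j) = v (i.factorial : Ω) := by
    rw [← map_prod, Finset.prod_range_natCast_sub, ← Nat.descFactorial_eq_prod_range,
      Nat.descFactorial_self]
  have h2 : ∏ j ∈ Finset.Ico (i + 1) N, v ((i : Ω) - j) = v ((N - (i + 1)).factorial : Ω) := by
    rw [Finset.prod_Ico_eq_prod_range, ← Finset.prod_range_add_one_eq_factorial, Nat.cast_prod,
      map_prod]
    refine Finset.prod_congr rfl fun m _ => ?_
    rw [← v.map_neg]
    congr 1
    push_cast
    ring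
  rw [h1, h2]
  refine le_trans ?_ (mul_le_mul' (val_factorial v hp hv i) (val_factorial v hp hv _))
  rw [← pow_add]
  exact pow_le_pow_right_of_le_one' hv.le (by omega)

end valuation

theorem interp : S_Interp := by
  intro Ω _ _ v p hp hv u B hB hT n
  have hw0 : v (p : Ω) ≠ 0 := by simpa using hp.ne_zero
  have key : ∀ K₀, v (u n) ≤ B * v (p : Ω) ^ K₀ := by
    intro K₀
    obtain ⟨T, hK, hT⟩ := hT K₀
    obtain ⟨K, hKT⟩ : ∃ K, K = T.card := ⟨_, rfl⟩
    rw [← hKT] at hK hT
    obtain ⟨U, hdeg, hU⟩ : ∃ U : Polynomial Ω, U.degree < K ∧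
        ∀ m : ℕ, v (u m - U.eval (m : Ω)) ≤ B * v (p : Ω) ^ (3 * K) := by
      refine ⟨∑ k ∈ Finset.range K,
        C ((fwdDiff 1)^[k] u 0 / (k.factorial : Ω)) * descPochhammer Ω k, ?_, fun m => ?_⟩
      · refine (degree_sum_le _ _).trans_lt ?_
        refine (Finset.sup_lt_iff (WithBot.bot_lt_coe K)).2 fun k hk => ?_
        rw [← smul_eq_C_mul]
        refine (degree_smul_le _ _).trans_lt (degree_le_natDegree.trans_lt ?_)
        rw [descPochhammer_natDegree]
        exact WithBot.coe_lt_coe.2 (Finset.mem_range.1 hk)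
      · have h1 : u m = ∑ k ∈ Finset.range (m + 1 + K), m.choose k • (fwdDiff 1)^[k] u 0 := by
          have := shift_eq_sum_fwdDiff_iter 1 u m 0
          rw [zero_add, smul_eq_mul, mul_one] at this
          rw [this]
          refine Finset.sum_subset (Finset.range_subset_range.2 (by omega)) fun k _ hk => ?_
          rw [Nat.choose_eq_zero_of_lt (by simpa using hk), zero_smul]
        have h2 : (∑ k ∈ Finset.range K, C ((fwdDiff 1)^[k] u 0 / (k.factorial : Ω)) *
            descPochhammer Ω k).eval (m : Ω) =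
            ∑ k ∈ Finset.range K, m.choose k • (fwdDiff 1)^[k] u 0 := by
          rw [eval_finsetSum]
          refine Finset.sum_congr rfl fun k _ => ?_
          have hk : (k.factorial : Ω) ≠ 0 := by exact_mod_cast k.factorial_ne_zero
          rw [eval_mul, eval_C, descPochhammer_eval_eq_descFactorial,
            Nat.descFactorial_eq_factorial_mul_choose, nsmul_eq_mul]
          push_cast
          field_simp
        rw [h1, h2, ← Finset.sum_Ico_eq_sub _ (by omega)]
        refine v.map_sum_le fun k hk => ?_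
        rw [nsmul_eq_mul, map_mul]
        refine (mul_le_of_le_one_left' (val_nat_le v _)).trans ((hB k).trans ?_)
        have := (Finset.mem_Ico.1 hk).1
        exact mul_le_mul_right (pow_le_pow_right_of_le_one' hv.le (by omega)) B
    have hinj : Set.InjOn (fun i : ℕ => (i : Ω)) T := fun a _ b _ h => Nat.cast_injective h
    have hL := Lagrange.eq_interpolate (f := U) hinj (by rw [← hKT]; exact hdeg)
    have hUn : v (U.eval (n : Ω)) ≤ B * v (p : Ω) ^ K := by
      rw [hL, Lagrange.interpolate_apply, eval_finsetSum]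
      refine v.map_sum_le fun i hi => ?_
      rw [eval_mul, eval_C, Lagrange.basis, eval_prod, map_mul, map_prod]
      have h1 : v (U.eval (i : Ω)) ≤ B * v (p : Ω) ^ (3 * K) := by
        have := hU i
        rwa [(hT i hi).2, zero_sub, v.map_neg] at this
      have h2 : ∏ j ∈ T.erase i, v ((Lagrange.basisDivisor (i : Ω) (j : Ω)).eval (n : Ω)) ≤
          (v (p : Ω) ^ (2 * K))⁻¹ := by
        refine le_trans (Finset.prod_le_prod' (g := fun j : ℕ => (v ((i : Ω) - j))⁻¹)
          fun j _ => ?_) ?_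
        · rw [Lagrange.basisDivisor, eval_mul, eval_C, eval_sub, eval_X, eval_C, map_mul,
            map_inv₀]
          refine mul_le_of_le_one_right' ?_
          simpa using val_int_le v ((n : ℤ) - j)
        · rw [Finset.prod_inv_distrib]
          exact inv_anti₀ (pow_pos (pos_iff_ne_zero.2 hw0) _)
            (val_nodes v hp hv T (2 * K) (fun j hj => (hT j hj).1) hi)
      refine (mul_le_mul' h1 h2).trans (le_of_eq ?_)
      have : 3 * K = K + 2 * K := by ring
      rw [this, pow_add, mul_assoc, mul_assoc, mul_inv_cancel₀ (pow_ne_zero _ hw0), mul_one]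
    have h3 : u n = (u n - U.eval (n : Ω)) + U.eval (n : Ω) := by ring
    rw [h3]
    refine v.map_add_le ((hU n).trans ?_) (hUn.trans ?_)
    · exact mul_le_mul_right (pow_le_pow_right_of_le_one' hv.le (by omega)) B
    · exact mul_le_mul_right (pow_le_pow_right_of_le_one' hv.le hK) B
  have hlim : Filter.Tendsto (fun K : ℕ => B * v (p : Ω) ^ K) Filter.atTop (nhds (B * 0)) :=
    (NNReal.tendsto_pow_atTop_nhds_zero_of_lt_one hv).const_mul B
  have h0 : v (u n) ≤ B * 0 := ge_of_tendsto' hlim key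
  simpa using h0

section residue

variable {Ω : Type} [Field Ω] (v : Valuation Ω ℝ≥0)

theorem val_le_one_of_isIntegral {A : Type} [CommRing A] [Algebra A Ω]
    (hA : ∀ a, v (algebraMap A Ω a) ≤ 1) {z : Ω} (hz : IsIntegral A z) : v z ≤ 1 := by
  obtain ⟨G, hG, hz⟩ := hz
  refine (Valuation.integer.integers v).mem_of_integral
    ⟨G.map ((algebraMap A Ω).codRestrict v.integer hA), hG.map _, ?_⟩
  rw [eval₂_map]
  exact hz

theorem val_residue_eq_zero (a : v.valuationSubring) :
    IsLocalRing.residue v.valuationSubring a = 0 ↔ v (a : Ω) < 1 := by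
  rw [IsLocalRing.residue_eq_zero_iff]
  exact Valuation.mem_maximalIdeal_iff _ v

theorem val_isAlgClosed [IsAlgClosed Ω] :
    IsAlgClosed (IsLocalRing.ResidueField v.valuationSubring) := by
  refine IsAlgClosed.of_exists_root _ fun g hg hirr => ?_
  obtain ⟨G, hGg, hdeg, hG⟩ := lifts_and_degree_eq_and_monic
    (f := IsLocalRing.residue v.valuationSubring) (p := g)
    ((mem_lifts g).2 (map_surjective _ IsLocalRing.residue_surjective g)) hg
  obtain ⟨z, hz⟩ := IsAlgClosed.exists_aeval_eq_zero Ω G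
    (by rw [hdeg]; exact (degree_pos_of_irreducible hirr).ne')
  have hz1 : v z ≤ 1 := val_le_one_of_isIntegral v (fun a => a.2) ⟨G, hG, hz⟩
  refine ⟨IsLocalRing.residue v.valuationSubring ⟨z, hz1⟩, ?_⟩
  have h0 : G.eval ⟨z, hz1⟩ = 0 := by
    apply Subtype.ext
    have := Polynomial.aeval_algebraMap_apply Ω (⟨z, hz1⟩ : v.valuationSubring) G
    rw [coe_aeval_eq_eval] at this
    exact this.symm.trans hz
  rw [← hGg, eval_map, eval₂_hom, h0, map_zero]

theorem val_charP {p : ℕ} (hp : p.Prime) (hv : v (p : Ω) < 1) :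
    CharP (IsLocalRing.ResidueField v.valuationSubring) p := by
  rw [CharP.charP_iff_prime_eq_zero hp, ← map_natCast (IsLocalRing.residue v.valuationSubring),
    val_residue_eq_zero]
  simpa using hv

theorem val_frob [CharZero Ω] {p : ℕ} (hp : p.Prime) (hv : v (p : Ω) < 1) {a : Ω}
    (halg : IsAlgebraic ℤ a) (ha : v a ≤ 1) : ∃ j, 1 ≤ j ∧ v (a ^ (p ^ j) - a) < 1 := by
  have := Fact.mk hp
  have := val_charP v hp hv
  let _ : Algebra (ZMod p) (IsLocalRing.ResidueField v.valuationSubring) := ZMod.algebra _ p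
  obtain ⟨f, hf0, hf⟩ := halg
  have hprim : aeval a f.primPart = 0 := aeval_primPart_eq_zero hf0 hf
  have hO : aeval (⟨a, ha⟩ : v.valuationSubring) f.primPart = 0 := by
    apply Subtype.ext
    exact (Polynomial.aeval_algebraMap_apply Ω (⟨a, ha⟩ : v.valuationSubring)
      f.primPart).symm.trans hprim
  have hres : IsAlgebraic (ZMod p) (IsLocalRing.residue v.valuationSubring ⟨a, ha⟩) := by
    refine ⟨f.primPart.map (Int.castRingHom (ZMod p)), fun h0 => ?_, ?_⟩
    · have hd : C (p : ℤ) ∣ f.primPart := by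
        rw [C_dvd_iff_dvd_coeff]
        intro i
        have := congrArg (fun g => Polynomial.coeff g i) h0
        simpa [ZMod.intCast_zmod_eq_zero_iff_dvd] using this
      have hu := f.isPrimitive_primPart _ hd
      rw [Int.isUnit_iff_natAbs_eq, Int.natAbs_natCast] at hu
      exact hp.one_lt.ne' hu
    · have := congrArg (IsLocalRing.residue v.valuationSubring) hO
      rw [map_zero, aeval_def, hom_eval₂] at this
      rw [aeval_def, eval₂_map]
      rwa [RingHom.ext_int ((algebraMap (ZMod p) _).comp _) ((IsLocalRing.residue _).comp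
        (algebraMap ℤ v.valuationSubring))]
  have hfin := IntermediateField.adjoin.finiteDimensional hres.isIntegral
  obtain ⟨F, hF, hfin⟩ : ∃ F : IntermediateField (ZMod p)
      (IsLocalRing.ResidueField v.valuationSubring),
      IsLocalRing.residue v.valuationSubring ⟨a, ha⟩ ∈ F ∧ FiniteDimensional (ZMod p) F :=
    ⟨_, IntermediateField.mem_adjoin_simple_self _ _, hfin⟩
  have : Finite F := Module.finite_of_finite (ZMod p)
  let _ : Fintype F := Fintype.ofFinite F
  have : CharP F p := (algebraMap F _).charP (algebraMap F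
    (IsLocalRing.ResidueField v.valuationSubring)).injective p
  obtain ⟨j, -, hj⟩ := FiniteField.card F p
  refine ⟨j, j.2, ?_⟩
  have h1 := congrArg Subtype.val (FiniteField.pow_card (⟨_, hF⟩ : F))
  rw [hj] at h1
  have h2 : IsLocalRing.residue v.valuationSubring (⟨a, ha⟩ ^ (p ^ (j : ℕ)) - ⟨a, ha⟩) = 0 := by
    rw [map_sub, map_pow, sub_eq_zero]
    exact h1
  exact (val_residue_eq_zero v _).1 h2

end residue

theorem val : S_Val := by
  classical
  intro T
  have : Algebra.IsAlgebraic ℚ Qb := AlgebraicClosure.isAlgebraic ℚ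
  have : Algebra.IsAlgebraic ℤ Qb :=
    ⟨fun a => (IsFractionRing.isAlgebraic_iff ℤ ℚ Qb).2 (Algebra.IsAlgebraic.isAlgebraic a)⟩
  obtain ⟨N, hN0, hN⟩ := Algebra.IsAlgebraic.exists_integral_multiples ℤ (T ∪ T.image (·⁻¹))
  obtain ⟨p, hpN, hp⟩ := Nat.exists_infinite_primes (N.natAbs + 1)
  have := Fact.mk hp
  obtain ⟨ι⟩ : Nonempty (Qb →+* PadicAlgCl p) :=
    ⟨(IsAlgClosed.lift (R := ℚ) (S := Qb) (M := PadicAlgCl p)).toRingHom⟩
  obtain ⟨v, hv⟩ : ∃ v : Valuation Qb ℝ≥0, v (p : Qb) = (p : ℝ≥0)⁻¹ := by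
    refine ⟨(PadicAlgCl.valued p).v.comap ι, ?_⟩
    rw [Valuation.comap_apply, map_natCast, PadicAlgCl.valuation_p, one_div]
  have hv1 : v (p : Qb) < 1 := by
    rw [hv]
    exact inv_lt_one_of_one_lt₀ (by exact_mod_cast hp.one_lt)
  have hvN : v (N : Qb) = 1 := by
    have h1 := val_nat_eq_one v hp hv1 (n := N.natAbs) fun h => by
      have := Nat.le_of_dvd (Int.natAbs_pos.2 hN0) h
      omega
    rcases Int.natAbs_eq N with h | h
    · rw [h]; simpa using h1
    · rw [h]; simpa using h1
  have hle : ∀ z ∈ T ∪ T.image (·⁻¹), v z ≤ 1 := fun z hz => by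
    have := val_le_one_of_isIntegral v (fun a : ℤ => val_int_le v a) (hN z hz)
    rwa [zsmul_eq_mul, map_mul, hvN, one_mul] at this
  refine ⟨p, v, hp, hv, fun a ha ha0 => ?_,
    fun a ha => val_frob v hp hv1 ((IsFractionRing.isAlgebraic_iff ℤ ℚ Qb).2
      (Algebra.IsAlgebraic.isAlgebraic a)) ha,
    val_isAlgClosed v, val_charP v hp hv1⟩
  refine le_antisymm (hle a (Finset.mem_union_left _ ha)) ?_
  have := hle a⁻¹ (Finset.mem_union_right _ (Finset.mem_image_of_mem _ ha))
  rwa [map_inv₀, inv_le_one₀ (pos_iff_ne_zero.2 (by simpa using ha0))] at this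

/-- Clearing denominators, uniformly in the target algebra. -/
theorem red_univ {O : Type} [CommRing O] {n d : ℕ} (c : MvPolynomial (Fin d) O)
    (b : Fin n → (MvPolynomial (Fin d) O)[X]) (q : MvPolynomial (Fin n) O) :
    ∃ (N : ℕ) (Q : (MvPolynomial (Fin d) O)[X]), ∀ (A : Type) [CommRing A] [Algebra O A]
      (x : Fin n → A) (y : Fin d → A) (r : A),
      (∀ i, MvPolynomial.aeval y c * x i = ev2 y r (b i)) →
      MvPolynomial.aeval y c ^ N * MvPolynomial.aeval x q = ev2 y r Q := by
  induction q using MvPolynomial.induction_on with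
  | C a => exact ⟨0, C (MvPolynomial.C a), fun A _ _ x y r _ => by simp⟩
  | add p q hp hq =>
    obtain ⟨N, P, hP⟩ := hp
    obtain ⟨M, Q, hQ⟩ := hq
    refine ⟨N + M, C c ^ M * P + C c ^ N * Q, fun A _ _ x y r h => ?_⟩
    simp only [map_add, map_mul, map_pow, ev2_C, ← hP A x y r h, ← hQ A x y r h]
    ring
  | mul_X p i hp =>
    obtain ⟨N, P, hP⟩ := hp
    refine ⟨N + 1, P * b i, fun A _ _ x y r h => ?_⟩
    simp only [map_mul, MvPolynomial.aeval_X, ← hP A x y r h, ← h i]
    ring

/-- The generic point of the hypersurface of a prime polynomial. -/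
theorem red_generic {k σ : Type} [Field k] (P : (MvPolynomial σ k)[X]) (hP : Prime P) :
    ∃ (E : Type) (_ : Field E) (_ : Algebra k E) (Y : σ → E) (T : E),
      ∀ G, ev2 Y T G = 0 ↔ P ∣ G := by
  have := AdjoinRoot.isDomain_of_prime hP
  obtain ⟨E, _, φ, hφ⟩ : ∃ (E : Type) (_ : Field E) (φ : (MvPolynomial σ k)[X] →+* E),
      ∀ G, φ G = 0 ↔ P ∣ G := by
    refine ⟨FractionRing (AdjoinRoot P), inferInstance,
      (algebraMap (AdjoinRoot P) _).comp (AdjoinRoot.mk P), fun G => ?_⟩
    rw [RingHom.comp_apply, map_eq_zero_iff _ (IsFractionRing.injective _ _),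
      AdjoinRoot.mk_eq_zero]
  let _ : Algebra k E := (φ.comp (C.comp MvPolynomial.C)).toAlgebra
  refine ⟨E, inferInstance, inferInstance, fun l => φ (C (MvPolynomial.X l)), φ X, fun G => ?_⟩
  have : ev2 (K := k) (fun l => φ (C (MvPolynomial.X l))) (φ X) = φ := by
    refine Polynomial.ringHom_ext' (MvPolynomial.ringHom_ext (fun a => ?_) (fun l => ?_)) ?_
    · simp only [RingHom.comp_apply, ev2_C, MvPolynomial.aeval_C]
      rfl
    · simp
    · simp
  rw [this, hφ]

theorem red : S_Red := by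
  intro O Ω k _ _ _ _ e hinj n d I y r P c b hP hdeg hker hden hprime hc
  obtain ⟨E, _, _, Y, T, hE⟩ := red_generic _ hprime
  let _ : Algebra O k := e.toAlgebra
  let _ : Algebra O E := ((algebraMap k E).comp e).toAlgebra
  have : IsScalarTower O k E := IsScalarTower.of_algebraMap_eq fun _ => rfl
  have hmap : ∀ G : (MvPolynomial (Fin d) O)[X],
      ev2 Y T (G.map (MvPolynomial.map e)) = ev2 Y T G := fun G => ev2_map_algebraMap Y T G
  have hcE : MvPolynomial.aeval Y c ≠ 0 := by
    intro h0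
    have h1 : ev2 Y T ((C c).map (MvPolynomial.map e)) = 0 := by rw [hmap, ev2_C, h0]
    rw [hE, map_C] at h1
    have h2 := natDegree_le_of_dvd h1 (by simpa using hc)
    rw [hP.natDegree_map, natDegree_C] at h2
    omega
  obtain ⟨x, hx⟩ : ∃ x : Fin n → E, ∀ i, MvPolynomial.aeval Y c * x i = ev2 Y T (b i) :=
    ⟨fun i => ev2 Y T (b i) / MvPolynomial.aeval Y c, fun i => by field_simp⟩
  obtain ⟨ψ, hψ⟩ : ∃ ψ : MvPolynomial (Fin n) O →ₐ[O] (MvPolynomial (Fin n) Ω ⧸ I),
      ∀ q, ψ q = 0 ↔ MvPolynomial.map (algebraMap O Ω) q ∈ I :=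
    ⟨(Ideal.Quotient.mkₐ O I).comp (MvPolynomial.mapAlgHom (Algebra.ofId O Ω)),
      fun q => Ideal.Quotient.eq_zero_iff_mem⟩
  have key : ∀ (q : MvPolynomial (Fin n) O) (G : (MvPolynomial (Fin d) O)[X]),
      ψ q = ψ (ev2 y r G) → MvPolynomial.aeval x q = ev2 Y T G := by
    intro q G hq
    obtain ⟨N, Q, hQ⟩ := red_univ c b q
    have h1 := hQ _ (fun i => ψ (MvPolynomial.X i)) (fun l => ψ (y l)) (ψ r) fun i => by
      have := (hψ _).2 (hden i)
      rwa [map_sub, map_mul, map_ev2, MvPolynomial.comp_aeval_apply, sub_eq_zero] at this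
    have h2 : MvPolynomial.aeval (fun i => ψ (MvPolynomial.X i)) q = ψ q := by
      rw [← MvPolynomial.comp_aeval_apply, MvPolynomial.aeval_X_left_apply]
    have h3 : ψ (ev2 y r (C c ^ N * G - Q)) = 0 := by
      rw [map_ev2, map_sub, map_mul, map_pow, ev2_C, ← h1, h2, hq, map_ev2, sub_self]
    have h4 := (map_dvd_map _ (MvPolynomial.map_injective _ hinj) hP).1 (hker _ ((hψ _).1 h3))
    have h5 := (hE _).2 (map_dvd (MvPolynomial.map e) h4)
    rw [hmap, map_sub, map_mul, map_pow, ev2_C, ← hQ E x Y T hx, ← mul_sub] at h5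
    exact (sub_eq_zero.1 ((mul_eq_zero.1 h5).resolve_left (pow_ne_zero _ hcE))).symm
  have hmap' : ∀ q : MvPolynomial (Fin n) O,
      MvPolynomial.aeval x (MvPolynomial.map e q) = MvPolynomial.aeval x q :=
    fun q => MvPolynomial.aeval_map_algebraMap k x q
  refine ⟨RingHom.ker (MvPolynomial.aeval x : MvPolynomial (Fin n) k →ₐ[k] E),
    RingHom.ker_isPrime _, fun q hq => ?_, fun G => ?_⟩
  · rw [RingHom.mem_ker, hmap', key q 0 (by rw [(hψ q).2 hq, map_zero, map_zero]), map_zero]
  · have hy : ∀ l, MvPolynomial.aeval x (y l) = Y l := fun l => by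
      rw [key (y l) (C (MvPolynomial.X l)) (by simp)]; simp
    have hr : MvPolynomial.aeval x r = T := by
      rw [key r X (by simp)]; simp
    rw [RingHom.mem_ker, map_ev2, ← hE]
    simp only [hmap', hy, hr]

end Pool.Agent.P.MP_38c95b_ag
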