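import Pool.Agent.P.MP_38c95b_ag.Main
import Pool.Agent.P.MP_38c95b_ag.Cone
import Pool.Agent.P.MP_38c95b_ag.Norm
import Pool.Agent.P.MP_38c95b_ag.Big
import Pool.Agent.P.MP_38c95b_ag.Branch
import Pool.Agent.P.MP_38c95b_ag.Etale
import Pool.Agent.P.MP_38c95b_ag.Lam
import Pool.Agent.P.MP_38c95b_ag.Local
import Pool.Agent.P.MP_38c95b_ag.Low
import Pool.Agent.P.MP_38c95b_ag.Mult
import Pool.Agent.P.MP_38c95b_ag.Rho
import Pool.Agent.P.MP_38c95b_ag.Up
import Pool.Agent.P.MP_38c95b_ag.Val
import Pool.Agent.P.MP_38c95b_ag.Spr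
import Pool.Agent.P.MP_38c95b_ag.Periodic

/-!
The dense orbit theorem on the affine cone, with all packages plugged in.
-/

set_option autoImplicit false

namespace Pool.Agent.P.MP_38c95b_ag

theorem finalMain : S_Main :=
  mainThm interp localDyn unr (norm etale) (dbound box) (fin homfin)
    (setup (fin homfin) unr (prim etale))
    (periodic val (noeth br brind spec) red (step low (mult box) (lamind br brind) up) near)
    (big (fin homfin) (rho homfin) unr (prim etale) (hilb br brind spec (spr near liou)))

end Pool.Agent.P.MP_38c95b_ag
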