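import Pool.Agent.P.MP_38c95b_ag.Stmts

/-!
Small tools on iterates, zero loci and congruences.
-/

set_option autoImplicit false

open Polynomial
open scoped NNReal

namespace Pool.Agent.P.MP_38c95b_ag

/-- The polynomials describing the `m`-th iterate. -/
noncomputable def iter {A : Type} [CommRing A] {n : ℕ} (f : Fin n → MvPolynomial (Fin n) A)
    (m : ℕ) : Fin n → MvPolynomial (Fin n) A := fun i =>
  ((MvPolynomial.aeval f : MvPolynomial (Fin n) A →ₐ[A] MvPolynomial (Fin n) A) ^ m)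
    (MvPolynomial.X i)

section iter

variable {A Ω : Type} [CommRing A] [CommRing Ω] [Algebra A Ω] {n : ℕ}

theorem aeval_iter (f : Fin n → MvPolynomial (Fin n) A) (m : ℕ) :
    (MvPolynomial.aeval (iter f m) : MvPolynomial (Fin n) A →ₐ[A] MvPolynomial (Fin n) A) =
      (MvPolynomial.aeval f : MvPolynomial (Fin n) A →ₐ[A] MvPolynomial (Fin n) A) ^ m := by
  ext i : 1
  simp [iter]

theorem dyn_iter (f : Fin n → MvPolynomial (Fin n) A) (m : ℕ) (x : Fin n → Ω) :
    dyn (iter f m) x = (dyn f)^[m] x := by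
  funext i
  simp only [dyn, iter]
  rw [aeval_dyn_iterate]
  simp

theorem iter_isHomogeneous (f : Fin n → MvPolynomial (Fin n) A) {q : ℕ}
    (hf : ∀ i, (f i).IsHomogeneous q) (m : ℕ) (i : Fin n) :
    (iter f m i).IsHomogeneous (q ^ m) := by
  induction m generalizing i with
  | zero => simpa [iter] using MvPolynomial.isHomogeneous_X A i
  | succ m ih =>
    have : iter f (m + 1) i = MvPolynomial.aeval (iter f m) (f i) := by
      rw [aeval_iter]
      simp [iter, pow_succ]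
    rw [this, pow_succ]
    exact (hf i).aeval _ ih

theorem iterate_eq_zero (f : Fin n → MvPolynomial (Fin n) A)
    (hz : ∀ x : Fin n → Ω, (∀ i, MvPolynomial.aeval x (f i) = 0) → x = 0) (m : ℕ)
    (x : Fin n → Ω) (hx : (dyn f)^[m] x = 0) : x = 0 := by
  induction m with
  | zero => simpa using hx
  | succ m ih =>
    rw [Function.iterate_succ_apply'] at hx
    exact ih (hz _ fun i => congrFun hx i)

end iter

theorem pow_mem_span_of_zero {K Ω : Type} [Field K] [Field Ω] [IsAlgClosed Ω] [Algebra K Ω]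
    {n : ℕ} (g : Fin n → MvPolynomial (Fin n) K)
    (hz : ∀ x : Fin n → Ω, (∀ i, MvPolynomial.aeval x (g i) = 0) → x = 0) (i : Fin n) :
    ∃ a : ℕ, MvPolynomial.X i ^ a ∈ Ideal.span (Set.range g) := by
  have : MvPolynomial.X i ∈ (Ideal.span (Set.range g)).radical := by
    rw [← MvPolynomial.vanishingIdeal_zeroLocus_eq_radical (K := Ω)]
    intro x hx
    have := hz x fun j => hx _ (Ideal.subset_span ⟨j, rfl⟩)
    simp [this]
  exact this

theorem pow_mem_span_iter {K Ω : Type} [Field K] [Field Ω] [IsAlgClosed Ω] [Algebra K Ω]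
    {n : ℕ} (f : Fin n → MvPolynomial (Fin n) K)
    (hz : ∀ x : Fin n → Ω, (∀ i, MvPolynomial.aeval x (f i) = 0) → x = 0) (m : ℕ) (i : Fin n) :
    ∃ a : ℕ, MvPolynomial.X i ^ a ∈ Ideal.span (Set.range (iter f m)) := by
  refine pow_mem_span_of_zero (Ω := Ω) _ (fun x hx => iterate_eq_zero f hz m x ?_) i
  rw [← dyn_iter]
  exact funext hx

theorem dyn_mem_zeroLocus {K Ω : Type} [Field K] [Field Ω] [Algebra K Ω] {n : ℕ}
    {f : Fin n → MvPolynomial (Fin n) K} {I : Ideal (MvPolynomial (Fin n) K)}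
    (hs : ∀ h ∈ I, MvPolynomial.aeval f h ∈ I) {x : Fin n → Ω}
    (hx : x ∈ MvPolynomial.zeroLocus Ω I) : dyn f x ∈ MvPolynomial.zeroLocus Ω I := by
  intro h hh
  rw [← aeval_dyn]
  exact hx _ (hs h hh)

theorem iterate_mem_zeroLocus {K Ω : Type} [Field K] [Field Ω] [Algebra K Ω] {n : ℕ}
    {f : Fin n → MvPolynomial (Fin n) K} {I : Ideal (MvPolynomial (Fin n) K)}
    (hs : ∀ h ∈ I, MvPolynomial.aeval f h ∈ I) (m : ℕ) {x : Fin n → Ω}
    (hx : x ∈ MvPolynomial.zeroLocus Ω I) : (dyn f)^[m] x ∈ MvPolynomial.zeroLocus Ω I := by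
  induction m with
  | zero => simpa using hx
  | succ m ih => rw [Function.iterate_succ_apply']; exact dyn_mem_zeroLocus hs ih

section cong

variable {Ω σ : Type} [Field Ω] (v : Valuation Ω ℝ≥0)

theorem cong_mul {a b a' b' : Ω} {η : ℝ≥0} (ha : v a ≤ 1) (hb' : v b' ≤ 1)
    (h1 : v (a - a') ≤ η) (h2 : v (b - b') ≤ η) : v (a * b - a' * b') ≤ η := by
  have : a * b - a' * b' = a * (b - b') + (a - a') * b' := by ring
  rw [this]
  refine v.map_add_le ?_ ?_
  · rw [map_mul]; exact (mul_le_of_le_one_left' ha).trans h2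
  · rw [map_mul]; exact (mul_le_of_le_one_right' hb').trans h1

theorem monomial_cong (x x' : σ → Ω) {η : ℝ≥0} (hx : ∀ i, v (x i) ≤ 1) (hx' : ∀ i, v (x' i) ≤ 1)
    (h : ∀ i, v (x i - x' i) ≤ η) (a : σ →₀ ℕ) :
    v (MvPolynomial.aeval x (MvPolynomial.monomial a (1 : Ω))) ≤ 1 ∧
      v (MvPolynomial.aeval x' (MvPolynomial.monomial a (1 : Ω))) ≤ 1 ∧
      v (MvPolynomial.aeval x (MvPolynomial.monomial a (1 : Ω)) -
        MvPolynomial.aeval x' (MvPolynomial.monomial a (1 : Ω))) ≤ η := by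
  induction a using Finsupp.induction_linear with
  | zero => simp
  | add a b ha hb =>
    have : MvPolynomial.monomial (a + b) (1 : Ω) =
        MvPolynomial.monomial a 1 * MvPolynomial.monomial b 1 := by
      rw [MvPolynomial.monomial_mul, mul_one]
    rw [this, map_mul, map_mul, map_mul, map_mul]
    exact ⟨mul_le_one' ha.1 hb.1, mul_le_one' ha.2.1 hb.2.1,
      cong_mul v ha.1 hb.2.1 ha.2.2 hb.2.2⟩
  | single i e =>
    rw [← MvPolynomial.X_pow_eq_monomial]
    simp only [map_pow, MvPolynomial.aeval_X]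
    refine ⟨pow_le_one' (hx i) e, pow_le_one' (hx' i) e, ?_⟩
    induction e with
    | zero => simp
    | succ e ih =>
      rw [pow_succ, pow_succ]
      exact cong_mul v (by rw [map_pow]; exact pow_le_one' (hx i) e) (hx' i) ih (h i)

/-- Integral polynomials preserve integrality and congruences. -/
theorem aeval_cong {q : MvPolynomial σ Ω} (hq : Int1 v q) (x x' : σ → Ω) {η : ℝ≥0}
    (hx : ∀ i, v (x i) ≤ 1) (hx' : ∀ i, v (x' i) ≤ 1) (h : ∀ i, v (x i - x' i) ≤ η) :
    v (MvPolynomial.aeval x q) ≤ 1 ∧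
      v (MvPolynomial.aeval x q - MvPolynomial.aeval x' q) ≤ η := by
  have hsm : ∀ a, MvPolynomial.monomial a (MvPolynomial.coeff a q) =
      MvPolynomial.coeff a q • MvPolynomial.monomial a (1 : Ω) := fun a => by
    rw [MvPolynomial.smul_monomial, smul_eq_mul, mul_one]
  constructor
  · rw [q.as_sum, map_sum]
    refine v.map_sum_le fun a _ => ?_
    rw [hsm, map_smul, smul_eq_mul, map_mul]
    exact mul_le_one' (hq a) (monomial_cong v x x' hx hx' h a).1
  · rw [q.as_sum, map_sum, map_sum, ← Finset.sum_sub_distrib]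
    refine v.map_sum_le fun a _ => ?_
    rw [hsm, map_smul, map_smul, ← smul_sub, smul_eq_mul, map_mul]
    exact (mul_le_of_le_one_left' (hq a)).trans (monomial_cong v x x' hx hx' h a).2.2

theorem ev2_cong {G : (MvPolynomial σ Ω)[X]} (hG : Int2 v G) (y y' : σ → Ω) (r r' : Ω)
    {η : ℝ≥0} (hy : ∀ i, v (y i) ≤ 1) (hy' : ∀ i, v (y' i) ≤ 1) (h : ∀ i, v (y i - y' i) ≤ η)
    (hr : v r ≤ 1) (hr' : v r' ≤ 1) (hrr : v (r - r') ≤ η) :
    v (ev2 y r G) ≤ 1 ∧ v (ev2 y r G - ev2 y' r' G) ≤ η := by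
  have hpow : ∀ e : ℕ, v (r ^ e - r' ^ e) ≤ η := by
    intro e
    induction e with
    | zero => simp
    | succ e ih =>
      rw [pow_succ, pow_succ]
      exact cong_mul v (by rw [map_pow]; exact pow_le_one' hr e) hr' ih hrr
  constructor
  · rw [ev2_eq_sum]
    refine v.map_sum_le fun i _ => ?_
    rw [map_mul, map_pow]
    exact mul_le_one' (aeval_cong v (hG i) y y' hy hy' h).1 (pow_le_one' hr i)
  · rw [ev2_eq_sum, ev2_eq_sum, ← Finset.sum_sub_distrib]
    refine v.map_sum_le fun i _ => ?_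
    exact cong_mul v (aeval_cong v (hG i) y y' hy hy' h).1
      (by rw [map_pow]; exact pow_le_one' hr' i) (aeval_cong v (hG i) y y' hy hy' h).2 (hpow i)

theorem Int2_derivative {G : (MvPolynomial σ Ω)[X]} (hG : Int2 v G) : Int2 v (derivative G) := by
  intro i m
  rw [Polynomial.coeff_derivative]
  have : (G.coeff (i + 1) * ((i : MvPolynomial σ Ω) + 1)) = ((i + 1 : ℕ) : Ω) • G.coeff (i + 1) := by
    rw [MvPolynomial.smul_eq_C_mul, mul_comm]
    simp
  rw [this, MvPolynomial.coeff_smul, smul_eq_mul, map_mul]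
  refine mul_le_one' ?_ (hG _ _)
  induction i + 1 with
  | zero => simp
  | succ k ih =>
    rw [Nat.cast_succ]
    exact v.map_add_le ih (by simp)

theorem iterate_cong {n : ℕ} {f : Fin n → MvPolynomial (Fin n) Ω} (hf : ∀ i, Int1 v (f i))
    (x x' : Fin n → Ω) {η : ℝ≥0} (hx : ∀ i, v (x i) ≤ 1) (hx' : ∀ i, v (x' i) ≤ 1)
    (h : ∀ i, v (x i - x' i) ≤ η) (m : ℕ) :
    (∀ i, v (((dyn f)^[m] x) i) ≤ 1) ∧ (∀ i, v (((dyn f)^[m] x') i) ≤ 1) ∧
      ∀ i, v (((dyn f)^[m] x) i - ((dyn f)^[m] x') i) ≤ η := by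
  induction m with
  | zero => exact ⟨hx, hx', h⟩
  | succ m ih =>
    rw [Function.iterate_succ_apply', Function.iterate_succ_apply']
    refine ⟨fun i => (aeval_cong v (hf i) _ _ ih.1 ih.2.1 ih.2.2).1, fun i =>
      (aeval_cong v (η := 0) (hf i) _ _ ih.2.1 ih.2.1 (by simp)).1, fun i =>
      (aeval_cong v (hf i) _ _ ih.1 ih.2.1 ih.2.2).2⟩

end cong

end Pool.Agent.P.MP_38c95b_ag
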