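import Pool.Agent.P.MP_38c95b_ag.Stmts

/-!
Abstract algebra for the local dynamics package: Taylor expansions modulo `π²`, finite order of
a linear map over a ring of residues, and congruences of algebra endomorphisms.
-/

set_option autoImplicit false

open Polynomial

namespace Pool.Agent.P.MP_38c95b_ag.Loc

section taylor

variable {O F : Type} [CommRing O] [CommRing F] [Algebra O F]

theorem taylor1 {ι : Type} (BB : Subalgebra O F) (S : Submodule O F) (π : O)
    (hS : ∀ ψ ∈ S, ψ ∈ BB) (hπ : ∀ β ∈ BB, π • β ∈ S) (a : ι → O) (σ : ι → F)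
    (hσ : ∀ i, σ i ∈ S) (G : MvPolynomial ι O) :
    ∃ l ∈ S, MvPolynomial.aeval (fun i => algebraMap O F (a i) + π • σ i) G =
      algebraMap O F (MvPolynomial.aeval a G) + π • l := by
  induction G using MvPolynomial.induction_on with
  | C c => exact ⟨0, zero_mem _, by simp⟩
  | add G H hG hH =>
    obtain ⟨l, hl, h1⟩ := hG
    obtain ⟨l', hl', h2⟩ := hH
    refine ⟨l + l', add_mem hl hl', ?_⟩
    rw [map_add, map_add, map_add, h1, h2, smul_add]
    ring
  | mul_X G i hG =>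
    obtain ⟨l, hl, h1⟩ := hG
    refine ⟨a i • l + MvPolynomial.aeval a G • σ i + π • (l * σ i),
      add_mem (add_mem (S.smul_mem _ hl) (S.smul_mem _ (hσ i)))
        (hπ _ (mul_mem (hS _ hl) (hS _ (hσ i)))), ?_⟩
    rw [map_mul, map_mul, map_mul, h1, MvPolynomial.aeval_X, MvPolynomial.aeval_X]
    simp only [Algebra.smul_def]
    ring

theorem taylor2 {ι : Type} (BB : Subalgebra O F) (S : Submodule O F) (π : O)
    (hS : ∀ ψ ∈ S, ψ ∈ BB) (hπ : ∀ β ∈ BB, π • β ∈ S) (a : ι → O) (σ : ι → F)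
    (hσ : ∀ i, σ i ∈ S) (b : O) (τ : F) (hτ : τ ∈ BB) (G : (MvPolynomial ι O)[X]) :
    ∃ l ∈ S, ev2 (fun i => algebraMap O F (a i) + π • σ i) (algebraMap O F b + π • τ) G =
      algebraMap O F (ev2 a b G) + π • (ev2 a b (derivative G) • τ + l) := by
  have step : ∀ G : (MvPolynomial ι O)[X],
      (∃ l ∈ S, ev2 (fun i => algebraMap O F (a i) + π • σ i) (algebraMap O F b + π • τ) G =
        algebraMap O F (ev2 a b G) + π • (ev2 a b (derivative G) • τ + l)) →
      ∃ l ∈ S, ev2 (fun i => algebraMap O F (a i) + π • σ i) (algebraMap O F b + π • τ) (G * X) =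
        algebraMap O F (ev2 a b (G * X)) + π • (ev2 a b (derivative (G * X)) • τ + l) := by
    rintro G ⟨l, hl, h1⟩
    refine ⟨b • l + π • (ev2 a b (derivative G) • (τ * τ) + l * τ),
      add_mem (S.smul_mem _ hl)
        (hπ _ (add_mem (BB.smul_mem (mul_mem hτ hτ) _) (mul_mem (hS _ hl) hτ))), ?_⟩
    rw [map_mul, h1, derivative_mul, derivative_X, mul_one]
    simp only [map_mul, map_add, ev2_X, Algebra.smul_def]
    ring
  induction G using Polynomial.induction_on with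
  | C q =>
    obtain ⟨l, hl, h1⟩ := taylor1 BB S π hS hπ a σ hσ q
    exact ⟨l, hl, by simp [h1]⟩
  | add G H hG hH =>
    obtain ⟨l, hl, h1⟩ := hG
    obtain ⟨l', hl', h2⟩ := hH
    refine ⟨l + l', add_mem hl hl', ?_⟩
    rw [map_add, h1, h2]
    simp only [map_add, Algebra.smul_def]
    ring
  | monomial k q hq =>
    rw [pow_succ, ← mul_assoc]
    exact step _ hq

/-- The linear parts of the iterates span the same module as the linear parts at the start. -/
theorem span_iter {n d : ℕ} (BB : Subalgebra O F) (N : Submodule O F) (π : O)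
    (hc : ∀ ψ : F, π • ψ = 0 → ψ = 0)
    (hN : ∀ ψ ∈ N, ψ ∈ BB) (hπ : ∀ β ∈ BB, π • β ∈ N)
    (f : Fin n → MvPolynomial (Fin n) O) (y : Fin d → MvPolynomial (Fin n) O)
    (Pi : Fin n → (MvPolynomial (Fin d) O)[X]) (a : Fin n → O) (x s : Fin n → F)
    (hs : ∀ i, s i ∈ BB) (hx : ∀ i, x i = algebraMap O F (a i) + π • s i)
    (hX : ∀ (m : ℕ) i, ev2 (fun l => MvPolynomial.aeval (dyn f ((dyn f)^[m] x)) (y l))
      (((dyn f)^[m] x) i) (Pi i) = 0)
    (ha : ∀ (m : ℕ) i, ev2 (fun l => MvPolynomial.aeval (dyn f ((dyn f)^[m] a)) (y l))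
      (((dyn f)^[m] a) i) (Pi i) = 0)
    (hu : ∀ (m : ℕ) i, IsUnit (ev2 (fun l => MvPolynomial.aeval (dyn f ((dyn f)^[m] a)) (y l))
      (((dyn f)^[m] a) i) (derivative (Pi i)))) (m : ℕ) :
    ∃ σ : Fin n → F,
      (∀ i, ((dyn f)^[m] x) i = algebraMap O F (((dyn f)^[m] a) i) + π • σ i) ∧
      Submodule.span O (Set.range σ) ⊔ N = Submodule.span O (Set.range s) ⊔ N := by
  have hS0 : ∀ ψ ∈ Submodule.span O (Set.range s) ⊔ N, ψ ∈ BB := by
    intro ψ hψ
    have : Submodule.span O (Set.range s) ⊔ N ≤ BB.toSubmodule :=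
      sup_le (Submodule.span_le.mpr (by rintro _ ⟨i, rfl⟩; exact hs i)) hN
    exact this hψ
  induction m with
  | zero => exact ⟨s, hx, rfl⟩
  | succ m ih =>
    obtain ⟨σ, h1, h2⟩ := ih
    have hσ : ∀ i, σ i ∈ Submodule.span O (Set.range s) ⊔ N := fun i => by
      rw [← h2]
      exact Submodule.mem_sup_left (Submodule.subset_span ⟨i, rfl⟩)
    have h1' : (dyn f)^[m] x = fun i => algebraMap O F (((dyn f)^[m] a) i) + π • σ i :=
      funext h1
    choose σ' hσ' h3 using fun i => taylor1 BB _ π hS0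
      (fun β hβ => Submodule.mem_sup_right (hπ β hβ)) ((dyn f)^[m] a) σ hσ (f i)
    have h4 : ∀ i, dyn f ((dyn f)^[m] x) i =
        algebraMap O F (dyn f ((dyn f)^[m] a) i) + π • σ' i := fun i => by
      rw [h1']
      exact h3 i
    have hle : Submodule.span O (Set.range σ') ⊔ N ≤ Submodule.span O (Set.range s) ⊔ N :=
      sup_le (Submodule.span_le.mpr (by rintro _ ⟨i, rfl⟩; exact hσ' i)) le_sup_right
    refine ⟨σ', fun i => by simpa only [Function.iterate_succ_apply'] using h4 i,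
      le_antisymm hle ?_⟩
    rw [← h2]
    refine sup_le (Submodule.span_le.mpr ?_) le_sup_right
    rintro _ ⟨i, rfl⟩
    have hS1 : ∀ ψ ∈ Submodule.span O (Set.range σ') ⊔ N, ψ ∈ BB :=
      fun ψ hψ => hS0 ψ (hle hψ)
    have hπ1 : ∀ β ∈ BB, π • β ∈ Submodule.span O (Set.range σ') ⊔ N :=
      fun β hβ => Submodule.mem_sup_right (hπ β hβ)
    choose ρ hρ h5 using fun l => taylor1 BB _ π hS1 hπ1 (dyn f ((dyn f)^[m] a)) σ'
      (fun i => Submodule.mem_sup_left (Submodule.subset_span ⟨i, rfl⟩)) (y l)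
    obtain ⟨l, hl, h6⟩ := taylor2 BB _ π hS1 hπ1
      (fun l => MvPolynomial.aeval (dyn f ((dyn f)^[m] a)) (y l)) ρ hρ (((dyn f)^[m] a) i)
      (σ i) (hS0 _ (hσ i)) (Pi i)
    have h7 := hX m i
    have h8 : (fun l => MvPolynomial.aeval (dyn f ((dyn f)^[m] x)) (y l)) = fun l =>
        algebraMap O F (MvPolynomial.aeval (dyn f ((dyn f)^[m] a)) (y l)) + π • ρ l := by
      funext l
      rw [← h5 l, funext h4]
    rw [h8, h1 i, h6, ha m i, map_zero, zero_add] at h7
    have h9 := hc _ h7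
    obtain ⟨u, hu'⟩ := hu m i
    rw [← hu'] at h9
    have : σ i = -((↑u⁻¹ : O) • l) := by
      have h10 := congrArg (fun z => (↑u⁻¹ : O) • z) h9
      simp only [smul_add, smul_smul, Units.inv_mul, one_smul, smul_zero] at h10
      exact eq_neg_of_add_eq_zero_left h10
    rw [SetLike.mem_coe, this]
    exact neg_mem (Submodule.smul_mem _ _ hl)

end taylor

section order

theorem matrix_repeat {k ι : Type} [CommRing k] [Fintype ι] [DecidableEq ι] (p : ℕ) (hp : 1 < p)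
    (hpk : (p : k) = 0) (hres : ∀ a : k, ∃ j, 1 ≤ j ∧ a ^ (p ^ j) = a) (L : Matrix ι ι k) :
    ∃ a b : ℕ, a < b ∧ L ^ a = L ^ b := by
  have hint : Algebra.IsIntegral ℤ k := ⟨fun a => by
    obtain ⟨j, hj, h⟩ := hres a
    have h1 : 1 < p ^ j := Nat.one_lt_pow (by omega) hp
    refine ⟨X ^ (p ^ j) - X, ?_, by simp [h]⟩
    apply Monic.sub_of_left (monic_X_pow _)
    rw [degree_X, degree_X_pow]
    exact_mod_cast h1⟩
  have hL : IsIntegral ℤ L := isIntegral_trans L (Matrix.isIntegral L)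
  have hfg : Module.Finite ℤ (Algebra.adjoin ℤ {L}) :=
    ⟨(Subalgebra.toSubmodule _).fg_top.mpr hL.fg_adjoin_singleton⟩
  have hfin : Finite (Algebra.adjoin ℤ {L}) := by
    refine Module.finite_of_fg_torsion _ fun x => ⟨⟨(p : ℤ), ?_⟩, ?_⟩
    · exact mem_nonZeroDivisors_of_ne_zero (by exact_mod_cast (by omega : p ≠ 0))
    · apply Subtype.ext
      change (p : ℤ) • (x : Matrix ι ι k) = 0
      ext i j
      simp [hpk]
  obtain ⟨a, b, hab, h⟩ := Finite.exists_ne_map_eq_of_infinite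
    (fun a : ℕ => (⟨L ^ a, pow_mem (Algebra.self_mem_adjoin_singleton ℤ L) a⟩ :
      Algebra.adjoin ℤ {L}))
  have h' : L ^ a = L ^ b := congrArg Subtype.val h
  rcases lt_or_gt_of_ne hab with h1 | h1
  · exact ⟨a, b, h1, h'⟩
  · exact ⟨b, a, h1, h'.symm⟩

theorem finite_order {O M ι : Type} [CommRing O] [AddCommGroup M] [Module O M] [Fintype ι]
    (I : Ideal O) (p : ℕ) (hp : 1 < p) (hpI : (p : O) ∈ I)
    (hres : ∀ a : O, ∃ j, 1 ≤ j ∧ a ^ (p ^ j) - a ∈ I) (s : ι → M)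
    (hI : ∀ a ∈ I, ∀ i, a • s i = 0) (T : Module.End O M)
    (h1 : ∀ i, T (s i) ∈ Submodule.span O (Set.range s))
    (h2 : ∀ i, s i ∈ Submodule.span O (Set.range fun i => T (s i))) :
    ∃ c, 1 ≤ c ∧ ∀ i, (T ^ c) (s i) = s i := by
  classical
  choose L hL using fun i => (Submodule.mem_span_range_iff_exists_fun O).mp (h1 i)
  have hpow : ∀ (a : ℕ) i, (T ^ a) (s i) = ∑ j, ((Matrix.of L) ^ a) i j • s j := by
    intro a
    induction a with
    | zero => intro i; simp [Matrix.one_apply]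
    | succ a ih =>
      intro i
      rw [pow_succ, pow_succ', Module.End.mul_apply, ← hL i, map_sum]
      simp only [map_smul, ih, Matrix.mul_apply, Finset.sum_smul, Finset.smul_sum, smul_smul,
        Matrix.of_apply]
      rw [Finset.sum_comm]
  obtain ⟨a, b, hab, h⟩ := matrix_repeat (k := O ⧸ I) p hp
    (by rw [← map_natCast (Ideal.Quotient.mk I)]; exact Ideal.Quotient.eq_zero_iff_mem.mpr hpI)
    (fun z => by
      obtain ⟨z, rfl⟩ := Ideal.Quotient.mk_surjective z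
      obtain ⟨j, hj, h⟩ := hres z
      exact ⟨j, hj, by rw [← map_pow]; exact Ideal.Quotient.eq.mpr h⟩)
    ((Ideal.Quotient.mk I).mapMatrix (Matrix.of L))
  have h3 : ∀ i, (T ^ a) (s i) = (T ^ b) (s i) := by
    intro i
    rw [hpow, hpow, ← sub_eq_zero, ← Finset.sum_sub_distrib]
    refine Finset.sum_eq_zero fun j _ => ?_
    rw [← sub_smul]
    refine hI _ (Ideal.Quotient.eq.mp ?_) j
    rw [← map_pow (Ideal.Quotient.mk I).mapMatrix, ← map_pow (Ideal.Quotient.mk I).mapMatrix] at h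
    exact congrFun (congrFun h i) j
  have h4 : ∀ a : ℕ, Submodule.span O (Set.range s) ≤
      (Submodule.span O (Set.range s)).map (T ^ a) := by
    intro a
    induction a with
    | zero => intro z hz; exact ⟨z, hz, rfl⟩
    | succ a ih =>
      have h5 : Submodule.span O (Set.range s) ≤ (Submodule.span O (Set.range s)).map T := by
        refine Submodule.span_le.mpr ?_
        rintro _ ⟨i, rfl⟩
        rw [Submodule.map_span, ← Set.range_comp]
        exact h2 i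
      rw [pow_succ, Module.End.mul_eq_comp, Submodule.map_comp]
      exact ih.trans (Submodule.map_mono h5)
  refine ⟨b - a, by omega, fun i => ?_⟩
  obtain ⟨z, hz, hz'⟩ := h4 a (Submodule.subset_span ⟨i, rfl⟩)
  have h6 : (T ^ a) z = (T ^ b) z := by
    refine Submodule.span_induction (p := fun z _ => (T ^ a) z = (T ^ b) z) ?_ (by simp)
      (fun x y _ _ hx hy => by rw [map_add, map_add, hx, hy])
      (fun c x _ hx => by rw [map_smul, map_smul, hx]) hz
    rintro _ ⟨j, rfl⟩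
    exact h3 j
  rw [← hz', ← Module.End.mul_apply, ← pow_add, Nat.sub_add_cancel hab.le, h6]

end order

section cong

variable {O F : Type} [CommRing O] [CommRing F] [Algebra O F]

/-- `T` is congruent to the identity modulo `t` on `BB`. -/
def Cong (BB : Subalgebra O F) (t : O) (T : F →ₐ[O] F) : Prop :=
  ∀ β ∈ BB, ∃ γ ∈ BB, T β = β + t • γ

theorem Cong.of_dvd {BB : Subalgebra O F} {t t' : O} {T : F →ₐ[O] F} (h : Cong BB t T)
    (ht : t' ∣ t) : Cong BB t' T := by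
  obtain ⟨c, rfl⟩ := ht
  intro β hβ
  obtain ⟨γ, hγ, h1⟩ := h β hβ
  exact ⟨c • γ, BB.smul_mem hγ c, by rw [h1, mul_smul]⟩

theorem Cong.expand {BB : Subalgebra O F} {t : O} {T : F →ₐ[O] F} (h : Cong BB t T)
    {β γ : F} (hγ : γ ∈ BB) (h1 : T β = β + t • γ) (j : ℕ) :
    ∃ δ ∈ BB, (T ^ j) β = β + t • ((j : O) • γ + t • δ) := by
  induction j with
  | zero => exact ⟨0, zero_mem _, by simp⟩
  | succ j ih =>
    obtain ⟨δ, hδ, h2⟩ := ih
    obtain ⟨γ', hγ', h3⟩ := h γ hγ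
    obtain ⟨δ', hδ', h4⟩ := h δ hδ
    refine ⟨(j : O) • γ' + δ + t • δ',
      add_mem (add_mem (BB.smul_mem hγ' _) hδ) (BB.smul_mem hδ' _), ?_⟩
    rw [pow_succ', AlgHom.mul_apply, h2, map_add, map_smul, map_add, map_smul, map_smul, h1, h3,
      h4]
    simp only [Algebra.smul_def, Nat.cast_succ, map_add, map_one]
    ring

theorem Cong.pow {BB : Subalgebra O F} {t : O} {T : F →ₐ[O] F} (h : Cong BB t T) (j : ℕ) :
    Cong BB t (T ^ j) := by
  intro β hβ
  obtain ⟨γ, hγ, h1⟩ := h β hβ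
  obtain ⟨δ, hδ, h2⟩ := h.expand hγ h1 j
  exact ⟨_, add_mem (BB.smul_mem hγ _) (BB.smul_mem hδ _), h2⟩

theorem Cong.pow_p {BB : Subalgebra O F} {t π : O} {T : F →ₐ[O] F} (h : Cong BB t T) (p : ℕ)
    (hp : π ∣ (p : O)) (ht : π ∣ t) : Cong BB (t * π) (T ^ p) := by
  intro β hβ
  obtain ⟨γ, hγ, h1⟩ := h β hβ
  obtain ⟨δ, hδ, h2⟩ := h.expand hγ h1 p
  obtain ⟨c, hc⟩ := hp
  obtain ⟨e, he⟩ := ht
  refine ⟨c • γ + e • δ, add_mem (BB.smul_mem hγ _) (BB.smul_mem hδ _), ?_⟩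
  rw [h2, hc, mul_smul t π, smul_add π, smul_smul π c, smul_smul π e, ← he]

theorem Cong.iter {BB : Subalgebra O F} {π : O} {T : F →ₐ[O] F} (h : Cong BB π T) (p : ℕ)
    (hp : π ∣ (p : O)) (e : ℕ) : Cong BB (π ^ (e + 1)) (T ^ (p ^ e)) := by
  induction e with
  | zero => simpa using h
  | succ e ih =>
    rw [pow_succ π, pow_succ p, pow_mul]
    exact ih.pow_p p hp (dvd_pow_self π (by omega))

theorem Cong.of_gen {ι : Type} (s : ι → F) (t : O) (T : F →ₐ[O] F)
    (h : ∀ i, ∃ γ ∈ Algebra.adjoin O (Set.range s), T (s i) = s i + t • γ) :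
    Cong (Algebra.adjoin O (Set.range s)) t T := by
  intro β hβ
  induction hβ using Algebra.adjoin_induction with
  | mem x hx =>
    obtain ⟨i, rfl⟩ := hx
    exact h i
  | algebraMap c => exact ⟨0, zero_mem _, by simp⟩
  | add x y _ _ hx hy =>
    obtain ⟨γ, hγ, h1⟩ := hx
    obtain ⟨δ, hδ, h2⟩ := hy
    exact ⟨γ + δ, add_mem hγ hδ, by rw [map_add, h1, h2, smul_add]; ring⟩
  | mul x y hx' hy' hx hy =>
    obtain ⟨γ, hγ, h1⟩ := hx
    obtain ⟨δ, hδ, h2⟩ := hy
    refine ⟨x * δ + γ * y + t • (γ * δ), add_mem (add_mem (mul_mem hx' hδ) (mul_mem hγ hy'))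
      (Subalgebra.smul_mem _ (mul_mem hγ hδ) _), ?_⟩
    rw [map_mul, h1, h2]
    simp only [Algebra.smul_def]
    ring

theorem Cong.fwd {BB : Subalgebra O F} {t : O} {T : F →ₐ[O] F} (h : Cong BB t T)
    {M : Type} [AddCommGroup M] [Module O M] (ev : F →ₗ[O] M) {β : F} (hβ : β ∈ BB) (k : ℕ) :
    ∃ γ ∈ BB, (fwdDiff 1)^[k] (fun m : ℕ => ev ((T ^ m) β)) =
      fun m : ℕ => t ^ k • ev ((T ^ m) γ) := by
  induction k with
  | zero => exact ⟨β, hβ, by simp⟩
  | succ k ih =>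
    obtain ⟨γ, hγ, h1⟩ := ih
    obtain ⟨δ, hδ, h2⟩ := h γ hγ
    refine ⟨δ, hδ, ?_⟩
    rw [Function.iterate_succ_apply', h1]
    funext m
    simp only [fwdDiff]
    rw [pow_succ T, AlgHom.mul_apply, h2, map_add, map_smul, map_add, map_smul, smul_add,
      pow_succ t, mul_smul]
    abel

theorem mem_smul_top (hdvd : ∀ a b : O, a ∣ b ∨ b ∣ a) (I : Ideal O) (BB : Subalgebra O F)
    {ψ : F} (h : ψ ∈ I • BB.toSubmodule) : ∃ a ∈ I, ∃ β ∈ BB, ψ = a • β := by
  refine Submodule.smul_induction_on h (fun a ha β hβ => ⟨a, ha, β, hβ, rfl⟩) ?_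
  rintro _ _ ⟨a, ha, β, hβ, rfl⟩ ⟨b, hb, γ, hγ, rfl⟩
  rcases hdvd a b with ⟨c, rfl⟩ | ⟨c, rfl⟩
  · exact ⟨a, ha, β + c • γ, add_mem hβ (BB.smul_mem hγ c), by rw [smul_add, mul_smul]⟩
  · exact ⟨b, hb, c • β + γ, add_mem (BB.smul_mem hβ c) hγ, by rw [smul_add, mul_smul]⟩

theorem exists_common (hdvd : ∀ a b : O, a ∣ b ∨ b ∣ a) (I : Ideal O) {ι : Type} [Fintype ι]
    (a : ι → O) (ha : ∀ i, a i ∈ I) (b : O) (hb : b ∈ I) :
    ∃ π ∈ I, π ∣ b ∧ ∀ i, π ∣ a i := by
  classical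
  have : ∀ S : Finset ι, ∃ π ∈ I, π ∣ b ∧ ∀ i ∈ S, π ∣ a i := by
    intro S
    induction S using Finset.induction_on with
    | empty => exact ⟨b, hb, dvd_rfl, by simp⟩
    | insert i S _ ih =>
      obtain ⟨π, hπ, h1, h2⟩ := ih
      rcases hdvd π (a i) with h | h
      · exact ⟨π, hπ, h1, fun j hj => by
          rcases Finset.mem_insert.mp hj with rfl | hj
          exacts [h, h2 j hj]⟩
      · exact ⟨a i, ha i, h.trans h1, fun j hj => by
          rcases Finset.mem_insert.mp hj with rfl | hj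
          exacts [dvd_rfl, h.trans (h2 j hj)]⟩
  obtain ⟨π, hπ, h1, h2⟩ := this Finset.univ
  exact ⟨π, hπ, h1, fun i => h2 i (Finset.mem_univ i)⟩

/-- An endomorphism acting invertibly on the span of the generators modulo `I` has an iterate
congruent to the identity modulo `p ^ 3`. -/
theorem exists_cong (hdvd : ∀ a b : O, a ∣ b ∨ b ∣ a) (I : Ideal O) (p : ℕ) (hp : 1 < p)
    (hpI : (p : O) ∈ I) (hres : ∀ a : O, ∃ j, 1 ≤ j ∧ a ^ (p ^ j) - a ∈ I)
    (hnil : ∀ a ∈ I, ∃ e : ℕ, (p : O) ^ 3 ∣ a ^ (e + 1)) {ι : Type} [Fintype ι] (s : ι → F)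
    (T : F →ₐ[O] F)
    (h1 : ∀ i, T (s i) ∈ Submodule.span O (Set.range s) ⊔
      I • (Algebra.adjoin O (Set.range s)).toSubmodule)
    (h2 : ∀ i, s i ∈ Submodule.span O (Set.range fun i => T (s i)) ⊔
      I • (Algebra.adjoin O (Set.range s)).toSubmodule) :
    ∃ c, 1 ≤ c ∧ Cong (Algebra.adjoin O (Set.range s)) ((p : O) ^ 3) (T ^ c) := by
  set BB := Algebra.adjoin O (Set.range s) with hBB
  set N := I • BB.toSubmodule with hN
  have hsB : ∀ i, s i ∈ BB := fun i => Algebra.subset_adjoin ⟨i, rfl⟩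
  have hTB : ∀ β ∈ BB, T β ∈ BB := by
    have h3 : BB ≤ BB.comap T := by
      refine Algebra.adjoin_le ?_
      rintro _ ⟨i, rfl⟩
      have : Submodule.span O (Set.range s) ⊔ N ≤ BB.toSubmodule :=
        sup_le (Submodule.span_le.mpr (by rintro _ ⟨i, rfl⟩; exact hsB i)) Submodule.smul_le_right
      exact this (h1 i)
    exact fun β hβ => h3 hβ
  have hTN : N ≤ N.comap T.toLinearMap := by
    intro ψ hψ
    obtain ⟨a, ha, β, hβ, rfl⟩ := mem_smul_top hdvd I BB hψ
    change T (a • β) ∈ N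
    rw [map_smul]
    exact Submodule.smul_mem_smul ha (hTB β hβ)
  have hq : ∀ (g : ι → F) (z : F), z ∈ Submodule.span O (Set.range g) ⊔ N →
      N.mkQ z ∈ Submodule.span O (Set.range fun i => N.mkQ (g i)) := by
    intro g z hz
    obtain ⟨z1, hz1, z2, hz2, rfl⟩ := Submodule.mem_sup.mp hz
    have h0 : N.mkQ z2 = 0 := (Submodule.Quotient.mk_eq_zero N).mpr hz2
    rw [map_add, h0, add_zero]
    have := Submodule.mem_map_of_mem (f := N.mkQ) hz1
    rwa [Submodule.map_span, ← Set.range_comp] at this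
  obtain ⟨c, hc, h3⟩ := finite_order I p hp hpI hres (fun i => N.mkQ (s i))
    (fun a ha i => by
      rw [← map_smul]
      exact (Submodule.Quotient.mk_eq_zero N).mpr (Submodule.smul_mem_smul ha (hsB i)))
    (N.mapQ N T.toLinearMap hTN) (fun i => hq s _ (h1 i)) (fun i => hq _ _ (h2 i))
  have h4 : ∀ (c : ℕ) (z : F),
      ((N.mapQ N T.toLinearMap hTN : Module.End O (F ⧸ N)) ^ c) (N.mkQ z) =
        N.mkQ ((T ^ c) z) := by
    intro c
    induction c with
    | zero => intro z; simp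
    | succ c ih =>
      intro z
      rw [pow_succ, pow_succ, Module.End.mul_apply, AlgHom.mul_apply, ← ih]
      rfl
  have h5 : ∀ i, ∃ a ∈ I, ∃ β ∈ BB, (T ^ c) (s i) - s i = a • β := fun i => by
    refine mem_smul_top hdvd I BB ?_
    have := h3 i
    rw [h4] at this
    exact (Submodule.Quotient.eq N).mp this
  choose a ha β hβ h6 using h5
  obtain ⟨π, hπ, h7, h8⟩ := exists_common hdvd I a ha p hpI
  have h9 : Cong BB π (T ^ c) := by
    refine Cong.of_gen s π _ fun i => ?_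
    obtain ⟨e, he⟩ := h8 i
    refine ⟨e • β i, BB.smul_mem (hβ i) e, ?_⟩
    rw [← mul_smul, ← he, ← h6]
    ring
  obtain ⟨e, he⟩ := hnil π hπ
  refine ⟨c * p ^ e, Nat.mul_pos hc (Nat.pow_pos (by omega)), ?_⟩
  rw [pow_mul]
  exact (h9.iter p h7 e).of_dvd he

end cong

end Pool.Agent.P.MP_38c95b_ag.Loc
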