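import Pool.Agent.P.MP_38c95b_ag.Tools

/-!
Assembly of the dense orbit theorem from the packages.
-/

set_option autoImplicit false

open Polynomial
open scoped NNReal

namespace Pool.Agent.P.MP_38c95b_ag

/-- A sequence class closed under the interpolation lemma: products. -/
theorem main_prod_zero {Ω : Type} [Field Ω] (u w : ℕ → Ω)
    (hu : (∀ K₀ : ℕ, ∃ T : Finset ℕ, K₀ ≤ T.card ∧ ∀ i ∈ T, i < 2 * T.card ∧ u i = 0) →
      ∀ n, u n = 0)
    (hw : (∀ K₀ : ℕ, ∃ T : Finset ℕ, K₀ ≤ T.card ∧ ∀ i ∈ T, i < 2 * T.card ∧ w i = 0) →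
      ∀ n, w n = 0)
    (h : ∀ n, u n * w n = 0) : (∀ n, u n = 0) ∨ ∀ n, w n = 0 := by
  classical
  by_contra hcon
  rw [not_or] at hcon
  have h1 := mt hu hcon.1
  have h2 := mt hw hcon.2
  push Not at h1 h2
  obtain ⟨K₁, hK₁⟩ := h1
  obtain ⟨K₂, hK₂⟩ := h2
  set K := max K₁ K₂ with hK
  have hcard := Finset.card_filter_add_card_filter_not (s := Finset.range (2 * K))
    (fun i => u i = 0)
  rw [Finset.card_range] at hcard
  by_cases hc : K ≤ ((Finset.range (2 * K)).filter fun i => u i = 0).card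
  · obtain ⟨T, hT, hTc⟩ := Finset.exists_subset_card_eq hc
    obtain ⟨i, hi, hi'⟩ := hK₁ T (by rw [hTc]; exact le_max_left _ _)
    have := Finset.mem_filter.mp (hT hi)
    exact hi' (by rw [hTc]; exact Finset.mem_range.mp this.1) this.2
  · have hc' : K ≤ ((Finset.range (2 * K)).filter fun i => ¬ u i = 0).card := by omega
    obtain ⟨T, hT, hTc⟩ := Finset.exists_subset_card_eq hc'
    obtain ⟨i, hi, hi'⟩ := hK₂ T (by rw [hTc]; exact le_max_right _ _)
    have := Finset.mem_filter.mp (hT hi)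
    exact hi' (by rw [hTc]; exact Finset.mem_range.mp this.1)
      ((mul_eq_zero.mp (h i)).resolve_left this.2)

theorem main_tail_zero {Ω : Type} [Field Ω] (u : ℕ → Ω)
    (hu : (∀ K₀ : ℕ, ∃ T : Finset ℕ, K₀ ≤ T.card ∧ ∀ i ∈ T, i < 2 * T.card ∧ u i = 0) →
      ∀ n, u n = 0)
    (h : ∀ n, u (n + 1) = 0) : ∀ n, u n = 0 := by
  refine hu fun K₀ => ⟨Finset.Ico 1 (K₀ + 2), by simp, fun i hi => ?_⟩
  rw [Finset.mem_Ico] at hi
  obtain ⟨j, rfl⟩ : ∃ j, i = j + 1 := ⟨i - 1, by omega⟩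
  exact ⟨by simp; omega, h j⟩

theorem main_adjoin_mk {K : Type} [Field K] {n : ℕ} (I : Ideal (MvPolynomial (Fin n) K)) :
    Algebra.adjoin K (Set.range fun i => Ideal.Quotient.mkₐ K I (MvPolynomial.X i)) = ⊤ := by
  rw [Algebra.adjoin_range_eq_range_aeval, AlgHom.range_eq_top]
  have : (MvPolynomial.aeval fun i => Ideal.Quotient.mkₐ K I (MvPolynomial.X i)) =
      Ideal.Quotient.mkₐ K I := by
    ext i : 1
    simp
  rw [this]
  exact Ideal.Quotient.mkₐ_surjective K I

/-- Finiteness over `K[y]` from monic relations for the generators. -/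
theorem main_finite_of_monic {K R : Type} [Field K] [CommRing R] [Algebra K R] {n d : ℕ}
    (x : Fin n → R) (y : Fin d → R) (hx : Algebra.adjoin K (Set.range x) = ⊤)
    (m : Fin n → (MvPolynomial (Fin d) K)[X]) (hm : ∀ i, (m i).Monic)
    (hmx : ∀ i, ev2 y (x i) (m i) = 0) :
    (MvPolynomial.aeval y : MvPolynomial (Fin d) K →ₐ[K] R).Finite := by
  let : Algebra (MvPolynomial (Fin d) K) R :=
    (MvPolynomial.aeval y : MvPolynomial (Fin d) K →ₐ[K] R).toRingHom.toAlgebra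
  have : IsScalarTower K (MvPolynomial (Fin d) K) R :=
    IsScalarTower.of_algebraMap_eq fun a => by
      change _ = MvPolynomial.aeval y (MvPolynomial.C a)
      simp
  have hfg := fg_adjoin_of_finite (R := MvPolynomial (Fin d) K) (Set.finite_range x)
    (by rintro _ ⟨i, rfl⟩; exact ⟨m i, hm i, hmx i⟩)
  have htop : Algebra.adjoin (MvPolynomial (Fin d) K) (Set.range x) = ⊤ := by
    rw [eq_top_iff]
    intro b _
    have hb : b ∈ Algebra.adjoin K (Set.range x) := by rw [hx]; trivial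
    exact Algebra.adjoin_le (S := (Algebra.adjoin (MvPolynomial (Fin d) K)
      (Set.range x)).restrictScalars K) Algebra.subset_adjoin hb
  rw [htop] at hfg
  exact (⟨by simpa using hfg⟩ : Module.Finite (MvPolynomial (Fin d) K) R)

/-- The endomorphism of the quotient induced by a map preserving the ideal. -/
noncomputable def qEnd {K : Type} [Field K] {n : ℕ} (J : Ideal (MvPolynomial (Fin n) K))
    (g : Fin n → MvPolynomial (Fin n) K) (hg : ∀ h ∈ J, MvPolynomial.aeval g h ∈ J) :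
    (MvPolynomial (Fin n) K ⧸ J) →ₐ[K] (MvPolynomial (Fin n) K ⧸ J) :=
  Ideal.quotientMapₐ J (MvPolynomial.aeval g) (fun h hh => hg h hh)

theorem qEnd_mk {K : Type} [Field K] {n : ℕ} (J : Ideal (MvPolynomial (Fin n) K))
    (g : Fin n → MvPolynomial (Fin n) K) (hg : ∀ h ∈ J, MvPolynomial.aeval g h ∈ J)
    (h : MvPolynomial (Fin n) K) :
    qEnd J g hg (Ideal.Quotient.mkₐ K J h) =
      Ideal.Quotient.mkₐ K J (MvPolynomial.aeval g h) := rfl

theorem qEnd_pow_mk {K : Type} [Field K] {n : ℕ} (J : Ideal (MvPolynomial (Fin n) K))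
    (g : Fin n → MvPolynomial (Fin n) K) (hg : ∀ h ∈ J, MvPolynomial.aeval g h ∈ J) (m : ℕ)
    (h : MvPolynomial (Fin n) K) :
    (qEnd J g hg ^ m) (Ideal.Quotient.mkₐ K J h) = Ideal.Quotient.mkₐ K J
      (((MvPolynomial.aeval g : MvPolynomial (Fin n) K →ₐ[K] MvPolynomial (Fin n) K) ^ m) h) := by
  induction m with
  | zero => simp
  | succ m ih => rw [pow_succ', pow_succ', AlgHom.mul_apply, AlgHom.mul_apply, ih, qEnd_mk]

/-- The point of the quotient given by a zero of the ideal. -/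
noncomputable def qPt {K Ω : Type} [Field K] [Field Ω] [Algebra K Ω] {n : ℕ}
    (J : Ideal (MvPolynomial (Fin n) K)) (x : Fin n → Ω) (hx : x ∈ MvPolynomial.zeroLocus Ω J) :
    (MvPolynomial (Fin n) K ⧸ J) →ₐ[K] Ω :=
  Ideal.Quotient.liftₐ J (MvPolynomial.aeval x) (fun h hh => hx h hh)

theorem qPt_mk {K Ω : Type} [Field K] [Field Ω] [Algebra K Ω] {n : ℕ}
    (J : Ideal (MvPolynomial (Fin n) K)) (x : Fin n → Ω) (hx : x ∈ MvPolynomial.zeroLocus Ω J)
    (h : MvPolynomial (Fin n) K) :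
    qPt J x hx (Ideal.Quotient.mkₐ K J h) = MvPolynomial.aeval x h := rfl

theorem main_aut_aeval {n : ℕ} (τ : Qb ≃+* Qb) (x : Fin n → Qb) (h : MvPolynomial (Fin n) Qb) :
    τ (MvPolynomial.aeval x h) =
      MvPolynomial.aeval (fun i => τ (x i)) (MvPolynomial.map τ.toRingHom h) :=
  ringHom_aeval τ.toRingHom τ.toRingHom (fun _ => rfl) x h

theorem main_aut_iterate {n : ℕ} (τ : Qb ≃+* Qb) (f : Fin n → MvPolynomial (Fin n) Qb)
    (hτ : ∀ i, MvPolynomial.map τ.toRingHom (f i) = f i) (x : Fin n → Qb) (m : ℕ) :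
    (dyn f)^[m] (fun i => τ (x i)) = fun i => τ (((dyn f)^[m] x) i) := by
  induction m with
  | zero => rfl
  | succ m ih =>
    rw [Function.iterate_succ_apply', Function.iterate_succ_apply', ih]
    funext i
    simp only [dyn]
    rw [main_aut_aeval, hτ]

theorem mainThm (hInterp : S_Interp) (hLocal : S_Local) (hUnr : S_Unr) (hNorm : S_Norm)
    (hDB : S_DBound) (hFin : S_Fin) (hSetup : S_Setup) (hPer : S_Periodic) (hBig : S_Big) :
    S_Main := by
  classical
  intro n q f I hq hf hz hI hstab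
  have hNS : MvPolynomial.vanishingIdeal Qb (MvPolynomial.zeroLocus Qb I) = I :=
    MvPolynomial.IsPrime.vanishingIdeal_zeroLocus I
  by_cases htwo : ∃ x₁ ∈ MvPolynomial.zeroLocus Qb I, ∃ x₂ ∈ MvPolynomial.zeroLocus Qb I, x₁ ≠ x₂
  swap
  · push Not at htwo
    have hne : (MvPolynomial.zeroLocus Qb I).Nonempty := by
      by_contra hemp
      rw [Set.not_nonempty_iff_eq_empty] at hemp
      rw [hemp, MvPolynomial.vanishingIdeal_empty] at hNS
      exact hI.ne_top hNS.symm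
    obtain ⟨α, hα⟩ := hne
    refine ⟨α, hα, fun h hh => ?_⟩
    rw [← hNS]
    intro x hx
    rw [htwo x hx α hα]
    exact hh 0
  obtain ⟨d, y, r, P, r₀, c, m, Pi, geo⟩ := hSetup n q f I (by omega) hf
    (pow_mem_span_of_zero f hz) hI hstab htwo
  obtain ⟨p, v, hp, hvp, hres, hfI, hyI, hPiI, x₀, hx₀, hx₀I, hunit, hper⟩ :=
    hPer n d f I y r P r₀ c m Pi geo
  have hp1 : (1 : ℝ≥0) < p := by exact_mod_cast hp.one_lt
  have hvp0 : 0 < v (p : Qb) := by rw [hvp]; exact inv_pos.mpr (zero_lt_one.trans hp1)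
  have hvp1 : v (p : Qb) < 1 := by rw [hvp]; exact inv_lt_one_of_one_lt₀ hp1
  have hrel : ∀ x ∈ MvPolynomial.zeroLocus Qb I, ∀ i,
      ev2 (fun l => MvPolynomial.aeval (dyn f x) (y l)) (x i) (Pi i) = 0 := by
    intro x hx i
    have := hx _ (geo.Pi_mem i)
    rw [map_ev2] at this
    simpa only [aeval_dyn, MvPolynomial.aeval_X] using this
  obtain ⟨η, n₀, hη0, hη1, hn₀, hloc⟩ := hLocal Qb v p hp hvp0 hvp1 hres n (d + 1) f y Pi
    (MvPolynomial.zeroLocus Qb I) hfI hyI hPiI (fun x hx => dyn_mem_zeroLocus hstab hx) hrel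
    x₀ hx₀ hx₀I hunit hper
  obtain ⟨j, s, α, τ, b, hj, hα, hclose, hs, hτf, hτβ, hinj⟩ :=
    hBig n d f I y r P r₀ c m Pi geo q hq hf hz p v hp hvp x₀ hx₀
      (fun j i h0 => by have := hunit j i; rw [h0, map_zero] at this; exact zero_ne_one this)
      η n₀ hη0 hn₀
  set M := n₀ * j with hM
  have hM1 : 1 ≤ M := Nat.mul_pos hn₀ hj
  refine ⟨α, hα, fun h hh => ?_⟩
  -- the orbit under the iterate
  set orb : ℕ → Fin n → Qb := fun k => (dyn f)^[M * k] α with horb
  have hseq : ∀ w : MvPolynomial (Fin n) Qb,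
      (∀ K₀ : ℕ, ∃ T : Finset ℕ, K₀ ≤ T.card ∧ ∀ i ∈ T, i < 2 * T.card ∧
        MvPolynomial.aeval (orb i) w = 0) → ∀ k, MvPolynomial.aeval (orb k) w = 0 := by
    intro w hw
    obtain ⟨B, hB⟩ := hloc j α hα hclose w
    exact hInterp Qb v p hp hvp1 (fun k => MvPolynomial.aeval (orb k) w) B hB hw
  set J : Ideal (MvPolynomial (Fin n) Qb) := MvPolynomial.vanishingIdeal Qb (Set.range orb)
    with hJ
  have hmemJ : ∀ w, w ∈ J ↔ ∀ k, MvPolynomial.aeval (orb k) w = 0 := by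
    intro w
    rw [hJ, MvPolynomial.mem_vanishingIdeal_iff]
    simp
  have htail : ∀ w, (∀ k, MvPolynomial.aeval (orb (k + 1)) w = 0) → w ∈ J := fun w hw =>
    (hmemJ w).mpr (main_tail_zero _ (hseq w) hw)
  have horbJ : ∀ k, orb k ∈ MvPolynomial.zeroLocus Qb J := fun k w hw => (hmemJ w).mp hw k
  have hJprime : J.IsPrime := by
    refine ⟨fun htop => ?_, fun {a b} hab => ?_⟩
    · have : (1 : MvPolynomial (Fin n) Qb) ∈ J := by rw [htop]; trivial
      simpa using (hmemJ 1).mp this 0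
    · rw [hmemJ, hmemJ]
      refine main_prod_zero _ _ (hseq a) (hseq b) fun k => ?_
      rw [← map_mul]
      exact (hmemJ _).mp hab k
  have hIJ : I ≤ J := fun w hw => (hmemJ w).mpr fun k => iterate_mem_zeroLocus hstab _ hα w hw
  have hhJ : h ∈ J := (hmemJ h).mpr fun k => hh _
  by_contra hhI
  have horb_succ : ∀ k, dyn (iter f M) (orb k) = orb (k + 1) := by
    intro k
    rw [dyn_iter, horb]
    simp only
    rw [← Function.iterate_add_apply, mul_add, mul_one, add_comm]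
  have hJstab : ∀ w ∈ J, MvPolynomial.aeval (iter f M) w ∈ J := by
    intro w hw
    rw [hmemJ]
    intro k
    rw [aeval_dyn, horb_succ]
    exact (hmemJ w).mp hw _
  have hpowk : ∀ (i k : ℕ) (w : MvPolynomial (Fin n) Qb), MvPolynomial.aeval (orb k)
      (((MvPolynomial.aeval (iter f M) : MvPolynomial (Fin n) Qb →ₐ[Qb]
        MvPolynomial (Fin n) Qb) ^ i) w) = MvPolynomial.aeval (orb (k + i)) w := by
    intro i k w
    rw [aeval_dyn_iterate]
    congr 2
    induction i with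
    | zero => rfl
    | succ i ih => rw [Function.iterate_succ_apply', ih, horb_succ, add_assoc]
  have := Ideal.Quotient.isDomain J
  have := Ideal.Quotient.isDomain I
  set φ := qEnd J (iter f M) hJstab with hφ
  have hφinj : Function.Injective φ := by
    rw [injective_iff_map_eq_zero]
    intro a ha
    obtain ⟨w, rfl⟩ := Ideal.Quotient.mkₐ_surjective Qb J a
    rw [hφ, qEnd_mk] at ha
    have ha' := Ideal.Quotient.eq_zero_iff_mem.mp ha
    refine Ideal.Quotient.eq_zero_iff_mem.mpr (htail w fun k => ?_)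
    rw [← horb_succ, ← aeval_dyn]
    exact (hmemJ _).mp ha' k
  have hQ1 : 1 ≤ q ^ M := Nat.one_le_pow _ _ (by omega)
  have hφx : ∀ i, φ (Ideal.Quotient.mkₐ Qb J (MvPolynomial.X i)) =
      MvPolynomial.aeval (fun i => Ideal.Quotient.mkₐ Qb J (MvPolynomial.X i)) (iter f M i) := by
    intro i
    rw [hφ, qEnd_mk, ← MvPolynomial.comp_aeval_apply, MvPolynomial.aeval_X,
      MvPolynomial.aeval_X_left_apply]
  have hφfin : φ.Finite := hFin Qb _ n (q ^ M) _ (iter f M) φ (main_adjoin_mk J) hQ1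
    (iter_isHomogeneous f hf M) (pow_mem_span_iter f hz M) hφx
  set β := qPt J (orb 1) (horbJ 1) with hβ
  have hβpow : ∀ (i : ℕ) (w : MvPolynomial (Fin n) Qb),
      β ((φ ^ i) (Ideal.Quotient.mkₐ Qb J w)) = MvPolynomial.aeval (orb (1 + i)) w := by
    intro i w
    rw [hφ, qEnd_pow_mk, hβ, qPt_mk, hpowk]
  have hdense : ∀ a, a ≠ 0 → ∃ i : ℕ, β ((φ ^ i) a) ≠ 0 := by
    intro a ha
    obtain ⟨w, rfl⟩ := Ideal.Quotient.mkₐ_surjective Qb J a
    by_contra hcon
    push Not at hcon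
    refine ha (Ideal.Quotient.eq_zero_iff_mem.mpr (htail w fun k => ?_))
    rw [add_comm, ← hβpow]
    exact hcon k
  -- units along the orbit of `α`
  have hαI : ∀ i, v (α i) ≤ 1 := fun i => by
    have : α i = (α i - x₀ i) + x₀ i := by ring
    rw [this]
    exact v.map_add_le ((hclose i).trans hη1.le) (hx₀I i)
  have hunitα : ∀ (k : ℕ) (i : Fin n),
      ev2 (fun l => MvPolynomial.aeval (dyn f ((dyn f)^[k] α)) (y l))
        (((dyn f)^[k] α) i) (derivative (Pi i)) ≠ 0 := by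
    intro k i h0
    have c1 := iterate_cong v hfI α x₀ hαI hx₀I hclose k
    have c2 := iterate_cong v hfI α x₀ hαI hx₀I hclose (k + 1)
    rw [Function.iterate_succ_apply', Function.iterate_succ_apply'] at c2
    have c3 := (ev2_cong v (Int2_derivative v (hPiI i))
      (fun l => MvPolynomial.aeval (dyn f ((dyn f)^[k] α)) (y l))
      (fun l => MvPolynomial.aeval (dyn f ((dyn f)^[k] x₀)) (y l)) _ _
      (fun l => (aeval_cong v (hyI l) _ _ c2.1 c2.2.1 c2.2.2).1)
      (fun l => (aeval_cong v (η := 0) (hyI l) _ _ c2.2.1 c2.2.1 (by simp)).1)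
      (fun l => (aeval_cong v (hyI l) _ _ c2.1 c2.2.1 c2.2.2).2)
      (c1.1 i) (c1.2.1 i) (c1.2.2 i)).2
    rw [h0, zero_sub, Valuation.map_neg, hunit] at c3
    exact absurd (c3.trans_lt hη1) (lt_irrefl _)
  set π : (MvPolynomial (Fin n) Qb ⧸ I) →ₐ[Qb] (MvPolynomial (Fin n) Qb ⧸ J) :=
    Ideal.Quotient.factorₐ Qb hIJ with hπ
  have hπmk : ∀ w, π (Ideal.Quotient.mkₐ Qb I w) = Ideal.Quotient.mkₐ Qb J w := fun w => rfl
  have hunr : ∀ i : ℕ, ∃ e, β e ≠ 0 ∧ ∀ b, β b = 0 →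
      e * b ∈ Ideal.span {c | ∃ a, β ((φ ^ i) a) = 0 ∧ c = (φ ^ i) a} := by
    intro i
    rcases Nat.eq_zero_or_pos i with rfl | hi
    · exact ⟨1, by simp, fun b hb => Ideal.subset_span ⟨b, by simpa using hb, by simp⟩⟩
    have horb1 : orb 1 ∈ MvPolynomial.zeroLocus Qb I := iterate_mem_zeroLocus hstab _ hα
    obtain ⟨k, hk⟩ : ∃ k, M * i = k + 1 := ⟨M * i - 1, by have := Nat.mul_pos hM1 hi; omega⟩
    obtain ⟨e, he, hes⟩ := hUnr Qb (MvPolynomial (Fin n) Qb ⧸ I) n (d + 1)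
      (fun i => Ideal.Quotient.mkₐ Qb I (MvPolynomial.X i))
      (fun l => Ideal.Quotient.mkₐ Qb I (y l)) (qEnd I f hstab) Pi (main_adjoin_mk I)
      (fun i => by
        simp only [qEnd_mk]
        rw [← map_ev2]
        exact Ideal.Quotient.eq_zero_iff_mem.mpr (geo.Pi_mem i))
      k (qPt I (orb 1) horb1)
      (fun j' i => by
        simp only [qEnd_mk]
        rw [← map_ev2, qEnd_pow_mk, qPt_mk, aeval_dyn_iterate, map_ev2]
        simp only [aeval_dyn, MvPolynomial.aeval_X, horb]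
        rw [← Function.iterate_add_apply]
        exact hunitα _ i)
    have hβπ : ∀ a, β (π a) = qPt I (orb 1) horb1 a := by
      intro a
      obtain ⟨w, rfl⟩ := Ideal.Quotient.mkₐ_surjective Qb I a
      rfl
    refine ⟨π e, by rw [hβπ]; exact he, fun b hb => ?_⟩
    obtain ⟨w, rfl⟩ := Ideal.Quotient.mkₐ_surjective Qb J b
    rw [← hπmk] at hb ⊢
    rw [hβπ] at hb
    have h1 := Ideal.mem_map_of_mem π (hes _ hb)
    rw [map_mul, Ideal.map_span] at h1
    refine Ideal.span_mono ?_ h1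
    rintro _ ⟨_, ⟨l, rfl⟩, rfl⟩
    have hpw : ((MvPolynomial.aeval (iter f M) : MvPolynomial (Fin n) Qb →ₐ[Qb]
        MvPolynomial (Fin n) Qb) ^ i) = (MvPolynomial.aeval f : MvPolynomial (Fin n) Qb →ₐ[Qb]
        MvPolynomial (Fin n) Qb) ^ (k + 1) := by
      rw [aeval_iter, ← pow_mul, hk]
    have hval : π (((qEnd I f hstab) ^ (k + 1)) (Ideal.Quotient.mkₐ Qb I (y l))) =
        (φ ^ i) (Ideal.Quotient.mkₐ Qb J (y l)) := by
      rw [qEnd_pow_mk, hπmk, hφ, qEnd_pow_mk, hpw]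
    refine ⟨Ideal.Quotient.mkₐ Qb J (y l) - algebraMap Qb _
      (β ((φ ^ i) (Ideal.Quotient.mkₐ Qb J (y l)))), ?_, ?_⟩
    · rw [map_sub, map_sub, AlgHom.commutes, AlgHom.commutes]
      simp
    · simp only
      rw [map_sub, map_sub, AlgHom.commutes, AlgHom.commutes, hval, ← hβπ, hval]
  -- the conjugate points
  have hτorb : ∀ t k i, τ t (orb (k + 1) i) = orb (k + 1) i := by
    intro t k i
    have h1 : orb (k + 1) = (dyn f)^[M * k] ((dyn f)^[M] α) := by
      rw [horb]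
      simp only
      rw [← Function.iterate_add_apply, mul_add, mul_one]
    have h2 := main_aut_iterate (τ t) f (hτf t) ((dyn f)^[M] α) (M * k)
    rw [funext (hτβ t)] at h2
    rw [h1]
    exact (congrFun h2 i).symm
  have hαt : ∀ t, (fun i => τ t (α i)) ∈ MvPolynomial.zeroLocus Qb J := by
    intro t w hw
    have hw' : MvPolynomial.map (τ t).symm.toRingHom w ∈ J := by
      refine htail _ fun k => ?_
      apply (τ t).injective
      rw [main_aut_aeval, MvPolynomial.map_map, funext (hτorb t k)]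
      simpa using (hmemJ w).mp hw (k + 1)
    have h0 := (hmemJ _).mp hw' 0
    have h1 := congrArg (τ t) h0
    rw [main_aut_aeval, MvPolynomial.map_map] at h1
    simpa [horb] using h1
  have hind := hNorm Qb (MvPolynomial (Fin n) Qb ⧸ J) φ hφinj hφfin β hdense hunr s
    (fun t => qPt J _ (hαt t)) (Ideal.Quotient.mkₐ Qb J b)
    (fun t => by
      refine AlgHom.ext fun a => ?_
      obtain ⟨w, rfl⟩ := Ideal.Quotient.mkₐ_surjective Qb J a
      rw [AlgHom.comp_apply, hφ, qEnd_mk, qPt_mk, hβ, qPt_mk, aeval_dyn, dyn_iter,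
        main_aut_iterate (τ t) f (hτf t), funext (hτβ t)]
      simp [horb])
    hinj
  have hfinY := main_finite_of_monic (K := Qb)
    (fun i => Ideal.Quotient.mkₐ Qb I (MvPolynomial.X i))
    (fun l => Ideal.Quotient.mkₐ Qb I (y l)) (main_adjoin_mk I) m geo.m_monic
    (fun i => by
      rw [← map_ev2]
      exact Ideal.Quotient.eq_zero_iff_mem.mpr (geo.m_mem i))
  have hle := hDB Qb (MvPolynomial (Fin n) Qb ⧸ I) (MvPolynomial (Fin n) Qb ⧸ J) n d (q ^ M)
    (fun i => Ideal.Quotient.mkₐ Qb I (MvPolynomial.X i))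
    (fun l => Ideal.Quotient.mkₐ Qb I (y l)) (main_adjoin_mk I) hfinY π
    (fun a => by
      obtain ⟨w, rfl⟩ := Ideal.Quotient.mkₐ_surjective Qb J a
      exact ⟨_, hπmk w⟩)
    (fun hinjπ => hhI (Ideal.Quotient.eq_zero_iff_mem.mp
      ((injective_iff_map_eq_zero π).mp hinjπ (Ideal.Quotient.mkₐ Qb I h)
        (Ideal.Quotient.eq_zero_iff_mem.mpr hhJ))))
    φ (iter f M) hQ1 (fun i => (iter_isHomogeneous f hf M i).totalDegree_le) hφx s _ hind
  omega

end Pool.Agent.P.MP_38c95b_ag
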