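import Pool.Agent.P.MP_38c95b_ag.Stmts

/-!
Tools for the fibre count: conductors and the derivative of the minimal polynomial.
-/

set_option autoImplicit false

open Polynomial

namespace Pool.Agent.P.MP_38c95b_ag

/-- The integral closure of an affine domain in characteristic zero has a common denominator. -/
theorem norm_conductor (K A : Type) [Field K] [CharZero K] [CommRing A] [IsDomain A] [Algebra K A]
    [Algebra.FiniteType K A] :
    ∃ c : A, c ≠ 0 ∧ ∀ z : FractionRing A, IsIntegral A z →
      ∃ a : A, algebraMap A (FractionRing A) a = algebraMap A (FractionRing A) c * z := by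
  classical
  obtain ⟨s, g, hinj, hfin⟩ := exists_finite_inj_algHom_of_fg K A
  let D := MvPolynomial (Fin s) K
  let : Algebra D A := g.toRingHom.toAlgebra
  have : Module.Finite D A := hfin
  have : FaithfulSMul D A := (faithfulSMul_iff_algebraMap_injective D A).mpr hinj
  let := FractionRing.liftAlgebra D (FractionRing A)
  have : FiniteDimensional (FractionRing D) (FractionRing A) :=
    .of_isLocalization D A (nonZeroDivisors D)
  have : CharZero (FractionRing D) := inferInstance
  have hfin' : Module.Finite D (integralClosure D (FractionRing A)) :=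
    IsIntegralClosure.finite D (FractionRing D) (FractionRing A) _
  obtain ⟨t, ht⟩ := hfin'.fg_top
  obtain ⟨c, hc⟩ := IsLocalization.exist_integer_multiples_of_finset (nonZeroDivisors A)
    (t.image fun w : integralClosure D (FractionRing A) => (w : FractionRing A))
  refine ⟨c, nonZeroDivisors.coe_ne_zero c, fun z hz => ?_⟩
  have hz' : IsIntegral D z := isIntegral_trans z hz
  have hmem : (⟨z, hz'⟩ : integralClosure D (FractionRing A)) ∈
      Submodule.span D (t : Set (integralClosure D (FractionRing A))) := by rw [ht]; trivial
  have key : ∀ w : integralClosure D (FractionRing A),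
      w ∈ Submodule.span D (t : Set (integralClosure D (FractionRing A))) →
      ∃ a : A, algebraMap A (FractionRing A) a = algebraMap A (FractionRing A) c * w := by
    intro w hw
    induction hw using Submodule.span_induction with
    | mem w hw =>
      obtain ⟨a, ha⟩ := hc (w : FractionRing A) (Finset.mem_image_of_mem _ hw)
      exact ⟨a, by rw [ha, Algebra.smul_def]⟩
    | zero => exact ⟨0, by simp⟩
    | add a b _ _ ha hb =>
      obtain ⟨a', ha'⟩ := ha
      obtain ⟨b', hb'⟩ := hb
      exact ⟨a' + b', by rw [map_add, ha', hb']; simp [mul_add]⟩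
    | smul d a _ ha =>
      obtain ⟨a', ha'⟩ := ha
      refine ⟨algebraMap D A d * a', ?_⟩
      rw [map_mul, ha', ← IsScalarTower.algebraMap_apply, Subalgebra.coe_smul, Algebra.smul_def]
      ring
  exact key _ hmem

/-- The derivative of the minimal polynomial of a generator clears denominators of integral
elements. -/
theorem norm_deriv {A F : Type} [CommRing A] [IsDomain A] [IsIntegrallyClosed A] [Field F]
    [Algebra A F] (hinj : Function.Injective (algebraMap A F)) (r : F) (hr : IsIntegral A r)
    (hgen : ∀ w : F, ∃ a ∈ Algebra.adjoin A {r}, ∃ b ∈ Algebra.adjoin A {r}, b ≠ 0 ∧ w * b = a)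
    (z : F) (hz : IsIntegral A z) :
    Polynomial.aeval r (derivative (minpoly A r)) * z ∈ Algebra.adjoin A {r} := by
  have : FaithfulSMul A F := (faithfulSMul_iff_algebraMap_injective A F).mpr hinj
  let := FractionRing.liftAlgebra A F
  have hr' : IsIntegral (FractionRing A) r := hr.tower_top
  have hsub : ∀ a ∈ Algebra.adjoin A {r}, a ∈ IntermediateField.adjoin (FractionRing A) {r} := by
    intro a ha
    exact Algebra.adjoin_le (S := (IntermediateField.adjoin (FractionRing A)
      {r}).toSubalgebra.restrictScalars A) (IntermediateField.subset_adjoin _ _) ha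
  have hsurj : Function.Surjective
      ((Polynomial.aeval r : (FractionRing A)[X] →ₐ[FractionRing A] F).restrictScalars A) := by
    intro w
    obtain ⟨a, ha, b, hb, hb0, hw⟩ := hgen w
    have hw' : w ∈ IntermediateField.adjoin (FractionRing A) {r} := by
      rw [eq_div_of_mul_eq hb0 hw]
      exact div_mem (hsub a ha) (hsub b hb)
    have hw'' : w ∈ Algebra.adjoin (FractionRing A) {r} := by
      rw [← IntermediateField.adjoin_simple_toSubalgebra_of_isAlgebraic hr'.isAlgebraic]
      exact hw'
    rw [Algebra.adjoin_singleton_eq_range_aeval] at hw''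
    exact hw''
  have hmin := minpoly.isIntegrallyClosed_eq_field_fractions' (FractionRing A) hr
  obtain ⟨g, hg, hgi⟩ := exists_derivative_mul_eq_and_isIntegral_coeff (R := A) hsurj
    (f := minpoly (FractionRing A) r) (minpoly.monic hr')
    (fun i => by rw [hmin, Polynomial.coeff_map]; exact isIntegral_algebraMap)
    (minpoly.ker_aeval_eq_span_minpoly (FractionRing A) r) hz
  have hlift : g ∈ Polynomial.lifts (algebraMap A (FractionRing A)) := by
    rw [Polynomial.lifts_iff_coeff_lifts]
    intro i
    exact IsIntegrallyClosed.isIntegral_iff.mp (hgi i)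
  obtain ⟨g', rfl⟩ := hlift
  rw [hmin, Polynomial.derivative_map] at hg
  simp only [AlgHom.coe_restrictScalars', Polynomial.aeval_map_algebraMap, coe_mapRingHom] at hg
  rw [hg]
  exact Polynomial.aeval_mem_adjoin_singleton A r

end Pool.Agent.P.MP_38c95b_ag
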