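import Pool.Agent.P.MP_38c95b_ag.Spr2

/-!
One variable irreducibility with approximation, by an auxiliary polynomial.
-/

set_option autoImplicit false

open Polynomial Filter
open scoped NNReal IntermediateField

namespace Pool.Agent.P.MP_38c95b_ag

namespace Spr

theorem ev_small {p : ℕ} (hp : p.Prime) (C D : ℝ≥0) (hD : 0 < D) :
    ∀ᶠ l : ℕ in atTop, C * ((p : ℝ≥0)⁻¹) ^ l < D := by
  have hp1 : (p : ℝ≥0)⁻¹ < 1 := inv_lt_one_of_one_lt₀ (by exact_mod_cast hp.one_lt)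
  have h := (NNReal.tendsto_pow_atTop_nhds_zero_of_lt_one hp1).const_mul C
  rw [mul_zero] at h
  exact h.eventually (gt_mem_nhds hD)

theorem eval_et {K Ω : Type} [Field K] [Field Ω] [Algebra K Ω] (t : Ω) (G : K[X][X])
    (a g q : K[X]) (n : ℕ) (h : G.eval a - g = X ^ n * q) :
    G.eval₂ (et K t) (et K t a) = et K t g + t ^ n * et K t q := by
  rw [eval₂_at_apply, sub_eq_iff_eq_add'.1 h, map_add, map_mul, map_pow]
  congr 3
  exact aeval_X t

theorem et_C {K Ω : Type} [Field K] [Field Ω] [Algebra K Ω] (t : Ω) (a : K) :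
    et K t (C a) = algebraMap K Ω a := aeval_C t a

end Spr

open Spr in
theorem spr (hN : S_Near) (hL : S_Liou) : S_Spr := by
  intro K _ v p hp hv P r c m hP hr hd hc hm hli η hη
  set ρ := P.natDegree with hρdef
  set r₀ := PowerSeries.constantCoeff r
  set δ := (derivative P).eval₂ (Polynomial.evalRingHom 0) r₀ with hδ
  have hρ : ρ ≠ 0 := fun e => hd (by
    rw [hδ, derivative_of_natDegree_zero e, eval₂_zero])
  obtain ⟨F, k, γ, hF, hFm, hk, hγ, hFd⟩ := aux_poly r m ρ hρ hli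
  set a : K[X] := PowerSeries.trunc (k + 1) r with ha
  obtain ⟨G1, h1⟩ := trunc_dvd P r 0 (le_refl (k + 1)) (by rw [hr]; simp)
  obtain ⟨G2, h2⟩ := trunc_dvd F r _ (le_refl (k + 1)) hFd
  obtain ⟨G3, h3⟩ := trunc_dvd (derivative P) r (C δ) (n := 1) (N := k + 1) (by omega) (by
    rw [pow_one, PowerSeries.X_dvd_iff, map_sub, hom_eval₂, coe_C, PowerSeries.constantCoeff_C,
      hδ, sub_eq_zero]
    congr 1
    ext <;> simp)
  obtain ⟨G4, h4⟩ := trunc_dvd X r (C r₀) (n := 1) (N := k + 1) (by omega) (by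
    rw [pow_one, PowerSeries.X_dvd_iff, map_sub, eval₂_X, coe_C, PowerSeries.constantCoeff_C,
      sub_self])
  rw [← ha] at h1 h2 h3 h4
  obtain ⟨C1, hC1⟩ := vb1 v G1
  obtain ⟨C2, hC2⟩ := vb1 v G2
  obtain ⟨C3, hC3⟩ := vb1 v G3
  obtain ⟨C4, hC4⟩ := vb1 v G4
  obtain ⟨Ca, hCa⟩ := vb1 v a
  obtain ⟨L, hLip⟩ := lip v F (max Ca 1)
  obtain ⟨B, hB1, hB⟩ := cauchy P hP c hc
  obtain ⟨A, hA0, hA⟩ := ab2 F m ρ c hF hFm B hB1
  obtain ⟨n, hn0, hn⟩ := int3 P hP hρ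
  obtain ⟨N, hN0, hNi⟩ := int2 F n hn0
  have hδ0 : 0 < v (algebraMap K Qb δ) := by
    rw [pos_iff_ne_zero, Valuation.ne_zero_iff, _root_.map_ne_zero]; exact hd
  have hγ0 : 0 < v (algebraMap K Qb γ) := by
    rw [pos_iff_ne_zero, Valuation.ne_zero_iff, _root_.map_ne_zero]; exact hγ
  set dl := v (algebraMap K Qb δ)
  set gm := v (algebraMap K Qb γ)
  set H₀ : ℝ≥0 := ⟨|(N : ℝ)| * A + 1, by positivity⟩ with hH₀
  obtain ⟨l, e1, e2, e3, e4, e5, e6, e7⟩ := ((ev_small hp 1 η hη).and ((ev_small hp C3 dl hδ0).and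
    ((ev_small hp (C1 / dl) (min η 1) (lt_min hη one_pos)).and ((ev_small hp C4 η hη).and
    ((ev_small hp C2 gm hγ0).and ((ev_small hp (L * (C1 / dl)) gm hγ0).and
    (ev_small hp (gm * H₀ ^ (ρ - 1)) 1 one_pos))))))).exists
  set τ : ℝ≥0 := ((p : ℝ≥0)⁻¹) ^ l with hτ
  set t : Qb := (p : Qb) ^ l with ht
  have hvt : v t = τ := by rw [ht, map_pow, hv]
  have hp0 : (0 : ℝ≥0) < p := by exact_mod_cast hp.pos
  have hτ0 : 0 < τ := pow_pos (inv_pos.2 hp0) _
  have hτ1 : τ ≤ 1 := pow_le_one' (inv_le_one_of_one_le₀ (by exact_mod_cast hp.one_le)) _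
  have ht1 : v t ≤ 1 := hvt ▸ hτ1
  have q1 := eval_et t P a 0 G1 _ h1
  have q2 := eval_et t F a _ G2 _ h2
  have q3 := eval_et t (derivative P) a _ G3 _ h3
  have q4 := eval_et t X a _ G4 _ h4
  rw [map_zero, zero_add] at q1
  rw [map_mul, map_pow, et_C, show et K t X = t from aeval_X t] at q2
  rw [et_C, pow_one] at q3
  rw [et_C, pow_one, eval₂_X] at q4
  set b := et K t a
  have hder : v ((derivative P).eval₂ (et K t) b) = dl := by
    rw [q3]
    refine v.map_add_eq_of_lt_left (lt_of_le_of_lt ?_ e2)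
    rw [map_mul, hvt, mul_comm]
    exact mul_le_mul_left (hC3 t ht1) _
  obtain ⟨s, hs0, hs1⟩ := hN Qb v (P.map (et K t)) b (hP.map _) (by
    rw [derivative_map, eval_map]
    intro e
    rw [e, map_zero] at hder
    exact hδ0.ne hder)
  rw [eval_map] at hs0
  rw [derivative_map, eval_map, eval_map, hder, q1, map_mul, map_pow, hvt] at hs1
  have hsb : v (s - b) ≤ τ ^ k * (C1 / dl * τ) := by
    rw [← le_div_iff₀ hδ0] at hs1
    refine hs1.trans ?_
    calc τ ^ (k + 1) * v (et K t G1) / dl ≤ τ ^ (k + 1) * C1 / dl := by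
          gcongr; exact hC1 t ht1
      _ = τ ^ k * (C1 / dl * τ) := by ring
  have hsb' : v (s - b) ≤ min η 1 :=
    (hsb.trans (mul_le_of_le_one_left' (pow_le_one' hτ1 k))).trans e3.le
  refine ⟨l, s, hvt ▸ (by simpa using e1.le), hs0, ?_, ?_⟩
  · have : s - algebraMap K Qb r₀ = (s - b) + t * et K t G4 := by rw [q4]; ring
    rw [this]
    refine (v.map_add _ _).trans (max_le (hsb'.trans (min_le_left _ _)) (le_trans ?_ e4.le))
    rw [map_mul, hvt, mul_comm]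
    exact mul_le_mul_left (hC4 t ht1) _
  by_contra hlt
  have hb1 : v b ≤ max Ca 1 := (hCa t ht1).trans (le_max_left _ _)
  have hs1' : v s ≤ max Ca 1 := by
    rw [← sub_add_cancel s b]
    exact (v.map_add _ _).trans
      (max_le ((hsb'.trans (min_le_right _ _)).trans (le_max_right _ _)) hb1)
  set z := F.eval₂ (et K t) s with hz
  have hvz : v z = gm * τ ^ k := by
    have : z = algebraMap K Qb γ * t ^ k
        + (t ^ (k + 1) * et K t G2 + (z - F.eval₂ (et K t) b)) := by rw [q2]; ring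
    have hm' : v (algebraMap K Qb γ * t ^ k) = gm * τ ^ k := by rw [map_mul, map_pow, hvt]
    rw [this, ← hm']
    refine v.map_add_eq_of_lt_left ?_
    rw [hm']
    have hk0 : 0 < τ ^ k := pow_pos hτ0 k
    refine lt_of_le_of_lt (v.map_add _ _) (max_lt ?_ ?_)
    · rw [map_mul, map_pow, hvt]
      calc τ ^ (k + 1) * v (et K t G2) ≤ τ ^ (k + 1) * C2 := by gcongr; exact hC2 t ht1
        _ = C2 * τ * τ ^ k := by ring
        _ < gm * τ ^ k := by gcongr
    · calc v (z - F.eval₂ (et K t) b) ≤ L * v (s - b) := hLip t s b ht1 hs1' hb1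
        _ ≤ L * (τ ^ k * (C1 / dl * τ)) := by gcongr
        _ = L * (C1 / dl) * τ * τ ^ k := by ring
        _ < gm * τ ^ k := by gcongr
  have hz0 : z ≠ 0 := fun e => by
    rw [e, map_zero] at hvz
    exact (mul_pos hγ0 (pow_pos hτ0 k)).ne hvz
  have htn : t = ((p ^ l : ℕ) : Qb) := by rw [ht, Nat.cast_pow]
  have hT1 : 1 ≤ p ^ l := Nat.one_le_pow _ _ hp.pos
  set T : ℝ := ((p ^ l : ℕ) : ℝ) with hT
  have hT1' : 1 ≤ T := by rw [hT]; exact_mod_cast hT1
  have hτT : (τ : ℝ) * T = 1 := by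
    have : (p : ℝ) ≠ 0 := by exact_mod_cast hp.ne_zero
    rw [hτ, hT]; push_cast; rw [← mul_pow, inv_mul_cancel₀ this, one_pow]
  have hH1 : (1 : ℝ) ≤ H₀ := by
    change (1 : ℝ) ≤ |(N : ℝ)| * A + 1
    have : 0 ≤ |(N : ℝ)| * A := by positivity
    linarith
  have key := hL v p hp hv ((N : Qb) * z) (H₀ * T ^ (m + c * ρ)) (ρ - 1)
    (mul_ne_zero (by exact_mod_cast hN0) hz0)
    (by rw [hz, htn]; exact hNi _ s (hn _ s (by rw [← htn]; exact hs0)))
    (one_le_mul_of_one_le_of_one_le hH1 (one_le_pow₀ hT1'))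
    (fun σ => by
      have h5 := hA σ (p ^ l) s hT1 (hB σ (p ^ l) s hT1 (by rw [← htn]; exact hs0))
      rw [← htn, ← hz, ← hT] at h5
      rw [map_mul, map_intCast, norm_mul, Complex.norm_intCast]
      change _ ≤ (|(N : ℝ)| * A + 1) * T ^ (m + c * ρ)
      have h6 : 0 ≤ T ^ (m + c * ρ) := by positivity
      nlinarith [mul_le_mul_of_nonneg_left h5 (abs_nonneg (N : ℝ))])
    (by
      have h5 := deg_le K s ((N : Qb) * z)
        (mul_mem (intCast_mem _ N) (by rw [hz, htn]; exact mem_adj F _ s))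
      omega)
  have hv2 : (v ((N : Qb) * z) : ℝ) ≤ gm * τ ^ k := by
    have : v ((N : Qb) * z) ≤ gm * τ ^ k := by
      rw [map_mul, hvz]
      exact mul_le_of_le_one_left' (v_int_le_one v N)
    exact_mod_cast this
  obtain ⟨e, he⟩ : ∃ e, k = (m + c * ρ) * (ρ - 1) + 1 + e := by
    obtain ⟨ρ', hρ'⟩ : ∃ ρ', ρ = ρ' + 1 := ⟨ρ - 1, by omega⟩
    refine ⟨k - ((m + c * ρ) * (ρ - 1) + 1), ?_⟩
    have : (m + c * ρ) * (ρ - 1) + 1 ≤ m * ρ := by
      rw [hρ'] at hm ⊢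
      rw [Nat.add_sub_cancel]
      nlinarith [Nat.zero_le (c * ρ'), Nat.zero_le c]
    omega
  have e7' : (gm : ℝ) * H₀ ^ (ρ - 1) * τ < 1 := by exact_mod_cast e7
  have hτe : (τ : ℝ) ^ e ≤ 1 := by exact_mod_cast pow_le_one' hτ1 e
  have fin : (gm : ℝ) * τ ^ k * (H₀ * T ^ (m + c * ρ)) ^ (ρ - 1)
      = gm * H₀ ^ (ρ - 1) * τ * τ ^ e * (τ * T) ^ ((m + c * ρ) * (ρ - 1)) := by
    rw [he, mul_pow, mul_pow, ← pow_mul]; ring
  rw [hτT, one_pow, mul_one] at fin
  have h9 := key.trans (mul_le_mul_of_nonneg_right hv2 (by positivity))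
  rw [fin] at h9
  have h10 : (gm : ℝ) * H₀ ^ (ρ - 1) * τ * τ ^ e ≤ gm * H₀ ^ (ρ - 1) * τ :=
    mul_le_of_le_one_right (by positivity) hτe
  linarith

end Pool.Agent.P.MP_38c95b_ag
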