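import Pool.Agent.P.MP_38c95b_ag.Stmts

/-!
A root near an approximate root, and the Liouville inequality.
-/

set_option autoImplicit false

open Polynomial
open scoped NNReal

namespace Pool.Agent.P.MP_38c95b_ag

namespace Spr

theorem algQb : Algebra.IsAlgebraic ℚ Qb := AlgebraicClosure.isAlgebraic ℚ

theorem normalQb : Normal ℚ Qb :=
  @IsAlgClosure.normal ℚ Qb _ _ _ (AlgebraicClosure.instIsAlgClosure ℚ)

theorem exists_le_of_sum {Ω : Type} [Field Ω] (v : Valuation Ω ℝ≥0) (g : Ω → Ω)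
    (s : Multiset Ω) (hs : (s.map g).sum ≠ 0) : ∃ r ∈ s, v (s.map g).sum ≤ v (g r) := by
  induction s using Multiset.induction_on with
  | empty => simp at hs
  | cons a s ih =>
    rw [Multiset.map_cons, Multiset.sum_cons]
    by_cases h0 : (s.map g).sum = 0
    · exact ⟨a, Multiset.mem_cons_self _ _, by rw [h0, add_zero]⟩
    · obtain ⟨r, hr, hle⟩ := ih h0
      rcases le_max_iff.1 (v.map_add (g a) (s.map g).sum) with h | h
      · exact ⟨a, Multiset.mem_cons_self _ _, h⟩
      · exact ⟨r, Multiset.mem_cons_of_mem hr, h.trans hle⟩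

theorem v_le_one {Ω : Type} [Field Ω] (v : Valuation Ω ℝ≥0) {z : Ω} (hz : IsIntegral ℤ z) :
    v z ≤ 1 :=
  (Valuation.integer.integers v).mem_of_integral (hz.tower_top (A := v.integer))

theorem v_int_le_one {Ω : Type} [Field Ω] (v : Valuation Ω ℝ≥0) (n : ℤ) : v (n : Ω) ≤ 1 :=
  v_le_one v (by simpa using (isIntegral_algebraMap (R := ℤ) (A := Ω) (x := n)))

theorem one_le_v_mul {Ω : Type} [Field Ω] (v : Valuation Ω ℝ≥0) {p : ℕ} (hp : p.Prime)
    (hv : v (p : Ω) = (p : ℝ≥0)⁻¹) (n : ℕ) (hn : n ≠ 0) : 1 ≤ v (n : Ω) * n := by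
  induction n using Nat.strong_induction_on with
  | _ n ih =>
    have hp0 : (p : ℝ≥0) ≠ 0 := by exact_mod_cast hp.ne_zero
    by_cases hd : p ∣ n
    · obtain ⟨m, rfl⟩ := hd
      have hm : m ≠ 0 := by rintro rfl; simp at hn
      have := ih m (by have := hp.two_le; have := Nat.pos_of_ne_zero hm; nlinarith) hm
      push_cast
      rw [map_mul, hv]
      calc (1 : ℝ≥0) ≤ v (m : Ω) * m := this
        _ = (p : ℝ≥0)⁻¹ * v (m : Ω) * (p * m) := by field_simp
    · have hc : IsCoprime (p : ℤ) (n : ℤ) :=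
        Nat.isCoprime_iff_coprime.2 ((Nat.Prime.coprime_iff_not_dvd hp).2 hd)
      obtain ⟨a, b, hab⟩ := hc
      have h1 : (a : Ω) * p + b * n = 1 := by exact_mod_cast congrArg (Int.cast : ℤ → Ω) hab
      have hp1 : (p : ℝ≥0)⁻¹ < 1 := inv_lt_one_of_one_lt₀ (by exact_mod_cast hp.one_lt)
      have h2 : 1 ≤ v (n : Ω) := by
        have h3 := v.map_add ((a : Ω) * p) (b * n)
        rw [h1, map_one, map_mul, map_mul, hv] at h3
        rcases le_max_iff.1 h3 with h | h
        · exact absurd (h.trans (mul_le_of_le_one_left' (v_int_le_one v a))) (not_le.2 hp1)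
        · exact h.trans (mul_le_of_le_one_left' (v_int_le_one v b))
      have h4 : (1 : ℝ≥0) ≤ n := by exact_mod_cast Nat.pos_of_ne_zero hn
      exact one_le_mul_of_one_le_of_one_le h2 h4

theorem v_prod_le {Ω : Type} [Field Ω] (v : Valuation Ω ℝ≥0) (s : Multiset Ω)
    (hs : ∀ x ∈ s, v x ≤ 1) : v s.prod ≤ 1 := by
  induction s using Multiset.induction_on with
  | empty => simp
  | cons a s ih =>
    rw [Multiset.prod_cons, map_mul]
    exact mul_le_one' (hs a (Multiset.mem_cons_self _ _))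
      (ih fun x hx => hs x (Multiset.mem_cons_of_mem hx))

theorem norm_prod_le {Ω : Type} [Field Ω] (σ : Ω →+* ℂ) (H : ℝ) (s : Multiset Ω)
    (hs : ∀ x ∈ s, ‖σ x‖ ≤ H) : ‖σ s.prod‖ ≤ H ^ s.card := by
  induction s using Multiset.induction_on with
  | empty => simp
  | cons a s ih =>
    rw [Multiset.prod_cons, map_mul, norm_mul, Multiset.card_cons, pow_succ']
    have h1 := hs a (Multiset.mem_cons_self _ _)
    exact mul_le_mul h1 (ih fun x hx => hs x (Multiset.mem_cons_of_mem hx)) (norm_nonneg _)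
      ((norm_nonneg _).trans h1)

end Spr

theorem near : S_Near := by
  intro Ω _ _ v G a hG hd
  by_cases h0 : G.eval a = 0
  · exact ⟨a, h0, by simp⟩
  have h := (IsAlgClosed.splits G).eval_derivative_div_eval_of_ne_zero h0
  obtain ⟨r, hr, hle⟩ := Spr.exists_le_of_sum v (fun z => 1 / (a - z)) G.roots
    (h ▸ div_ne_zero hd h0)
  have hr0 : G.eval r = 0 := (mem_roots hG.ne_zero).1 hr
  refine ⟨r, hr0, ?_⟩
  have har : a - r ≠ 0 := fun e => h0 (by rw [sub_eq_zero.1 e, hr0])
  rw [← h, map_div₀, map_div₀, map_one, div_le_div_iff₀ (by simpa [pos_iff_ne_zero] using h0)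
    (by simpa [pos_iff_ne_zero] using har), one_mul] at hle
  rw [v.map_sub_swap, mul_comm]
  exact hle

theorem liou : S_Liou := by
  intro v p hp hv z H D hz hi hH hσ hD
  classical
  have := Spr.algQb
  have := Spr.normalQb
  let ι : Qb →+* ℂ := (IsAlgClosed.lift : Qb →ₐ[ℚ] ℂ).toRingHom
  set G : Qb[X] := (minpoly ℤ z).map (algebraMap ℤ Qb) with hGdef
  have hmon : G.Monic := (minpoly.monic hi).map _
  have hq : minpoly ℚ z = (minpoly ℤ z).map (algebraMap ℤ ℚ) :=
    minpoly.isIntegrallyClosed_eq_field_fractions' ℚ hi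
  have hroot : ∀ x ∈ G.roots, aeval x (minpoly ℤ z) = 0 := fun x hx => by
    have := (mem_roots hmon.ne_zero).1 hx
    rwa [IsRoot.def, hGdef, eval_map_algebraMap] at this
  have hz' : z ∈ G.roots := (mem_roots hmon.ne_zero).2 (by
    rw [IsRoot.def, hGdef, eval_map_algebraMap, minpoly.aeval])
  have hc := (IsAlgClosed.splits G).coeff_zero_eq_prod_roots_of_monic hmon
  rw [hGdef, coeff_map, eq_intCast, ← hGdef] at hc
  set a0 : ℤ := (minpoly ℤ z).coeff 0
  have ha0 : a0 ≠ 0 := by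
    have := minpoly.coeff_zero_ne_zero (A := ℚ) (hi.tower_top) hz
    rw [hq, coeff_map] at this
    intro e
    exact this (by change algebraMap ℤ ℚ a0 = 0; rw [e, map_zero])
  have h1 : v (a0 : Qb) ≤ v z := by
    rw [hc, map_mul, map_pow, v.map_neg, map_one, one_pow, one_mul, ← Multiset.prod_erase hz',
      map_mul]
    refine mul_le_of_le_one_right' (Spr.v_prod_le v _ fun x hx => Spr.v_le_one v ?_)
    exact ⟨_, minpoly.monic hi, hroot x (Multiset.mem_of_mem_erase hx)⟩
  have h2 : (a0.natAbs : ℝ) ≤ H ^ D := by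
    have h3 := Spr.norm_prod_le ι H G.roots fun x hx => by
      obtain ⟨τ, hτ⟩ := minpoly.exists_algEquiv_of_root' (K := ℚ) (L := Qb) (x := x) (y := z)
        (Algebra.IsAlgebraic.isAlgebraic z) (by rw [hq, aeval_map_algebraMap]; exact hroot x hx)
      rw [← hτ]
      exact hσ (ι.comp τ.toRingEquiv.toRingHom)
    have h4 : ‖ι (a0 : Qb)‖ = ‖ι G.roots.prod‖ := by
      rw [hc]; simp
    have h5 : G.roots.card ≤ D := by
      refine (card_roots' G).trans ?_
      rw [hGdef, (minpoly.monic hi).natDegree_map, ← (minpoly.monic hi).natDegree_map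
        (algebraMap ℤ ℚ), ← hq]
      exact hD
    calc (a0.natAbs : ℝ) = ‖ι (a0 : Qb)‖ := by
          rw [map_intCast, Complex.norm_intCast, Nat.cast_natAbs, Int.cast_abs]
      _ ≤ H ^ G.roots.card := h4 ▸ h3
      _ ≤ H ^ D := pow_le_pow_right₀ hH h5
  have h6 := Spr.one_le_v_mul v hp hv a0.natAbs (Int.natAbs_ne_zero.2 ha0)
  have h7 : v ((a0.natAbs : ℕ) : Qb) = v (a0 : Qb) := by
    rcases Int.natAbs_eq a0 with e | e
    · conv_rhs => rw [e, Int.cast_natCast]
    · conv_rhs => rw [e, Int.cast_neg, v.map_neg, Int.cast_natCast]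
  rw [h7] at h6
  have h8 : (1 : ℝ) ≤ (v (a0 : Qb) : ℝ) * (a0.natAbs : ℝ) := by exact_mod_cast h6
  refine h8.trans (mul_le_mul (by exact_mod_cast h1) h2 (Nat.cast_nonneg _) (NNReal.coe_nonneg _))

end Pool.Agent.P.MP_38c95b_ag
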