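import Pool.Agent.P.MP_38c95b_ag.Spr1

/-!
Size, integrality and degree estimates used in the irreducibility theorem.
-/

set_option autoImplicit false

open Polynomial
open scoped NNReal IntermediateField

namespace Pool.Agent.P.MP_38c95b_ag

namespace Spr

/-- evaluation of the inner variable -/
noncomputable abbrev et (K : Type) {Ω : Type} [Field K] [Field Ω] [Algebra K Ω] (t : Ω) :
    K[X] →+* Ω :=
  (Polynomial.aeval t : K[X] →ₐ[K] Ω).toRingHom

section val

variable {K Ω : Type} [Field K] [Field Ω] [Algebra K Ω] (v : Valuation Ω ℝ≥0)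

theorem vb1 (G : K[X]) : ∃ C : ℝ≥0, ∀ t : Ω, v t ≤ 1 → v (et K t G) ≤ C := by
  induction G using Polynomial.induction_on' with
  | add p q hp hq =>
    obtain ⟨a, ha⟩ := hp
    obtain ⟨b, hb⟩ := hq
    refine ⟨max a b, fun t ht => ?_⟩
    rw [map_add]
    exact (v.map_add _ _).trans (max_le_max (ha t ht) (hb t ht))
  | monomial n a =>
    refine ⟨v (algebraMap K Ω a), fun t ht => ?_⟩
    change v (aeval t (monomial n a)) ≤ _
    rw [aeval_monomial, map_mul, map_pow]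
    exact mul_le_of_le_one_right' (pow_le_one' ht n)

theorem lip (F : K[X][X]) (B : ℝ≥0) : ∃ C : ℝ≥0, ∀ t s s' : Ω, v t ≤ 1 → v s ≤ B → v s' ≤ B →
    v (F.eval₂ (et K t) s - F.eval₂ (et K t) s') ≤ C * v (s - s') := by
  induction F using Polynomial.induction_on' with
  | add p q hp hq =>
    obtain ⟨a, ha⟩ := hp
    obtain ⟨b, hb⟩ := hq
    refine ⟨max a b, fun t s s' ht hs hs' => ?_⟩
    rw [eval₂_add, eval₂_add, add_sub_add_comm]
    refine (v.map_add _ _).trans (max_le ((ha t s s' ht hs hs').trans ?_)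
      ((hb t s s' ht hs hs').trans ?_))
    · exact mul_le_mul_left (le_max_left _ _) _
    · exact mul_le_mul_left (le_max_right _ _) _
  | monomial n a =>
    obtain ⟨C, hC⟩ := vb1 v a
    refine ⟨C * B ^ (n - 1), fun t s s' ht hs hs' => ?_⟩
    rw [eval₂_monomial, eval₂_monomial, ← mul_sub, ← geom_sum₂_mul, map_mul, map_mul,
      ← mul_assoc]
    refine mul_le_mul_left (mul_le_mul' (hC t ht) (v.map_sum_le fun i hi => ?_)) _
    have hi := Finset.mem_range.1 hi
    rw [map_mul, map_pow, map_pow]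
    calc v s ^ i * v s' ^ (n - 1 - i) ≤ B ^ i * B ^ (n - 1 - i) := by gcongr
      _ = B ^ (n - 1) := by rw [← pow_add]; congr 1; omega

end val

theorem house (x : Qb) : ∃ B : ℝ, 0 ≤ B ∧ ∀ σ : Qb →+* ℂ, ‖σ x‖ ≤ B := by
  have := algQb
  have hx : IsIntegral ℚ x := (Algebra.IsAlgebraic.isAlgebraic x).isIntegral
  refine ⟨cauchyBound ((minpoly ℚ x).map (algebraMap ℚ ℂ)), NNReal.coe_nonneg _, fun σ => ?_⟩
  have h : ((minpoly ℚ x).map (algebraMap ℚ ℂ)).IsRoot (σ x) := by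
    rw [IsRoot.def, eval_map_algebraMap]
    have := aeval_algHom_apply σ.toRatAlgHom x (minpoly ℚ x)
    rw [minpoly.aeval, map_zero] at this
    exact this
  exact_mod_cast (h.norm_lt_cauchyBound ((minpoly.monic hx).map _).ne_zero).le

section arch

variable {K : Type} [Field K] [Algebra K Qb]

theorem ab1 (G : K[X]) (c : ℕ) (hG : G.natDegree ≤ c) : ∃ C : ℝ, 0 ≤ C ∧
    ∀ (σ : Qb →+* ℂ) (t : ℕ), 1 ≤ t → ‖σ (et K (t : Qb) G)‖ ≤ C * (t : ℝ) ^ c := by
  choose B hB0 hB using house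
  refine ⟨∑ i ∈ Finset.range (c + 1), B (algebraMap K Qb (G.coeff i)),
    Finset.sum_nonneg fun i _ => hB0 _, fun σ t ht => ?_⟩
  change ‖σ (aeval (t : Qb) G)‖ ≤ _
  rw [aeval_eq_sum_range' (Nat.lt_succ_of_le hG), map_sum, Finset.sum_mul]
  refine (norm_sum_le _ _).trans (Finset.sum_le_sum fun i hi => ?_)
  have hi := Nat.lt_succ_iff.1 (Finset.mem_range.1 hi)
  have ht' : (1 : ℝ) ≤ t := by exact_mod_cast ht
  rw [Algebra.smul_def, map_mul, map_pow, map_natCast, norm_mul, norm_pow, Complex.norm_natCast]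
  exact mul_le_mul (hB _ σ) (pow_le_pow_right₀ ht' hi) (by positivity) (hB0 _)

theorem ab2 (F : K[X][X]) (m ρ c : ℕ) (hF : F.natDegree ≤ ρ) (hm : ∀ j, (F.coeff j).natDegree ≤ m)
    (B : ℝ) (hB : 1 ≤ B) : ∃ C : ℝ, 0 ≤ C ∧ ∀ (σ : Qb →+* ℂ) (t : ℕ) (s : Qb), 1 ≤ t →
      ‖σ s‖ ≤ B * (t : ℝ) ^ c → ‖σ (F.eval₂ (et K (t : Qb)) s)‖ ≤ C * (t : ℝ) ^ (m + c * ρ) := by
  choose C hC0 hC using fun j => ab1 (F.coeff j) m (hm j)
  refine ⟨(∑ j ∈ Finset.range (ρ + 1), C j) * B ^ ρ,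
    mul_nonneg (Finset.sum_nonneg fun i _ => hC0 _) (by positivity), fun σ t s ht hs => ?_⟩
  rw [eval₂_eq_sum_range' _ (Nat.lt_succ_of_le hF), map_sum, Finset.sum_mul, Finset.sum_mul]
  refine (norm_sum_le _ _).trans (Finset.sum_le_sum fun j hj => ?_)
  have hj := Nat.lt_succ_iff.1 (Finset.mem_range.1 hj)
  have ht' : (1 : ℝ) ≤ t := by exact_mod_cast ht
  have h1 : (1 : ℝ) ≤ B * (t : ℝ) ^ c := one_le_mul_of_one_le_of_one_le hB (one_le_pow₀ ht')
  rw [map_mul, map_pow, norm_mul, norm_pow]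
  have := hC0 j
  calc ‖σ (et K (t : Qb) (F.coeff j))‖ * ‖σ s‖ ^ j
      ≤ (C j * (t : ℝ) ^ m) * (B * (t : ℝ) ^ c) ^ ρ :=
        mul_le_mul (hC j σ t ht) ((pow_le_pow_left₀ (norm_nonneg _) hs j).trans
          (pow_le_pow_right₀ h1 hj)) (by positivity) (by positivity)
    _ = C j * B ^ ρ * (t : ℝ) ^ (m + c * ρ) := by ring

theorem cauchy (P : K[X][X]) (hP : P.Monic) (c : ℕ) (hc : ∀ j, (P.coeff j).natDegree ≤ c) :
    ∃ B : ℝ, 1 ≤ B ∧ ∀ (σ : Qb →+* ℂ) (t : ℕ) (s : Qb), 1 ≤ t →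
      P.eval₂ (et K (t : Qb)) s = 0 → ‖σ s‖ ≤ B * (t : ℝ) ^ c := by
  choose C hC0 hC using fun j => ab1 (P.coeff j) c (hc j)
  have hS : 0 ≤ ∑ j ∈ Finset.range P.natDegree, C j := Finset.sum_nonneg fun i _ => hC0 _
  refine ⟨∑ j ∈ Finset.range P.natDegree, C j + 1, by linarith, fun σ t s ht hs => ?_⟩
  have ht' : (1 : ℝ) ≤ (t : ℝ) ^ c := one_le_pow₀ (by exact_mod_cast ht)
  have hm := hP.map (σ.comp (et K (t : Qb)))
  have h : (P.map (σ.comp (et K (t : Qb)))).IsRoot (σ s) := by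
    rw [IsRoot.def, eval_map, ← hom_eval₂, hs, map_zero]
  have h1 := (h.norm_lt_cauchyBound hm.ne_zero).le
  rw [cauchyBound, hm.leadingCoeff, nnnorm_one, div_one, hP.natDegree_map] at h1
  have h2 : (Finset.range P.natDegree).sup (fun j => ‖(P.map (σ.comp (et K (t : Qb)))).coeff j‖₊)
      ≤ ⟨(∑ j ∈ Finset.range P.natDegree, C j) * (t : ℝ) ^ c, by positivity⟩ := by
    refine Finset.sup_le fun j hj => ?_
    rw [coeff_map, ← NNReal.coe_le_coe]
    exact (hC j σ t ht).trans (mul_le_mul_of_nonneg_right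
      (Finset.single_le_sum (fun i _ => hC0 i) hj) (by positivity))
  have h3 : ‖σ s‖ ≤ (∑ j ∈ Finset.range P.natDegree, C j) * (t : ℝ) ^ c + 1 := by
    exact_mod_cast h1.trans (add_le_add_left h2 1)
  linarith

theorem int_int (n : ℤ) : IsIntegral ℤ (n : Qb) := by
  simpa using (isIntegral_algebraMap (R := ℤ) (A := Qb) (x := n))

theorem int_of_eq {a b : Qb} (h : IsIntegral ℤ a) (e : b = a) : IsIntegral ℤ b := e ▸ h

theorem int1 (G : K[X]) : ∃ n : ℤ, n ≠ 0 ∧ ∀ t : ℕ, IsIntegral ℤ ((n : Qb) * et K (t : Qb) G) := by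
  induction G using Polynomial.induction_on' with
  | add p q hp hq =>
    obtain ⟨a, ha0, ha⟩ := hp
    obtain ⟨b, hb0, hb⟩ := hq
    refine ⟨a * b, mul_ne_zero ha0 hb0, fun t => ?_⟩
    refine int_of_eq (((int_int b).mul (ha t)).add ((int_int a).mul (hb t))) ?_
    rw [map_add]; push_cast; ring
  | monomial n a =>
    have := algQb
    obtain ⟨y, hy0, hy⟩ := ((IsFractionRing.isAlgebraic_iff ℤ ℚ Qb).2
      (Algebra.IsAlgebraic.isAlgebraic (algebraMap K Qb a))).exists_integral_multiple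
    refine ⟨y, hy0, fun t => ?_⟩
    refine int_of_eq (hy.mul ((int_int t).pow n)) ?_
    change (y : Qb) * aeval (t : Qb) (monomial n a) = _
    rw [aeval_monomial, zsmul_eq_mul]; push_cast; ring

theorem int2 (F : K[X][X]) (n : ℤ) (hn : n ≠ 0) : ∃ N : ℤ, N ≠ 0 ∧ ∀ (t : ℕ) (s : Qb),
    IsIntegral ℤ ((n : Qb) * s) → IsIntegral ℤ ((N : Qb) * F.eval₂ (et K (t : Qb)) s) := by
  induction F using Polynomial.induction_on' with
  | add p q hp hq =>
    obtain ⟨a, ha0, ha⟩ := hp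
    obtain ⟨b, hb0, hb⟩ := hq
    refine ⟨a * b, mul_ne_zero ha0 hb0, fun t s hs => ?_⟩
    refine int_of_eq (((int_int b).mul (ha t s hs)).add ((int_int a).mul (hb t s hs))) ?_
    rw [eval₂_add]; push_cast; ring
  | monomial j a =>
    obtain ⟨y, hy0, hy⟩ := int1 a
    refine ⟨y * n ^ j, mul_ne_zero hy0 (pow_ne_zero _ hn), fun t s hs => ?_⟩
    refine int_of_eq ((hy t).mul (hs.pow j)) ?_
    rw [eval₂_monomial]; push_cast; ring

theorem int3 (P : K[X][X]) (hP : P.Monic) (h0 : P.natDegree ≠ 0) : ∃ n : ℤ, n ≠ 0 ∧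
    ∀ (t : ℕ) (s : Qb), P.eval₂ (et K (t : Qb)) s = 0 → IsIntegral ℤ ((n : Qb) * s) := by
  choose y hy0 hy using fun j => int1 (P.coeff j)
  refine ⟨∏ j ∈ Finset.range P.natDegree, y j, Finset.prod_ne_zero_iff.2 fun j _ => hy0 j,
    fun t s hs => ?_⟩
  set n : ℤ := ∏ j ∈ Finset.range P.natDegree, y j
  have hm := hP.map (et K (t : Qb))
  refine IsIntegral.of_aeval_monic_of_isIntegral_coeff
    ((monic_scaleRoots_iff (n : Qb)).2 hm) (by rwa [natDegree_scaleRoots, hP.natDegree_map]) ?_ ?_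
  · rw [scaleRoots_eval_mul, eval_map, hs, mul_zero]
    exact isIntegral_zero
  · intro i
    rw [coeff_scaleRoots, hP.natDegree_map]
    rcases lt_trichotomy i P.natDegree with h | h | h
    · obtain ⟨w, hw⟩ : y i ∣ n := Finset.dvd_prod_of_mem _ (Finset.mem_range.2 h)
      obtain ⟨e, he⟩ : ∃ e, P.natDegree - i = e + 1 := ⟨P.natDegree - i - 1, by omega⟩
      refine int_of_eq ((hy i t).mul ((int_int w).mul ((int_int n).pow e))) ?_
      rw [he, pow_succ, coeff_map]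
      nth_rewrite 2 [hw]
      push_cast; ring
    · rw [h, coeff_map, hP.coeff_natDegree, map_one, Nat.sub_self, pow_zero, mul_one]
      exact isIntegral_one
    · rw [coeff_map, coeff_eq_zero_of_natDegree_lt h, map_zero, zero_mul]
      exact isIntegral_zero

theorem mem_adj (F : K[X][X]) (t : ℕ) (s : Qb) : F.eval₂ (et K (t : Qb)) s ∈ K⟮s⟯ := by
  induction F using Polynomial.induction_on' with
  | add p q hp hq => rw [eval₂_add]; exact add_mem hp hq
  | monomial j a =>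
    rw [eval₂_monomial]
    refine mul_mem ?_ (pow_mem (IntermediateField.mem_adjoin_simple_self K s) j)
    have : et K (t : Qb) a = algebraMap K Qb (a.eval (t : K)) := by
      change aeval (t : Qb) a = _
      rw [← map_natCast (algebraMap K Qb), aeval_algebraMap_apply, coe_aeval_eq_eval]
    rw [this]
    exact IntermediateField.algebraMap_mem _ _

end arch

theorem deg_le (K : IntermediateField ℚ Qb) [FiniteDimensional ℚ K] (s z : Qb) (hz : z ∈ K⟮s⟯) :
    (minpoly ℚ z).natDegree ≤ Module.finrank ℚ K * (minpoly K s).natDegree := by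
  have := algQb
  have hs : IsIntegral K s := (Algebra.IsAlgebraic.isAlgebraic (R := ℚ) s).isIntegral.tower_top
  have : FiniteDimensional K K⟮s⟯ := IntermediateField.adjoin.finiteDimensional hs
  have : FiniteDimensional ℚ K⟮s⟯ := Module.Finite.trans K _
  rw [← IntermediateField.adjoin.finrank hs, Module.finrank_mul_finrank]
  have h := minpoly.natDegree_le (A := ℚ) (⟨z, hz⟩ : K⟮s⟯)
  rwa [← minpoly.algebraMap_eq (algebraMap K⟮s⟯ Qb).injective] at h

section series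

variable {K : Type} [Field K]

theorem trunc_dvd (G : K[X][X]) (r : PowerSeries K) (g : K[X]) {n N : ℕ} (h : n ≤ N)
    (hd : PowerSeries.X ^ n ∣ G.eval₂ coeToPowerSeries.ringHom r - (g : PowerSeries K)) :
    X ^ n ∣ G.eval (PowerSeries.trunc N r) - g := by
  have h1 : PowerSeries.X ^ n ∣ r - ((PowerSeries.trunc N r : K[X]) : PowerSeries K) := by
    refine PowerSeries.X_pow_dvd_iff.2 fun i hi => ?_
    rw [map_sub, coeff_coe, PowerSeries.coeff_trunc, if_pos (by omega), sub_self]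
  have h2 := h1.trans (sub_dvd_eval_sub r ((PowerSeries.trunc N r : K[X]) : PowerSeries K)
    (G.map coeToPowerSeries.ringHom))
  have h3 : (G.map coeToPowerSeries.ringHom).eval ((PowerSeries.trunc N r : K[X]) : PowerSeries K)
      = ((G.eval (PowerSeries.trunc N r) : K[X]) : PowerSeries K) := by
    rw [eval_map]
    exact eval₂_at_apply coeToPowerSeries.ringHom _
  rw [h3, eval_map] at h2
  have h4 := hd.sub h2
  rw [sub_sub_sub_cancel_left] at h4
  refine X_pow_dvd_iff.2 fun i hi => ?_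
  have := PowerSeries.X_pow_dvd_iff.1 h4 i hi
  rwa [map_sub, coeff_coe, coeff_coe, ← coeff_sub] at this

theorem aux_poly (r : PowerSeries K) (m ρ : ℕ) (hρ : ρ ≠ 0)
    (hli : LinearIndependent K (fun z : Fin (m + 1) × Fin ρ =>
      (PowerSeries.X : PowerSeries K) ^ (z.1 : ℕ) * r ^ (z.2 : ℕ))) :
    ∃ (F : K[X][X]) (k : ℕ) (γ : K), F.natDegree ≤ ρ ∧ (∀ j, (F.coeff j).natDegree ≤ m) ∧
      m * ρ ≤ k ∧ γ ≠ 0 ∧ PowerSeries.X ^ (k + 1) ∣
        F.eval₂ coeToPowerSeries.ringHom r - ((C γ * X ^ k : K[X]) : PowerSeries K) := by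
  let φ : (Fin (m + 1) × Fin ρ → K) →ₗ[K] (Fin (m * ρ) → K) :=
    (LinearMap.pi fun i : Fin (m * ρ) => PowerSeries.coeff (i : ℕ)).comp
      (Fintype.linearCombination K fun z : Fin (m + 1) × Fin ρ =>
        (PowerSeries.X : PowerSeries K) ^ (z.1 : ℕ) * r ^ (z.2 : ℕ))
  have hk : LinearMap.ker φ ≠ ⊥ := φ.ker_ne_bot_of_finrank_lt (by
    simp only [Module.finrank_fintype_fun_eq_card, Fintype.card_fin, Fintype.card_prod]
    have := Nat.pos_of_ne_zero hρ
    nlinarith)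
  obtain ⟨a, ha, ha0⟩ := (Submodule.ne_bot_iff _).1 hk
  set w : PowerSeries K := ∑ z : Fin (m + 1) × Fin ρ,
    a z • ((PowerSeries.X : PowerSeries K) ^ (z.1 : ℕ) * r ^ (z.2 : ℕ)) with hw
  have hw0 : w ≠ 0 := fun e => ha0 (funext (Fintype.linearIndependent_iff.1 hli a e))
  have hwc : ∀ i, i < m * ρ → PowerSeries.coeff i w = 0 := fun i hi =>
    congrFun (LinearMap.mem_ker.1 ha) ⟨i, hi⟩
  refine ⟨∑ z : Fin (m + 1) × Fin ρ, monomial (z.2 : ℕ) (monomial (z.1 : ℕ) (a z)),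
    w.order.toNat, PowerSeries.coeff w.order.toNat w, ?_, fun j => ?_, ?_,
    PowerSeries.coeff_order hw0, ?_⟩
  · exact natDegree_sum_le_of_forall_le _ _ fun z _ => (natDegree_monomial_le _).trans z.2.2.le
  · rw [finsetSum_coeff]
    refine natDegree_sum_le_of_forall_le _ _ fun z _ => ?_
    rw [coeff_monomial]
    split_ifs
    · exact (natDegree_monomial_le _).trans (Nat.lt_succ_iff.1 z.1.2)
    · simp
  · by_contra hlt
    exact PowerSeries.coeff_order hw0 (hwc _ (not_le.1 hlt))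
  · have he : (∑ z : Fin (m + 1) × Fin ρ, monomial (z.2 : ℕ) (monomial (z.1 : ℕ) (a z))).eval₂
        coeToPowerSeries.ringHom r = w := by
      rw [eval₂_finsetSum, hw]
      refine Finset.sum_congr rfl fun z _ => ?_
      rw [eval₂_monomial, ← C_mul_X_pow_eq_monomial, PowerSeries.smul_eq_C_mul]
      simp [mul_assoc]
    rw [he]
    refine PowerSeries.X_pow_dvd_iff.2 fun i hi => ?_
    rw [map_sub, coeff_coe, coeff_C_mul_X_pow]
    split_ifs with h
    · rw [h, sub_self]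
    · rw [PowerSeries.coeff_of_lt_order_toNat i (by omega), sub_self]

end series

end Spr

end Pool.Agent.P.MP_38c95b_ag
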