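import Pool.Agent.P.MP_38c95b_ag.Basic

/-!
Statements of the packages used in the proof of the dense orbit theorem.
-/

set_option autoImplicit false

open Polynomial
open scoped NNReal

namespace Pool.Agent.P.MP_38c95b_ag

/-- The field of algebraic numbers. -/
abbrev Qb : Type := AlgebraicClosure ℚ

/-- Interpolation: a sequence with fast decaying finite differences and many zeros vanishes. -/
def S_Interp : Prop :=
  ∀ (Ω : Type) [Field Ω] [CharZero Ω] (v : Valuation Ω ℝ≥0) (p : ℕ), p.Prime → v (p : Ω) < 1 →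
    ∀ (u : ℕ → Ω) (B : ℝ≥0), (∀ k, v ((fwdDiff 1)^[k] u 0) ≤ B * v (p : Ω) ^ (3 * k)) →
      (∀ K₀ : ℕ, ∃ T : Finset ℕ, K₀ ≤ T.card ∧ ∀ i ∈ T, i < 2 * T.card ∧ u i = 0) →
      ∀ n, u n = 0

/-- Local dynamics on a residue disc around an unramified periodic residue point. -/
def S_Local : Prop :=
  ∀ (Ω : Type) [Field Ω] (v : Valuation Ω ℝ≥0) (p : ℕ), p.Prime → 0 < v (p : Ω) →
    v (p : Ω) < 1 → (∀ a : Ω, v a ≤ 1 → ∃ j, 1 ≤ j ∧ v (a ^ (p ^ j) - a) < 1) →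
    ∀ (n d : ℕ) (f : Fin n → MvPolynomial (Fin n) Ω) (y : Fin d → MvPolynomial (Fin n) Ω)
      (Pi : Fin n → (MvPolynomial (Fin d) Ω)[X]) (C : Set (Fin n → Ω)),
      (∀ i, Int1 v (f i)) → (∀ l, Int1 v (y l)) → (∀ i, Int2 v (Pi i)) →
      (∀ x ∈ C, dyn f x ∈ C) →
      (∀ x ∈ C, ∀ i, ev2 (fun l => MvPolynomial.aeval (dyn f x) (y l)) (x i) (Pi i) = 0) →
      ∀ x₀ ∈ C, (∀ i, v (x₀ i) ≤ 1) →
        (∀ (m : ℕ) (i : Fin n),
          v (ev2 (fun l => MvPolynomial.aeval (dyn f ((dyn f)^[m] x₀)) (y l))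
            (((dyn f)^[m] x₀) i) (derivative (Pi i))) = 1) →
        (∃ l₀, 1 ≤ l₀ ∧ ∀ i, v (((dyn f)^[l₀] x₀) i - x₀ i) < 1) →
        ∃ (η : ℝ≥0) (n₀ : ℕ), 0 < η ∧ η < 1 ∧ 1 ≤ n₀ ∧
          ∀ (j : ℕ), ∀ α ∈ C, (∀ i, v (α i - x₀ i) ≤ η) →
            ∀ h : MvPolynomial (Fin n) Ω, ∃ B : ℝ≥0, ∀ k,
              v ((fwdDiff 1)^[k]
                (fun m : ℕ => MvPolynomial.aeval ((dyn f)^[n₀ * j * m] α) h) 0) ≤
                B * v (p : Ω) ^ (3 * k)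

/-- Unramifiedness of the iterates from the derivative certificate. -/
def S_Unr : Prop :=
  ∀ (K R : Type) [Field K] [CommRing R] [Algebra K R] (n d : ℕ) (x : Fin n → R) (y : Fin d → R)
    (φ : R →ₐ[K] R) (Pi : Fin n → (MvPolynomial (Fin d) K)[X]),
    Algebra.adjoin K (Set.range x) = ⊤ →
    (∀ i, ev2 (fun l => φ (y l)) (x i) (Pi i) = 0) →
    ∀ (m : ℕ) (ξ : R →ₐ[K] K),
      (∀ (j : ℕ) (i : Fin n),
        ξ ((φ ^ j) (ev2 (fun l => φ (y l)) (x i) (derivative (Pi i)))) ≠ 0) →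
      ∃ e, ξ e ≠ 0 ∧ ∀ b, ξ b = 0 → e * b ∈ Ideal.span (Set.range fun l =>
        (φ ^ (m + 1)) (y l) - algebraMap K R (ξ ((φ ^ (m + 1)) (y l))))

/-- Standard form at an unramified rational point of a finite extension of a normal domain. -/
def S_Etale : Prop :=
  ∀ (k A B : Type) [Field k] [CommRing A] [IsDomain A] [IsIntegrallyClosed A] [CommRing B]
    [IsDomain B] [Algebra A B] [Module.Finite A B], Function.Injective (algebraMap A B) →
    ∀ (ξ : B →+* k), Function.Surjective (ξ.comp (algebraMap A B)) →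
    ∀ e₀ : B, ξ e₀ ≠ 0 →
      (∀ b, ξ b = 0 → e₀ * b ∈
        Ideal.map (algebraMap A B) (RingHom.ker (ξ.comp (algebraMap A B)))) →
      ∃ r e : B, ξ e ≠ 0 ∧ (∀ b, e * b ∈ Algebra.adjoin A {r}) ∧
        ξ (Polynomial.aeval r (derivative (minpoly A r))) ≠ 0

/-- The same over a polynomial ring, in terms of `ev2`. -/
def S_Prim : Prop :=
  ∀ (K R : Type) [Field K] [CommRing R] [IsDomain R] [Algebra K R] (d : ℕ) (y : Fin d → R),
    AlgebraicIndependent K y →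
    (MvPolynomial.aeval y : MvPolynomial (Fin d) K →ₐ[K] R).Finite →
    ∀ (ξ : R →ₐ[K] K) (e₀ : R), ξ e₀ ≠ 0 →
      (∀ b, ξ b = 0 → e₀ * b ∈
        Ideal.span (Set.range fun l => y l - algebraMap K R (ξ (y l)))) →
      ∃ (r : R) (P ε : (MvPolynomial (Fin d) K)[X]), P.Monic ∧ Prime P ∧
        (∀ G, ev2 y r G = 0 ↔ P ∣ G) ∧
        ev2 (fun l => ξ (y l)) (ξ r) (derivative P) ≠ 0 ∧
        ev2 (fun l => ξ (y l)) (ξ r) ε ≠ 0 ∧
        ∀ b, ∃ G : (MvPolynomial (Fin d) K)[X], ev2 y r ε * b = ev2 y r G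

/-- Fibre count over a point with dense unramified forward orbit. -/
def S_Norm : Prop :=
  ∀ (K A : Type) [Field K] [CharZero K] [CommRing A] [IsDomain A] [Algebra K A]
    [Algebra.FiniteType K A] (φ : A →ₐ[K] A), Function.Injective φ → φ.Finite →
    ∀ (β : A →ₐ[K] K), (∀ a, a ≠ 0 → ∃ i : ℕ, β ((φ ^ i) a) ≠ 0) →
      (∀ i : ℕ, ∃ e, β e ≠ 0 ∧ ∀ b, β b = 0 →
        e * b ∈ Ideal.span {c | ∃ a, β ((φ ^ i) a) = 0 ∧ c = (φ ^ i) a}) →
      ∀ (s : ℕ) (α : Fin s → (A →ₐ[K] K)) (b : A), (∀ j, (α j).comp φ = β) →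
        Function.Injective (fun j => α j b) →
        ∀ a : Fin s → A, ∑ j, φ (a j) * b ^ (j : ℕ) = 0 → ∀ j, a j = 0

/-- Growth of boxes of monomials modulo a nonzero polynomial. -/
def S_Box : Prop :=
  ∀ (K : Type) [Field K] (d : ℕ) (θ : MvPolynomial (Fin (d + 1)) K), θ ≠ 0 →
    ∃ C : ℕ, ∀ (N : ℕ) (V : Type) [AddCommGroup V] [Module K V]
      (ψ : MvPolynomial (Fin (d + 1)) K →ₗ[K] V), (∀ q, ψ (θ * q) = 0) →
      Module.finrank K ((MvPolynomial.restrictDegree (Fin (d + 1)) K N).map ψ) ≤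
        C * (N + 1) ^ d

/-- Degree bound on a proper invariant subvariety. -/
def S_DBound : Prop :=
  ∀ (K R A : Type) [Field K] [CommRing R] [IsDomain R] [Algebra K R] [CommRing A] [Nontrivial A]
    [Algebra K A] (n d Q : ℕ) (x : Fin n → R) (y : Fin (d + 1) → R),
    Algebra.adjoin K (Set.range x) = ⊤ →
    (MvPolynomial.aeval y : MvPolynomial (Fin (d + 1)) K →ₐ[K] R).Finite →
    ∀ (π : R →ₐ[K] A), Function.Surjective π → ¬ Function.Injective π →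
    ∀ (φ : A →ₐ[K] A) (g : Fin n → MvPolynomial (Fin n) K), 1 ≤ Q →
      (∀ i, (g i).totalDegree ≤ Q) →
      (∀ i, φ (π (x i)) = MvPolynomial.aeval (fun i => π (x i)) (g i)) →
      ∀ (s : ℕ) (b : A), (∀ a : Fin s → A, ∑ j, φ (a j) * b ^ (j : ℕ) = 0 → ∀ j, a j = 0) →
        s ≤ Q ^ d

/-- Graded finiteness over forms of degree `Q` whose ideal contains powers of the variables. -/
def S_HomFin : Prop :=
  ∀ (K : Type) [Field K] (n Q : ℕ) (g : Fin n → MvPolynomial (Fin n) K), 1 ≤ Q →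
    (∀ i, (g i).IsHomogeneous Q) →
    (∀ i, ∃ a : ℕ, MvPolynomial.X i ^ a ∈ Ideal.span (Set.range g)) →
    ∃ L₀ : ℕ, ∀ h : MvPolynomial (Fin n) K,
      h ∈ Submodule.span K {z | ∃ q w : MvPolynomial (Fin n) K,
        Q * q.totalDegree ≤ h.totalDegree ∧ w.totalDegree ≤ L₀ ∧
          z = MvPolynomial.aeval g q * w}

/-- Finiteness of the endomorphism induced by such forms. -/
def S_Fin : Prop :=
  ∀ (K R : Type) [Field K] [CommRing R] [Algebra K R] (n Q : ℕ) (x : Fin n → R)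
    (g : Fin n → MvPolynomial (Fin n) K) (φ : R →ₐ[K] R),
    Algebra.adjoin K (Set.range x) = ⊤ → 1 ≤ Q → (∀ i, (g i).IsHomogeneous Q) →
    (∀ i, ∃ a : ℕ, MvPolynomial.X i ^ a ∈ Ideal.span (Set.range g)) →
    (∀ i, φ (x i) = MvPolynomial.aeval x (g i)) → φ.Finite

/-- Lower bound for the degree over the pulled back coordinates. -/
def S_Rho : Prop :=
  ∀ (K R : Type) [Field K] [CommRing R] [IsDomain R] [Algebra K R] (n d : ℕ) (x : Fin n → R)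
    (y : Fin d → R), Algebra.adjoin K (Set.range x) = ⊤ → AlgebraicIndependent K y →
    (MvPolynomial.aeval y : MvPolynomial (Fin d) K →ₐ[K] R).Finite →
    ∃ κ : ℕ, ∀ (Q : ℕ) (g : Fin n → MvPolynomial (Fin n) K) (φ : R →ₐ[K] R), 1 ≤ Q →
      (∀ i, (g i).IsHomogeneous Q) →
      (∀ i, ∃ a : ℕ, MvPolynomial.X i ^ a ∈ Ideal.span (Set.range g)) →
      (∀ i, φ (x i) = MvPolynomial.aeval x (g i)) →
      ∀ (r : R) (P ε : (MvPolynomial (Fin d) K)[X]), P.Monic →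
        ev2 (fun l => φ (y l)) r P = 0 → ev2 (fun l => φ (y l)) r ε ≠ 0 →
        (∀ b, ∃ G : (MvPolynomial (Fin d) K)[X],
          ev2 (fun l => φ (y l)) r ε * b = ev2 (fun l => φ (y l)) r G) →
        Q ^ d ≤ P.natDegree * κ

/-- The formal branch through a simple root at the origin. -/
def S_Br : Prop :=
  ∀ (A : Type) [CommRing A] (d : ℕ) (P : (MvPolynomial (Fin (d + 1)) A)[X]) (r₀ : A), P.Monic →
    ev2 (fun _ => (0 : A)) r₀ P = 0 → IsUnit (ev2 (fun _ => (0 : A)) r₀ (derivative P)) →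
    ∃ r : PowerSeries (MvPolynomial (Fin d) A),
      ev2 (yhat A d) r P = 0 ∧ PowerSeries.constantCoeff r = MvPolynomial.C r₀

/-- The powers of a branch of a prime polynomial are independent over `K[W][t]`. -/
def S_BrInd : Prop :=
  ∀ (K : Type) [Field K] (d : ℕ) (P : (MvPolynomial (Fin (d + 1)) K)[X]), P.Monic → Prime P →
    ∀ r : PowerSeries (MvPolynomial (Fin d) K), ev2 (yhat K d) r P = 0 →
      (∀ G, ev2 (yhat K d) r G = 0 → P ∣ G) ∧
      ∀ a : Fin P.natDegree → (MvPolynomial (Fin d) K)[X],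
        ∑ j, (a j : PowerSeries (MvPolynomial (Fin d) K)) * r ^ (j : ℕ) = 0 → ∀ j, a j = 0

/-- Linear independence survives specialisation away from one element. -/
def S_Spec : Prop :=
  ∀ (A : Type) [CommRing A] [IsDomain A] (ι κ : Type) [Fintype ι] (w : ι → κ → A),
    LinearIndependent A w → ∃ θ : A, θ ≠ 0 ∧
      ∀ (B : Type) [CommRing B] [IsDomain B] (e : A →+* B), e θ ≠ 0 →
        LinearIndependent B (fun i k => e (w i k))

/-- Primality survives specialisation away from one element. -/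
def S_Noeth : Prop :=
  ∀ (A Ω : Type) [CommRing A] [IsDomain A] [Field Ω] [Algebra A Ω],
    Function.Injective (algebraMap A Ω) →
    ∀ (d : ℕ) (P : (MvPolynomial (Fin (d + 1)) A)[X]) (r₀ : A), P.Monic →
      Prime (P.map (MvPolynomial.map (algebraMap A Ω))) →
      ev2 (fun _ => (0 : A)) r₀ P = 0 → IsUnit (ev2 (fun _ => (0 : A)) r₀ (derivative P)) →
      ∃ θ : A, θ ≠ 0 ∧ ∀ (k : Type) [Field k] (e : A →+* k), e θ ≠ 0 →
        Prime (P.map (MvPolynomial.map e))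

/-- A root of a monic polynomial close to an approximate root. -/
def S_Near : Prop :=
  ∀ (Ω : Type) [Field Ω] [IsAlgClosed Ω] (v : Valuation Ω ℝ≥0) (G : Polynomial Ω) (a : Ω), G.Monic →
    G.derivative.eval a ≠ 0 →
    ∃ r, G.eval r = 0 ∧ v (r - a) * v (G.derivative.eval a) ≤ v (G.eval a)

/-- Liouville inequality for an algebraic integer. -/
def S_Liou : Prop :=
  ∀ (v : Valuation Qb ℝ≥0) (p : ℕ), p.Prime → v (p : Qb) = (p : ℝ≥0)⁻¹ →
    ∀ (z : Qb) (H : ℝ) (D : ℕ), z ≠ 0 → IsIntegral ℤ z → 1 ≤ H →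
      (∀ σ : Qb →+* ℂ, ‖σ z‖ ≤ H) → (minpoly ℚ z).natDegree ≤ D → 1 ≤ (v z : ℝ) * H ^ D

/-- One variable irreducibility with approximation. -/
def S_Spr : Prop :=
  ∀ (K : IntermediateField ℚ Qb) [FiniteDimensional ℚ K] (v : Valuation Qb ℝ≥0) (p : ℕ),
    p.Prime → v (p : Qb) = (p : ℝ≥0)⁻¹ →
    ∀ (P : K[X][X]) (r : PowerSeries K) (c m : ℕ), P.Monic →
      P.eval₂ (Polynomial.coeToPowerSeries.ringHom) r = 0 →
      (derivative P).eval₂ (Polynomial.evalRingHom 0) (PowerSeries.constantCoeff r) ≠ 0 →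
      (∀ i, (P.coeff i).natDegree ≤ c) → c * P.natDegree ^ 2 < m →
      LinearIndependent K (fun z : Fin (m + 1) × Fin P.natDegree =>
        (PowerSeries.X : PowerSeries K) ^ (z.1 : ℕ) * r ^ (z.2 : ℕ)) →
      ∀ η : ℝ≥0, 0 < η → ∃ (ℓ : ℕ) (s : Qb), v ((p : Qb) ^ ℓ) ≤ η ∧
        P.eval₂ (Polynomial.aeval ((p : Qb) ^ ℓ) : K[X] →ₐ[K] Qb).toRingHom s = 0 ∧
        v (s - algebraMap K Qb (PowerSeries.constantCoeff r)) ≤ η ∧
        P.natDegree ≤ Module.finrank ℚ K * (minpoly K s).natDegree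

/-- Hilbert irreducibility with approximation, up to the degree of the ground field. -/
def S_Hilb : Prop :=
  ∀ (K : IntermediateField ℚ Qb) [FiniteDimensional ℚ K] (v : Valuation Qb ℝ≥0) (p : ℕ),
    p.Prime → v (p : Qb) = (p : ℝ≥0)⁻¹ →
    ∀ (d : ℕ) (P : (MvPolynomial (Fin (d + 1)) K)[X]) (y₀ : Fin (d + 1) → K) (r₀ : K),
      P.Monic → Prime P → ev2 y₀ r₀ P = 0 → ev2 y₀ r₀ (derivative P) ≠ 0 →
      ∀ η : ℝ≥0, 0 < η → ∃ (y : Fin (d + 1) → K) (s : Qb),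
        ev2 (fun l => algebraMap K Qb (y l)) s P = 0 ∧
        (∀ l, v (algebraMap K Qb (y l) - algebraMap K Qb (y₀ l)) ≤ η) ∧
        v (s - algebraMap K Qb r₀) ≤ η ∧
        P.natDegree ≤ Module.finrank ℚ K * (minpoly K s).natDegree

/-- Lower bound for the length of the twisted fixed point scheme. -/
def S_Low : Prop :=
  ∀ (k R : Type) [Field k] [CommRing R] [IsDomain R] [Algebra k R] (d : ℕ)
    (y u : Fin d → R) (r : R) (P : (MvPolynomial (Fin d) k)[X]) (c : MvPolynomial (Fin d) k),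
    (MvPolynomial.aeval y : MvPolynomial (Fin d) k →ₐ[k] R).Finite → P.Monic →
    (∀ G, ev2 y r G = 0 ↔ P ∣ G) → c ≠ 0 →
    (∀ b : R, ∃ G : (MvPolynomial (Fin d) k)[X], MvPolynomial.aeval y c * b = ev2 y r G) →
    ∃ M₀ : ℕ, ∀ M, M₀ ≤ M →
      Module.Finite k (R ⧸ Ideal.span (Set.range fun l => y l ^ M - u l)) ∧
      P.natDegree * M ^ d ≤
        Module.finrank k (R ⧸ Ideal.span (Set.range fun l => y l ^ M - u l))

/-- Multiplicities: almost all of that length comes from reduced points off a hypersurface. -/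
def S_Mult : Prop :=
  ∀ (k R : Type) [Field k] [IsAlgClosed k] (p : ℕ) [Fact p.Prime] [CharP k p] [CommRing R]
    [Algebra k R] (n d : ℕ) (x : Fin n → R) (y u : Fin (d + 1) → R)
    (Pi : Fin n → (MvPolynomial (Fin (d + 1)) k)[X]) (θ : MvPolynomial (Fin (d + 1)) k),
    Algebra.adjoin k (Set.range x) = ⊤ →
    (MvPolynomial.aeval y : MvPolynomial (Fin (d + 1)) k →ₐ[k] R).Finite →
    (∀ i, (Pi i).Monic ∧ ev2 u (x i) (Pi i) = 0 ∧
      ev2 u (x i) (derivative (Pi i)) ∣ MvPolynomial.aeval y θ) → θ ≠ 0 →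
    ∃ j₀ C : ℕ, ∀ j, j₀ ≤ j → ∀ S : Finset (R →ₐ[k] k),
      (∀ ξ : R →ₐ[k] k, (∀ l, ξ (y l) ^ (p ^ j) = ξ (u l)) →
        ξ (MvPolynomial.aeval y θ) ≠ 0 → ξ ∈ S) →
      Module.finrank k (R ⧸ Ideal.span (Set.range fun l => y l ^ (p ^ j) - u l)) ≤
        S.card + C * (p ^ j) ^ d

/-- The monomials used in the auxiliary family. -/
noncomputable def lam (k : Type) [CommRing k] (d N : ℕ) (a : Fin d → ℕ) (b i : ℕ) :
    (MvPolynomial (Fin (d + 1)) k)[X] :=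
  Polynomial.C (MvPolynomial.X 0 ^ (b + d * N - ∑ l, a l) *
    ∏ l : Fin d, MvPolynomial.X l.succ ^ a l) * Polynomial.X ^ i

/-- Independence of the auxiliary family over the `p ^ j`-th powers. -/
def S_Lam : Prop :=
  ∀ (k : Type) [Field k] (p : ℕ) [Fact p.Prime] [CharP k p] (d : ℕ)
    (P : (MvPolynomial (Fin (d + 1)) k)[X]) (r₀ : k), P.Monic → Prime P →
    ev2 (fun _ => (0 : k)) r₀ P = 0 → ev2 (fun _ => (0 : k)) r₀ (derivative P) ≠ 0 →
    ∃ C₀ : ℕ, ∀ j B : ℕ, P.natDegree * (B + C₀) < p ^ j →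
      ∀ ε : (Fin d → Fin (p ^ j)) × Fin (B + 1) × Fin P.natDegree →
          (MvPolynomial (Fin (d + 1)) k)[X],
        P ∣ ∑ z, ε z ^ (p ^ j) * lam k d (p ^ j) (fun l => (z.1 l : ℕ)) z.2.1 z.2.2 →
        ∀ z, P ∣ ε z

/-- Upper bound for the number of spurious solutions. -/
def S_Up : Prop :=
  ∀ (k R : Type) [Field k] [IsAlgClosed k] (p : ℕ) [Fact p.Prime] [CharP k p] [CommRing R]
    [IsDomain R] [Algebra k R] (d : ℕ) (y u : Fin (d + 1) → R) (r ρ : R)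
    (P : (MvPolynomial (Fin (d + 1)) k)[X]) (c : MvPolynomial (Fin (d + 1)) k) (a : ℕ),
    (MvPolynomial.aeval y : MvPolynomial (Fin (d + 1)) k →ₐ[k] R).Finite → P.Monic →
    (∀ G, ev2 y r G = 0 ↔ P ∣ G) → c ≠ 0 →
    (∀ b : R, ∃ G : (MvPolynomial (Fin (d + 1)) k)[X],
      MvPolynomial.aeval y c * b = ev2 y r G) →
    (∀ i m, ((P.coeff i).coeff m) ^ (p ^ a) = (P.coeff i).coeff m) → ev2 u ρ P = 0 →
    ∃ C j₀ : ℕ, ∀ j B N : ℕ, j₀ ≤ j → N = p ^ (a * j) → j₀ ≤ N → B ≤ N →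
      (∀ ε : (Fin d → Fin N) × Fin (B + 1) × Fin P.natDegree →
          (MvPolynomial (Fin (d + 1)) k)[X],
        P ∣ ∑ z, ε z ^ N * lam k d N (fun l => (z.1 l : ℕ)) z.2.1 z.2.2 → ∀ z, P ∣ ε z) →
      ∀ S : Finset (R →ₐ[k] k),
        (∀ ξ ∈ S, (∀ l, ξ (y l) ^ (N * N) = ξ (u l)) ∧ ξ r ^ (N * N) ≠ ξ ρ) →
        S.card + N ^ d * (B + 1) * P.natDegree * (N ^ (d + 1) * P.natDegree) ≤
          (P.natDegree - 1) * (P.natDegree * ((N * N + C * N) ^ d * (N * B + C * N))) +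
            P.natDegree * (N * N + C * N) ^ (d + 1)

/-- Existence of a twisted fixed point off a hypersurface. -/
def S_Step : Prop :=
  ∀ (k R : Type) [Field k] [IsAlgClosed k] (p : ℕ) [Fact p.Prime] [CharP k p] [CommRing R]
    [IsDomain R] [Algebra k R] (n d : ℕ) (x : Fin n → R) (y u : Fin (d + 1) → R) (r ρ θ : R)
    (P : (MvPolynomial (Fin (d + 1)) k)[X]) (r₀ : k) (c : MvPolynomial (Fin (d + 1)) k)
    (Pi : Fin n → (MvPolynomial (Fin (d + 1)) k)[X]) (a : ℕ),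
    Algebra.adjoin k (Set.range x) = ⊤ →
    (MvPolynomial.aeval y : MvPolynomial (Fin (d + 1)) k →ₐ[k] R).Finite →
    P.Monic → Prime P → (∀ G, ev2 y r G = 0 ↔ P ∣ G) → c ≠ 0 →
    (∀ i, ∃ G : (MvPolynomial (Fin (d + 1)) k)[X],
      MvPolynomial.aeval y c * x i = ev2 y r G) →
    ev2 (fun _ => (0 : k)) r₀ P = 0 → ev2 (fun _ => (0 : k)) r₀ (derivative P) ≠ 0 →
    1 ≤ a → (∀ i m, ((P.coeff i).coeff m) ^ (p ^ a) = (P.coeff i).coeff m) →
    ev2 u ρ P = 0 →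
    (∀ i, (Pi i).Monic ∧ ev2 u (x i) (Pi i) = 0 ∧ ev2 u (x i) (derivative (Pi i)) ≠ 0) →
    θ ≠ 0 →
    ∃ (j : ℕ) (ξ : R →ₐ[k] k), 1 ≤ j ∧ ξ θ ≠ 0 ∧
      (∀ l, ξ (y l) ^ (p ^ (a * j)) = ξ (u l)) ∧ ξ r ^ (p ^ (a * j)) = ξ ρ

/-- Reduction of the variety along a ring map to a field. -/
def S_Red : Prop :=
  ∀ (O Ω k : Type) [CommRing O] [Field Ω] [Algebra O Ω] [Field k] (e : O →+* k),
    Function.Injective (algebraMap O Ω) →
    ∀ (n d : ℕ) (I : Ideal (MvPolynomial (Fin n) Ω)) (y : Fin d → MvPolynomial (Fin n) O)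
      (r : MvPolynomial (Fin n) O) (P : (MvPolynomial (Fin d) O)[X])
      (c : MvPolynomial (Fin d) O) (b : Fin n → (MvPolynomial (Fin d) O)[X]),
      P.Monic → 0 < P.natDegree →
      (∀ G : (MvPolynomial (Fin d) O)[X],
        MvPolynomial.map (algebraMap O Ω) (ev2 y r G) ∈ I →
          P.map (MvPolynomial.map (algebraMap O Ω)) ∣ G.map (MvPolynomial.map (algebraMap O Ω))) →
      (∀ i, MvPolynomial.map (algebraMap O Ω)
        (MvPolynomial.aeval y c * MvPolynomial.X i - ev2 y r (b i)) ∈ I) →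
      Prime (P.map (MvPolynomial.map e)) → MvPolynomial.map e c ≠ 0 →
      ∃ J : Ideal (MvPolynomial (Fin n) k), J.IsPrime ∧
        (∀ q : MvPolynomial (Fin n) O, MvPolynomial.map (algebraMap O Ω) q ∈ I →
          MvPolynomial.map e q ∈ J) ∧
        ∀ G : (MvPolynomial (Fin d) k)[X],
          ev2 (fun l => MvPolynomial.map e (y l)) (MvPolynomial.map e r) G ∈ J ↔
            P.map (MvPolynomial.map e) ∣ G

/-- Places of the algebraic numbers: existence away from finitely many elements. -/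
def S_Val : Prop :=
  ∀ T : Finset Qb, ∃ (p : ℕ) (v : Valuation Qb ℝ≥0), p.Prime ∧ v (p : Qb) = (p : ℝ≥0)⁻¹ ∧
    (∀ a ∈ T, a ≠ 0 → v a = 1) ∧
    (∀ a : Qb, v a ≤ 1 → ∃ j, 1 ≤ j ∧ v (a ^ (p ^ j) - a) < 1) ∧
    IsAlgClosed (IsLocalRing.ResidueField v.valuationSubring) ∧
    CharP (IsLocalRing.ResidueField v.valuationSubring) p

/-- The geometric data attached to an invariant prime ideal. -/
structure Geo (n d : ℕ) (f : Fin n → MvPolynomial (Fin n) Qb)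
    (I : Ideal (MvPolynomial (Fin n) Qb)) (y : Fin (d + 1) → MvPolynomial (Fin n) Qb)
    (r : MvPolynomial (Fin n) Qb) (P : (MvPolynomial (Fin (d + 1)) Qb)[X]) (r₀ : Qb)
    (c : MvPolynomial (Fin (d + 1)) Qb) (m Pi : Fin n → (MvPolynomial (Fin (d + 1)) Qb)[X]) :
    Prop where
  prime : I.IsPrime
  stable : ∀ q ∈ I, MvPolynomial.aeval f q ∈ I
  monic : P.Monic
  primeP : Prime P
  ker : ∀ G, ev2 y r G ∈ I ↔ P ∣ G
  root : ev2 (fun _ => (0 : Qb)) r₀ P = 0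
  simple : ev2 (fun _ => (0 : Qb)) r₀ (derivative P) ≠ 0
  c_ne : c ≠ 0
  denom : ∀ q, ∃ G : (MvPolynomial (Fin (d + 1)) Qb)[X],
    MvPolynomial.aeval y c * q - ev2 y r G ∈ I
  m_monic : ∀ i, (m i).Monic
  m_mem : ∀ i, ev2 y (MvPolynomial.X i) (m i) ∈ I
  Pi_monic : ∀ i, (Pi i).Monic
  Pi_mem : ∀ i, ev2 (fun l => MvPolynomial.aeval f (y l)) (MvPolynomial.X i) (Pi i) ∈ I
  Pi_der : ∀ i,
    ev2 (fun l => MvPolynomial.aeval f (y l)) (MvPolynomial.X i) (derivative (Pi i)) ∉ I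

/-- The geometric data exist for an invariant prime ideal with at least two zeros. -/
def S_Setup : Prop :=
  ∀ (n q : ℕ) (f : Fin n → MvPolynomial (Fin n) Qb) (I : Ideal (MvPolynomial (Fin n) Qb)),
    1 ≤ q → (∀ i, (f i).IsHomogeneous q) →
    (∀ i, ∃ a : ℕ, MvPolynomial.X i ^ a ∈ Ideal.span (Set.range f)) →
    I.IsPrime → (∀ h ∈ I, MvPolynomial.aeval f h ∈ I) →
    (∃ x₁ ∈ MvPolynomial.zeroLocus Qb I, ∃ x₂ ∈ MvPolynomial.zeroLocus Qb I, x₁ ≠ x₂) →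
    ∃ d y r P r₀ c m Pi, Geo n d f I y r P r₀ c m Pi

/-- An unramified periodic residue point with a lift to characteristic zero. -/
def S_Periodic : Prop :=
  ∀ n d f I y r P r₀ c m Pi, Geo n d f I y r P r₀ c m Pi →
    ∃ (p : ℕ) (v : Valuation Qb ℝ≥0), p.Prime ∧ v (p : Qb) = (p : ℝ≥0)⁻¹ ∧
      (∀ a : Qb, v a ≤ 1 → ∃ j, 1 ≤ j ∧ v (a ^ (p ^ j) - a) < 1) ∧
      (∀ i, Int1 v (f i)) ∧ (∀ l, Int1 v (y l)) ∧ (∀ i, Int2 v (Pi i)) ∧
      ∃ x₀ ∈ MvPolynomial.zeroLocus Qb I, (∀ i, v (x₀ i) ≤ 1) ∧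
        (∀ (j : ℕ) (i : Fin n),
          v (ev2 (fun l => MvPolynomial.aeval (dyn f ((dyn f)^[j] x₀)) (y l))
            (((dyn f)^[j] x₀) i) (derivative (Pi i))) = 1) ∧
        ∃ l₀, 1 ≤ l₀ ∧ ∀ i, v (((dyn f)^[l₀] x₀) i - x₀ i) < 1

/-- A point near `x₀` with many conjugates over its image. -/
def S_Big : Prop :=
  ∀ n d f I y r P r₀ c m Pi, Geo n d f I y r P r₀ c m Pi →
    ∀ q : ℕ, 2 ≤ q → (∀ i, (f i).IsHomogeneous q) →
    (∀ x : Fin n → Qb, (∀ i, MvPolynomial.aeval x (f i) = 0) → x = 0) →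
    ∀ (p : ℕ) (v : Valuation Qb ℝ≥0), p.Prime → v (p : Qb) = (p : ℝ≥0)⁻¹ →
    ∀ x₀ ∈ MvPolynomial.zeroLocus Qb I,
      (∀ (j : ℕ) (i : Fin n),
        ev2 (fun l => MvPolynomial.aeval (dyn f ((dyn f)^[j] x₀)) (y l))
          (((dyn f)^[j] x₀) i) (derivative (Pi i)) ≠ 0) →
      ∀ (η : ℝ≥0) (n₀ : ℕ), 0 < η → 1 ≤ n₀ →
        ∃ (j s : ℕ) (α : Fin n → Qb) (τ : Fin s → (Qb ≃+* Qb)) (b : MvPolynomial (Fin n) Qb),
          1 ≤ j ∧ α ∈ MvPolynomial.zeroLocus Qb I ∧ (∀ i, v (α i - x₀ i) ≤ η) ∧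
          (q ^ (n₀ * j)) ^ d < s ∧
          (∀ t i, MvPolynomial.map (τ t).toRingHom (f i) = f i) ∧
          (∀ t i, τ t (((dyn f)^[n₀ * j] α) i) = ((dyn f)^[n₀ * j] α) i) ∧
          Function.Injective (fun t => MvPolynomial.aeval (fun i => τ t (α i)) b)

/-- The dense orbit theorem on the affine cone. -/
def S_Main : Prop :=
  ∀ (n q : ℕ) (f : Fin n → MvPolynomial (Fin n) Qb) (I : Ideal (MvPolynomial (Fin n) Qb)),
    2 ≤ q → (∀ i, (f i).IsHomogeneous q) →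
    (∀ x : Fin n → Qb, (∀ i, MvPolynomial.aeval x (f i) = 0) → x = 0) →
    I.IsPrime → (∀ h ∈ I, MvPolynomial.aeval f h ∈ I) →
    ∃ α ∈ MvPolynomial.zeroLocus Qb I, ∀ h : MvPolynomial (Fin n) Qb,
      (∀ m : ℕ, MvPolynomial.aeval ((dyn f)^[m] α) h = 0) → h ∈ I

end Pool.Agent.P.MP_38c95b_ag
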